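import Pool.Agent.T9h81.EAR.CountZ

/-!
# Boxes of `ℤ^d`, a discrete Poincaré inequality, and coarse graining by majority
-/

set_option autoImplicit false

open scoped Classical

namespace Pool.T9h81.HL

open Pool.T9h81.EAR

variable {d : ℕ}

/-- the box with corner `a` and sides `s` -/
noncomputable def bx (a : Site d) (s : Fin d → ℕ) : Finset (Site d) :=
  Fintype.piFinset fun i => Finset.Ico (a i) (a i + s i)

theorem mem_bx {a : Site d} {s : Fin d → ℕ} {x : Site d} :
    x ∈ bx a s ↔ ∀ i, a i ≤ x i ∧ x i < a i + s i := by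
  unfold bx
  rw [Fintype.mem_piFinset]
  simp only [Finset.mem_Ico]

theorem card_bx (a : Site d) (s : Fin d → ℕ) : (bx a s).card = ∏ i, s i := by
  unfold bx
  rw [Fintype.card_piFinset]
  apply Finset.prod_congr rfl
  intro i _
  rw [Int.card_Ico]
  simp

/-- boundary edges of `B` of direction `i` inside `P` -/
noncomputable def bd (B P : Finset (Site d)) (i : Fin d) : Finset (Site d) :=
  (Sv B i).filter fun w => w ∈ P ∧ w + Pi.single i 1 ∈ P

theorem mem_bd {B P : Finset (Site d)} {i : Fin d} {w : Site d} :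
    w ∈ bd B P i ↔ w ∈ Sv B i ∧ w ∈ P ∧ w + Pi.single i 1 ∈ P := by
  unfold bd
  rw [Finset.mem_filter]

theorem step1 (p : ℤ → Prop) (a : ℤ) (n : ℕ) (h : ¬ (p a ↔ p (a + n))) :
    ∃ t, a ≤ t ∧ t + 1 ≤ a + n ∧ ¬ (p t ↔ p (t + 1)) := by
  induction n with
  | zero =>
    exfalso
    apply h
    simp
  | succ n ih =>
    by_cases h1 : p a ↔ p (a + n)
    · refine ⟨a + n, by omega, by push_cast; omega, ?_⟩
      intro h2
      apply h
      rw [h1, h2]
      push_cast
      rw [add_assoc]
    · obtain ⟨t, h2, h3, h4⟩ := ih h1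
      exact ⟨t, h2, by push_cast; omega, h4⟩

theorem step2 (p : ℤ → Prop) (x y : ℤ) (h : ¬ (p x ↔ p y)) :
    ∃ t, min x y ≤ t ∧ t + 1 ≤ max x y ∧ ¬ (p t ↔ p (t + 1)) := by
  rcases le_total x y with hxy | hxy
  · obtain ⟨n, hn⟩ := Int.eq_ofNat_of_zero_le (sub_nonneg.mpr hxy)
    have hy : y = x + n := by
      have : (Int.ofNat n) = (n : ℤ) := rfl
      omega
    rw [hy] at h
    obtain ⟨t, h1, h2, h3⟩ := step1 p x n h
    exact ⟨t, by omega, by omega, h3⟩
  · obtain ⟨n, hn⟩ := Int.eq_ofNat_of_zero_le (sub_nonneg.mpr hxy)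
    have hy : x = y + n := by
      have : (Int.ofNat n) = (n : ℤ) := rfl
      omega
    rw [hy] at h
    obtain ⟨t, h1, h2, h3⟩ := step1 p y n fun h' => h h'.symm
    exact ⟨t, by omega, by omega, h3⟩

/-- interpolation between two sites -/
noncomputable def mix (m : ℕ) (u v : Site d) : Site d := fun i => if i.val < m then v i else u i

theorem nat_step (f : ℕ → Prop) (n : ℕ) (h0 : f 0) (hn : ¬ f n) : ∃ m < n, f m ∧ ¬ f (m + 1) := by
  induction n with
  | zero => exact absurd h0 hn
  | succ n ih =>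
    by_cases h : f n
    · exact ⟨n, Nat.lt_succ_self n, h, hn⟩
    · obtain ⟨m, hm, h1⟩ := ih h
      exact ⟨m, Nat.lt_succ_of_lt hm, h1⟩

theorem exists_edge (B : Finset (Site d)) (a : Site d) (s : Fin d → ℕ) (u v : Site d)
    (hu : u ∈ bx a s) (hv : v ∈ bx a s) (huB : u ∈ B) (hvB : v ∉ B) :
    ∃ j : Fin d, ∃ w ∈ bd B (bx a s) j, (∀ i, i < j → w i = v i) ∧ ∀ i, j < i → w i = u i := by
  have h0 : mix 0 u v = u := by
    funext i
    simp [mix]
  have hd : mix d u v = v := by
    funext i
    simp [mix, i.2]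
  obtain ⟨m, hm, h1, h2⟩ := nat_step (fun m => mix m u v ∈ B) d (by rw [h0]; exact huB)
    (by rw [hd]; exact hvB)
  set j : Fin d := ⟨m, hm⟩ with hj
  set y := mix m u v with hy
  have hupd : ∀ t : ℤ, Function.update y j t + Pi.single j 1 = Function.update y j (t + 1) := by
    intro t
    funext i
    by_cases hi : i = j
    · subst hi
      simp
    · simp [hi]
  have hyu : Function.update y j (u j) = y := by
    funext i
    by_cases hi : i = j
    · rw [hi]
      simp [hy, mix, hj]
    · simp [hi]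
  have hyv : Function.update y j (v j) = mix (m + 1) u v := by
    funext i
    by_cases hi : i = j
    · rw [hi]
      simp [mix, hj]
    · have hi' : i.val ≠ m := fun h => hi (Fin.ext h)
      simp only [Function.update_of_ne hi, hy, mix]
      by_cases h3 : i.val < m
      · rw [if_pos h3, if_pos (by omega)]
      · rw [if_neg h3, if_neg (by omega)]
  obtain ⟨t, ht1, ht2, ht3⟩ := step2 (fun t => Function.update y j t ∈ B) (u j) (v j) (by
    simp only [hyu, hyv]
    exact fun h => h2 (h.mp h1))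
  have hyP : ∀ t' : ℤ, a j ≤ t' → t' < a j + s j → Function.update y j t' ∈ bx a s := by
    intro t' h3 h4
    rw [mem_bx] at *
    intro i
    by_cases hi : i = j
    · rw [hi, Function.update_self]
      exact ⟨h3, h4⟩
    · rw [Function.update_of_ne hi, hy]
      unfold mix
      split_ifs
      · exact hv i
      · exact hu i
  have hju := (mem_bx.mp hu) j
  have hjv := (mem_bx.mp hv) j
  refine ⟨j, Function.update y j t, ?_, ?_, ?_⟩
  · rw [mem_bd, mem_Sv, hupd]
    refine ⟨ht3, hyP t ?_ ?_, hyP (t + 1) ?_ ?_⟩ <;> omega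
  · intro i hi
    rw [Function.update_of_ne hi.ne, hy]
    unfold mix
    rw [if_pos (by exact hi)]
  · intro i hi
    rw [Function.update_of_ne hi.ne', hy]
    unfold mix
    rw [if_neg (by rw [not_lt]; exact hi.le)]

/-- **Poincaré inequality** in a box -/
theorem poinc (B : Finset (Site d)) (a : Site d) (s : Fin d → ℕ) (S : ℕ) (hs : ∀ i, s i ≤ S) :
    (bx a s ∩ B).card * (bx a s \ B).card ≤
      (∑ i, (bd B (bx a s) i).card) * ((bx a s).card * S) := by
  set P := bx a s with hP
  have hex : ∀ p ∈ (P ∩ B) ×ˢ (P \ B), ∃ r : (_ : Fin d) × Site d, r.2 ∈ bd B P r.1 ∧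
      (∀ i, i < r.1 → r.2 i = p.2 i) ∧ ∀ i, r.1 < i → r.2 i = p.1 i := by
    intro p hp
    rw [Finset.mem_product, Finset.mem_inter, Finset.mem_sdiff] at hp
    obtain ⟨j, w, hw, h1, h2⟩ := exists_edge B a s p.1 p.2 hp.1.1 hp.2.1 hp.1.2 hp.2.2
    exact ⟨⟨j, w⟩, hw, h1, h2⟩
  rw [← Finset.card_product]
  rcases ((P ∩ B) ×ˢ (P \ B)).eq_empty_or_nonempty with hemp | ⟨p₀, hp₀⟩
  · rw [hemp, Finset.card_empty]
    exact Nat.zero_le _
  have hne : Nonempty ((_ : Fin d) × Site d) := by
    obtain ⟨r, -⟩ := hex p₀ hp₀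
    exact ⟨r⟩
  choose! r hr1 hr2 hr3 using hex
  have hcard : (((Finset.univ.sigma fun j => bd B P j) ×ˢ (P ×ˢ Finset.range S))).card =
      (∑ i, (bd B P i).card) * (P.card * S) := by
    rw [Finset.card_product, Finset.card_product, Finset.card_sigma, Finset.card_range]
  rw [← hcard]
  apply Finset.card_le_card_of_injOn (fun p : Site d × Site d =>
    (r p, ((fun i => if i ≤ (r p).1 then p.1 i else p.2 i : Site d),
      (p.2 (r p).1 - a (r p).1).toNat)))
  · intro p hp
    have hp' := Finset.mem_coe.mp hp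
    have hmem := hp'
    rw [Finset.mem_product, Finset.mem_inter, Finset.mem_sdiff] at hmem
    have hu := mem_bx.mp hmem.1.1
    have hv := mem_bx.mp hmem.2.1
    rw [Finset.mem_coe, Finset.mem_product, Finset.mem_product, Finset.mem_sigma]
    refine ⟨⟨Finset.mem_univ _, hr1 p hp'⟩, ?_, ?_⟩
    · rw [mem_bx]
      intro i
      show a i ≤ (if i ≤ (r p).1 then p.1 i else p.2 i) ∧
        (if i ≤ (r p).1 then p.1 i else p.2 i) < a i + s i
      split_ifs
      · exact hu i
      · exact hv i
    · rw [Finset.mem_range]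
      have h1 := hv (r p).1
      have h2 := hs (r p).1
      show (p.2 (r p).1 - a (r p).1).toNat < S
      omega
  · intro p hp p' hp' heq
    have hp0 := Finset.mem_coe.mp hp
    have hp0' := Finset.mem_coe.mp hp'
    have hmem := hp0
    have hmem' := hp0'
    rw [Finset.mem_product, Finset.mem_inter, Finset.mem_sdiff] at hmem hmem'
    rw [Prod.mk.injEq, Prod.mk.injEq] at heq
    obtain ⟨e1, e2, e3⟩ := heq
    have hv := mem_bx.mp hmem.2.1
    have hv' := mem_bx.mp hmem'.2.1
    have a1 := hr2 p hp0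
    have a2 := hr3 p hp0
    have a1' := hr2 p' hp0'
    have a2' := hr3 p' hp0'
    rw [← e1] at a1' a2' e3 e2
    have e4 : p.2 (r p).1 = p'.2 (r p).1 := by
      have h1 := (hv (r p).1).1
      have h2 := (hv' (r p).1).1
      omega
    apply Prod.ext
    · funext i
      have h5 := congrFun e2 i
      by_cases hi : i ≤ (r p).1
      · simp only [if_pos hi] at h5
        exact h5
      · rw [not_le] at hi
        rw [← a2 i hi, ← a2' i hi]
    · funext i
      have h5 := congrFun e2 i
      rcases lt_trichotomy i (r p).1 with hi | hi | hi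
      · rw [← a1 i hi, ← a1' i hi]
      · rw [hi]
        exact e4
      · simp only [if_neg (not_le.mpr hi)] at h5
        exact h5

end Pool.T9h81.HL
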