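import Pool.Agent.T9h81.HL.Fam

/-!
# Chaining over scales (Fisher, Fröhlich, Spencer)
-/

set_option autoImplicit false

open MeasureTheory
open scoped Classical symmDiff

namespace Pool.T9h81.HL

open Pool.T9h81.EAR

variable {d : ℕ}

theorem num_a (l : ℕ) : ((l : ℝ) + 1) * (1 / 4) ^ l ≤ 3 / 2 * (49 / 128) ^ l := by
  have key : ((l : ℝ) + 1) * 32 ^ l ≤ 3 / 2 * 49 ^ l := by
    induction l with
    | zero => norm_num
    | succ l ih =>
      rcases Nat.eq_zero_or_pos l with rfl | hl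
      · norm_num
      · have hl' : (1 : ℝ) ≤ l := by exact_mod_cast hl
        have h1 : (((l + 1 : ℕ) : ℝ) + 1) * 32 ≤ ((l : ℝ) + 1) * 49 := by
          push_cast
          linarith
        calc (((l + 1 : ℕ) : ℝ) + 1) * 32 ^ (l + 1) = ((((l + 1 : ℕ) : ℝ) + 1) * 32) * 32 ^ l := by
              ring
          _ ≤ (((l : ℝ) + 1) * 49) * 32 ^ l := mul_le_mul_of_nonneg_right h1 (by positivity)
          _ = (((l : ℝ) + 1) * 32 ^ l) * 49 := by ring
          _ ≤ (3 / 2 * 49 ^ l) * 49 := mul_le_mul_of_nonneg_right ih (by norm_num)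
          _ = 3 / 2 * 49 ^ (l + 1) := by ring
  have h1 : (1 / 4 : ℝ) ^ l = 32 ^ l / 128 ^ l := by
    rw [← div_pow]
    norm_num
  have h2 : (49 / 128 : ℝ) ^ l = 49 ^ l / 128 ^ l := div_pow _ _ _
  rw [h1, h2, ← mul_div_assoc, ← mul_div_assoc]
  exact div_le_div_of_nonneg_right key (by positivity)

theorem num_b (n l : ℕ) (hn : 0 < n) (hl : 4 ^ l ≤ 32 * n) :
    Real.exp (-(900 * (n * (49 / 128) ^ l))) ≤ 1 / (2000 * n ^ 2) * (1 / 2) ^ l := by
  have hn' : (0 : ℝ) < n := by exact_mod_cast hn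
  set x : ℝ := 900 * (n * (49 / 128) ^ l) with hx
  have hx0 : 0 < x := by positivity
  have h1 : x ^ 9 / (Nat.factorial 9 : ℕ) ≤ Real.exp x := Real.pow_div_factorial_le_exp x hx0.le 9
  have hf : ((Nat.factorial 9 : ℕ) : ℝ) = 362880 := by
    norm_num [Nat.factorial]
  rw [hf] at h1
  have h2 : 725760000 * (n : ℝ) ^ 2 * 2 ^ l ≤ x ^ 9 := by
    have h3 : ((2 / 4 ^ 7 : ℝ)) ^ l ≤ ((49 / 128 : ℝ) ^ 9) ^ l :=
      pow_le_pow_left₀ (by norm_num) (by norm_num) l
    have h4 : ((2 / 4 ^ 7 : ℝ)) ^ l = 2 ^ l / (4 ^ l) ^ 7 := by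
      rw [div_pow, ← pow_mul, ← pow_mul, mul_comm 7 l]
    have h5 : ((4 : ℝ) ^ l) ≤ 32 * n := by exact_mod_cast hl
    have h6 : ((4 : ℝ) ^ l) ^ 7 ≤ (32 * n) ^ 7 := pow_le_pow_left₀ (by positivity) h5 7
    have h7 : (2 : ℝ) ^ l / (32 * n) ^ 7 ≤ 2 ^ l / (4 ^ l) ^ 7 :=
      div_le_div_of_nonneg_left (by positivity) (by positivity) h6
    have h8 : x ^ 9 = 900 ^ 9 * n ^ 9 * ((49 / 128 : ℝ) ^ 9) ^ l := by
      rw [hx, mul_pow, mul_pow, ← pow_mul, ← pow_mul, mul_comm 9 l, mul_assoc]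
    rw [h8]
    calc 725760000 * (n : ℝ) ^ 2 * 2 ^ l ≤ (900 : ℝ) ^ 9 / 32 ^ 7 * (n : ℝ) ^ 2 * 2 ^ l := by
          apply mul_le_mul_of_nonneg_right _ (by positivity)
          apply mul_le_mul_of_nonneg_right _ (by positivity)
          norm_num
      _ = 900 ^ 9 * (n : ℝ) ^ 9 * (2 ^ l / (32 * (n : ℝ)) ^ 7) := by
          field_simp
      _ ≤ 900 ^ 9 * (n : ℝ) ^ 9 * ((49 / 128 : ℝ) ^ 9) ^ l := by
          apply mul_le_mul_of_nonneg_left _ (by positivity)
          rw [h4] at h3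
          exact h7.trans h3
  rw [Real.exp_neg, ← one_div]
  have h9 : 0 < x ^ 9 := by positivity
  have h10 : 1 / Real.exp x ≤ 362880 / x ^ 9 := by
    rw [div_le_div_iff₀ (Real.exp_pos _) h9]
    have := h1
    rw [div_le_iff₀ (by norm_num)] at this
    linarith
  refine h10.trans ?_
  rw [div_le_iff₀ h9]
  have h11 : 1 / (2000 * (n : ℝ) ^ 2) * (1 / 2) ^ l * (725760000 * (n : ℝ) ^ 2 * 2 ^ l) = 362880 := by
    rw [one_div_pow]
    field_simp
    norm_num
  calc (362880 : ℝ) = 1 / (2000 * (n : ℝ) ^ 2) * (1 / 2) ^ l * (725760000 * (n : ℝ) ^ 2 * 2 ^ l) :=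
        h11.symm
    _ ≤ 1 / (2000 * (n : ℝ) ^ 2) * (1 / 2) ^ l * x ^ 9 :=
        mul_le_mul_of_nonneg_left h2 (by positivity)

/-- thresholds -/
noncomputable def th (a : ℝ) (n l : ℕ) : ℝ := a * n / 8 * (7 / 8) ^ l

theorem sum_th (a : ℝ) (ha : 0 < a) (n L : ℕ) : ∑ l ∈ Finset.range L, th a n l ≤ a * n := by
  unfold th
  rw [← Finset.mul_sum]
  have h1 : ∑ l ∈ Finset.range L, (7 / 8 : ℝ) ^ l ≤ 8 := by
    have h2 : ∑' l : ℕ, (7 / 8 : ℝ) ^ l = 8 := by
      rw [tsum_geometric_of_lt_one (by norm_num) (by norm_num)]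
      norm_num
    have h3 : Summable fun l : ℕ => (7 / 8 : ℝ) ^ l :=
      summable_geometric_of_lt_one (by norm_num) (by norm_num)
    exact (h3.sum_le_tsum (Finset.range L) fun l _ => by positivity).trans h2.le
  calc a * n / 8 * ∑ l ∈ Finset.range L, (7 / 8 : ℝ) ^ l ≤ a * n / 8 * 8 :=
        mul_le_mul_of_nonneg_left h1 (by positivity)
    _ = a * n := by ring

/-- pairs of coarse-grained contours at consecutive scales -/
noncomputable def prs (n l : ℕ) (x : Site d) (i : Fin d) :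
    Finset (Finset (Site d) × Finset (Site d)) :=
  ((fam (2 ^ l) n x i) ×ˢ (fam (2 ^ (l + 1)) n x i)).filter fun p =>
    (un (2 ^ l) p.1 ∆ un (2 ^ (l + 1)) p.2).card ≤ 6 * 2 ^ l * n

/-- **Chaining.** -/
theorem chain {Ω : Type} [MeasurableSpace Ω] (μ : Measure Ω) [IsProbabilityMeasure μ]
    (hd : 3 ≤ d) (x : Site d) (n : ℕ) (hn : 0 < n) (g : Finset (Site d) → Ω → ℝ)
    (hg0 : ∀ ω, g ∅ ω = 0) (s a : ℝ) (hs : 0 < s) (ha : 0 < a)
    (htail : ∀ (C C' : Finset (Site d)) (t : ℝ) (N : ℕ), 0 < t → 0 < N → (C ∆ C').card ≤ N →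
      μ.real {ω | t ≤ g C ω - g C' ω} ≤ Real.exp (-(t ^ 2 / (s * N))))
    (hA : 230400 * d * s ≤ a ^ 2) :
    μ.real {ω | ∃ B ∈ ctr (by omega) x n, a * n ≤ g B ω} ≤ 1 / (1000 * n ^ 2) := by
  have hn' : (0 : ℝ) < n := by exact_mod_cast hn
  have hdr : (3 : ℝ) ≤ d := by exact_mod_cast hd
  set i : Fin d := ⟨0, by omega⟩ with hi
  have hex : ∃ L : ℕ, 32 * n < 4 ^ L := ⟨32 * n, Nat.lt_pow_self (by norm_num)⟩
  set L := Nat.find hex with hL
  have hLspec : 32 * n < 4 ^ L := Nat.find_spec hex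
  have hLmin : ∀ l < L, 4 ^ l ≤ 32 * n := fun l hl => not_lt.mp (Nat.find_min hex hl)
  -- the inclusion
  have hsub : {ω | ∃ B ∈ ctr (by omega : 2 ≤ d) x n, a * n ≤ g B ω} ⊆
      ⋃ l ∈ Finset.range L, ⋃ p ∈ prs n l x i,
        {ω | th a n l ≤ g (un (2 ^ l) p.1) ω - g (un (2 ^ (l + 1)) p.2) ω} := by
    rintro ω ⟨B, hB, hω⟩
    have hC := (mem_ctr (by omega : 2 ≤ d)).mp hB
    have hcard := hC.2.2.2
    by_contra hcon
    simp only [Set.mem_iUnion, not_exists] at hcon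
    have hlt : ∀ l ∈ Finset.range L, g (cg (2 ^ l) B) ω - g (cg (2 ^ (l + 1)) B) ω < th a n l := by
      intro l hl
      by_contra h
      rw [not_lt] at h
      refine hcon l hl (mj (2 ^ l) B, mj (2 ^ (l + 1)) B) ?_ h
      unfold prs
      rw [Finset.mem_filter, Finset.mem_product]
      refine ⟨⟨mj_mem_fam (by positivity) hd x n B hC i,
        mj_mem_fam (by positivity) hd x n B hC i⟩, ?_⟩
      have h1 := card_diff (R := 2 ^ l) (by positivity) B
      have h2 := card_diff (R := 2 ^ (l + 1)) (by positivity) B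
      rw [hcard] at h1 h2
      have h3 : (cg (2 ^ l) B ∆ cg (2 ^ (l + 1)) B) ⊆
          (B ∆ cg (2 ^ l) B) ∪ (B ∆ cg (2 ^ (l + 1)) B) := by
        intro y hy
        rw [Finset.mem_symmDiff] at hy
        rw [Finset.mem_union, Finset.mem_symmDiff, Finset.mem_symmDiff]
        tauto
      have h4 := (Finset.card_le_card h3).trans (Finset.card_union_le _ _)
      show (cg (2 ^ l) B ∆ cg (2 ^ (l + 1)) B).card ≤ 6 * 2 ^ l * n
      have h5 : 2 * 2 ^ (l + 1) * n = 4 * 2 ^ l * n := by ring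
      rw [h5] at h2
      have h6 : 6 * 2 ^ l * n = 2 * 2 ^ l * n + 4 * 2 ^ l * n := by ring
      rw [h6]
      omega
    have hL0 : 0 < L := by
      by_contra h
      have : L = 0 := by omega
      rw [this] at hLspec
      omega
    have hsum := Finset.sum_lt_sum_of_nonempty ⟨0, Finset.mem_range.mpr hL0⟩ hlt
    rw [Finset.sum_range_sub' (fun l => g (cg (2 ^ l) B) ω)] at hsum
    have h1 : cg (2 ^ 0) B = B := by
      rw [pow_zero]
      exact cg_one B
    have h2 : cg (2 ^ L) B = ∅ := by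
      unfold cg
      rw [mj_empty (by positivity) hd B]
      · rfl
      · rw [hcard, ← pow_mul, mul_comm L 2, pow_mul]
        exact hLspec
    rw [h1, h2, hg0, sub_zero] at hsum
    have h3 := sum_th a ha n L
    linarith
  -- each scale
  have hone : ∀ l ∈ Finset.range L, ∑ p ∈ prs n l x i,
      μ.real {ω | th a n l ≤ g (un (2 ^ l) p.1) ω - g (un (2 ^ (l + 1)) p.2) ω} ≤
      1 / (2000 * n ^ 2) * (1 / 2) ^ l := by
    intro l hl
    have hl' := hLmin l (Finset.mem_range.mp hl)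
    have hth : 0 < th a n l := by
      unfold th
      positivity
    have h1 : ∀ p ∈ prs n l x i,
        μ.real {ω | th a n l ≤ g (un (2 ^ l) p.1) ω - g (un (2 ^ (l + 1)) p.2) ω} ≤
        Real.exp (-(600 * d * (n * (49 / 128) ^ l))) := by
      intro p hp
      refine (htail _ _ _ (6 * 2 ^ l * n) hth (by positivity)
        (Finset.mem_filter.mp hp).2).trans ?_
      apply Real.exp_le_exp.mpr
      apply neg_le_neg
      rw [le_div_iff₀ (by positivity)]
      have h2 : (th a n l) ^ 2 = a ^ 2 * (n ^ 2 / 64 * (49 / 64) ^ l) := by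
        unfold th
        rw [mul_pow, ← pow_mul, mul_comm l 2, pow_mul]
        norm_num
        ring
      rw [h2]
      have h3 : 600 * d * (n * (49 / 128) ^ l) * (s * ((6 * 2 ^ l * n : ℕ) : ℝ)) =
          (230400 * d * s) * (n ^ 2 / 64 * (49 / 64) ^ l) := by
        have h4 : (49 / 64 : ℝ) ^ l = (49 / 128) ^ l * 2 ^ l := by
          rw [← mul_pow]
          norm_num
        rw [h4]
        push_cast
        ring
      rw [h3]
      exact mul_le_mul_of_nonneg_right hA (by positivity)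
    have h2 : ((prs n l x i).card : ℝ) ≤ Real.exp (300 * d * (n * (49 / 128) ^ l)) := by
      have h3 : ((prs n l x i).card : ℝ) ≤ ((fam (2 ^ l) n x i).card : ℝ) *
          ((fam (2 ^ (l + 1)) n x i).card : ℝ) := by
        unfold prs
        rw [← Nat.cast_mul, ← Finset.card_product]
        exact_mod_cast Finset.card_filter_le _ _
      have h4 := card_fam hd l n x i
      have h5 := card_fam hd (l + 1) n x i
      refine h3.trans ((mul_le_mul h4 h5 (Nat.cast_nonneg _) (Real.exp_pos _).le).trans ?_)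
      rw [← Real.exp_add]
      apply Real.exp_le_exp.mpr
      have h6 := num_a l
      have h7 := num_a (l + 1)
      have h8 : (n : ℝ) / 4 ^ l = n * (1 / 4) ^ l := by
        rw [one_div_pow]
        ring
      have h9 : (n : ℝ) / 4 ^ (l + 1) = n * (1 / 4) ^ (l + 1) := by
        rw [one_div_pow]
        ring
      rw [h8, h9]
      have h10 : (49 / 128 : ℝ) ^ (l + 1) = 49 / 128 * (49 / 128) ^ l := pow_succ' _ _
      rw [h10] at h7
      have hdn : (0 : ℝ) ≤ d * n := by positivity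
      calc 132 * d * (l + 1) * (n * (1 / 4) ^ l) +
            132 * d * (((l + 1 : ℕ) : ℝ) + 1) * (n * (1 / 4) ^ (l + 1))
          = 132 * (d * n * (((l : ℝ) + 1) * (1 / 4) ^ l) +
            d * n * ((((l + 1 : ℕ) : ℝ) + 1) * (1 / 4) ^ (l + 1))) := by ring
        _ ≤ 132 * (d * n * (3 / 2 * (49 / 128) ^ l) +
            d * n * (3 / 2 * (49 / 128 * (49 / 128) ^ l))) := by
            apply mul_le_mul_of_nonneg_left _ (by norm_num)
            exact add_le_add (mul_le_mul_of_nonneg_left h6 hdn)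
              (mul_le_mul_of_nonneg_left h7 hdn)
        _ = (132 * (3 / 2) * (177 / 128)) * (d * (n * (49 / 128) ^ l)) := by ring
        _ ≤ 300 * (d * (n * (49 / 128) ^ l)) := by
            apply mul_le_mul_of_nonneg_right _ (by positivity)
            norm_num
        _ = 300 * d * (n * (49 / 128) ^ l) := by ring
    calc ∑ p ∈ prs n l x i,
          μ.real {ω | th a n l ≤ g (un (2 ^ l) p.1) ω - g (un (2 ^ (l + 1)) p.2) ω}
        ≤ ∑ p ∈ prs n l x i, Real.exp (-(600 * d * (n * (49 / 128) ^ l))) :=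
          Finset.sum_le_sum h1
      _ = ((prs n l x i).card : ℝ) * Real.exp (-(600 * d * (n * (49 / 128) ^ l))) := by
          rw [Finset.sum_const, nsmul_eq_mul]
      _ ≤ Real.exp (300 * d * (n * (49 / 128) ^ l)) *
          Real.exp (-(600 * d * (n * (49 / 128) ^ l))) :=
          mul_le_mul_of_nonneg_right h2 (Real.exp_pos _).le
      _ ≤ Real.exp (-(900 * (n * (49 / 128) ^ l))) := by
          rw [← Real.exp_add]
          apply Real.exp_le_exp.mpr
          have h3 : (0 : ℝ) ≤ n * (49 / 128) ^ l := by positivity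
          have h4 : 3 * ((n : ℝ) * (49 / 128) ^ l) ≤ d * (n * (49 / 128) ^ l) :=
            mul_le_mul_of_nonneg_right hdr h3
          linarith
      _ ≤ 1 / (2000 * n ^ 2) * (1 / 2) ^ l := num_b n l hn hl'
  calc μ.real {ω | ∃ B ∈ ctr (by omega : 2 ≤ d) x n, a * n ≤ g B ω}
      ≤ μ.real (⋃ l ∈ Finset.range L, ⋃ p ∈ prs n l x i,
        {ω | th a n l ≤ g (un (2 ^ l) p.1) ω - g (un (2 ^ (l + 1)) p.2) ω}) :=
        measureReal_mono hsub (measure_ne_top _ _)
    _ ≤ ∑ l ∈ Finset.range L, μ.real (⋃ p ∈ prs n l x i,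
        {ω | th a n l ≤ g (un (2 ^ l) p.1) ω - g (un (2 ^ (l + 1)) p.2) ω}) :=
        measureReal_biUnion_finset_le _ _
    _ ≤ ∑ l ∈ Finset.range L, ∑ p ∈ prs n l x i,
        μ.real {ω | th a n l ≤ g (un (2 ^ l) p.1) ω - g (un (2 ^ (l + 1)) p.2) ω} :=
        Finset.sum_le_sum fun l _ => measureReal_biUnion_finset_le _ _
    _ ≤ ∑ l ∈ Finset.range L, 1 / (2000 * n ^ 2) * (1 / 2 : ℝ) ^ l := Finset.sum_le_sum hone
    _ = 1 / (2000 * n ^ 2) * ∑ l ∈ Finset.range L, (1 / 2 : ℝ) ^ l := (Finset.mul_sum _ _ _).symm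
    _ ≤ 1 / (2000 * n ^ 2) * 2 := by
        apply mul_le_mul_of_nonneg_left _ (by positivity)
        have h2 : ∑' l : ℕ, (1 / 2 : ℝ) ^ l = 2 := tsum_geometric_two
        exact (summable_geometric_two.sum_le_tsum (Finset.range L)
          fun l _ => by positivity).trans h2.le
    _ = 1 / (1000 * n ^ 2) := by
        field_simp
        norm_num

end Pool.T9h81.HL
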