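import Pool.Agent.T9h81.HL.Fam

/-!
# Edge isoperimetry for small sets in high dimension
-/

set_option autoImplicit false

open scoped Classical

namespace Pool.T9h81.HL

open Pool.T9h81.EAR

variable {d : ℕ}

/-- sites of `B` whose upper neighbour in direction `i` is in `B` -/
noncomputable def ie (B : Finset (Site d)) (i : Fin d) : Finset (Site d) :=
  B.filter fun u => u + Pi.single i 1 ∈ B

theorem mem_ie {B : Finset (Site d)} {i : Fin d} {u : Site d} :
    u ∈ ie B i ↔ u ∈ B ∧ u + Pi.single i 1 ∈ B := by
  unfold ie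
  rw [Finset.mem_filter]

theorem card_Sv_add (B : Finset (Site d)) (i : Fin d) :
    (Sv B i).card + 2 * (ie B i).card = 2 * B.card := by
  have h1 : Sv B i = (B \ ie B i) ∪ ((B.image fun u => u - Pi.single i 1) \ B) := by
    ext u
    rw [mem_Sv, Finset.mem_union, Finset.mem_sdiff, Finset.mem_sdiff, mem_ie, Finset.mem_image]
    constructor
    · intro h
      by_cases hu : u ∈ B
      · left
        exact ⟨hu, fun h2 => h ⟨fun _ => h2.2, fun _ => hu⟩⟩
      · right
        refine ⟨⟨u + Pi.single i 1, ?_, by simp⟩, hu⟩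
        by_contra h2
        exact h ⟨fun h3 => absurd h3 hu, fun h3 => absurd h3 h2⟩
    · rintro (⟨h2, h3⟩ | ⟨⟨w, hw, h2⟩, h3⟩) h
      · exact h3 ⟨h2, h.mp h2⟩
      · apply h3
        apply h.mpr
        rw [← h2, sub_add_cancel]
        exact hw
  have h2 : Disjoint (B \ ie B i) ((B.image fun u => u - Pi.single i 1) \ B) := by
    rw [Finset.disjoint_left]
    intro u hu hu'
    exact (Finset.mem_sdiff.mp hu').2 (Finset.mem_sdiff.mp hu).1
  have h3 : ((B.image fun u => u - Pi.single i 1) ∩ B) = ie B i := by
    ext u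
    rw [Finset.mem_inter, Finset.mem_image, mem_ie]
    constructor
    · rintro ⟨⟨w, hw, h⟩, hu⟩
      refine ⟨hu, ?_⟩
      rw [← h, sub_add_cancel]
      exact hw
    · rintro ⟨hu, h⟩
      exact ⟨⟨_, h, by simp⟩, hu⟩
  have h4 : (B.image fun u => u - Pi.single i 1).card = B.card :=
    Finset.card_image_of_injective _ fun a b h => sub_left_injective h
  have h5 := Finset.card_inter_add_card_sdiff (B.image fun u => u - Pi.single i 1) B
  rw [h3, h4] at h5
  have h6 : (B \ ie B i).card + (ie B i).card = B.card :=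
    Finset.card_sdiff_add_card_eq_card (Finset.filter_subset _ _)
  rw [h1, Finset.card_union_of_disjoint h2]
  omega

theorem log_ineq (a b : ℕ) (ha : 0 < a) (hab : a ≤ b) :
    (a : ℝ) * Real.log a + b * Real.log b + a * Real.log 2 ≤ (a + b : ℕ) * Real.log (a + b : ℕ) := by
  have ha' : (0 : ℝ) < a := by exact_mod_cast ha
  have hab' : (a : ℝ) ≤ b := by exact_mod_cast hab
  have hb' : (0 : ℝ) < b := by linarith
  push_cast
  have h1 : Real.log a + Real.log 2 ≤ Real.log (a + b) := by
    rw [← Real.log_mul ha'.ne' (by norm_num)]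
    exact Real.log_le_log (by positivity) (by linarith)
  have h2 : Real.log b ≤ Real.log (a + b) := Real.log_le_log hb' (by linarith)
  nlinarith

/-- **Number of internal edges** -/
theorem card_ie (n : ℕ) : ∀ B : Finset (Site d), B.card = n →
    (((∑ i, (ie B i).card : ℕ) : ℝ)) * Real.log 2 ≤ n * Real.log n := by
  induction n using Nat.strong_induction_on with
  | _ n ih =>
    intro B hB
    by_cases hn : n ≤ 1
    · have h1 : ∀ i, (ie B i).card = 0 := by
        intro i
        rw [Finset.card_eq_zero, Finset.eq_empty_iff_forall_notMem]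
        intro u hu
        rw [mem_ie] at hu
        have h2 := Finset.card_le_one.mp (hB.le.trans hn) u hu.1 _ hu.2
        have h3 := congrFun h2 i
        simp at h3
      rw [Finset.sum_congr rfl fun i _ => h1 i]
      simp only [Finset.sum_const_zero, Nat.cast_zero, zero_mul]
      rcases Nat.le_one_iff_eq_zero_or_eq_one.mp hn with rfl | rfl <;> simp
    · rw [not_le] at hn
      -- two different sites
      obtain ⟨x, hx, y, hy, hxy⟩ := Finset.one_lt_card.mp (hB.symm ▸ hn)
      obtain ⟨i, hi⟩ := Function.ne_iff.mp hxy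
      obtain ⟨t, ht⟩ : ∃ t : ℤ, (∃ z ∈ B, z i ≤ t) ∧ ∃ z ∈ B, ¬ z i ≤ t := by
        rcases lt_or_gt_of_ne hi with h | h
        · exact ⟨x i, ⟨x, hx, le_rfl⟩, y, hy, not_le.mpr h⟩
        · exact ⟨y i, ⟨y, hy, le_rfl⟩, x, hx, not_le.mpr h⟩
      obtain ⟨⟨z₁, hz₁, hz₁t⟩, z₂, hz₂, hz₂t⟩ := ht
      set B₁ := B.filter fun z => z i ≤ t with hB₁
      set B₂ := B.filter fun z => ¬ z i ≤ t with hB₂
      have hcard : B₁.card + B₂.card = n := by
        rw [← hB]
        exact Finset.card_filter_add_card_filter_not (fun z : Site d => z i ≤ t)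
      have hp1 : 0 < B₁.card := Finset.card_pos.mpr ⟨z₁, Finset.mem_filter.mpr ⟨hz₁, hz₁t⟩⟩
      have hp2 : 0 < B₂.card := Finset.card_pos.mpr ⟨z₂, Finset.mem_filter.mpr ⟨hz₂, hz₂t⟩⟩
      have h1 := ih B₁.card (by omega) B₁ rfl
      have h2 := ih B₂.card (by omega) B₂ rfl
      -- crossing edges
      set Cr := B.filter fun u => u i ≤ t ∧ ¬ (u + Pi.single i 1 : Site d) i ≤ t ∧
        u + Pi.single i 1 ∈ B with hCr
      have hCr1 : Cr.card ≤ B₁.card := by
        apply Finset.card_le_card
        intro u hu
        rw [hCr, Finset.mem_filter] at hu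
        exact Finset.mem_filter.mpr ⟨hu.1, hu.2.1⟩
      have hCr2 : Cr.card ≤ B₂.card := by
        apply Finset.card_le_card_of_injOn (fun u => u + Pi.single i 1)
        · intro u hu
          have hu' := Finset.mem_coe.mp hu
          rw [hCr, Finset.mem_filter] at hu'
          exact Finset.mem_coe.mpr (Finset.mem_filter.mpr ⟨hu'.2.2.2, hu'.2.2.1⟩)
        · intro u _ v _ h
          exact add_right_cancel h
      have hie : ∀ j, (ie B j).card ≤ (ie B₁ j).card + (ie B₂ j).card +
          if j = i then Cr.card else 0 := by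
        intro j
        by_cases hj : j = i
        · subst hj
          rw [if_pos rfl]
          have hsub : ie B j ⊆ (ie B₁ j ∪ ie B₂ j) ∪ Cr := by
            intro u hu
            rw [mem_ie] at hu
            rw [Finset.mem_union, Finset.mem_union, mem_ie, mem_ie]
            by_cases h3 : u j ≤ t
            · by_cases h4 : (u + Pi.single j 1 : Site d) j ≤ t
              · left; left
                exact ⟨Finset.mem_filter.mpr ⟨hu.1, h3⟩, Finset.mem_filter.mpr ⟨hu.2, h4⟩⟩
              · right
                exact Finset.mem_filter.mpr ⟨hu.1, h3, h4, hu.2⟩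
            · have h4 : ¬ (u + Pi.single j 1 : Site d) j ≤ t := by
                rw [Pi.add_apply, Pi.single_eq_same]
                omega
              left; right
              exact ⟨Finset.mem_filter.mpr ⟨hu.1, h3⟩, Finset.mem_filter.mpr ⟨hu.2, h4⟩⟩
          refine (Finset.card_le_card hsub).trans ((Finset.card_union_le _ _).trans ?_)
          exact Nat.add_le_add_right (Finset.card_union_le _ _) _
        · rw [if_neg hj, add_zero]
          have hsub : ie B j ⊆ ie B₁ j ∪ ie B₂ j := by
            intro u hu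
            rw [mem_ie] at hu
            rw [Finset.mem_union, mem_ie, mem_ie]
            have h5 : (u + Pi.single j 1 : Site d) i = u i := by
              rw [Pi.add_apply, Pi.single_eq_of_ne (Ne.symm hj), add_zero]
            by_cases h3 : u i ≤ t
            · left
              exact ⟨Finset.mem_filter.mpr ⟨hu.1, h3⟩,
                Finset.mem_filter.mpr ⟨hu.2, by rw [h5]; exact h3⟩⟩
            · right
              exact ⟨Finset.mem_filter.mpr ⟨hu.1, h3⟩,
                Finset.mem_filter.mpr ⟨hu.2, by rw [h5]; exact h3⟩⟩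
          exact (Finset.card_le_card hsub).trans (Finset.card_union_le _ _)
      have hsum : ∑ j, (ie B j).card ≤ ∑ j, (ie B₁ j).card + ∑ j, (ie B₂ j).card + Cr.card := by
        refine (Finset.sum_le_sum fun j _ => hie j).trans (le_of_eq ?_)
        rw [Finset.sum_add_distrib, Finset.sum_add_distrib, Finset.sum_ite_eq' Finset.univ i,
          if_pos (Finset.mem_univ i)]
      have hlog2 : 0 ≤ Real.log 2 := Real.log_nonneg (by norm_num)
      have hsum' : ((∑ j, (ie B j).card : ℕ) : ℝ) * Real.log 2 ≤
          ((∑ j, (ie B₁ j).card : ℕ) : ℝ) * Real.log 2 +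
          ((∑ j, (ie B₂ j).card : ℕ) : ℝ) * Real.log 2 + (Cr.card : ℝ) * Real.log 2 := by
        rw [← add_mul, ← add_mul]
        apply mul_le_mul_of_nonneg_right _ hlog2
        exact_mod_cast hsum
      have hfin : (B₁.card : ℝ) * Real.log B₁.card + B₂.card * Real.log B₂.card +
          (Cr.card : ℝ) * Real.log 2 ≤ n * Real.log n := by
        rcases le_total B₁.card B₂.card with h | h
        · have h3 := log_ineq B₁.card B₂.card hp1 h
          rw [hcard] at h3
          have h4 : (Cr.card : ℝ) * Real.log 2 ≤ B₁.card * Real.log 2 :=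
            mul_le_mul_of_nonneg_right (by exact_mod_cast hCr1) hlog2
          linarith
        · have h3 := log_ineq B₂.card B₁.card hp2 h
          rw [add_comm B₂.card B₁.card, hcard] at h3
          have h4 : (Cr.card : ℝ) * Real.log 2 ≤ B₂.card * Real.log 2 :=
            mul_le_mul_of_nonneg_right (by exact_mod_cast hCr2) hlog2
          linarith
      linarith

/-- **Isoperimetry for small sets.** -/
theorem small_iso (B : Finset (Site d)) (hB : B.card ^ 2 ≤ 2 ^ d) (hne : 0 < B.card) :
    d * B.card ≤ (bdE (lat d) B).card := by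
  have h1 := card_ie B.card B rfl
  have h2 : ∑ i, (Sv B i).card + 2 * ∑ i, (ie B i).card = 2 * (d * B.card) := by
    rw [Finset.mul_sum, ← Finset.sum_add_distrib, Finset.sum_congr rfl fun i _ => card_Sv_add B i,
      Finset.sum_const, Finset.card_univ, Fintype.card_fin, smul_eq_mul]
    ring
  have h3 := sum_Sv B
  have hlog2 : 0 < Real.log 2 := Real.log_pos (by norm_num)
  have hBr : (0 : ℝ) < B.card := by exact_mod_cast hne
  have h4 : 2 * Real.log B.card ≤ d * Real.log 2 := by
    have h5 : ((B.card : ℝ)) ^ 2 ≤ 2 ^ d := by exact_mod_cast hB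
    have h6 := Real.log_le_log (by positivity) h5
    rw [Real.log_pow, Real.log_pow] at h6
    push_cast at h6
    exact h6
  have h5 : (2 * ((∑ i, (ie B i).card : ℕ) : ℝ)) * Real.log 2 ≤ (d * B.card : ℝ) * Real.log 2 := by
    calc (2 * ((∑ i, (ie B i).card : ℕ) : ℝ)) * Real.log 2
        = 2 * (((∑ i, (ie B i).card : ℕ) : ℝ) * Real.log 2) := by ring
      _ ≤ 2 * (B.card * Real.log B.card) := by linarith
      _ = B.card * (2 * Real.log B.card) := by ring
      _ ≤ B.card * (d * Real.log 2) := mul_le_mul_of_nonneg_left h4 hBr.le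
      _ = (d * B.card : ℝ) * Real.log 2 := by ring
  have h6 : 2 * ((∑ i, (ie B i).card : ℕ) : ℝ) ≤ (d * B.card : ℝ) :=
    le_of_mul_le_mul_right h5 hlog2
  have h7 : 2 * ∑ i, (ie B i).card ≤ d * B.card := by exact_mod_cast h6
  omega

/-- **Large sets have large boundary.** -/
theorem card_le_sq (hd : 2 ≤ d) (B : Finset (Site d)) :
    B.card ≤ (bdE (lat d) B).card ^ 2 := by
  set i : Fin d := ⟨0, by omega⟩ with hi
  set j : Fin d := ⟨1, by omega⟩ with hj
  have hij : i ≠ j := by
    intro h
    have := congrArg Fin.val h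
    simp [hi, hj] at this
  have key : ∀ l : Fin d, ∀ x ∈ B, ∃ h : ℕ, sh l x h ∈ Sv B l := by
    intro l x hx
    obtain ⟨h, h1, h2⟩ := exists_exit B l x hx
    refine ⟨h, ?_⟩
    rw [mem_Sv, ← sh_succ]
    intro h3
    exact h2 (h3.mp (h1 h le_rfl))
  choose! f hf using key
  have hle : ∀ l : Fin d, (Sv B l).card ≤ (bdE (lat d) B).card := by
    intro l
    have h1 : (Sv B l).card ≤ ∑ l, (Sv B l).card :=
      Finset.single_le_sum (f := fun l => (Sv B l).card) (fun _ _ => Nat.zero_le _)
        (Finset.mem_univ l)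
    exact h1.trans (sum_Sv B)
  have h1 : B.card ≤ (Sv B i ×ˢ Sv B j).card := by
    apply Finset.card_le_card_of_injOn (fun x => (sh i x (f i x), sh j x (f j x)))
    · intro x hx
      have hx' := Finset.mem_coe.mp hx
      exact Finset.mem_coe.mpr (Finset.mem_product.mpr ⟨hf i x hx', hf j x hx'⟩)
    · intro x _ y _ h
      rw [Prod.mk.injEq] at h
      funext l
      by_cases hl : l = i
      · have h2 := congrFun h.2 l
        unfold sh at h2
        rw [Pi.add_apply, Pi.add_apply, Pi.single_eq_of_ne (by rw [hl]; exact hij),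
          Pi.single_eq_of_ne (by rw [hl]; exact hij), add_zero, add_zero] at h2
        exact h2
      · have h2 := congrFun h.1 l
        unfold sh at h2
        rw [Pi.add_apply, Pi.add_apply, Pi.single_eq_of_ne hl, Pi.single_eq_of_ne hl, add_zero,
          add_zero] at h2
        exact h2
  rw [Finset.card_product] at h1
  calc B.card ≤ (Sv B i).card * (Sv B j).card := h1
    _ ≤ (bdE (lat d) B).card * (bdE (lat d) B).card := Nat.mul_le_mul (hle i) (hle j)
    _ = (bdE (lat d) B).card ^ 2 := (sq _).symm

end Pool.T9h81.HL
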