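import Pool.Agent.T9h81.HL.CoarseS
import Pool.Agent.T9h81.HL.Iso

/-!
# Contours coarse-grained in boxes of side two in few directions: their number
-/

set_option autoImplicit false

open scoped Classical symmDiff

namespace Pool.T9h81.HL

open Pool.T9h81.EAR

variable {d : ℕ}

theorem div_lip1 {R : ℕ} (hR : 0 < R) (x y : ℤ) :
    (x / (R : ℤ) - y / (R : ℤ)).natAbs ≤ (x - y).natAbs := by
  have hR' : (0 : ℤ) < R := by exact_mod_cast hR
  have key : ∀ x y : ℤ, y ≤ x → (x / (R : ℤ) - y / (R : ℤ)).natAbs ≤ (x - y).natAbs := by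
    intro x y h
    have h1 : y / (R : ℤ) ≤ x / R := Int.ediv_le_ediv hR' h
    have h2 : x / (R : ℤ) ≤ y / R + (x - y) := by
      have h3 : x ≤ y + (x - y) * R := by nlinarith
      calc x / (R : ℤ) ≤ (y + (x - y) * R) / R := Int.ediv_le_ediv hR' h3
        _ = y / R + (x - y) := Int.add_mul_ediv_right _ _ hR'.ne'
    omega
  rcases le_total y x with h | h
  · exact key x y h
  · have h1 := key y x h
    omega

theorem qs_lip {s : Fin d → ℕ} (hs : ∀ i, 0 < s i) (x y : Site d) :
    n1 (qs s x - qs s y) ≤ n1 (x - y) := by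
  unfold n1 qs
  apply Finset.sum_le_sum
  intro i _
  exact div_lip1 (hs i) (x i) (y i)

/-- **Extraction** along a contraction -/
theorem extract1 (q : Site d → Site d) (hq : ∀ x y, n1 (q x - q y) ≤ n1 (x - y)) (i : Fin d)
    (L : ℕ) : ∀ (M : ℕ) (x : Site d)
    (l : List (Site d)) (y : Site d) (δ : ℕ) (T : Finset (Site d)), l ∈ cw i L M x →
    n1 (x - y) ≤ δ → T ⊆ l.toFinset.image q →
    ∃ t ∈ wl 1 T.card (δ + M + L) (q y), t.toFinset = T := by
  induction L with
  | zero =>
    intro M x l y δ T hl hxy hT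
    rw [mem_cw_zero] at hl
    subst hl
    have hT' : T ⊆ {q x} := by
      intro c hc
      have := hT hc
      simpa using this
    rcases Finset.subset_singleton_iff.mp hT' with rfl | rfl
    · refine ⟨[], ?_, rfl⟩
      rw [Finset.card_empty, mem_wl_zero]
    · refine ⟨[q x], ?_, rfl⟩
      rw [Finset.card_singleton, mem_wl_succ Nat.one_pos]
      refine ⟨q x, ?_, [], mem_wl_zero.mpr rfl, rfl⟩
      have := hq x y
      omega
  | succ L ih =>
    intro M x l y δ T hl hxy hT
    obtain ⟨r, hr, x2, hx2, t2, ht2, rfl⟩ := mem_cw_succ.mp hl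
    have hstep := n1_nb hx2
    by_cases hc : q x ∈ T
    · have hT2 : T.erase (q x) ⊆ t2.toFinset.image q := by
        intro c hc'
        have h1 := hT (Finset.mem_of_mem_erase hc')
        rw [Finset.mem_image] at h1 ⊢
        obtain ⟨z, hz, hzc⟩ := h1
        rw [List.mem_toFinset, List.mem_cons] at hz
        rcases hz with rfl | hz
        · exact absurd hzc.symm (Finset.ne_of_mem_erase hc')
        · exact ⟨z, List.mem_toFinset.mpr hz, hzc⟩
      obtain ⟨t, ht, htT⟩ := ih (M - r) x2 t2 x (r + 1) (T.erase (q x)) ht2 hstep hT2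
      have hcard : T.card = (T.erase (q x)).card + 1 := (Finset.card_erase_add_one hc).symm
      refine ⟨q x :: t, ?_, ?_⟩
      · rw [hcard, mem_wl_succ Nat.one_pos]
        have h3 := hq x y
        refine ⟨q x, ?_, t, ?_, rfl⟩
        · omega
        · refine wl_mono Nat.one_pos _ ?_ ht
          omega
      · rw [List.toFinset_cons, htT, Finset.insert_erase hc]
    · have hT2 : T ⊆ t2.toFinset.image q := by
        intro c hc'
        have h1 := hT hc'
        rw [Finset.mem_image] at h1 ⊢
        obtain ⟨z, hz, hzc⟩ := h1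
        rw [List.mem_toFinset, List.mem_cons] at hz
        rcases hz with rfl | hz
        · exact absurd (hzc ▸ hc') hc
        · exact ⟨z, List.mem_toFinset.mpr hz, hzc⟩
      have h4 : n1 (x2 - y) ≤ δ + (r + 1) := by
        have h5 : x2 - y = (x2 - x) + (x - y) := by abel
        rw [h5]
        refine (n1_add _ _).trans ?_
        omega
      obtain ⟨t, ht, htT⟩ := ih (M - r) x2 t2 y (δ + (r + 1)) T ht2 h4 hT2
      refine ⟨t, wl_mono Nat.one_pos _ ?_ ht, htT⟩
      omega

/-- sides: two in the directions of `A`, one in the other ones -/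
noncomputable def sd (A : Finset (Fin d)) (i : Fin d) : ℕ := if i ∈ A then 2 else 1

theorem sd_pos (A : Finset (Fin d)) (i : Fin d) : 0 < sd A i := by
  unfold sd
  split_ifs <;> norm_num

theorem sd_le (A : Finset (Fin d)) (i : Fin d) : sd A i ≤ 2 := by
  unfold sd
  split_ifs <;> norm_num

theorem prod_sd (A : Finset (Fin d)) : ∏ i, sd A i = 2 ^ A.card := by
  unfold sd
  rw [Finset.prod_ite_mem, Finset.univ_inter, Finset.prod_const]

theorem filter_sd (A : Finset (Fin d)) : (Finset.univ.filter fun i => sd A i ≠ 1) = A := by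
  ext i
  rw [Finset.mem_filter]
  unfold sd
  by_cases h : i ∈ A
  · simp [h]
  · simp [h]

/-- possible sets of vertical coarse boundary edges -/
noncomputable def cod2 (K n : ℕ) (A : Finset (Fin d)) (x : Site d) (i : Fin d) :
    Finset (Finset (Site d)) :=
  (Finset.range (K + 1)).biUnion fun m =>
    (wl 1 m (11 * n) (qs (sd A) x)).biUnion fun t =>
      (t.toFinset ∪ t.toFinset.image fun c => c - Pi.single i 1).powerset

/-- possible coarse-grained sets (as sets of indices) -/
noncomputable def fam2 (K n : ℕ) (A : Finset (Fin d)) (x : Site d) (i : Fin d) :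
    Finset (Finset (Site d)) :=
  (cod2 K n A x i).image fun S => if h : ∃ M, Sv M i = S then h.choose else ∅

theorem ms_mem_fam2 (hd : 2 ≤ d) (A : Finset (Fin d)) (x : Site d) (n : ℕ)
    (B : Finset (Site d)) (hB : Contour x n B) (i : Fin d) :
    ms (sd A) B ∈ fam2 (64 * n / 2 ^ A.card) n A x i := by
  have hs := sd_pos A
  obtain ⟨m, hm, l, hl, hSl⟩ := exists_walk hd x n B hB i
  have hcode : Sv (ms (sd A) B) i ∈ cod2 (64 * n / 2 ^ A.card) n A x i := by
    have hex : ∀ c ∈ Sv (ms (sd A) B) i, ∃ u, u ∈ Sv B i ∧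
        (qs (sd A) u = c ∨ qs (sd A) u = c + Pi.single i 1) :=
      fun c hc => by
        obtain ⟨u, hu, h⟩ := exists_fines hs B i c hc
        exact ⟨u, hu, h⟩
    choose! u hu1 hu2 using hex
    set T := (Sv (ms (sd A) B) i).image fun c => qs (sd A) (u c) with hT
    have hTl : T ⊆ l.toFinset.image (qs (sd A)) := by
      intro c' hc'
      obtain ⟨c, hc, rfl⟩ := Finset.mem_image.mp hc'
      exact Finset.mem_image.mpr ⟨u c, hSl (hu1 c hc), rfl⟩
    obtain ⟨t, ht, htT⟩ := extract1 (qs (sd A)) (qs_lip hs) i (2 * m + 1) (9 * n) x l x 0 T hl (by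
      rw [sub_self]
      unfold n1
      simp) hTl
    have hcardT : T.card ≤ 64 * n / 2 ^ A.card := by
      have h1 : T.card ≤ (Sv (ms (sd A) B) i).card := Finset.card_image_le
      refine h1.trans ?_
      rw [Nat.le_div_iff_mul_le (pow_pos (by norm_num) _)]
      have h2 := card_Sv_ms hs 2 (sd_le A) B i
      rw [hB.2.2.2, prod_sd] at h2
      exact h2
    unfold cod2
    rw [Finset.mem_biUnion]
    refine ⟨T.card, Finset.mem_range.mpr (by omega), ?_⟩
    rw [Finset.mem_biUnion]
    refine ⟨t, wl_mono Nat.one_pos _ (by omega) ht, ?_⟩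
    rw [Finset.mem_powerset, htT]
    intro c hc
    have hmem : qs (sd A) (u c) ∈ T := Finset.mem_image_of_mem (fun c => qs (sd A) (u c)) hc
    rw [Finset.mem_union]
    rcases hu2 c hc with h | h
    · left
      rw [← h]
      exact hmem
    · right
      rw [Finset.mem_image]
      refine ⟨qs (sd A) (u c), hmem, ?_⟩
      rw [h]
      abel
  unfold fam2
  rw [Finset.mem_image]
  refine ⟨_, hcode, ?_⟩
  have hex : ∃ M, Sv M i = Sv (ms (sd A) B) i := ⟨_, rfl⟩
  rw [dif_pos hex]
  exact Sv_inj hex.choose_spec

theorem length_wl {R : ℕ} (hR : 0 < R) (m : ℕ) : ∀ (N : ℕ) (a : Site d) (t : List (Site d)),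
    t ∈ wl R m N a → t.length = m := by
  induction m with
  | zero =>
    intro N a t ht
    rw [mem_wl_zero] at ht
    rw [ht]
    rfl
  | succ m ih =>
    intro N a t ht
    rw [mem_wl_succ hR] at ht
    obtain ⟨b, _, t', ht', rfl⟩ := ht
    rw [List.length_cons, ih _ _ _ ht']

/-- **Number of coarse-grained contours** -/
theorem card_fam2 (K n : ℕ) (A : Finset (Fin d)) (x : Site d) (i : Fin d) (δ : ℝ) (hδ0 : 0 < δ)
    (hδ1 : δ ≤ 1) :
    ((fam2 K n A x i).card : ℝ) ≤ Real.exp (11 * n * δ + (d * Real.log (4 / δ) + 3) * K) := by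
  have h1 : ((fam2 K n A x i).card : ℝ) ≤ (cod2 K n A x i).card := by
    exact_mod_cast Finset.card_image_le
  refine h1.trans ?_
  set z : ℝ := Real.exp (-δ) with hz
  have hz0 : 0 < z := Real.exp_pos _
  have hz1 : z < 1 := by
    rw [hz, Real.exp_lt_one_iff]
    linarith
  have h2 : 2 / (1 - z) ≤ 4 / δ := by
    have h3 : z ≤ 1 - δ / 2 := by
      have h4 : z ≤ 1 / (1 + δ) := by
        rw [hz, Real.exp_neg, ← one_div]
        apply one_div_le_one_div_of_le (by linarith)
        linarith [Real.add_one_le_exp δ]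
      refine h4.trans ?_
      rw [div_le_iff₀ (by linarith)]
      nlinarith
    rw [div_le_div_iff₀ (by linarith) hδ0]
    linarith
  have h2' : 0 ≤ 2 / (1 - z) := by
    have h3 : 0 < 1 - z := by linarith
    positivity
  have h4δ : 1 ≤ 4 / δ := by
    rw [le_div_iff₀ hδ0]
    linarith
  have hlog : 0 ≤ Real.log (4 / δ) := Real.log_nonneg h4δ
  have hwl : ∀ m, m ≤ K → ((wl 1 m (11 * n) (qs (sd A) x)).card : ℝ) ≤
      Real.exp (11 * n * δ + d * Real.log (4 / δ) * K) := by
    intro m hm
    have h3 := card_wl Nat.one_pos z hz0 hz1 m (11 * n) (qs (sd A) x)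
    rw [pow_one] at h3
    have hzN : 0 < z ^ (11 * n) := by positivity
    have h5 : ((2 / (1 - z)) ^ d) ^ m ≤ Real.exp (d * Real.log (4 / δ) * K) := by
      rw [← pow_mul]
      calc (2 / (1 - z)) ^ (d * m) ≤ (4 / δ) ^ (d * m) := pow_le_pow_left₀ h2' h2 _
        _ ≤ (4 / δ) ^ (d * K) := pow_le_pow_right₀ h4δ (Nat.mul_le_mul_left d hm)
        _ = Real.exp (((d * K : ℕ) : ℝ) * Real.log (4 / δ)) := by
            rw [Real.exp_nat_mul, Real.exp_log (by linarith)]
        _ = Real.exp (d * Real.log (4 / δ) * K) := by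
            congr 1
            push_cast
            ring
    have h6 : (z ^ (11 * n))⁻¹ = Real.exp (11 * n * δ) := by
      rw [hz, ← Real.exp_nat_mul, ← Real.exp_neg]
      congr 1
      push_cast
      ring
    calc ((wl 1 m (11 * n) (qs (sd A) x)).card : ℝ)
        = ((wl 1 m (11 * n) (qs (sd A) x)).card : ℝ) * z ^ (11 * n) * (z ^ (11 * n))⁻¹ :=
          (mul_inv_cancel_right₀ hzN.ne' _).symm
      _ ≤ Real.exp (d * Real.log (4 / δ) * K) * Real.exp (11 * n * δ) := by
          rw [h6]
          exact mul_le_mul_of_nonneg_right (h3.trans h5) (Real.exp_pos _).le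
      _ = Real.exp (11 * n * δ + d * Real.log (4 / δ) * K) := by
          rw [← Real.exp_add]
          congr 1
          ring
  have h3 : ((cod2 K n A x i).card : ℝ) ≤ (K + 1 : ℕ) *
      (Real.exp (11 * n * δ + d * Real.log (4 / δ) * K) * Real.exp (2 * K)) := by
    unfold cod2
    refine (Nat.cast_le.mpr Finset.card_biUnion_le).trans ?_
    rw [Nat.cast_sum]
    calc ∑ m ∈ Finset.range (K + 1), (((wl 1 m (11 * n) (qs (sd A) x)).biUnion fun t =>
          (t.toFinset ∪ t.toFinset.image fun c => c - Pi.single i 1).powerset).card : ℝ)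
        ≤ ∑ m ∈ Finset.range (K + 1),
            (Real.exp (11 * n * δ + d * Real.log (4 / δ) * K) * Real.exp (2 * K)) := by
          apply Finset.sum_le_sum
          intro m hm
          rw [Finset.mem_range] at hm
          refine (Nat.cast_le.mpr Finset.card_biUnion_le).trans ?_
          rw [Nat.cast_sum]
          calc ∑ t ∈ wl 1 m (11 * n) (qs (sd A) x),
                (((t.toFinset ∪ t.toFinset.image fun c => c - Pi.single i 1).powerset).card : ℝ)
              ≤ ∑ t ∈ wl 1 m (11 * n) (qs (sd A) x), Real.exp (2 * K) := by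
                apply Finset.sum_le_sum
                intro t ht
                have hlen : t.length = m := length_wl Nat.one_pos m _ _ t ht
                have hc : (t.toFinset ∪ t.toFinset.image fun c => c - Pi.single i 1).card ≤
                    2 * K := by
                  refine (Finset.card_union_le _ _).trans ?_
                  have h3 : t.toFinset.card ≤ m := by
                    rw [← hlen]
                    exact List.toFinset_card_le t
                  have h4 : (t.toFinset.image fun c => c - Pi.single i 1).card ≤ m :=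
                    Finset.card_image_le.trans h3
                  omega
                rw [Finset.card_powerset]
                push_cast
                calc (2 : ℝ) ^ (t.toFinset ∪ t.toFinset.image fun c => c - Pi.single i 1).card
                    ≤ 2 ^ (2 * K) := pow_le_pow_right₀ (by norm_num) hc
                  _ ≤ (Real.exp 1) ^ (2 * K) := by
                      apply pow_le_pow_left₀ (by norm_num)
                      linarith [Real.add_one_le_exp (1 : ℝ)]
                  _ = Real.exp (2 * K) := by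
                      rw [← Real.exp_nat_mul]
                      push_cast
                      ring_nf
            _ = ((wl 1 m (11 * n) (qs (sd A) x)).card : ℝ) *
                  Real.exp (2 * K) := by rw [Finset.sum_const, nsmul_eq_mul]
            _ ≤ _ := mul_le_mul_of_nonneg_right (hwl m (by omega)) (Real.exp_pos _).le
      _ = _ := by rw [Finset.sum_const, Finset.card_range, nsmul_eq_mul]
  refine h3.trans ?_
  have h4 : ((K + 1 : ℕ) : ℝ) ≤ Real.exp K := by
    push_cast
    exact Real.add_one_le_exp _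
  calc ((K + 1 : ℕ) : ℝ) * (Real.exp (11 * n * δ + d * Real.log (4 / δ) * K) * Real.exp (2 * K))
      ≤ Real.exp K * (Real.exp (11 * n * δ + d * Real.log (4 / δ) * K) * Real.exp (2 * K)) :=
        mul_le_mul_of_nonneg_right h4 (by positivity)
    _ = Real.exp (11 * n * δ + (d * Real.log (4 / δ) + 3) * K) := by
        rw [← Real.exp_add, ← Real.exp_add]
        congr 1
        ring

/-- **Choice of directions** with few boundary edges -/
theorem exists_dirs (B : Finset (Site d)) (j : ℕ) (hj : j ≤ d) :
    ∃ A : Finset (Fin d), A.card = j ∧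
      d * ∑ i ∈ A, (Sv B i).card ≤ j * (bdE (lat d) B).card := by
  rcases Nat.eq_zero_or_pos d with rfl | hd0
  · exact ⟨∅, by simp; omega, by simp⟩
  obtain ⟨A, hAj, hA⟩ : ∃ A : Finset (Fin d), A.card = j ∧
      ∀ a ∈ A, ∀ b ∉ A, (Sv B a).card ≤ (Sv B b).card := by
    have key : ∀ j ≤ d, ∃ A : Finset (Fin d), A.card = j ∧
        ∀ a ∈ A, ∀ b ∉ A, (Sv B a).card ≤ (Sv B b).card := by
      intro j
      induction j with
      | zero => exact fun _ => ⟨∅, rfl, by simp⟩
      | succ j ih =>
        intro hj
        obtain ⟨A, hA, hmin⟩ := ih (by omega)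
        have hne : (Finset.univ \ A).Nonempty := by
          rw [← Finset.card_pos, Finset.card_sdiff_of_subset (Finset.subset_univ _),
            Finset.card_univ, Fintype.card_fin]
          omega
        obtain ⟨c, hc, hcmin⟩ := Finset.exists_min_image (Finset.univ \ A)
          (fun i => (Sv B i).card) hne
        have hcA : c ∉ A := (Finset.mem_sdiff.mp hc).2
        refine ⟨insert c A, by rw [Finset.card_insert_of_notMem hcA, hA], ?_⟩
        intro a ha b hb
        rw [Finset.mem_insert] at ha
        rw [Finset.mem_insert, not_or] at hb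
        rcases ha with rfl | ha
        · exact hcmin b (Finset.mem_sdiff.mpr ⟨Finset.mem_univ _, hb.2⟩)
        · exact hmin a ha b hb.2
    exact key j hj
  refine ⟨A, hAj, ?_⟩
  -- compare the averages inside and outside
  have h1 : Aᶜ.card * ∑ i ∈ A, (Sv B i).card ≤ A.card * ∑ i ∈ Aᶜ, (Sv B i).card := by
    calc Aᶜ.card * ∑ i ∈ A, (Sv B i).card = ∑ b ∈ Aᶜ, ∑ a ∈ A, (Sv B a).card := by
          rw [Finset.sum_const, smul_eq_mul]
      _ ≤ ∑ b ∈ Aᶜ, ∑ a ∈ A, (Sv B b).card := by
          apply Finset.sum_le_sum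
          intro b hb
          apply Finset.sum_le_sum
          intro a ha
          exact hA a ha b (Finset.mem_compl.mp hb)
      _ = A.card * ∑ i ∈ Aᶜ, (Sv B i).card := by
          rw [Finset.mul_sum]
          apply Finset.sum_congr rfl
          intro b _
          rw [Finset.sum_const, smul_eq_mul]
  have h2 : A.card + Aᶜ.card = d := by
    rw [Finset.card_add_card_compl, Fintype.card_fin]
  have h3 : ∑ i ∈ A, (Sv B i).card + ∑ i ∈ Aᶜ, (Sv B i).card = ∑ i, (Sv B i).card :=
    Finset.sum_add_sum_compl A _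
  have h4 := sum_Sv B
  calc d * ∑ i ∈ A, (Sv B i).card
      = A.card * ∑ i ∈ A, (Sv B i).card + Aᶜ.card * ∑ i ∈ A, (Sv B i).card := by
        rw [← add_mul, h2]
    _ ≤ A.card * ∑ i ∈ A, (Sv B i).card + A.card * ∑ i ∈ Aᶜ, (Sv B i).card :=
        Nat.add_le_add_left h1 _
    _ = A.card * ∑ i, (Sv B i).card := by rw [← mul_add, h3]
    _ ≤ j * (bdE (lat d) B).card := by
        rw [hAj]
        exact Nat.mul_le_mul_left _ h4

end Pool.T9h81.HL
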