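import Pool.Agent.T9h81.HL.Chain
import Pool.Agent.T9h81.HL.FamS

/-!
# Chaining from a given scale
-/

set_option autoImplicit false

open MeasureTheory
open scoped Classical symmDiff

namespace Pool.T9h81.HL

open Pool.T9h81.EAR

variable {d : ℕ}

theorem num_c (n j : ℕ) (lam : ℝ) (hn : 0 < n) (hlam : 0 < lam) (hj : 4 ^ j ≤ 32 * n)
    (hN : 10 ^ 27 ≤ n * lam ^ 12) :
    Real.exp (-(lam * (n * (49 / 128) ^ j))) ≤ 1 / (8000 * n ^ 2) * (1 / 2) ^ j := by
  have hn' : (0 : ℝ) < n := by exact_mod_cast hn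
  set x : ℝ := lam * (n * (49 / 128) ^ j) with hx
  have hx0 : 0 < x := by positivity
  have h1 : x ^ 12 / (Nat.factorial 12 : ℕ) ≤ Real.exp x :=
    Real.pow_div_factorial_le_exp x hx0.le 12
  have hf : ((Nat.factorial 12 : ℕ) : ℝ) = 479001600 := by
    norm_num [Nat.factorial]
  rw [hf] at h1
  have h2 : 479001600 * (8000 * (n : ℝ) ^ 2) * 2 ^ j ≤ x ^ 12 := by
    have h3 : ((2 / 4 ^ 9 : ℝ)) ^ j ≤ ((49 / 128 : ℝ) ^ 12) ^ j :=
      pow_le_pow_left₀ (by norm_num) (by norm_num) j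
    have h4 : ((2 / 4 ^ 9 : ℝ)) ^ j = 2 ^ j / (4 ^ j) ^ 9 := by
      rw [div_pow, ← pow_mul, ← pow_mul, mul_comm 9 j]
    have h5 : ((4 : ℝ) ^ j) ≤ 32 * n := by exact_mod_cast hj
    have h6 : ((4 : ℝ) ^ j) ^ 9 ≤ (32 * n) ^ 9 := pow_le_pow_left₀ (by positivity) h5 9
    have h7 : (2 : ℝ) ^ j / (32 * n) ^ 9 ≤ 2 ^ j / (4 ^ j) ^ 9 :=
      div_le_div_of_nonneg_left (by positivity) (by positivity) h6
    have h8 : x ^ 12 = lam ^ 12 * n ^ 12 * ((49 / 128 : ℝ) ^ 12) ^ j := by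
      rw [hx, mul_pow, mul_pow, ← pow_mul, ← pow_mul, mul_comm 12 j, mul_assoc]
    rw [h8]
    calc 479001600 * (8000 * (n : ℝ) ^ 2) * 2 ^ j ≤ 10 ^ 27 / 32 ^ 9 * (n : ℝ) ^ 2 * 2 ^ j := by
          apply mul_le_mul_of_nonneg_right _ (by positivity)
          rw [← mul_assoc]
          apply mul_le_mul_of_nonneg_right _ (by positivity)
          norm_num
      _ ≤ (n * lam ^ 12) / 32 ^ 9 * (n : ℝ) ^ 2 * 2 ^ j := by
          apply mul_le_mul_of_nonneg_right _ (by positivity)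
          apply mul_le_mul_of_nonneg_right _ (by positivity)
          exact div_le_div_of_nonneg_right hN (by positivity)
      _ = lam ^ 12 * (n : ℝ) ^ 12 * (2 ^ j / (32 * (n : ℝ)) ^ 9) := by
          field_simp
      _ ≤ lam ^ 12 * (n : ℝ) ^ 12 * ((49 / 128 : ℝ) ^ 12) ^ j := by
          apply mul_le_mul_of_nonneg_left _ (by positivity)
          rw [h4] at h3
          exact h7.trans h3
  rw [Real.exp_neg, ← one_div]
  have h9 : 0 < x ^ 12 := by positivity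
  have h10 : 1 / Real.exp x ≤ 479001600 / x ^ 12 := by
    rw [div_le_div_iff₀ (Real.exp_pos _) h9]
    have := h1
    rw [div_le_iff₀ (by norm_num)] at this
    linarith
  refine h10.trans ?_
  rw [div_le_iff₀ h9]
  have h11 : 1 / (8000 * (n : ℝ) ^ 2) * (1 / 2) ^ j * (479001600 * (8000 * (n : ℝ) ^ 2) * 2 ^ j) =
      479001600 := by
    rw [one_div_pow]
    field_simp
  calc (479001600 : ℝ) = 1 / (8000 * (n : ℝ) ^ 2) * (1 / 2) ^ j *
        (479001600 * (8000 * (n : ℝ) ^ 2) * 2 ^ j) := h11.symm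
    _ ≤ 1 / (8000 * (n : ℝ) ^ 2) * (1 / 2) ^ j * x ^ 12 :=
        mul_le_mul_of_nonneg_left h2 (by positivity)

theorem card_symmDiff_le (B C C' : Finset (Site d)) :
    (C ∆ C').card ≤ (B ∆ C).card + (B ∆ C').card := by
  have h3 : (C ∆ C') ⊆ (B ∆ C) ∪ (B ∆ C') := by
    intro y hy
    rw [Finset.mem_symmDiff] at hy
    rw [Finset.mem_union, Finset.mem_symmDiff, Finset.mem_symmDiff]
    tauto
  exact (Finset.card_le_card h3).trans (Finset.card_union_le _ _)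

/-- **Chaining from the scale `2 ^ l₀`.** -/
theorem chain_from {Ω : Type} [MeasurableSpace Ω] (μ : Measure Ω) [IsProbabilityMeasure μ]
    (hd : 3 ≤ d) (x : Site d) (n : ℕ) (hn : 0 < n) (g : Finset (Site d) → Ω → ℝ)
    (hg0 : ∀ ω, g ∅ ω = 0) (s a : ℝ) (hs : 0 < s) (ha : 0 < a)
    (htail : ∀ (C C' : Finset (Site d)) (t : ℝ) (N : ℕ), 0 < t → 0 < N → (C ∆ C').card ≤ N →
      μ.real {ω | t ≤ g C ω - g C' ω} ≤ Real.exp (-(t ^ 2 / (s * N)))) (l₀ : ℕ)
    (hA : 230400 * d * (l₀ + 1) * s ≤ a ^ 2 * 2 ^ l₀)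
    (hN : 10 ^ 27 ≤ n * (a ^ 2 / (768 * s * 2 ^ l₀)) ^ 12) :
    μ.real {ω | ∃ B ∈ ctr (by omega) x n, a * n ≤ g (cg (2 ^ l₀) B) ω} ≤ 1 / (4000 * n ^ 2) := by
  have hn' : (0 : ℝ) < n := by exact_mod_cast hn
  have hdr : (3 : ℝ) ≤ d := by exact_mod_cast hd
  set lam : ℝ := a ^ 2 / (768 * s * 2 ^ l₀) with hlam
  have hlam0 : 0 < lam := by positivity
  set i : Fin d := ⟨0, by omega⟩ with hi
  have hex : ∃ L : ℕ, 32 * n < 4 ^ L := ⟨32 * n, Nat.lt_pow_self (by norm_num)⟩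
  set L := Nat.find hex with hL
  have hLspec : 32 * n < 4 ^ L := Nat.find_spec hex
  have hLmin : ∀ l < L, 4 ^ l ≤ 32 * n := fun l hl => not_lt.mp (Nat.find_min hex hl)
  -- the inclusion
  have hsub : {ω | ∃ B ∈ ctr (by omega : 2 ≤ d) x n, a * n ≤ g (cg (2 ^ l₀) B) ω} ⊆
      ⋃ j ∈ Finset.range L, ⋃ p ∈ prs n (l₀ + j) x i,
        {ω | th a n j ≤ g (un (2 ^ (l₀ + j)) p.1) ω - g (un (2 ^ (l₀ + j + 1)) p.2) ω} := by
    rintro ω ⟨B, hB, hω⟩
    have hC := (mem_ctr (by omega : 2 ≤ d)).mp hB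
    have hcard := hC.2.2.2
    by_contra hcon
    simp only [Set.mem_iUnion, not_exists] at hcon
    have hlt : ∀ j ∈ Finset.range L,
        g (cg (2 ^ (l₀ + j)) B) ω - g (cg (2 ^ (l₀ + (j + 1))) B) ω < th a n j := by
      intro j hj
      by_contra h
      rw [not_lt] at h
      refine hcon j hj (mj (2 ^ (l₀ + j)) B, mj (2 ^ (l₀ + j + 1)) B) ?_ h
      unfold prs
      rw [Finset.mem_filter, Finset.mem_product]
      refine ⟨⟨mj_mem_fam (by positivity) hd x n B hC i,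
        mj_mem_fam (by positivity) hd x n B hC i⟩, ?_⟩
      have h1 := card_diff (R := 2 ^ (l₀ + j)) (by positivity) B
      have h2 := card_diff (R := 2 ^ (l₀ + j + 1)) (by positivity) B
      rw [hcard] at h1 h2
      have h4 := card_symmDiff_le B (cg (2 ^ (l₀ + j)) B) (cg (2 ^ (l₀ + j + 1)) B)
      show (cg (2 ^ (l₀ + j)) B ∆ cg (2 ^ (l₀ + j + 1)) B).card ≤ 6 * 2 ^ (l₀ + j) * n
      have h5 : 2 * 2 ^ (l₀ + j + 1) * n = 4 * 2 ^ (l₀ + j) * n := by ring
      rw [h5] at h2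
      have h6 : 6 * 2 ^ (l₀ + j) * n = 2 * 2 ^ (l₀ + j) * n + 4 * 2 ^ (l₀ + j) * n := by ring
      rw [h6]
      omega
    have hL0 : 0 < L := by
      by_contra h
      have : L = 0 := by omega
      rw [this] at hLspec
      omega
    have hsum := Finset.sum_lt_sum_of_nonempty ⟨0, Finset.mem_range.mpr hL0⟩ hlt
    rw [Finset.sum_range_sub' (fun j => g (cg (2 ^ (l₀ + j)) B) ω)] at hsum
    have h2 : cg (2 ^ (l₀ + L)) B = ∅ := by
      unfold cg
      rw [mj_empty (by positivity) hd B]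
      · rfl
      · rw [hcard, ← pow_mul, mul_comm (l₀ + L) 2, pow_mul]
        refine hLspec.trans_le ?_
        exact Nat.pow_le_pow_right (by norm_num) (by omega)
    rw [add_zero, h2, hg0, sub_zero] at hsum
    have h3 := sum_th a ha n L
    linarith
  -- each scale
  have hone : ∀ j ∈ Finset.range L, ∑ p ∈ prs n (l₀ + j) x i,
      μ.real {ω | th a n j ≤ g (un (2 ^ (l₀ + j)) p.1) ω - g (un (2 ^ (l₀ + j + 1)) p.2) ω} ≤
      1 / (8000 * n ^ 2) * (1 / 2) ^ j := by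
    intro j hj
    have hl' := hLmin j (Finset.mem_range.mp hj)
    have hth : 0 < th a n j := by
      unfold th
      positivity
    have h1 : ∀ p ∈ prs n (l₀ + j) x i,
        μ.real {ω | th a n j ≤ g (un (2 ^ (l₀ + j)) p.1) ω - g (un (2 ^ (l₀ + j + 1)) p.2) ω} ≤
        Real.exp (-(2 * lam * (n * (49 / 128) ^ j))) := by
      intro p hp
      refine (htail _ _ _ (6 * 2 ^ (l₀ + j) * n) hth (by positivity)
        (Finset.mem_filter.mp hp).2).trans ?_
      apply Real.exp_le_exp.mpr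
      apply neg_le_neg
      apply le_of_eq
      rw [hlam]
      unfold th
      push_cast
      have h4 : (49 / 128 : ℝ) ^ j = ((7 / 8) ^ j) ^ 2 / 2 ^ j := by
        rw [← pow_mul, mul_comm j 2, pow_mul, ← div_pow]
        norm_num
      rw [h4, pow_add]
      field_simp
      ring
    have h2 : ((prs n (l₀ + j) x i).card : ℝ) ≤ Real.exp (lam * (n * (49 / 128) ^ j)) := by
      have h3 : ((prs n (l₀ + j) x i).card : ℝ) ≤ ((fam (2 ^ (l₀ + j)) n x i).card : ℝ) *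
          ((fam (2 ^ (l₀ + j + 1)) n x i).card : ℝ) := by
        unfold prs
        rw [← Nat.cast_mul, ← Finset.card_product]
        exact_mod_cast Finset.card_filter_le _ _
      have h4 := card_fam hd (l₀ + j) n x i
      have h5 := card_fam hd (l₀ + j + 1) n x i
      refine h3.trans ((mul_le_mul h4 h5 (Nat.cast_nonneg _) (Real.exp_pos _).le).trans ?_)
      rw [← Real.exp_add]
      apply Real.exp_le_exp.mpr
      have h6 := num_a j
      have h7 := num_a (j + 1)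
      have h10 : (49 / 128 : ℝ) ^ (j + 1) = 49 / 128 * (49 / 128) ^ j := pow_succ' _ _
      rw [h10] at h7
      have hl0 : (0 : ℝ) ≤ l₀ := Nat.cast_nonneg l₀
      have hj0 : (0 : ℝ) ≤ j := Nat.cast_nonneg j
      have h4l : (0 : ℝ) < (1 / 4) ^ l₀ := by positivity
      have h8 : 132 * (d : ℝ) * (((l₀ + j : ℕ) : ℝ) + 1) * (n / 4 ^ (l₀ + j)) ≤
          132 * (d * n * (l₀ + 1) * (1 / 4) ^ l₀) * (((j : ℝ) + 1) * (1 / 4) ^ j) := by
        have h9 : (n : ℝ) / 4 ^ (l₀ + j) = n * ((1 / 4) ^ l₀ * (1 / 4) ^ j) := by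
          rw [← pow_add, one_div_pow]
          ring
        rw [h9]
        have h11 : (((l₀ + j : ℕ) : ℝ) + 1) ≤ (l₀ + 1) * (j + 1) := by
          push_cast
          nlinarith
        calc 132 * (d : ℝ) * (((l₀ + j : ℕ) : ℝ) + 1) * (n * ((1 / 4) ^ l₀ * (1 / 4) ^ j))
            = (((l₀ + j : ℕ) : ℝ) + 1) * (132 * d * n * ((1 / 4) ^ l₀ * (1 / 4) ^ j)) := by ring
          _ ≤ ((l₀ + 1) * (j + 1)) * (132 * d * n * ((1 / 4) ^ l₀ * (1 / 4) ^ j)) :=
              mul_le_mul_of_nonneg_right h11 (by positivity)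
          _ = _ := by ring
      have h8' : 132 * (d : ℝ) * (((l₀ + j + 1 : ℕ) : ℝ) + 1) * (n / 4 ^ (l₀ + j + 1)) ≤
          132 * (d * n * (l₀ + 1) * (1 / 4) ^ l₀) *
            ((((j + 1 : ℕ) : ℝ) + 1) * (1 / 4) ^ (j + 1)) := by
        have h9 : (n : ℝ) / 4 ^ (l₀ + j + 1) = n * ((1 / 4) ^ l₀ * (1 / 4) ^ (j + 1)) := by
          rw [← pow_add, one_div_pow, add_assoc]
          ring
        rw [h9]
        have h11 : (((l₀ + j + 1 : ℕ) : ℝ) + 1) ≤ (l₀ + 1) * (((j + 1 : ℕ) : ℝ) + 1) := by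
          push_cast
          nlinarith
        calc 132 * (d : ℝ) * (((l₀ + j + 1 : ℕ) : ℝ) + 1) *
              (n * ((1 / 4) ^ l₀ * (1 / 4) ^ (j + 1)))
            = (((l₀ + j + 1 : ℕ) : ℝ) + 1) *
              (132 * d * n * ((1 / 4) ^ l₀ * (1 / 4) ^ (j + 1))) := by ring
          _ ≤ ((l₀ + 1) * (((j + 1 : ℕ) : ℝ) + 1)) *
              (132 * d * n * ((1 / 4) ^ l₀ * (1 / 4) ^ (j + 1))) :=
              mul_le_mul_of_nonneg_right h11 (by positivity)
          _ = _ := by ring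
      set Q : ℝ := d * n * (l₀ + 1) * (1 / 4) ^ l₀ with hQ
      have hQ0 : 0 ≤ Q := by positivity
      have h12 : 300 * Q ≤ lam * n := by
        rw [hQ, hlam, one_div_pow]
        have h13 : (4 : ℝ) ^ l₀ = 2 ^ l₀ * 2 ^ l₀ := by
          rw [← mul_pow]
          norm_num
        rw [h13]
        have h14 : a ^ 2 / (768 * s * 2 ^ l₀) * n = (a ^ 2 * 2 ^ l₀) * n /
            (768 * s * (2 ^ l₀ * 2 ^ l₀)) := by
          field_simp
        have h15 : 300 * ((d : ℝ) * n * (l₀ + 1) * (1 / (2 ^ l₀ * 2 ^ l₀))) =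
            (230400 * d * (l₀ + 1) * s) * n / (768 * s * (2 ^ l₀ * 2 ^ l₀)) := by
          field_simp
          ring
        rw [h14, h15]
        apply div_le_div_of_nonneg_right _ (by positivity)
        exact mul_le_mul_of_nonneg_right hA hn'.le
      calc 132 * (d : ℝ) * (((l₀ + j : ℕ) : ℝ) + 1) * (n / 4 ^ (l₀ + j)) +
            132 * (d : ℝ) * (((l₀ + j + 1 : ℕ) : ℝ) + 1) * (n / 4 ^ (l₀ + j + 1))
          ≤ 132 * Q * (((j : ℝ) + 1) * (1 / 4) ^ j) +
            132 * Q * ((((j + 1 : ℕ) : ℝ) + 1) * (1 / 4) ^ (j + 1)) := add_le_add h8 h8'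
        _ ≤ 132 * Q * (3 / 2 * (49 / 128) ^ j) +
            132 * Q * (3 / 2 * (49 / 128 * (49 / 128) ^ j)) :=
            add_le_add (mul_le_mul_of_nonneg_left h6 (by positivity))
              (mul_le_mul_of_nonneg_left h7 (by positivity))
        _ = (132 * (3 / 2) * (177 / 128)) * (Q * (49 / 128) ^ j) := by ring
        _ ≤ 300 * (Q * (49 / 128) ^ j) := by
            apply mul_le_mul_of_nonneg_right _ (by positivity)
            norm_num
        _ = (300 * Q) * (49 / 128) ^ j := by ring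
        _ ≤ (lam * n) * (49 / 128) ^ j := mul_le_mul_of_nonneg_right h12 (by positivity)
        _ = lam * (n * (49 / 128) ^ j) := by ring
    calc ∑ p ∈ prs n (l₀ + j) x i,
          μ.real {ω | th a n j ≤ g (un (2 ^ (l₀ + j)) p.1) ω - g (un (2 ^ (l₀ + j + 1)) p.2) ω}
        ≤ ∑ p ∈ prs n (l₀ + j) x i, Real.exp (-(2 * lam * (n * (49 / 128) ^ j))) :=
          Finset.sum_le_sum h1
      _ = ((prs n (l₀ + j) x i).card : ℝ) * Real.exp (-(2 * lam * (n * (49 / 128) ^ j))) := by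
          rw [Finset.sum_const, nsmul_eq_mul]
      _ ≤ Real.exp (lam * (n * (49 / 128) ^ j)) *
          Real.exp (-(2 * lam * (n * (49 / 128) ^ j))) :=
          mul_le_mul_of_nonneg_right h2 (Real.exp_pos _).le
      _ = Real.exp (-(lam * (n * (49 / 128) ^ j))) := by
          rw [← Real.exp_add]
          congr 1
          ring
      _ ≤ 1 / (8000 * n ^ 2) * (1 / 2) ^ j := num_c n j lam hn hlam0 hl' hN
  calc μ.real {ω | ∃ B ∈ ctr (by omega : 2 ≤ d) x n, a * n ≤ g (cg (2 ^ l₀) B) ω}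
      ≤ μ.real (⋃ j ∈ Finset.range L, ⋃ p ∈ prs n (l₀ + j) x i,
        {ω | th a n j ≤ g (un (2 ^ (l₀ + j)) p.1) ω - g (un (2 ^ (l₀ + j + 1)) p.2) ω}) :=
        measureReal_mono hsub (measure_ne_top _ _)
    _ ≤ ∑ j ∈ Finset.range L, μ.real (⋃ p ∈ prs n (l₀ + j) x i,
        {ω | th a n j ≤ g (un (2 ^ (l₀ + j)) p.1) ω - g (un (2 ^ (l₀ + j + 1)) p.2) ω}) :=
        measureReal_biUnion_finset_le _ _
    _ ≤ ∑ j ∈ Finset.range L, ∑ p ∈ prs n (l₀ + j) x i,
        μ.real {ω | th a n j ≤ g (un (2 ^ (l₀ + j)) p.1) ω - g (un (2 ^ (l₀ + j + 1)) p.2) ω} :=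
        Finset.sum_le_sum fun j _ => measureReal_biUnion_finset_le _ _
    _ ≤ ∑ j ∈ Finset.range L, 1 / (8000 * n ^ 2) * (1 / 2 : ℝ) ^ j := Finset.sum_le_sum hone
    _ = 1 / (8000 * n ^ 2) * ∑ j ∈ Finset.range L, (1 / 2 : ℝ) ^ j := (Finset.mul_sum _ _ _).symm
    _ ≤ 1 / (8000 * n ^ 2) * 2 := by
        apply mul_le_mul_of_nonneg_left _ (by positivity)
        have h2 : ∑' l : ℕ, (1 / 2 : ℝ) ^ l = 2 := tsum_geometric_two
        exact (summable_geometric_two.sum_le_tsum (Finset.range L)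
          fun l _ => by positivity).trans h2.le
    _ = 1 / (4000 * n ^ 2) := by
        field_simp
        norm_num

end Pool.T9h81.HL
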