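import Pool.Agent.T9h81.HL.ChainS

/-!
# The three links in high dimension
-/

set_option autoImplicit false

open MeasureTheory Filter Topology
open scoped Classical symmDiff

namespace Pool.T9h81.HL

open Pool.T9h81.EAR

variable {d : ℕ}

theorem union_le {Ω ι : Type} [MeasurableSpace Ω] (μ : Measure Ω) [IsProbabilityMeasure μ]
    (F : Finset ι) (P : ι → Ω → Prop) (e : ℝ) (h : ∀ i ∈ F, μ.real {ω | P i ω} ≤ e) :
    μ.real {ω | ∃ i ∈ F, P i ω} ≤ F.card * e := by
  have hset : {ω | ∃ i ∈ F, P i ω} = ⋃ i ∈ F, {ω | P i ω} := by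
    ext ω
    simp
  rw [hset]
  calc μ.real (⋃ i ∈ F, {ω | P i ω}) ≤ ∑ i ∈ F, μ.real {ω | P i ω} :=
        measureReal_biUnion_finset_le _ _
    _ ≤ ∑ i ∈ F, e := Finset.sum_le_sum h
    _ = F.card * e := by rw [Finset.sum_const, nsmul_eq_mul]

theorem log_ge_one (hd : 3 ≤ d) : 1 ≤ Real.log d := by
  have hdr : (3 : ℝ) ≤ d := by exact_mod_cast hd
  have h1 : Real.exp 1 ≤ d := by
    have := Real.exp_one_lt_d9
    linarith
  rw [← Real.log_exp 1]
  exact Real.log_le_log (Real.exp_pos _) h1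

theorem wz_aux (hd : 3 ≤ d) (x : Site d) (n : ℕ) (t : ℝ)
    (ht : 45 * (n * (Real.log d / d)) ≤ t) :
    ((ctr (by omega) x n).card : ℝ) * Real.exp (-t) ≤ wz d n / 1000 := by
  by_cases hn : n < d
  · rw [ctr_empty (by omega) hn, Finset.card_empty, Nat.cast_zero, zero_mul]
    exact div_nonneg (wz_nonneg d n) (by norm_num)
  rw [not_lt] at hn
  have hdr : (3 : ℝ) ≤ d := by exact_mod_cast hd
  have hn' : (d : ℝ) ≤ n := by exact_mod_cast hn
  have hlog := log_ge_one hd
  have h1 := wz_bound (by omega : 2 ≤ d) x n (t - 7 * (n * (Real.log d / d))) (by linarith)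
  have h2 : (7 : ℝ) ≤ 7 * (n * (Real.log d / d)) := by
    have h3 : 1 ≤ (n : ℝ) * (Real.log d / d) := by
      calc (1 : ℝ) ≤ Real.log d := hlog
        _ = d * (Real.log d / d) := by field_simp
        _ ≤ n * (Real.log d / d) := mul_le_mul_of_nonneg_right hn' (by positivity)
    linarith
  have h4 : Real.exp (-7) ≤ 1 / 1000 := by
    have h5 : Real.exp (-7) = (Real.exp 1)⁻¹ ^ 7 := by
      rw [← Real.exp_neg, ← Real.exp_nat_mul]
      norm_num
    have h6 : (2.7182818283 : ℝ) < Real.exp 1 := Real.exp_one_gt_d9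
    have h7 : (Real.exp 1)⁻¹ ≤ (2.7 : ℝ)⁻¹ := inv_anti₀ (by norm_num) (by linarith)
    rw [h5]
    calc (Real.exp 1)⁻¹ ^ 7 ≤ (2.7 : ℝ)⁻¹ ^ 7 :=
          pow_le_pow_left₀ (inv_nonneg.mpr (Real.exp_pos _).le) h7 7
      _ ≤ 1 / 1000 := by norm_num
  calc ((ctr (by omega) x n).card : ℝ) * Real.exp (-t)
      = ((ctr (by omega) x n).card : ℝ) * Real.exp (-(t - 7 * (n * (Real.log d / d)))) *
        Real.exp (-(7 * (n * (Real.log d / d)))) := by
        rw [mul_assoc, ← Real.exp_add]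
        congr 2
        ring
    _ ≤ wz d n * (1 / 1000) := by
        apply mul_le_mul h1 _ (Real.exp_pos _).le (wz_nonneg d n)
        refine le_trans ?_ h4
        apply Real.exp_le_exp.mpr
        linarith
    _ = wz d n / 1000 := by ring

/-- tail hypothesis -/
def Tail {Ω : Type} [MeasurableSpace Ω] (μ : Measure Ω) (g : Finset (Site d) → Ω → ℝ) (s : ℝ) :
    Prop :=
  ∀ (C C' : Finset (Site d)) (t : ℝ) (N : ℕ), 0 < t → 0 < N → (C ∆ C').card ≤ N →
      μ.real {ω | t ≤ g C ω - g C' ω} ≤ Real.exp (-(t ^ 2 / (s * N)))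

/-- **Small contours.** -/
theorem small_n {Ω : Type} [MeasurableSpace Ω] (μ : Measure Ω) [IsProbabilityMeasure μ]
    (hd : 3 ≤ d) (x : Site d) (n : ℕ) (g : Finset (Site d) → Ω → ℝ)
    (hg0 : ∀ ω, g ∅ ω = 0) (s a : ℝ) (hs : 0 < s) (ha : 0 < a) (htail : Tail μ g s)
    (hA : 29160 * (Real.log d / d) ^ 2 * s ≤ a ^ 2) (hn4 : n ^ 4 ≤ 2 ^ d) :
    μ.real {ω | ∃ B ∈ ctr (by omega) x n, a * n ≤ g B ω} ≤ wz d n / 1000 := by
  by_cases hn : n < d
  · have h1 : {ω | ∃ B ∈ ctr (by omega : 2 ≤ d) x n, a * n ≤ g B ω} = ∅ := by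
      rw [ctr_empty (by omega) hn]
      ext ω
      simp
    rw [h1, measureReal_empty]
    exact div_nonneg (wz_nonneg d n) (by norm_num)
  rw [not_lt] at hn
  have hdr : (3 : ℝ) ≤ d := by exact_mod_cast hd
  have hd0 : (0 : ℝ) < d := by linarith
  have hn' : (d : ℝ) ≤ n := by exact_mod_cast hn
  have hn0 : (0 : ℝ) < n := by linarith
  have hlog := log_ge_one hd
  have hdiv : 0 < n / d := Nat.div_pos hn (by omega)
  have hdivr : (0 : ℝ) < ((n / d : ℕ) : ℝ) := by exact_mod_cast hdiv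
  have hdivle : ((n / d : ℕ) : ℝ) ≤ n / d := Nat.cast_div_le
  refine (union_le μ _ _ (Real.exp (-((a * n) ^ 2 / (s * ((n / d : ℕ) : ℝ))))) ?_).trans ?_
  · intro B hB
    have hC := (mem_ctr (by omega : 2 ≤ d)).mp hB
    have h1 : B.card ≤ n ^ 2 := by
      have := card_le_sq (by omega : 2 ≤ d) B
      rwa [hC.2.2.2] at this
    have h2 : B.card ^ 2 ≤ 2 ^ d := by
      calc B.card ^ 2 ≤ (n ^ 2) ^ 2 := Nat.pow_le_pow_left h1 2
        _ = n ^ 4 := by rw [← pow_mul]
        _ ≤ 2 ^ d := hn4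
    have h3 := small_iso B h2 (Finset.card_pos.mpr ⟨x, hC.1⟩)
    rw [hC.2.2.2] at h3
    have h4 : (B ∆ ∅).card ≤ n / d := by
      rw [Nat.le_div_iff_mul_le (by omega), Nat.mul_comm]
      have h5 : B ∆ ∅ = B := by simp
      rw [h5]
      exact h3
    have h5 := htail B ∅ (a * n) (n / d) (by positivity) hdiv h4
    refine le_trans (le_of_eq ?_) h5
    congr 1
    ext ω
    show a * n ≤ g B ω ↔ a * n ≤ g B ω - g ∅ ω
    rw [hg0, sub_zero]
  · apply wz_aux hd
    rw [le_div_iff₀ (by positivity)]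
    have h1 : 45 * ((n : ℝ) * (Real.log d / d)) * (s * ((n / d : ℕ) : ℝ)) ≤
        45 * ((n : ℝ) * (Real.log d / d)) * (s * (n / d)) := by
      apply mul_le_mul_of_nonneg_left _ (by positivity)
      exact mul_le_mul_of_nonneg_left hdivle hs.le
    refine h1.trans ?_
    have h2 : 45 * ((n : ℝ) * (Real.log d / d)) * (s * (n / d)) =
        (45 * (Real.log d / d) * (1 / d) * s) * n ^ 2 := by
      field_simp
    have h3 : (a * n) ^ 2 = a ^ 2 * n ^ 2 := by ring
    rw [h2, h3]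
    apply mul_le_mul_of_nonneg_right _ (by positivity)
    refine le_trans ?_ hA
    apply mul_le_mul_of_nonneg_right _ hs.le
    have h4 : 1 / (d : ℝ) ≤ Real.log d / d := div_le_div_of_nonneg_right hlog hd0.le
    have h5 : 0 ≤ Real.log d / d := by positivity
    calc 45 * (Real.log d / d) * (1 / d) ≤ 45 * (Real.log d / d) * (Real.log d / d) :=
          mul_le_mul_of_nonneg_left h4 (by positivity)
      _ ≤ 29160 * (Real.log d / d) ^ 2 := by nlinarith [sq_nonneg (Real.log d / (d : ℝ))]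

/-- **First link.** -/
theorem link1 {Ω : Type} [MeasurableSpace Ω] (μ : Measure Ω) [IsProbabilityMeasure μ]
    (hd : 3 ≤ d) (x : Site d) (n : ℕ) (g : Finset (Site d) → Ω → ℝ)
    (s a : ℝ) (hs : 0 < s) (ha : 0 < a) (htail : Tail μ g s)
    (hA : 29160 * (Real.log d / d) ^ 2 * s ≤ a ^ 2) (j : ℕ) (hj0 : 0 < j)
    (hj1 : (j : ℝ) ≤ 18 * Real.log d) (A : Finset (Site d) → Finset (Fin d))
    (hAA : ∀ B, d * ∑ i ∈ A B, (Sv B i).card ≤ j * (bdE (lat d) B).card) :
    μ.real {ω | ∃ B ∈ ctr (by omega) x n, a / 3 * n ≤ g B ω - g (gs (sd (A B)) B) ω} ≤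
      wz d n / 1000 := by
  by_cases hn : n < d
  · have h1 : {ω | ∃ B ∈ ctr (by omega : 2 ≤ d) x n,
        a / 3 * n ≤ g B ω - g (gs (sd (A B)) B) ω} = ∅ := by
      rw [ctr_empty (by omega) hn]
      ext ω
      simp
    rw [h1, measureReal_empty]
    exact div_nonneg (wz_nonneg d n) (by norm_num)
  rw [not_lt] at hn
  have hdr : (3 : ℝ) ≤ d := by exact_mod_cast hd
  have hd0 : (0 : ℝ) < d := by linarith
  have hn' : (d : ℝ) ≤ n := by exact_mod_cast hn
  have hn0 : (0 : ℝ) < n := by linarith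
  have hlog := log_ge_one hd
  have hj0' : (0 : ℝ) < j := by exact_mod_cast hj0
  have hjn : d ≤ j * n := le_trans hn (Nat.le_mul_of_pos_left n hj0)
  have hdiv : 0 < j * n / d := Nat.div_pos hjn (by omega)
  have hdivle : ((j * n / d : ℕ) : ℝ) ≤ j * n / d := by
    have := Nat.cast_div_le (α := ℝ) (m := j * n) (n := d)
    push_cast at this
    exact this
  refine (union_le μ _ _ (Real.exp (-((a / 3 * n) ^ 2 / (s * ((4 * (j * n / d) : ℕ) : ℝ))))) ?_).trans
    ?_
  · intro B hB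
    have hC := (mem_ctr (by omega : 2 ≤ d)).mp hB
    have h1 := cards_diff (sd_pos (A B)) 2 (sd_le (A B)) B
    rw [filter_sd] at h1
    have h2 := hAA B
    rw [hC.2.2.2] at h2
    have h3 : ∑ i ∈ A B, (Sv B i).card ≤ j * n / d := by
      rw [Nat.le_div_iff_mul_le (by omega), Nat.mul_comm]
      exact h2
    exact htail _ _ _ (4 * (j * n / d)) (by positivity) (by omega) (by omega)
  · apply wz_aux hd
    have hpos : (0 : ℝ) < ((4 * (j * n / d) : ℕ) : ℝ) := by
      have : 0 < 4 * (j * n / d) := by omega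
      exact_mod_cast this
    rw [le_div_iff₀ (by positivity)]
    have h1 : 45 * ((n : ℝ) * (Real.log d / d)) * (s * ((4 * (j * n / d) : ℕ) : ℝ)) ≤
        45 * ((n : ℝ) * (Real.log d / d)) * (s * (4 * (j * n / d))) := by
      apply mul_le_mul_of_nonneg_left _ (by positivity)
      apply mul_le_mul_of_nonneg_left _ hs.le
      push_cast
      linarith
    refine h1.trans ?_
    have h2 : 45 * ((n : ℝ) * (Real.log d / d)) * (s * (4 * (j * n / d))) =
        (1620 * (Real.log d / d) * (j / d) * s) * (n ^ 2 / 9) := by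
      field_simp
      ring
    have h3 : (a / 3 * n) ^ 2 = a ^ 2 * (n ^ 2 / 9) := by ring
    rw [h2, h3]
    apply mul_le_mul_of_nonneg_right _ (by positivity)
    refine le_trans ?_ hA
    apply mul_le_mul_of_nonneg_right _ hs.le
    have h4 : (j : ℝ) / d ≤ 18 * (Real.log d / d) := by
      rw [← mul_div_assoc]
      exact div_le_div_of_nonneg_right hj1 hd0.le
    calc 1620 * (Real.log d / d) * (j / d) ≤ 1620 * (Real.log d / d) * (18 * (Real.log d / d)) :=
          mul_le_mul_of_nonneg_left h4 (by positivity)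
      _ = 29160 * (Real.log d / d) ^ 2 := by ring

/-- pairs for the second link -/
noncomputable def prs2 (K n l₀ : ℕ) (A : Finset (Fin d)) (x : Site d) (i : Fin d) :
    Finset (Finset (Site d) × Finset (Site d)) :=
  ((fam2 K n A x i) ×ˢ (fam (2 ^ l₀) n x i)).filter fun p =>
    (us (sd A) p.1 ∆ un (2 ^ l₀) p.2).card ≤ 4 * 2 ^ l₀ * n

/-- **Second link.** -/
theorem link2 {Ω : Type} [MeasurableSpace Ω] (μ : Measure Ω) [IsProbabilityMeasure μ]
    (hd : 3 ≤ d) (x : Site d) (n : ℕ) (hn : 0 < n) (g : Finset (Site d) → Ω → ℝ)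
    (s a : ℝ) (hs : 0 < s) (ha : 0 < a) (htail : Tail μ g s) (j l₀ : ℕ) (hl₀ : 0 < l₀)
    (A : Finset (Site d) → Finset (Fin d)) (hAj : ∀ B, (A B).card = j) (ρ : ℝ)
    (hρ : ρ = a ^ 2 / (72 * s * 2 ^ l₀))
    (hent : ∀ A : Finset (Fin d), ∀ i, ((fam2 (64 * n / 2 ^ j) n A x i).card : ℝ) *
      ((fam (2 ^ l₀) n x i).card : ℝ) ≤ Real.exp (ρ * n)) :
    μ.real {ω | ∃ B ∈ ctr (by omega) x n,
      a / 3 * n ≤ g (gs (sd (A B)) B) ω - g (cg (2 ^ l₀) B) ω} ≤
      2 ^ d * Real.exp (-(ρ * n)) := by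
  have hn' : (0 : ℝ) < n := by exact_mod_cast hn
  set i : Fin d := ⟨0, by omega⟩ with hi
  have hl2 : 2 ≤ 2 ^ l₀ := by
    calc 2 = 2 ^ 1 := by norm_num
      _ ≤ 2 ^ l₀ := Nat.pow_le_pow_right (by norm_num) hl₀
  have hsub : {ω | ∃ B ∈ ctr (by omega : 2 ≤ d) x n,
      a / 3 * n ≤ g (gs (sd (A B)) B) ω - g (cg (2 ^ l₀) B) ω} ⊆
      {ω | ∃ A' ∈ (Finset.univ : Finset (Finset (Fin d))),
        ∃ p ∈ prs2 (64 * n / 2 ^ j) n l₀ A' x i,
        a / 3 * n ≤ g (us (sd A') p.1) ω - g (un (2 ^ l₀) p.2) ω} := by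
    rintro ω ⟨B, hB, hω⟩
    have hC := (mem_ctr (by omega : 2 ≤ d)).mp hB
    have hcard := hC.2.2.2
    refine ⟨A B, Finset.mem_univ _, (ms (sd (A B)) B, mj (2 ^ l₀) B), ?_, hω⟩
    unfold prs2
    rw [Finset.mem_filter, Finset.mem_product]
    refine ⟨⟨?_, mj_mem_fam (by positivity) hd x n B hC i⟩, ?_⟩
    · have h1 := ms_mem_fam2 (by omega : 2 ≤ d) (A B) x n B hC i
      rw [hAj] at h1
      exact h1
    · have h1 := cards_diff (sd_pos (A B)) 2 (sd_le (A B)) B
      rw [filter_sd] at h1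
      have h2 := card_diff (R := 2 ^ l₀) (by positivity) B
      rw [hcard] at h2
      have h3 : ∑ i ∈ A B, (Sv B i).card ≤ n := by
        calc ∑ i ∈ A B, (Sv B i).card ≤ ∑ i, (Sv B i).card :=
              Finset.sum_le_sum_of_subset (Finset.subset_univ _)
          _ ≤ n := by
              rw [← hcard]
              exact sum_Sv B
      have h4 := card_symmDiff_le B (gs (sd (A B)) B) (cg (2 ^ l₀) B)
      show (gs (sd (A B)) B ∆ cg (2 ^ l₀) B).card ≤ 4 * 2 ^ l₀ * n
      have h5 : 4 * n ≤ 2 * 2 ^ l₀ * n := Nat.mul_le_mul_right n (by omega)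
      have h6 : 4 * 2 ^ l₀ * n = 2 * 2 ^ l₀ * n + 2 * 2 ^ l₀ * n := by ring
      omega
  refine (measureReal_mono hsub (measure_ne_top _ _)).trans ?_
  refine (union_le μ _ _ (Real.exp (-(ρ * n))) ?_).trans ?_
  · intro A' _
    refine (union_le μ _ _ (Real.exp (-(2 * ρ * n))) ?_).trans ?_
    · intro p hp
      refine (htail _ _ _ (4 * 2 ^ l₀ * n) (by positivity) (by positivity)
        (Finset.mem_filter.mp hp).2).trans ?_
      apply Real.exp_le_exp.mpr
      apply neg_le_neg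
      apply le_of_eq
      rw [hρ]
      push_cast
      field_simp
      ring
    · have h1 : ((prs2 (64 * n / 2 ^ j) n l₀ A' x i).card : ℝ) ≤ Real.exp (ρ * n) := by
        refine le_trans ?_ (hent A' i)
        unfold prs2
        rw [← Nat.cast_mul, ← Finset.card_product]
        exact_mod_cast Finset.card_filter_le _ _
      calc ((prs2 (64 * n / 2 ^ j) n l₀ A' x i).card : ℝ) * Real.exp (-(2 * ρ * n))
          ≤ Real.exp (ρ * n) * Real.exp (-(2 * ρ * n)) :=
            mul_le_mul_of_nonneg_right h1 (Real.exp_pos _).le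
        _ = Real.exp (-(ρ * n)) := by
            rw [← Real.exp_add]
            congr 1
            ring
  · apply le_of_eq
    rw [Finset.card_univ, Fintype.card_finset, Fintype.card_fin]
    push_cast
    rfl

end Pool.T9h81.HL
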