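import Pool.Agent.T9h81.HL.ChainT

/-!
# Chaining: the sharp dependence on the dimension
-/

set_option autoImplicit false

open MeasureTheory Filter Topology
open scoped Classical symmDiff

namespace Pool.T9h81.HL

open Pool.T9h81.EAR

variable {d : ℕ}

/-- a large polynomial in the dimension -/
def WW (d : ℕ) : ℕ := 10 ^ 27 * (13824 * d ^ 7) ^ 12

/-- large dimensions -/
structure Big (d : ℕ) : Prop where
  h1 : 3000000 ≤ d
  h2 : WW d ^ 4 ≤ 2 ^ d

theorem exists_big : ∃ d₀, ∀ d, d₀ ≤ d → Big d := by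
  have h1 : Tendsto (fun n : ℕ => (n : ℝ) ^ 336 / (2 : ℝ) ^ n) atTop (𝓝 0) :=
    tendsto_pow_const_div_const_pow_of_one_lt 336 one_lt_two
  set c : ℝ := (10 ^ 27 * 13824 ^ 12) ^ 4 with hc
  have hc0 : 0 < c := by positivity
  have h2 := h1.eventually (gt_mem_nhds (show (0 : ℝ) < 1 / c by positivity))
  obtain ⟨d₁, hd₁⟩ := eventually_atTop.mp h2
  refine ⟨max d₁ 3000000, fun d hd => ⟨le_trans (le_max_right _ _) hd, ?_⟩⟩
  have h3 := hd₁ d (le_trans (le_max_left _ _) hd)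
  rw [div_lt_div_iff₀ (by positivity) hc0, one_mul] at h3
  have h4 : ((WW d ^ 4 : ℕ) : ℝ) ≤ ((2 ^ d : ℕ) : ℝ) := by
    have h5 : ((WW d ^ 4 : ℕ) : ℝ) = (d : ℝ) ^ 336 * c := by
      unfold WW
      rw [hc]
      push_cast
      ring
    rw [h5]
    push_cast
    exact h3.le
  exact_mod_cast h4

theorem Big.pos (h : Big d) : 0 < d := by
  have := h.h1
  omega

theorem Big.W_le (h : Big d) : WW d ≤ 2 ^ d := by
  have h1 : 0 < WW d := by
    unfold WW
    have := h.pos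
    positivity
  calc WW d = WW d ^ 1 := (pow_one _).symm
    _ ≤ WW d ^ 4 := Nat.pow_le_pow_right h1 (by norm_num)
    _ ≤ 2 ^ d := h.h2

theorem Big.poly_le (h : Big d) (p : ℕ) (hp : p ≤ 84) (c : ℕ) (hc : c ≤ 1000) :
    c * d ^ p ≤ 2 ^ d := by
  refine le_trans ?_ h.W_le
  have h1 : d ^ p ≤ d ^ 84 := Nat.pow_le_pow_right h.pos hp
  have h2 : WW d = (10 ^ 27 * 13824 ^ 12) * d ^ 84 := by
    unfold WW
    ring
  rw [h2]
  apply Nat.mul_le_mul _ h1
  refine hc.trans ?_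
  norm_num

/-- an exponent of two near a power of the dimension -/
theorem clog_bounds (h : Big d) (p : ℕ) (hp0 : 0 < p) (hp : p ≤ 84) :
    ∃ j : ℕ, 0 < j ∧ j ≤ d ∧ d ^ p ≤ 2 ^ j ∧ 2 ^ j ≤ 2 * d ^ p := by
  have hd2 : 1 < d := by
    have := h.h1
    omega
  have h1 : 1 < d ^ p := Nat.one_lt_pow hp0.ne' hd2
  have hj0 : 0 < Nat.clog 2 (d ^ p) := Nat.clog_pos one_lt_two h1
  have h2 : 2 ^ Nat.clog 2 (d ^ p) ≤ 2 * d ^ p := by
    have h3 := Nat.pow_pred_clog_lt_self one_lt_two h1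
    have h4 : 2 ^ Nat.clog 2 (d ^ p) = 2 * 2 ^ (Nat.clog 2 (d ^ p)).pred := by
      rw [← pow_succ']
      congr 1
      have := Nat.succ_pred_eq_of_pos hj0
      omega
    omega
  refine ⟨Nat.clog 2 (d ^ p), hj0, ?_, Nat.le_pow_clog one_lt_two _, h2⟩
  have h3 := h2.trans (h.poly_le p hp 2 (by norm_num))
  exact (Nat.pow_le_pow_iff_right one_lt_two).mp h3

theorem W_le_n (h : Big d) (n : ℕ) (hn : 2 ^ d ≤ n ^ 4) : WW d ≤ n := by
  have h1 := h.h2.trans hn
  exact (Nat.pow_le_pow_iff_left (by norm_num)).mp h1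

/-- **Chaining in high dimension.** -/
theorem chain_big {Ω : Type} [MeasurableSpace Ω] (μ : Measure Ω) [IsProbabilityMeasure μ]
    (hB : Big d) (hd : 3 ≤ d) (x : Site d) (n : ℕ) (hn : 0 < n) (g : Finset (Site d) → Ω → ℝ)
    (hg0 : ∀ ω, g ∅ ω = 0) (s a : ℝ) (hs : 0 < s) (ha : 0 < a) (htail : Tail μ g s)
    (hA : 29160 * (Real.log d / d) ^ 2 * s ≤ a ^ 2) :
    μ.real {ω | ∃ B ∈ ctr (by omega) x n, a * n ≤ g B ω} ≤
      wz d n / 1000 + 1 / (1000 * n ^ 2) := by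
  have hn' : (0 : ℝ) < n := by exact_mod_cast hn
  rcases le_total (n ^ 4) (2 ^ d) with hn4 | hn4
  · have h1 := small_n μ hd x n g hg0 s a hs ha htail hA hn4
    have h2 : (0 : ℝ) ≤ 1 / (1000 * (n : ℝ) ^ 2) := by positivity
    linarith
  have hdbig : (3000000 : ℝ) ≤ d := by exact_mod_cast hB.h1
  have hd0 : (0 : ℝ) < d := by linarith
  have hlog := log_ge_one hd
  have hWn := W_le_n hB n hn4
  have hWr : (10 : ℝ) ^ 27 * (13824 * (d : ℝ) ^ 7) ^ 12 ≤ n := by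
    have h1 : ((WW d : ℕ) : ℝ) ≤ n := by exact_mod_cast hWn
    unfold WW at h1
    push_cast at h1
    have h2 : (10 : ℝ) ^ 27 = 1000000000000000000000000000 := by norm_num
    rw [h2]
    exact h1
  obtain ⟨j, hj0, hjd, hj1, hj2⟩ := clog_bounds hB 11 (by norm_num) (by norm_num)
  obtain ⟨l₀, hl0, hld, hl1, hl2⟩ := clog_bounds hB 5 (by norm_num) (by norm_num)
  have hj1r : (d : ℝ) ^ 11 ≤ 2 ^ j := by exact_mod_cast hj1
  have hl1r : (d : ℝ) ^ 5 ≤ 2 ^ l₀ := by exact_mod_cast hl1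
  have hl2r : (2 : ℝ) ^ l₀ ≤ 2 * d ^ 5 := by exact_mod_cast hl2
  have hl2pos : (0 : ℝ) < 2 ^ l₀ := by positivity
  -- the exponent `j` is of the order of `log d`
  have hjlog : (j : ℝ) ≤ 18 * Real.log d := by
    have h1 : (2 : ℝ) ^ j ≤ 2 * d ^ 11 := by exact_mod_cast hj2
    have h2 := Real.log_le_log (by positivity) h1
    rw [Real.log_pow, Real.log_mul (by norm_num) (by positivity), Real.log_pow] at h2
    have h3 : (0.69 : ℝ) < Real.log 2 := lt_trans (by norm_num) Real.log_two_gt_d9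
    push_cast at h2
    have h4 : (0 : ℝ) ≤ j := Nat.cast_nonneg j
    by_contra hcon
    rw [not_le] at hcon
    have h5 : (18 * Real.log d - 1) * Real.log 2 < 11 * Real.log d := by
      have h6 : (18 * Real.log d - 1) * Real.log 2 < ((j : ℝ) - 1) * Real.log 2 :=
        mul_lt_mul_of_pos_right (by linarith) (by linarith)
      linarith
    have h7 : (18 * Real.log d - 1) * 0.69 ≤ (18 * Real.log d - 1) * Real.log 2 :=
      mul_le_mul_of_nonneg_left h3.le (by linarith)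
    linarith
  have hl0r : 2073600 * ((l₀ : ℝ) + 1) ≤ (d : ℝ) ^ 2 := by
    have h1 : (l₀ : ℝ) ≤ d := by exact_mod_cast hld
    nlinarith
  have hlog4 : Real.log (4 * (d : ℝ) ^ 9) ≤ d := by
    have h1 : (4 : ℝ) * d ^ 9 ≤ 2 ^ d := by
      exact_mod_cast hB.poly_le 9 (by norm_num) 4 (by norm_num)
    have h2 := Real.log_le_log (by positivity) h1
    rw [Real.log_pow] at h2
    have h3 : Real.log 2 ≤ 1 := by
      have := Real.log_two_lt_d9
      linarith
    refine h2.trans ?_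
    exact mul_le_of_le_one_right hd0.le h3
  -- `s ≤ a² d²`
  have hA1 : s ≤ a ^ 2 * d ^ 2 := by
    have h1 : (1 / (d : ℝ)) ^ 2 * s ≤ a ^ 2 := by
      refine le_trans ?_ hA
      apply mul_le_mul_of_nonneg_right _ hs.le
      have h2 : 1 / (d : ℝ) ≤ Real.log d / d := div_le_div_of_nonneg_right hlog hd0.le
      have h3 : (1 / (d : ℝ)) ^ 2 ≤ (Real.log d / d) ^ 2 :=
        pow_le_pow_left₀ (by positivity) h2 2
      have h4 : 0 ≤ (Real.log d / (d : ℝ)) ^ 2 := by positivity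
      linarith
    have h2 := mul_le_mul_of_nonneg_right h1 (show (0 : ℝ) ≤ d ^ 2 by positivity)
    have h3 : (1 / (d : ℝ)) ^ 2 * s * d ^ 2 = s := by
      field_simp
    rwa [h3] at h2
  have hA2 : s * d ^ 3 ≤ a ^ 2 * 2 ^ l₀ := by
    calc s * (d : ℝ) ^ 3 ≤ (a ^ 2 * d ^ 2) * d ^ 3 :=
          mul_le_mul_of_nonneg_right hA1 (by positivity)
      _ = a ^ 2 * d ^ 5 := by ring
      _ ≤ a ^ 2 * 2 ^ l₀ := mul_le_mul_of_nonneg_left hl1r (by positivity)
  set ρ : ℝ := a ^ 2 / (72 * s * 2 ^ l₀) with hρ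
  have hρ1 : 1 / (144 * (d : ℝ) ^ 7) ≤ ρ := by
    rw [hρ, div_le_div_iff₀ (by positivity) (by positivity), one_mul]
    calc 72 * s * 2 ^ l₀ ≤ 72 * s * (2 * d ^ 5) :=
          mul_le_mul_of_nonneg_left hl2r (by positivity)
      _ = 144 * d ^ 5 * s := by ring
      _ ≤ 144 * d ^ 5 * (a ^ 2 * d ^ 2) := mul_le_mul_of_nonneg_left hA1 (by positivity)
      _ = a ^ 2 * (144 * (d : ℝ) ^ 7) := by ring
  have hρ0 : 0 < ρ := lt_of_lt_of_le (by positivity) hρ1
  -- entropy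
  have hent : ∀ A : Finset (Fin d), ∀ i, ((fam2 (64 * n / 2 ^ j) n A x i).card : ℝ) *
      ((fam (2 ^ l₀) n x i).card : ℝ) ≤ Real.exp (ρ * n) := by
    intro A i
    have h1 := card_fam2 (64 * n / 2 ^ j) n A x i (1 / (d : ℝ) ^ 9) (by positivity) (by
      rw [div_le_one (by positivity)]
      exact one_le_pow₀ (by linarith))
    have h2 := card_fam hd l₀ n x i
    refine (mul_le_mul h1 h2 (Nat.cast_nonneg _) (Real.exp_pos _).le).trans ?_
    rw [← Real.exp_add]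
    apply Real.exp_le_exp.mpr
    have h3 : ((64 * n / 2 ^ j : ℕ) : ℝ) ≤ 64 * n / d ^ 11 := by
      have h4 : ((64 * n / 2 ^ j : ℕ) : ℝ) ≤ ((64 * n : ℕ) : ℝ) / ((2 ^ j : ℕ) : ℝ) :=
        Nat.cast_div_le
      refine h4.trans ?_
      push_cast
      exact div_le_div_of_nonneg_left (by positivity) (by positivity) hj1r
    have h5 : 4 / (1 / (d : ℝ) ^ 9) = 4 * d ^ 9 := by
      field_simp
    rw [h5]
    have h6 : (d * Real.log (4 * (d : ℝ) ^ 9) + 3) * ((64 * n / 2 ^ j : ℕ) : ℝ) ≤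
        (2 * (d : ℝ) ^ 2) * (64 * n / d ^ 11) := by
      apply mul_le_mul _ h3 (Nat.cast_nonneg _) (by positivity)
      have h7 : d * Real.log (4 * (d : ℝ) ^ 9) ≤ d * d := mul_le_mul_of_nonneg_left hlog4 hd0.le
      nlinarith
    have h8 : 11 * (n : ℝ) * (1 / (d : ℝ) ^ 9) + (2 * (d : ℝ) ^ 2) * (64 * n / d ^ 11) =
        139 * n / d ^ 9 := by
      field_simp
      ring
    have h9 : 139 * (n : ℝ) / d ^ 9 ≤ ρ * n / 2 := by
      have h10 : (1 / (144 * (d : ℝ) ^ 7)) * n / 2 ≤ ρ * n / 2 := by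
        apply div_le_div_of_nonneg_right _ (by norm_num)
        exact mul_le_mul_of_nonneg_right hρ1 hn'.le
      refine le_trans ?_ h10
      rw [div_le_iff₀ (by positivity)]
      have h11 : 1 / (144 * (d : ℝ) ^ 7) * n / 2 * d ^ 9 = (d ^ 2 / 288) * n := by
        field_simp
        norm_num
      rw [h11]
      apply mul_le_mul_of_nonneg_right _ hn'.le
      nlinarith
    have h12 : 132 * (d : ℝ) * (l₀ + 1) * (n / 4 ^ l₀) ≤ ρ * n / 2 := by
      have h13 : (4 : ℝ) ^ l₀ = 2 ^ l₀ * 2 ^ l₀ := by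
        rw [← mul_pow]
        norm_num
      have h14 : 132 * (d : ℝ) * (l₀ + 1) * (n / 4 ^ l₀) =
          (19008 * d * (l₀ + 1) * s) * n / (144 * s * (2 ^ l₀ * 2 ^ l₀)) := by
        rw [h13]
        field_simp
        norm_num
      have h15 : ρ * n / 2 = (a ^ 2 * 2 ^ l₀) * n / (144 * s * (2 ^ l₀ * 2 ^ l₀)) := by
        rw [hρ]
        field_simp
        norm_num
      rw [h14, h15]
      apply div_le_div_of_nonneg_right _ (by positivity)
      apply mul_le_mul_of_nonneg_right _ hn'.le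
      refine le_trans ?_ hA2
      have h16 : 19008 * ((l₀ : ℝ) + 1) ≤ d ^ 2 := by
        have : (0 : ℝ) ≤ l₀ := Nat.cast_nonneg _
        linarith
      calc 19008 * (d : ℝ) * (l₀ + 1) * s = (19008 * ((l₀ : ℝ) + 1)) * (d * s) := by ring
        _ ≤ d ^ 2 * (d * s) := mul_le_mul_of_nonneg_right h16 (by positivity)
        _ = s * d ^ 3 := by ring
    linarith
  -- the choice of the directions
  have hch := fun B : Finset (Site d) => exists_dirs B j hjd
  choose A hAj hAA using hch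
  have hL1 := link1 μ hd x n g s a hs ha htail hA j hj0 hjlog A hAA
  have hL2 := link2 μ hd x n hn g s a hs ha htail j l₀ hl0 A hAj ρ hρ hent
  have hL3 := chain_from μ hd x n hn g hg0 s (a / 3) hs (by positivity) htail l₀ (by
      have h1 : (a / 3) ^ 2 * 2 ^ l₀ = (a ^ 2 * 2 ^ l₀) / 9 := by ring
      rw [h1, le_div_iff₀ (by norm_num)]
      refine le_trans ?_ hA2
      calc 230400 * (d : ℝ) * (l₀ + 1) * s * 9 = (2073600 * ((l₀ : ℝ) + 1)) * (d * s) := by ring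
        _ ≤ d ^ 2 * (d * s) := mul_le_mul_of_nonneg_right hl0r (by positivity)
        _ = s * d ^ 3 := by ring) (by
      have h1 : 1 / (13824 * (d : ℝ) ^ 7) ≤ (a / 3) ^ 2 / (768 * s * 2 ^ l₀) := by
        have h2 : (a / 3) ^ 2 / (768 * s * 2 ^ l₀) = ρ / 96 := by
          rw [hρ]
          field_simp
          norm_num
        rw [h2]
        have h3 : 1 / (13824 * (d : ℝ) ^ 7) = 1 / (144 * (d : ℝ) ^ 7) / 96 := by
          field_simp
          norm_num
        rw [h3]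
        exact div_le_div_of_nonneg_right hρ1 (by norm_num)
      have h4 : (1 / (13824 * (d : ℝ) ^ 7)) ^ 12 ≤ ((a / 3) ^ 2 / (768 * s * 2 ^ l₀)) ^ 12 :=
        pow_le_pow_left₀ (by positivity) h1 12
      calc (10 : ℝ) ^ 27 = (10 ^ 27 * (13824 * (d : ℝ) ^ 7) ^ 12) *
            (1 / (13824 * (d : ℝ) ^ 7)) ^ 12 := by
            rw [one_div_pow]
            field_simp
        _ ≤ n * ((a / 3) ^ 2 / (768 * s * 2 ^ l₀)) ^ 12 :=
            mul_le_mul hWr h4 (by positivity) hn'.le)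
  -- the second link is negligible
  have hL2' : (2 : ℝ) ^ d * Real.exp (-(ρ * n)) ≤ 1 / (4000 * n ^ 2) := by
    have h1 : (2 : ℝ) ^ d ≤ n ^ 4 := by exact_mod_cast hn4
    have h2 : 0 < ρ * n := by positivity
    have h3 : (ρ * n) ^ 12 / (Nat.factorial 12 : ℕ) ≤ Real.exp (ρ * n) :=
      Real.pow_div_factorial_le_exp (ρ * n) h2.le 12
    have hf : ((Nat.factorial 12 : ℕ) : ℝ) = 479001600 := by
      norm_num [Nat.factorial]
    rw [hf] at h3
    have h4 : (1 / (144 * (d : ℝ) ^ 7)) ^ 12 * n ^ 12 ≤ (ρ * n) ^ 12 := by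
      rw [mul_pow]
      exact mul_le_mul_of_nonneg_right (pow_le_pow_left₀ (by positivity) hρ1 12) (by positivity)
    rw [Real.exp_neg, ← div_eq_mul_inv, div_le_div_iff₀ (Real.exp_pos _) (by positivity), one_mul]
    -- `2 ^ d * (4000 n²) ≤ exp (ρ n)`
    refine le_trans ?_ h3
    rw [le_div_iff₀ (by norm_num)]
    refine le_trans ?_ h4
    have h5 : (1 / (144 * (d : ℝ) ^ 7)) ^ 12 * n ^ 12 = n ^ 12 / (144 * (d : ℝ) ^ 7) ^ 12 := by
      rw [one_div_pow]
      ring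
    rw [h5, le_div_iff₀ (by positivity)]
    have h6 : (10 : ℝ) ^ 27 * (144 * (d : ℝ) ^ 7) ^ 12 ≤ n := by
      refine le_trans ?_ hWr
      apply mul_le_mul_of_nonneg_left _ (by positivity)
      apply pow_le_pow_left₀ (by positivity)
      apply mul_le_mul_of_nonneg_right _ (by positivity)
      norm_num
    have hn1 : (1 : ℝ) ≤ n := by exact_mod_cast hn
    calc (2 : ℝ) ^ d * (4000 * n ^ 2) * 479001600 * (144 * (d : ℝ) ^ 7) ^ 12
        ≤ (n : ℝ) ^ 4 * (4000 * n ^ 2) * 479001600 * (144 * (d : ℝ) ^ 7) ^ 12 := by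
          apply mul_le_mul_of_nonneg_right _ (by positivity)
          apply mul_le_mul_of_nonneg_right _ (by norm_num)
          exact mul_le_mul_of_nonneg_right h1 (by positivity)
      _ = (n : ℝ) ^ 6 * ((4000 * 479001600) * (144 * (d : ℝ) ^ 7) ^ 12) := by ring
      _ ≤ (n : ℝ) ^ 6 * (10 ^ 27 * (144 * (d : ℝ) ^ 7) ^ 12) := by
          apply mul_le_mul_of_nonneg_left _ (by positivity)
          apply mul_le_mul_of_nonneg_right _ (by positivity)
          norm_num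
      _ ≤ (n : ℝ) ^ 6 * n := mul_le_mul_of_nonneg_left h6 (by positivity)
      _ ≤ (n : ℝ) ^ 6 * n ^ 6 := by
          apply mul_le_mul_of_nonneg_left _ (by positivity)
          exact le_self_pow₀ hn1 (by norm_num)
      _ = (n : ℝ) ^ 12 := by ring
  -- conclusion
  have hsub : {ω | ∃ B ∈ ctr (by omega : 2 ≤ d) x n, a * n ≤ g B ω} ⊆
      {ω | ∃ B ∈ ctr (by omega : 2 ≤ d) x n, a / 3 * n ≤ g B ω - g (gs (sd (A B)) B) ω} ∪
      ({ω | ∃ B ∈ ctr (by omega : 2 ≤ d) x n,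
        a / 3 * n ≤ g (gs (sd (A B)) B) ω - g (cg (2 ^ l₀) B) ω} ∪
      {ω | ∃ B ∈ ctr (by omega : 2 ≤ d) x n, a / 3 * n ≤ g (cg (2 ^ l₀) B) ω}) := by
    rintro ω ⟨B, hBc, hω⟩
    by_cases h1 : a / 3 * n ≤ g B ω - g (gs (sd (A B)) B) ω
    · exact Or.inl ⟨B, hBc, h1⟩
    by_cases h2 : a / 3 * n ≤ g (gs (sd (A B)) B) ω - g (cg (2 ^ l₀) B) ω
    · exact Or.inr (Or.inl ⟨B, hBc, h2⟩)
    refine Or.inr (Or.inr ⟨B, hBc, ?_⟩)
    rw [not_le] at h1 h2
    have h3 : a * n = a / 3 * n + a / 3 * n + a / 3 * n := by ring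
    linarith
  have h1 := measureReal_mono (μ := μ) hsub (measure_ne_top _ _)
  have h2 := measureReal_union_le (μ := μ)
    {ω | ∃ B ∈ ctr (by omega : 2 ≤ d) x n, a / 3 * n ≤ g B ω - g (gs (sd (A B)) B) ω}
    ({ω | ∃ B ∈ ctr (by omega : 2 ≤ d) x n,
        a / 3 * n ≤ g (gs (sd (A B)) B) ω - g (cg (2 ^ l₀) B) ω} ∪
      {ω | ∃ B ∈ ctr (by omega : 2 ≤ d) x n, a / 3 * n ≤ g (cg (2 ^ l₀) B) ω})
  have h3 := measureReal_union_le (μ := μ)
    {ω | ∃ B ∈ ctr (by omega : 2 ≤ d) x n,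
        a / 3 * n ≤ g (gs (sd (A B)) B) ω - g (cg (2 ^ l₀) B) ω}
    {ω | ∃ B ∈ ctr (by omega : 2 ≤ d) x n, a / 3 * n ≤ g (cg (2 ^ l₀) B) ω}
  have h4 := hL2.trans hL2'
  have h5 : 1 / (4000 * (n : ℝ) ^ 2) + 1 / (4000 * (n : ℝ) ^ 2) ≤ 1 / (1000 * (n : ℝ) ^ 2) := by
    have h6 : 1 / (4000 * (n : ℝ) ^ 2) = (1 / (1000 * (n : ℝ) ^ 2)) / 4 := by
      field_simp
      norm_num
    have h7 : 0 ≤ 1 / (1000 * (n : ℝ) ^ 2) := by positivity
    rw [h6]
    linarith
  linarith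

/-- **Chaining with the sharp dependence on the dimension.** -/
theorem chain_all : ∃ C : ℝ, 0 < C ∧ ∀ d : ℕ, ∀ hd : 3 ≤ d, ∀ (Ω : Type) (_ : MeasurableSpace Ω)
    (μ : Measure Ω) (_ : IsProbabilityMeasure μ) (x : Site d) (n : ℕ) (_ : 0 < n)
    (g : Finset (Site d) → Ω → ℝ) (_ : ∀ ω, g ∅ ω = 0) (s a : ℝ) (_ : 0 < s) (_ : 0 < a)
    (_ : Tail μ g s), C * (Real.log d / d) ^ 2 * s ≤ a ^ 2 →
    μ.real {ω | ∃ B ∈ ctr (show 2 ≤ d by omega) x n, a * n ≤ g B ω} ≤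
      wz d n / 1000 + 1 / (1000 * n ^ 2) := by
  obtain ⟨d₀, hd₀⟩ := exists_big
  refine ⟨29160 + 230400 * (d₀ : ℝ) ^ 3, by positivity, ?_⟩
  intro d hd Ω _ μ _ x n hn g hg0 s a hs ha htail hA
  have hdr : (3 : ℝ) ≤ d := by exact_mod_cast hd
  have hd0 : (0 : ℝ) < d := by linarith
  have hlog := log_ge_one hd
  have hsq : 0 ≤ (Real.log d / (d : ℝ)) ^ 2 := by positivity
  by_cases hdd : d₀ ≤ d
  · apply chain_big μ (hd₀ d hdd) hd x n hn g hg0 s a hs ha htail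
    refine le_trans ?_ hA
    apply mul_le_mul_of_nonneg_right _ hs.le
    apply mul_le_mul_of_nonneg_right _ hsq
    have : 0 ≤ 230400 * (d₀ : ℝ) ^ 3 := by positivity
    linarith
  · rw [not_le] at hdd
    have h1 := chain μ hd x n hn g hg0 s a hs ha htail (by
      refine le_trans ?_ hA
      apply mul_le_mul_of_nonneg_right _ hs.le
      have h2 : (1 / (d : ℝ)) ^ 2 ≤ (Real.log d / d) ^ 2 := by
        apply pow_le_pow_left₀ (by positivity)
        exact div_le_div_of_nonneg_right hlog hd0.le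
      have h3 : (d : ℝ) ^ 3 ≤ d₀ ^ 3 := by
        apply pow_le_pow_left₀ hd0.le
        exact_mod_cast hdd.le
      calc 230400 * (d : ℝ) = 230400 * (d : ℝ) ^ 3 * (1 / d) ^ 2 := by
            field_simp
        _ ≤ (29160 + 230400 * (d₀ : ℝ) ^ 3) * (Real.log d / d) ^ 2 := by
            apply mul_le_mul _ h2 (by positivity) (by positivity)
            linarith)
    have h4 := wz_nonneg d n
    linarith

end Pool.T9h81.HL
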