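import Pool.Agent.T9h81.HL.Box

/-!
# Coarse graining a finite set by majority in the boxes of side `R`
-/

set_option autoImplicit false

open scoped Classical symmDiff

namespace Pool.T9h81.HL

open Pool.T9h81.EAR

variable {d : ℕ}

/-- the index of the box of side `R` containing `x` -/
def qq (R : ℕ) (x : Site d) : Site d := fun i => x i / (R : ℤ)

/-- the box of side `R` and index `c` -/
noncomputable def cb (R : ℕ) (c : Site d) : Finset (Site d) :=
  bx (fun i => (R : ℤ) * c i) fun _ => R

/-- the union of the boxes of indices `c` and `c + e_i` -/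
noncomputable def db (R : ℕ) (i : Fin d) (c : Site d) : Finset (Site d) :=
  bx (fun j => (R : ℤ) * c j) fun j => if j = i then 2 * R else R

theorem div_eq_iff {R : ℕ} (hR : 0 < R) (x c : ℤ) :
    x / (R : ℤ) = c ↔ (R : ℤ) * c ≤ x ∧ x < (R : ℤ) * c + R := by
  have hR' : (0 : ℤ) < R := by exact_mod_cast hR
  have h1 := Int.mul_ediv_add_emod x R
  have h2 := Int.emod_nonneg x hR'.ne'
  have h3 := Int.emod_lt_of_pos x hR'
  constructor
  · rintro rfl
    omega
  · rintro ⟨h4, h5⟩
    apply le_antisymm
    · rw [← Int.lt_add_one_iff, Int.ediv_lt_iff_lt_mul hR']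
      calc x < (R : ℤ) * c + R := h5
        _ = (c + 1) * R := by ring
    · rw [Int.le_ediv_iff_mul_le hR', mul_comm]
      exact h4

theorem mem_cb {R : ℕ} (hR : 0 < R) {c x : Site d} : x ∈ cb R c ↔ qq R x = c := by
  unfold cb
  rw [mem_bx]
  constructor
  · intro h
    funext i
    exact (div_eq_iff hR _ _).mpr (h i)
  · intro h i
    exact (div_eq_iff hR _ _).mp (congrFun h i)

theorem card_cb (R : ℕ) (c : Site d) : (cb R c).card = R ^ d := by
  unfold cb
  rw [card_bx]
  simp

theorem card_db (R : ℕ) (i : Fin d) (c : Site d) : (db R i c).card = 2 * R ^ d := by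
  unfold db
  rw [card_bx, ← Finset.mul_prod_erase Finset.univ _ (Finset.mem_univ i), if_pos rfl]
  have h1 : ∏ j ∈ Finset.univ.erase i, (if j = i then 2 * R else R) =
      ∏ j ∈ Finset.univ.erase i, R := by
    apply Finset.prod_congr rfl
    intro j hj
    rw [if_neg (Finset.ne_of_mem_erase hj)]
  have h2 := Finset.mul_prod_erase Finset.univ (fun _ : Fin d => R) (Finset.mem_univ i)
  rw [h1, mul_assoc, h2]
  simp

theorem mem_db {R : ℕ} (hR : 0 < R) {i : Fin d} {c x : Site d} :
    x ∈ db R i c ↔ qq R x = c ∨ qq R x = c + Pi.single i 1 := by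
  have hR' : (0 : ℤ) < R := by exact_mod_cast hR
  unfold db
  rw [mem_bx]
  constructor
  · intro h
    have hi := h i
    rw [if_pos rfl] at hi
    have hoff : ∀ j, j ≠ i → qq R x j = c j := by
      intro j hj
      have := h j
      rw [if_neg hj] at this
      exact (div_eq_iff hR _ _).mpr this
    by_cases h1 : x i < (R : ℤ) * c i + R
    · left
      funext j
      by_cases hj : j = i
      · subst hj
        exact (div_eq_iff hR _ _).mpr ⟨hi.1, h1⟩
      · exact hoff j hj
    · right
      funext j
      by_cases hj : j = i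
      · subst hj
        rw [Pi.add_apply, Pi.single_eq_same]
        refine (div_eq_iff hR _ _).mpr ⟨?_, ?_⟩
        · rw [mul_add, mul_one]
          omega
        · rw [mul_add, mul_one]
          have := hi.2
          push_cast at this
          omega
      · rw [Pi.add_apply, Pi.single_eq_of_ne hj, add_zero]
        exact hoff j hj
  · rintro (h | h) j
    · have h1 := (div_eq_iff hR _ _).mp (congrFun h j)
      by_cases hj : j = i
      · rw [if_pos hj]
        push_cast
        omega
      · rw [if_neg hj]
        exact h1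
    · have h1 := (div_eq_iff hR _ _).mp (congrFun h j)
      by_cases hj : j = i
      · subst hj
        rw [if_pos rfl]
        rw [Pi.add_apply, Pi.single_eq_same, mul_add, mul_one] at h1
        push_cast
        omega
      · rw [if_neg hj]
        rw [Pi.add_apply, Pi.single_eq_of_ne hj, add_zero] at h1
        exact h1

/-- indices of the boxes at least half of which is in `B` -/
noncomputable def mj (R : ℕ) (B : Finset (Site d)) : Finset (Site d) :=
  (B.image (qq R)).filter fun c => R ^ d ≤ 2 * (cb R c ∩ B).card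

theorem mem_mj {R : ℕ} (hR : 0 < R) {B : Finset (Site d)} {c : Site d} :
    c ∈ mj R B ↔ R ^ d ≤ 2 * (cb R c ∩ B).card := by
  unfold mj
  rw [Finset.mem_filter, Finset.mem_image]
  constructor
  · exact fun h => h.2
  · intro h
    refine ⟨?_, h⟩
    have h1 : 0 < R ^ d := pow_pos hR d
    have h2 : 0 < (cb R c ∩ B).card := by omega
    obtain ⟨x, hx⟩ := Finset.card_pos.mp h2
    rw [Finset.mem_inter, mem_cb hR] at hx
    exact ⟨x, hx.2, hx.1⟩

/-- the union of the boxes with indices in `M` -/
noncomputable def un (R : ℕ) (M : Finset (Site d)) : Finset (Site d) := M.biUnion (cb R)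

theorem mem_un {R : ℕ} (hR : 0 < R) {M : Finset (Site d)} {x : Site d} :
    x ∈ un R M ↔ qq R x ∈ M := by
  unfold un
  rw [Finset.mem_biUnion]
  constructor
  · rintro ⟨c, hc, hx⟩
    rw [mem_cb hR] at hx
    rw [hx]
    exact hc
  · intro h
    exact ⟨_, h, (mem_cb hR).mpr rfl⟩

/-- the coarse-grained set -/
noncomputable def cg (R : ℕ) (B : Finset (Site d)) : Finset (Site d) := un R (mj R B)

theorem card_inter_add (P B : Finset (Site d)) : (P ∩ B).card + (P \ B).card = P.card :=
  Finset.card_inter_add_card_sdiff P B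

theorem box_diff {R : ℕ} (hR : 0 < R) (B : Finset (Site d)) (c : Site d) :
    ((B ∆ cg R B).filter fun x => qq R x = c).card ≤ 2 * R * ∑ i, (bd B (cb R c) i).card := by
  have hpos : 0 < R ^ d := pow_pos hR d
  have h1 := poinc B (fun i => (R : ℤ) * c i) (fun _ => R) R (fun _ => le_rfl)
  have h1' : (cb R c ∩ B).card * (cb R c \ B).card ≤
      (∑ i, (bd B (cb R c) i).card) * (R ^ d * R) := by
    rw [← card_cb R c]
    exact h1
  have h2 := card_inter_add (cb R c) B
  rw [card_cb] at h2
  set S := ∑ i, (bd B (cb R c) i).card with hS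
  apply Nat.le_of_mul_le_mul_left _ hpos
  by_cases hc : c ∈ mj R B
  · have h3 := (mem_mj hR).mp hc
    have h4 : ((B ∆ cg R B).filter fun x => qq R x = c).card ≤ (cb R c \ B).card := by
      apply Finset.card_le_card
      intro x hx
      rw [Finset.mem_filter, Finset.mem_symmDiff] at hx
      obtain ⟨hx1, hx2⟩ := hx
      have hxc : x ∈ cg R B := (mem_un hR).mpr (by rw [hx2]; exact hc)
      rw [Finset.mem_sdiff, mem_cb hR]
      refine ⟨hx2, ?_⟩
      rcases hx1 with ⟨-, h5⟩ | ⟨-, h5⟩
      · exact absurd hxc h5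
      · exact h5
    calc R ^ d * ((B ∆ cg R B).filter fun x => qq R x = c).card
        ≤ (2 * (cb R c ∩ B).card) * (cb R c \ B).card := Nat.mul_le_mul h3 h4
      _ = 2 * ((cb R c ∩ B).card * (cb R c \ B).card) := by ring
      _ ≤ 2 * (S * (R ^ d * R)) := Nat.mul_le_mul_left 2 h1'
      _ = R ^ d * (2 * R * S) := by ring
  · have h3 : 2 * (cb R c ∩ B).card < R ^ d := by
      by_contra h
      rw [not_lt] at h
      exact hc ((mem_mj hR).mpr h)
    have h3' : R ^ d ≤ 2 * (cb R c \ B).card := by omega
    have h4 : ((B ∆ cg R B).filter fun x => qq R x = c).card ≤ (cb R c ∩ B).card := by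
      apply Finset.card_le_card
      intro x hx
      rw [Finset.mem_filter, Finset.mem_symmDiff] at hx
      obtain ⟨hx1, hx2⟩ := hx
      have hxc : x ∉ cg R B := fun h => by
        have := (mem_un hR).mp h
        rw [hx2] at this
        exact hc this
      rw [Finset.mem_inter, mem_cb hR]
      refine ⟨hx2, ?_⟩
      rcases hx1 with ⟨h5, -⟩ | ⟨h5, -⟩
      · exact h5
      · exact absurd h5 hxc
    calc R ^ d * ((B ∆ cg R B).filter fun x => qq R x = c).card
        ≤ (2 * (cb R c \ B).card) * (cb R c ∩ B).card := Nat.mul_le_mul h3' h4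
      _ = 2 * ((cb R c ∩ B).card * (cb R c \ B).card) := by ring
      _ ≤ 2 * (S * (R ^ d * R)) := Nat.mul_le_mul_left 2 h1'
      _ = R ^ d * (2 * R * S) := by ring

/-- **Volume of the difference** -/
theorem card_diff {R : ℕ} (hR : 0 < R) (B : Finset (Site d)) :
    (B ∆ cg R B).card ≤ 2 * R * (bdE (lat d) B).card := by
  have h1 : (B ∆ cg R B).card = ∑ c ∈ (B ∆ cg R B).image (qq R),
      ((B ∆ cg R B).filter fun x => qq R x = c).card :=
    Finset.card_eq_sum_card_image (qq R) (B ∆ cg R B)
  rw [h1]
  calc ∑ c ∈ (B ∆ cg R B).image (qq R), ((B ∆ cg R B).filter fun x => qq R x = c).card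
      ≤ ∑ c ∈ (B ∆ cg R B).image (qq R), 2 * R * ∑ i, (bd B (cb R c) i).card :=
        Finset.sum_le_sum fun c _ => box_diff hR B c
    _ = 2 * R * ∑ i, ∑ c ∈ (B ∆ cg R B).image (qq R), (bd B (cb R c) i).card := by
        rw [← Finset.mul_sum, Finset.sum_comm]
    _ ≤ 2 * R * ∑ i, (Sv B i).card := by
        apply Nat.mul_le_mul_left
        apply Finset.sum_le_sum
        intro i _
        rw [← Finset.card_biUnion]
        · apply Finset.card_le_card
          intro w hw
          obtain ⟨c, -, hc⟩ := Finset.mem_biUnion.mp hw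
          exact (mem_bd.mp hc).1
        · intro c _ c' _ hcc
          simp only [Function.onFun]
          rw [Finset.disjoint_left]
          intro w hw hw'
          have h2 := (mem_cb hR).mp (mem_bd.mp hw).2.1
          have h3 := (mem_cb hR).mp (mem_bd.mp hw').2.1
          exact hcc (h2.symm.trans h3)
    _ ≤ 2 * R * (bdE (lat d) B).card := Nat.mul_le_mul_left _ (sum_Sv B)

theorem db_bound {R : ℕ} (hR : 0 < R) (B : Finset (Site d)) (i : Fin d) (c : Site d)
    (hc : c ∈ Sv (mj R B) i) : R ^ d ≤ 16 * R * ∑ j, (bd B (db R i c) j).card := by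
  have hpos : 0 < R ^ d := pow_pos hR d
  have h1 := poinc B (fun i => (R : ℤ) * c i) (fun j => if j = i then 2 * R else R) (2 * R)
    (fun j => by split_ifs <;> omega)
  have h1' : (db R i c ∩ B).card * (db R i c \ B).card ≤
      (∑ j, (bd B (db R i c) j).card) * (2 * R ^ d * (2 * R)) := by
    rw [← card_db R i c]
    exact h1
  set S := ∑ j, (bd B (db R i c) j).card with hS
  have hsub1 : cb R c ⊆ db R i c := fun x hx => (mem_db hR).mpr (Or.inl ((mem_cb hR).mp hx))
  have hsub2 : cb R (c + Pi.single i 1) ⊆ db R i c := fun x hx =>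
    (mem_db hR).mpr (Or.inr ((mem_cb hR).mp hx))
  have key : ∀ c₁ c₂ : Site d, cb R c₁ ⊆ db R i c → cb R c₂ ⊆ db R i c → c₁ ∈ mj R B →
      c₂ ∉ mj R B → R ^ d * R ^ d ≤ 4 * ((db R i c ∩ B).card * (db R i c \ B).card) := by
    intro c₁ c₂ hs1 hs2 hc1 hc2
    have h3 := (mem_mj hR).mp hc1
    have h4 : 2 * (cb R c₂ ∩ B).card < R ^ d := by
      by_contra h
      rw [not_lt] at h
      exact hc2 ((mem_mj hR).mpr h)
    have h5 := card_inter_add (cb R c₂) B
    rw [card_cb] at h5
    have h6 : (cb R c₁ ∩ B).card ≤ (db R i c ∩ B).card :=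
      Finset.card_le_card (Finset.inter_subset_inter_right hs1)
    have h7 : (cb R c₂ \ B).card ≤ (db R i c \ B).card :=
      Finset.card_le_card (Finset.sdiff_subset_sdiff hs2 (Finset.Subset.refl _))
    have h8 : R ^ d ≤ 2 * (db R i c ∩ B).card := by omega
    have h9 : R ^ d ≤ 2 * (db R i c \ B).card := by omega
    calc R ^ d * R ^ d ≤ (2 * (db R i c ∩ B).card) * (2 * (db R i c \ B).card) :=
          Nat.mul_le_mul h8 h9
      _ = 4 * ((db R i c ∩ B).card * (db R i c \ B).card) := by ring
  have h2 : R ^ d * R ^ d ≤ 4 * ((db R i c ∩ B).card * (db R i c \ B).card) := by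
    have hne := mem_Sv.mp hc
    by_cases h3 : c ∈ mj R B
    · have h4 : c + Pi.single i 1 ∉ mj R B := fun h => hne ⟨fun _ => h, fun _ => h3⟩
      exact key _ _ hsub1 hsub2 h3 h4
    · have h4 : c + Pi.single i 1 ∈ mj R B := by
        by_contra h
        exact hne ⟨fun h5 => absurd h5 h3, fun h5 => absurd h5 h⟩
      exact key _ _ hsub2 hsub1 h4 h3
  apply Nat.le_of_mul_le_mul_left _ hpos
  calc R ^ d * R ^ d ≤ 4 * ((db R i c ∩ B).card * (db R i c \ B).card) := h2
    _ ≤ 4 * (S * (2 * R ^ d * (2 * R))) := Nat.mul_le_mul_left 4 h1'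
    _ = R ^ d * (16 * R * S) := by ring

/-- **Area of the boundary of the coarse-grained set** -/
theorem card_Sv_mj {R : ℕ} (hR : 0 < R) (hd : 3 ≤ d) (B : Finset (Site d)) (i : Fin d) :
    (Sv (mj R B) i).card * R ^ 2 ≤ 32 * (bdE (lat d) B).card := by
  have h0 : R * ((Sv (mj R B) i).card * R ^ 2) ≤ R * (32 * (bdE (lat d) B).card) := by
    calc R * ((Sv (mj R B) i).card * R ^ 2) = ∑ c ∈ Sv (mj R B) i, R ^ 3 := by
          rw [Finset.sum_const, smul_eq_mul]
          ring
      _ ≤ ∑ c ∈ Sv (mj R B) i, R ^ d :=
          Finset.sum_le_sum fun c _ => Nat.pow_le_pow_right hR hd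
      _ ≤ ∑ c ∈ Sv (mj R B) i, 16 * R * ∑ j, (bd B (db R i c) j).card :=
          Finset.sum_le_sum fun c hc => db_bound hR B i c hc
      _ = 16 * R * ∑ j, ∑ c ∈ Sv (mj R B) i, (bd B (db R i c) j).card := by
          rw [← Finset.mul_sum, Finset.sum_comm]
      _ ≤ 16 * R * ∑ j, 2 * (Sv B j).card := by
          apply Nat.mul_le_mul_left
          apply Finset.sum_le_sum
          intro j _
          have h1 : ∑ c ∈ Sv (mj R B) i, (bd B (db R i c) j).card =
              ((Sv (mj R B) i).sigma fun c => bd B (db R i c) j).card :=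
            (Finset.card_sigma _ _).symm
          rw [h1]
          have h2 : ((Sv (mj R B) i).sigma fun c => bd B (db R i c) j).card ≤
              (Sv B j ×ˢ (Finset.univ : Finset Bool)).card := by
            apply Finset.card_le_card_of_injOn
              (fun p : (_ : Site d) × Site d => (p.2, decide (qq R p.2 = p.1)))
            · rintro ⟨c, w⟩ hp
              have h3 := (Finset.mem_sigma.mp (Finset.mem_coe.mp hp)).2
              rw [Finset.mem_coe, Finset.mem_product]
              exact ⟨(mem_bd.mp h3).1, Finset.mem_univ _⟩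
            · rintro ⟨c, w⟩ hp ⟨c', w'⟩ hp' heq
              have h3 := (Finset.mem_sigma.mp (Finset.mem_coe.mp hp)).2
              have h4 := (Finset.mem_sigma.mp (Finset.mem_coe.mp hp')).2
              rw [Prod.mk.injEq] at heq
              obtain ⟨h5, h6⟩ := heq
              simp only at h3 h4 h5 h6
              subst h5
              have h7 := (mem_db hR).mp (mem_bd.mp h3).2.1
              have h8 := (mem_db hR).mp (mem_bd.mp h4).2.1
              rw [decide_eq_decide] at h6
              have h9 : c = c' := by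
                by_cases h10 : qq R w = c
                · exact h10.symm.trans (h6.mp h10)
                · have h11 : ¬ qq R w = c' := fun h => h10 (h6.mpr h)
                  have h12 := h7.resolve_left h10
                  have h13 := h8.resolve_left h11
                  rw [h12] at h13
                  exact add_right_cancel h13
              subst h9
              rfl
          refine h2.trans (le_of_eq ?_)
          rw [Finset.card_product, Finset.card_univ, Fintype.card_bool, Nat.mul_comm]
      _ = 32 * R * ∑ j, (Sv B j).card := by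
          rw [← Finset.mul_sum]
          ring
      _ ≤ 32 * R * (bdE (lat d) B).card := Nat.mul_le_mul_left _ (sum_Sv B)
      _ = R * (32 * (bdE (lat d) B).card) := by ring
  exact Nat.le_of_mul_le_mul_left h0 hR

/-- a coarse vertical boundary edge is witnessed by a fine one -/
theorem exists_fine {R : ℕ} (hR : 0 < R) (B : Finset (Site d)) (i : Fin d) (c : Site d)
    (hc : c ∈ Sv (mj R B) i) : ∃ u ∈ Sv B i, qq R u = c ∨ qq R u = c + Pi.single i 1 := by
  by_contra hcon
  push Not at hcon
  have hR' : (0 : ℤ) < R := by exact_mod_cast hR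
  -- `B` is invariant under vertical steps inside the double box
  have hstep : ∀ w, w ∈ db R i c → (w ∈ B ↔ w + Pi.single i 1 ∈ B) := by
    intro w hw
    by_contra h
    have h1 := hcon w (mem_Sv.mpr h)
    rcases (mem_db hR).mp hw with h2 | h2
    · exact h1.1 h2
    · exact h1.2 h2
  have hrun : ∀ x, x ∈ cb R c → ∀ j : ℕ, j ≤ R → (x ∈ B ↔ sh i x j ∈ B) := by
    intro x hx j
    induction j with
    | zero =>
      intro _
      rw [sh_zero]
    | succ j ih =>
      intro hj
      rw [ih (by omega), sh_succ]
      apply hstep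
      unfold db
      unfold cb at hx
      rw [mem_bx] at *
      intro k
      have h1 := hx k
      by_cases hk : k = i
      · subst hk
        rw [if_pos rfl]
        unfold sh
        rw [Pi.add_apply, Pi.single_eq_same]
        push_cast
        omega
      · rw [if_neg hk]
        unfold sh
        rw [Pi.add_apply, Pi.single_eq_of_ne hk, add_zero]
        exact h1
  have hcb : ∀ x, x ∈ cb R c ↔ sh i x R ∈ cb R (c + Pi.single i 1) := by
    intro x
    unfold cb
    rw [mem_bx, mem_bx]
    refine forall_congr' fun k => ?_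
    by_cases hk : k = i
    · subst hk
      unfold sh
      rw [Pi.add_apply, Pi.single_eq_same, Pi.add_apply, Pi.single_eq_same, mul_add, mul_one]
      constructor <;> intro h <;> omega
    · unfold sh
      rw [Pi.add_apply, Pi.single_eq_of_ne hk, Pi.add_apply, Pi.single_eq_of_ne hk, add_zero,
        add_zero]
  have hcard : (cb R c ∩ B).card = (cb R (c + Pi.single i 1) ∩ B).card := by
    apply Finset.card_bij (fun x _ => sh i x R)
    · intro x hx
      rw [Finset.mem_inter] at hx ⊢
      exact ⟨(hcb x).mp hx.1, (hrun x hx.1 R le_rfl).mp hx.2⟩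
    · intro x _ y _ h
      exact sh_inj h
    · intro y hy
      have hy' : sh i (y - Pi.single i (R : ℤ)) R = y := by
        unfold sh
        abel
      rw [Finset.mem_inter] at hy
      have h1 : y - Pi.single i (R : ℤ) ∈ cb R c := by
        rw [hcb, hy']
        exact hy.1
      refine ⟨y - Pi.single i (R : ℤ), ?_, hy'⟩
      rw [Finset.mem_inter]
      refine ⟨h1, ?_⟩
      rw [hrun _ h1 R le_rfl, hy']
      exact hy.2
  apply mem_Sv.mp hc
  rw [mem_mj hR, mem_mj hR, hcard]

end Pool.T9h81.HL
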