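import Pool.Agent.T9h81.HL.Fam

/-!
# Coarse graining in boxes with arbitrary sides
-/

set_option autoImplicit false

open scoped Classical symmDiff

namespace Pool.T9h81.HL

open Pool.T9h81.EAR

variable {d : ℕ}

/-- the index of the box with sides `s` containing `x` -/
def qs (s : Fin d → ℕ) (x : Site d) : Site d := fun i => x i / (s i : ℤ)

/-- the box with sides `s` and index `c` -/
noncomputable def cs (s : Fin d → ℕ) (c : Site d) : Finset (Site d) :=
  bx (fun i => (s i : ℤ) * c i) s

/-- the union of the boxes of indices `c` and `c + e_i` -/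
noncomputable def ds (s : Fin d → ℕ) (i : Fin d) (c : Site d) : Finset (Site d) :=
  bx (fun j => (s j : ℤ) * c j) fun j => if j = i then 2 * s j else s j

theorem mem_cs {s : Fin d → ℕ} (hs : ∀ i, 0 < s i) {c x : Site d} : x ∈ cs s c ↔ qs s x = c := by
  unfold cs
  rw [mem_bx]
  constructor
  · intro h
    funext i
    exact (div_eq_iff (hs i) _ _).mpr (h i)
  · intro h i
    exact (div_eq_iff (hs i) _ _).mp (congrFun h i)

theorem card_cs (s : Fin d → ℕ) (c : Site d) : (cs s c).card = ∏ i, s i := by
  unfold cs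
  rw [card_bx]

theorem card_ds (s : Fin d → ℕ) (i : Fin d) (c : Site d) : (ds s i c).card = 2 * ∏ i, s i := by
  unfold ds
  rw [card_bx, ← Finset.mul_prod_erase Finset.univ _ (Finset.mem_univ i), if_pos rfl]
  have h1 : ∏ j ∈ Finset.univ.erase i, (if j = i then 2 * s j else s j) =
      ∏ j ∈ Finset.univ.erase i, s j := by
    apply Finset.prod_congr rfl
    intro j hj
    rw [if_neg (Finset.ne_of_mem_erase hj)]
  have h2 := Finset.mul_prod_erase Finset.univ s (Finset.mem_univ i)
  rw [h1, mul_assoc, h2]

theorem mem_ds {s : Fin d → ℕ} (hs : ∀ i, 0 < s i) {i : Fin d} {c x : Site d} :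
    x ∈ ds s i c ↔ qs s x = c ∨ qs s x = c + Pi.single i 1 := by
  unfold ds
  rw [mem_bx]
  constructor
  · intro h
    have hi := h i
    rw [if_pos rfl] at hi
    have hoff : ∀ j, j ≠ i → qs s x j = c j := by
      intro j hj
      have := h j
      rw [if_neg hj] at this
      exact (div_eq_iff (hs j) _ _).mpr this
    by_cases h1 : x i < (s i : ℤ) * c i + s i
    · left
      funext j
      by_cases hj : j = i
      · subst hj
        exact (div_eq_iff (hs j) _ _).mpr ⟨hi.1, h1⟩
      · exact hoff j hj
    · right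
      funext j
      by_cases hj : j = i
      · subst hj
        rw [Pi.add_apply, Pi.single_eq_same]
        refine (div_eq_iff (hs j) _ _).mpr ⟨?_, ?_⟩
        · rw [mul_add, mul_one]
          omega
        · rw [mul_add, mul_one]
          have := hi.2
          push_cast at this
          omega
      · rw [Pi.add_apply, Pi.single_eq_of_ne hj, add_zero]
        exact hoff j hj
  · rintro (h | h) j
    · have h1 := (div_eq_iff (hs j) _ _).mp (congrFun h j)
      by_cases hj : j = i
      · rw [if_pos hj]
        push_cast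
        omega
      · rw [if_neg hj]
        exact h1
    · have h1 := (div_eq_iff (hs j) _ _).mp (congrFun h j)
      by_cases hj : j = i
      · subst hj
        rw [if_pos rfl]
        rw [Pi.add_apply, Pi.single_eq_same, mul_add, mul_one] at h1
        push_cast
        omega
      · rw [if_neg hj]
        rw [Pi.add_apply, Pi.single_eq_of_ne hj, add_zero] at h1
        exact h1

/-- indices of the boxes at least half of which is in `B` -/
noncomputable def ms (s : Fin d → ℕ) (B : Finset (Site d)) : Finset (Site d) :=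
  (B.image (qs s)).filter fun c => ∏ i, s i ≤ 2 * (cs s c ∩ B).card

theorem mem_ms {s : Fin d → ℕ} (hs : ∀ i, 0 < s i) {B : Finset (Site d)} {c : Site d} :
    c ∈ ms s B ↔ ∏ i, s i ≤ 2 * (cs s c ∩ B).card := by
  unfold ms
  rw [Finset.mem_filter, Finset.mem_image]
  constructor
  · exact fun h => h.2
  · intro h
    refine ⟨?_, h⟩
    have h1 : 0 < ∏ i, s i := Finset.prod_pos fun i _ => hs i
    have h2 : 0 < (cs s c ∩ B).card := by omega
    obtain ⟨x, hx⟩ := Finset.card_pos.mp h2
    rw [Finset.mem_inter, mem_cs hs] at hx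
    exact ⟨x, hx.2, hx.1⟩

/-- the union of the boxes with indices in `M` -/
noncomputable def us (s : Fin d → ℕ) (M : Finset (Site d)) : Finset (Site d) := M.biUnion (cs s)

theorem mem_us {s : Fin d → ℕ} (hs : ∀ i, 0 < s i) {M : Finset (Site d)} {x : Site d} :
    x ∈ us s M ↔ qs s x ∈ M := by
  unfold us
  rw [Finset.mem_biUnion]
  constructor
  · rintro ⟨c, hc, hx⟩
    rw [mem_cs hs] at hx
    rw [hx]
    exact hc
  · intro h
    exact ⟨_, h, (mem_cs hs).mpr rfl⟩

/-- the coarse-grained set -/
noncomputable def gs (s : Fin d → ℕ) (B : Finset (Site d)) : Finset (Site d) := us s (ms s B)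

theorem boxs_diff {s : Fin d → ℕ} (hs : ∀ i, 0 < s i) (S : ℕ) (hS : ∀ i, s i ≤ S)
    (B : Finset (Site d)) (c : Site d) :
    ((B ∆ gs s B).filter fun x => qs s x = c).card ≤ 2 * S * ∑ i, (bd B (cs s c) i).card := by
  set P := ∏ i, s i with hP
  have hpos : 0 < P := Finset.prod_pos fun i _ => hs i
  have h1 := poinc B (fun i => (s i : ℤ) * c i) s S hS
  have h1' : (cs s c ∩ B).card * (cs s c \ B).card ≤
      (∑ i, (bd B (cs s c) i).card) * (P * S) := by
    rw [hP, ← card_cs s c]
    exact h1
  have h2 := card_inter_add (cs s c) B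
  rw [card_cs, ← hP] at h2
  set T := ∑ i, (bd B (cs s c) i).card with hT
  apply Nat.le_of_mul_le_mul_left _ hpos
  by_cases hc : c ∈ ms s B
  · have h3 : P ≤ 2 * (cs s c ∩ B).card := (mem_ms hs).mp hc
    have h4 : ((B ∆ gs s B).filter fun x => qs s x = c).card ≤ (cs s c \ B).card := by
      apply Finset.card_le_card
      intro x hx
      rw [Finset.mem_filter, Finset.mem_symmDiff] at hx
      obtain ⟨hx1, hx2⟩ := hx
      have hxc : x ∈ gs s B := (mem_us hs).mpr (by rw [hx2]; exact hc)
      rw [Finset.mem_sdiff, mem_cs hs]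
      refine ⟨hx2, ?_⟩
      rcases hx1 with ⟨-, h5⟩ | ⟨-, h5⟩
      · exact absurd hxc h5
      · exact h5
    calc P * ((B ∆ gs s B).filter fun x => qs s x = c).card
        ≤ (2 * (cs s c ∩ B).card) * (cs s c \ B).card := Nat.mul_le_mul h3 h4
      _ = 2 * ((cs s c ∩ B).card * (cs s c \ B).card) := by ring
      _ ≤ 2 * (T * (P * S)) := Nat.mul_le_mul_left 2 h1'
      _ = P * (2 * S * T) := by ring
  · have h3 : 2 * (cs s c ∩ B).card < P := by
      by_contra h
      rw [not_lt] at h
      exact hc ((mem_ms hs).mpr h)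
    have h3' : P ≤ 2 * (cs s c \ B).card := by omega
    have h4 : ((B ∆ gs s B).filter fun x => qs s x = c).card ≤ (cs s c ∩ B).card := by
      apply Finset.card_le_card
      intro x hx
      rw [Finset.mem_filter, Finset.mem_symmDiff] at hx
      obtain ⟨hx1, hx2⟩ := hx
      have hxc : x ∉ gs s B := fun h => by
        have := (mem_us hs).mp h
        rw [hx2] at this
        exact hc this
      rw [Finset.mem_inter, mem_cs hs]
      refine ⟨hx2, ?_⟩
      rcases hx1 with ⟨h5, -⟩ | ⟨h5, -⟩
      · exact h5
      · exact absurd h5 hxc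
    calc P * ((B ∆ gs s B).filter fun x => qs s x = c).card
        ≤ (2 * (cs s c \ B).card) * (cs s c ∩ B).card := Nat.mul_le_mul h3' h4
      _ = 2 * ((cs s c ∩ B).card * (cs s c \ B).card) := by ring
      _ ≤ 2 * (T * (P * S)) := Nat.mul_le_mul_left 2 h1'
      _ = P * (2 * S * T) := by ring

/-- no boundary edge of direction `i` lies in a box with side `1` in direction `i` -/
theorem bd_one {s : Fin d → ℕ} (hs : ∀ i, 0 < s i) (B : Finset (Site d)) (c : Site d) (i : Fin d)
    (hi : s i = 1) : bd B (cs s c) i = ∅ := by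
  rw [Finset.eq_empty_iff_forall_notMem]
  intro w hw
  obtain ⟨-, h1, h2⟩ := mem_bd.mp hw
  have h3 := congrFun ((mem_cs hs).mp h1) i
  have h4 := congrFun ((mem_cs hs).mp h2) i
  unfold qs at h3 h4
  rw [Pi.add_apply, Pi.single_eq_same, hi] at h4
  rw [hi] at h3
  simp only [Nat.cast_one, Int.ediv_one] at h3 h4
  omega

/-- **Volume of the difference** -/
theorem cards_diff {s : Fin d → ℕ} (hs : ∀ i, 0 < s i) (S : ℕ) (hS : ∀ i, s i ≤ S)
    (B : Finset (Site d)) :
    (B ∆ gs s B).card ≤ 2 * S * ∑ i ∈ Finset.univ.filter (fun i => s i ≠ 1), (Sv B i).card := by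
  have h1 : (B ∆ gs s B).card = ∑ c ∈ (B ∆ gs s B).image (qs s),
      ((B ∆ gs s B).filter fun x => qs s x = c).card :=
    Finset.card_eq_sum_card_image (qs s) (B ∆ gs s B)
  rw [h1]
  calc ∑ c ∈ (B ∆ gs s B).image (qs s), ((B ∆ gs s B).filter fun x => qs s x = c).card
      ≤ ∑ c ∈ (B ∆ gs s B).image (qs s), 2 * S * ∑ i, (bd B (cs s c) i).card :=
        Finset.sum_le_sum fun c _ => boxs_diff hs S hS B c
    _ = ∑ c ∈ (B ∆ gs s B).image (qs s), 2 * S *
          ∑ i ∈ Finset.univ.filter (fun i => s i ≠ 1), (bd B (cs s c) i).card := by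
        apply Finset.sum_congr rfl
        intro c _
        congr 1
        rw [Finset.sum_filter]
        apply Finset.sum_congr rfl
        intro i _
        by_cases hi : s i = 1
        · rw [if_neg (not_not.mpr hi), bd_one hs B c i hi, Finset.card_empty]
        · rw [if_pos hi]
    _ = 2 * S * ∑ i ∈ Finset.univ.filter (fun i => s i ≠ 1),
          ∑ c ∈ (B ∆ gs s B).image (qs s), (bd B (cs s c) i).card := by
        rw [← Finset.mul_sum, Finset.sum_comm]
    _ ≤ 2 * S * ∑ i ∈ Finset.univ.filter (fun i => s i ≠ 1), (Sv B i).card := by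
        apply Nat.mul_le_mul_left
        apply Finset.sum_le_sum
        intro i _
        rw [← Finset.card_biUnion]
        · apply Finset.card_le_card
          intro w hw
          obtain ⟨c, -, hc⟩ := Finset.mem_biUnion.mp hw
          exact (mem_bd.mp hc).1
        · intro c _ c' _ hcc
          simp only [Function.onFun]
          rw [Finset.disjoint_left]
          intro w hw hw'
          have h2 := (mem_cs hs).mp (mem_bd.mp hw).2.1
          have h3 := (mem_cs hs).mp (mem_bd.mp hw').2.1
          exact hcc (h2.symm.trans h3)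

theorem ds_bound {s : Fin d → ℕ} (hs : ∀ i, 0 < s i) (S : ℕ) (hS : ∀ i, s i ≤ S)
    (B : Finset (Site d)) (i : Fin d) (c : Site d)
    (hc : c ∈ Sv (ms s B) i) : ∏ i, s i ≤ 16 * S * ∑ j, (bd B (ds s i c) j).card := by
  set P := ∏ i, s i with hP
  have hpos : 0 < P := Finset.prod_pos fun i _ => hs i
  have h1 := poinc B (fun i => (s i : ℤ) * c i) (fun j => if j = i then 2 * s j else s j) (2 * S)
    (fun j => by
      have := hS j
      show (if j = i then 2 * s j else s j) ≤ 2 * S
      split_ifs <;> omega)
  have h1' : (ds s i c ∩ B).card * (ds s i c \ B).card ≤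
      (∑ j, (bd B (ds s i c) j).card) * (2 * P * (2 * S)) := by
    rw [hP, ← card_ds s i c]
    exact h1
  set T := ∑ j, (bd B (ds s i c) j).card with hT
  have hsub1 : cs s c ⊆ ds s i c := fun x hx => (mem_ds hs).mpr (Or.inl ((mem_cs hs).mp hx))
  have hsub2 : cs s (c + Pi.single i 1) ⊆ ds s i c := fun x hx =>
    (mem_ds hs).mpr (Or.inr ((mem_cs hs).mp hx))
  have key : ∀ c₁ c₂ : Site d, cs s c₁ ⊆ ds s i c → cs s c₂ ⊆ ds s i c → c₁ ∈ ms s B →
      c₂ ∉ ms s B → P * P ≤ 4 * ((ds s i c ∩ B).card * (ds s i c \ B).card) := by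
    intro c₁ c₂ hs1 hs2 hc1 hc2
    have h3 : P ≤ 2 * (cs s c₁ ∩ B).card := (mem_ms hs).mp hc1
    have h4 : 2 * (cs s c₂ ∩ B).card < P := by
      by_contra h
      rw [not_lt] at h
      exact hc2 ((mem_ms hs).mpr h)
    have h5 := card_inter_add (cs s c₂) B
    rw [card_cs, ← hP] at h5
    have h6 : (cs s c₁ ∩ B).card ≤ (ds s i c ∩ B).card :=
      Finset.card_le_card (Finset.inter_subset_inter_right hs1)
    have h7 : (cs s c₂ \ B).card ≤ (ds s i c \ B).card :=
      Finset.card_le_card (Finset.sdiff_subset_sdiff hs2 (Finset.Subset.refl _))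
    have h8 : P ≤ 2 * (ds s i c ∩ B).card := by omega
    have h9 : P ≤ 2 * (ds s i c \ B).card := by omega
    calc P * P ≤ (2 * (ds s i c ∩ B).card) * (2 * (ds s i c \ B).card) :=
          Nat.mul_le_mul h8 h9
      _ = 4 * ((ds s i c ∩ B).card * (ds s i c \ B).card) := by ring
  have h2 : P * P ≤ 4 * ((ds s i c ∩ B).card * (ds s i c \ B).card) := by
    have hne := mem_Sv.mp hc
    by_cases h3 : c ∈ ms s B
    · have h4 : c + Pi.single i 1 ∉ ms s B := fun h => hne ⟨fun _ => h, fun _ => h3⟩
      exact key _ _ hsub1 hsub2 h3 h4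
    · have h4 : c + Pi.single i 1 ∈ ms s B := by
        by_contra h
        exact hne ⟨fun h5 => absurd h5 h3, fun h5 => absurd h5 h⟩
      exact key _ _ hsub2 hsub1 h4 h3
  apply Nat.le_of_mul_le_mul_left _ hpos
  calc P * P ≤ 4 * ((ds s i c ∩ B).card * (ds s i c \ B).card) := h2
    _ ≤ 4 * (T * (2 * P * (2 * S))) := Nat.mul_le_mul_left 4 h1'
    _ = P * (16 * S * T) := by ring

/-- **Area of the boundary of the coarse-grained set** -/
theorem card_Sv_ms {s : Fin d → ℕ} (hs : ∀ i, 0 < s i) (S : ℕ) (hS : ∀ i, s i ≤ S)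
    (B : Finset (Site d)) (i : Fin d) :
    (Sv (ms s B) i).card * ∏ i, s i ≤ 32 * S * (bdE (lat d) B).card := by
  calc (Sv (ms s B) i).card * ∏ i, s i = ∑ c ∈ Sv (ms s B) i, ∏ i, s i := by
        rw [Finset.sum_const, smul_eq_mul]
    _ ≤ ∑ c ∈ Sv (ms s B) i, 16 * S * ∑ j, (bd B (ds s i c) j).card :=
        Finset.sum_le_sum fun c hc => ds_bound hs S hS B i c hc
    _ = 16 * S * ∑ j, ∑ c ∈ Sv (ms s B) i, (bd B (ds s i c) j).card := by
        rw [← Finset.mul_sum, Finset.sum_comm]
    _ ≤ 16 * S * ∑ j, 2 * (Sv B j).card := by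
        apply Nat.mul_le_mul_left
        apply Finset.sum_le_sum
        intro j _
        have h1 : ∑ c ∈ Sv (ms s B) i, (bd B (ds s i c) j).card =
            ((Sv (ms s B) i).sigma fun c => bd B (ds s i c) j).card :=
          (Finset.card_sigma _ _).symm
        rw [h1]
        have h2 : ((Sv (ms s B) i).sigma fun c => bd B (ds s i c) j).card ≤
            (Sv B j ×ˢ (Finset.univ : Finset Bool)).card := by
          apply Finset.card_le_card_of_injOn
            (fun p : (_ : Site d) × Site d => (p.2, decide (qs s p.2 = p.1)))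
          · rintro ⟨c, w⟩ hp
            have h3 := (Finset.mem_sigma.mp (Finset.mem_coe.mp hp)).2
            rw [Finset.mem_coe, Finset.mem_product]
            exact ⟨(mem_bd.mp h3).1, Finset.mem_univ _⟩
          · rintro ⟨c, w⟩ hp ⟨c', w'⟩ hp' heq
            have h3 := (Finset.mem_sigma.mp (Finset.mem_coe.mp hp)).2
            have h4 := (Finset.mem_sigma.mp (Finset.mem_coe.mp hp')).2
            rw [Prod.mk.injEq] at heq
            obtain ⟨h5, h6⟩ := heq
            simp only at h3 h4 h5 h6
            subst h5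
            have h7 := (mem_ds hs).mp (mem_bd.mp h3).2.1
            have h8 := (mem_ds hs).mp (mem_bd.mp h4).2.1
            rw [decide_eq_decide] at h6
            have h9 : c = c' := by
              by_cases h10 : qs s w = c
              · exact h10.symm.trans (h6.mp h10)
              · have h11 : ¬ qs s w = c' := fun h => h10 (h6.mpr h)
                have h12 := h7.resolve_left h10
                have h13 := h8.resolve_left h11
                rw [h12] at h13
                exact add_right_cancel h13
            subst h9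
            rfl
        refine h2.trans (le_of_eq ?_)
        rw [Finset.card_product, Finset.card_univ, Fintype.card_bool, Nat.mul_comm]
    _ = 32 * S * ∑ j, (Sv B j).card := by
        rw [← Finset.mul_sum]
        ring
    _ ≤ 32 * S * (bdE (lat d) B).card := Nat.mul_le_mul_left _ (sum_Sv B)

/-- a coarse vertical boundary edge is witnessed by a fine one -/
theorem exists_fines {s : Fin d → ℕ} (hs : ∀ i, 0 < s i) (B : Finset (Site d)) (i : Fin d)
    (c : Site d) (hc : c ∈ Sv (ms s B) i) :
    ∃ u ∈ Sv B i, qs s u = c ∨ qs s u = c + Pi.single i 1 := by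
  by_contra hcon
  push Not at hcon
  -- `B` is invariant under vertical steps inside the double box
  have hstep : ∀ w, w ∈ ds s i c → (w ∈ B ↔ w + Pi.single i 1 ∈ B) := by
    intro w hw
    by_contra h
    have h1 := hcon w (mem_Sv.mpr h)
    rcases (mem_ds hs).mp hw with h2 | h2
    · exact h1.1 h2
    · exact h1.2 h2
  have hrun : ∀ x, x ∈ cs s c → ∀ j : ℕ, j ≤ s i → (x ∈ B ↔ sh i x j ∈ B) := by
    intro x hx j
    induction j with
    | zero =>
      intro _
      rw [sh_zero]
    | succ j ih =>
      intro hj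
      rw [ih (by omega), sh_succ]
      apply hstep
      unfold ds
      unfold cs at hx
      rw [mem_bx] at *
      intro k
      have h1 := hx k
      by_cases hk : k = i
      · subst hk
        rw [if_pos rfl]
        unfold sh
        rw [Pi.add_apply, Pi.single_eq_same]
        push_cast
        omega
      · rw [if_neg hk]
        unfold sh
        rw [Pi.add_apply, Pi.single_eq_of_ne hk, add_zero]
        exact h1
  have hcb : ∀ x, x ∈ cs s c ↔ sh i x (s i) ∈ cs s (c + Pi.single i 1) := by
    intro x
    unfold cs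
    rw [mem_bx, mem_bx]
    refine forall_congr' fun k => ?_
    by_cases hk : k = i
    · subst hk
      unfold sh
      rw [Pi.add_apply, Pi.single_eq_same, Pi.add_apply, Pi.single_eq_same, mul_add, mul_one]
      constructor <;> intro h <;> omega
    · unfold sh
      rw [Pi.add_apply, Pi.single_eq_of_ne hk, Pi.add_apply, Pi.single_eq_of_ne hk, add_zero,
        add_zero]
  have hcard : (cs s c ∩ B).card = (cs s (c + Pi.single i 1) ∩ B).card := by
    apply Finset.card_bij (fun x _ => sh i x (s i))
    · intro x hx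
      rw [Finset.mem_inter] at hx ⊢
      exact ⟨(hcb x).mp hx.1, (hrun x hx.1 (s i) le_rfl).mp hx.2⟩
    · intro x _ y _ h
      exact sh_inj h
    · intro y hy
      have hy' : sh i (y - Pi.single i (s i : ℤ)) (s i) = y := by
        unfold sh
        abel
      rw [Finset.mem_inter] at hy
      have h1 : y - Pi.single i (s i : ℤ) ∈ cs s c := by
        rw [hcb, hy']
        exact hy.1
      refine ⟨y - Pi.single i (s i : ℤ), ?_, hy'⟩
      rw [Finset.mem_inter]
      refine ⟨h1, ?_⟩
      rw [hrun _ h1 (s i) le_rfl, hy']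
      exact hy.2
  apply mem_Sv.mp hc
  rw [mem_ms hs, mem_ms hs, hcard]

end Pool.T9h81.HL
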