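import Pool.Agent.T9h81.HL.Coarse

/-!
# Encoding coarse boundaries by sequences with small total variation
-/

set_option autoImplicit false

open scoped Classical

namespace Pool.T9h81.HL

open Pool.T9h81.EAR

variable {d : ℕ}

/-- the `ℓ¹` norm -/
def n1 (x : Site d) : ℕ := ∑ i, (x i).natAbs

theorem n1_add (x y : Site d) : n1 (x + y) ≤ n1 x + n1 y := by
  unfold n1
  rw [← Finset.sum_add_distrib]
  apply Finset.sum_le_sum
  intro i _
  exact Int.natAbs_add_le _ _

theorem n1_neg (x : Site d) : n1 (-x) = n1 x := by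
  unfold n1
  simp

theorem n1_sub_comm (x y : Site d) : n1 (x - y) = n1 (y - x) := by
  rw [← n1_neg, neg_sub]

theorem n1_single (i : Fin d) (a : ℤ) : n1 (Pi.single i a : Site d) = a.natAbs := by
  unfold n1
  rw [Finset.sum_eq_single i]
  · rw [Pi.single_eq_same]
  · intro j _ hj
    rw [Pi.single_eq_of_ne hj]
    rfl
  · intro h
    exact absurd (Finset.mem_univ i) h

theorem n1_hs {κ : Site d} (h : κ ∈ hs d) : n1 κ ≤ 1 := by
  unfold hs at h
  rw [Finset.mem_insert, Finset.mem_union, Finset.mem_image, Finset.mem_image] at h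
  rcases h with rfl | ⟨k, -, rfl⟩ | ⟨k, -, rfl⟩
  · unfold n1
    simp
  · rw [n1_single]
    rfl
  · rw [n1_neg, n1_single]
    rfl

theorem n1_nb {i : Fin d} {r : ℕ} {u v : Site d} (h : v ∈ nb i r u) : n1 (v - u) ≤ r + 1 := by
  unfold nb at h
  rw [Finset.mem_union, Finset.mem_image, Finset.mem_image] at h
  rcases h with ⟨κ, hκ, rfl⟩ | ⟨κ, hκ, rfl⟩
  · have h1 : u + Pi.single i (r : ℤ) + κ - u = Pi.single i (r : ℤ) + κ := by abel
    rw [h1]
    refine (n1_add _ _).trans ?_
    have h2 := n1_single i (r : ℤ)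
    have h3 := n1_hs hκ
    simp only [Int.natAbs_natCast] at h2
    omega
  · have h1 : u - Pi.single i (r : ℤ) + κ - u = -Pi.single i (r : ℤ) + κ := by abel
    rw [h1]
    refine (n1_add _ _).trans ?_
    have h2 := n1_single i (r : ℤ)
    have h3 := n1_hs hκ
    rw [n1_neg]
    simp only [Int.natAbs_natCast] at h2
    omega

theorem div_lip {R : ℕ} (hR : 0 < R) (x y : ℤ) :
    R * (x / (R : ℤ) - y / (R : ℤ)).natAbs ≤ (x - y).natAbs + R := by
  have hR' : (0 : ℤ) < R := by exact_mod_cast hR
  have h1 := Int.mul_ediv_add_emod x R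
  have h2 := Int.emod_nonneg x hR'.ne'
  have h3 := Int.emod_lt_of_pos x hR'
  have h1' := Int.mul_ediv_add_emod y R
  have h2' := Int.emod_nonneg y hR'.ne'
  have h3' := Int.emod_lt_of_pos y hR'
  set a := x / (R : ℤ) with ha
  set b := y / (R : ℤ) with hb
  have h4 : ((R * (a - b).natAbs : ℕ) : ℤ) = |(R : ℤ) * a - R * b| := by
    rw [← mul_sub, abs_mul, abs_of_pos hR']
    push_cast
    rfl
  have h5 : (((x - y).natAbs + R : ℕ) : ℤ) = |x - y| + R := by
    push_cast
    rfl
  have h6 : |(R : ℤ) * a - R * b| ≤ |x - y| + R := by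
    rw [abs_le]
    have h7 := le_abs_self (x - y)
    have h8 := neg_abs_le (x - y)
    constructor <;> omega
  have h9 : ((R * (a - b).natAbs : ℕ) : ℤ) ≤ (((x - y).natAbs + R : ℕ) : ℤ) := by
    rw [h4, h5]
    exact h6
  exact_mod_cast h9

theorem qq_lip {R : ℕ} (hR : 0 < R) (x y : Site d) :
    R * n1 (qq R x - qq R y) ≤ n1 (x - y) + d * R := by
  unfold n1 qq
  rw [Finset.mul_sum]
  have h1 : ∑ i : Fin d, (((x - y) i).natAbs + R) = ∑ i, ((x - y) i).natAbs + d * R := by
    rw [Finset.sum_add_distrib, Finset.sum_const, Finset.card_univ, Fintype.card_fin,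
      smul_eq_mul]
  rw [← h1]
  apply Finset.sum_le_sum
  intro i _
  exact div_lip hR (x i) (y i)

/-- coarse steps of scaled length at most `N` -/
noncomputable def stp (R N : ℕ) (a : Site d) : Finset (Site d) :=
  (Fintype.piFinset fun i => Finset.Icc (a i - N) (a i + N)).filter fun b => R * n1 (b - a) ≤ N

theorem mem_stp {R : ℕ} (hR : 0 < R) {N : ℕ} {a b : Site d} :
    b ∈ stp R N a ↔ R * n1 (b - a) ≤ N := by
  unfold stp
  rw [Finset.mem_filter, Fintype.mem_piFinset]
  constructor
  · exact fun h => h.2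
  · intro h
    refine ⟨fun i => ?_, h⟩
    rw [Finset.mem_Icc]
    have h1 : ((b - a) i).natAbs ≤ n1 (b - a) :=
      Finset.single_le_sum (f := fun i => ((b - a) i).natAbs) (fun _ _ => Nat.zero_le _)
        (Finset.mem_univ i)
    have h2 : n1 (b - a) ≤ R * n1 (b - a) := Nat.le_mul_of_pos_left _ hR
    have h3 : ((b - a) i).natAbs ≤ N := h1.trans (h2.trans h)
    rw [Pi.sub_apply] at h3
    omega

/-- sequences of `m` coarse points, starting near `a`, with scaled total variation at most `N` -/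
noncomputable def wl (R : ℕ) : ℕ → ℕ → Site d → Finset (List (Site d))
  | 0, _, _ => {[]}
  | m + 1, N, a => (stp R N a).biUnion fun b =>
      (wl R m (N - R * n1 (b - a)) b).image fun l => b :: l

theorem mem_wl_zero {R N : ℕ} {a : Site d} {l : List (Site d)} : l ∈ wl R 0 N a ↔ l = [] := by
  rw [wl, Finset.mem_singleton]

theorem mem_wl_succ {R : ℕ} (hR : 0 < R) {m N : ℕ} {a : Site d} {l : List (Site d)} :
    l ∈ wl R (m + 1) N a ↔ ∃ b, R * n1 (b - a) ≤ N ∧
      ∃ t ∈ wl R m (N - R * n1 (b - a)) b, b :: t = l := by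
  rw [wl, Finset.mem_biUnion]
  constructor
  · rintro ⟨b, hb, h⟩
    obtain ⟨t, ht, h⟩ := Finset.mem_image.mp h
    exact ⟨b, (mem_stp hR).mp hb, t, ht, h⟩
  · rintro ⟨b, hb, t, ht, h⟩
    exact ⟨b, (mem_stp hR).mpr hb, Finset.mem_image.mpr ⟨t, ht, h⟩⟩

theorem wl_mono {R : ℕ} (hR : 0 < R) (m : ℕ) : ∀ {N N' : ℕ} {a : Site d} {l : List (Site d)},
    N ≤ N' → l ∈ wl R m N a → l ∈ wl R m N' a := by
  induction m with
  | zero =>
    intro N N' a l _ h
    rw [mem_wl_zero] at *
    exact h
  | succ m ih =>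
    intro N N' a l hN h
    rw [mem_wl_succ hR] at *
    obtain ⟨b, hb, t, ht, h⟩ := h
    exact ⟨b, hb.trans hN, t, ih (by omega) ht, h⟩

/-- **Extraction**: the coarse points visited by a fine walk, in order of the first visit -/
theorem extract {R : ℕ} (hR : 0 < R) (i : Fin d) (L : ℕ) : ∀ (M : ℕ) (x : Site d)
    (l : List (Site d)) (y : Site d) (δ : ℕ) (T : Finset (Site d)), l ∈ cw i L M x →
    n1 (x - y) ≤ δ → T ⊆ l.toFinset.image (qq R) →
    ∃ t ∈ wl R T.card (δ + M + L + d * R * T.card) (qq R y), t.toFinset = T := by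
  induction L with
  | zero =>
    intro M x l y δ T hl hxy hT
    rw [mem_cw_zero] at hl
    subst hl
    have hT' : T ⊆ {qq R x} := by
      intro c hc
      have := hT hc
      simpa using this
    rcases Finset.subset_singleton_iff.mp hT' with rfl | rfl
    · refine ⟨[], ?_, rfl⟩
      rw [Finset.card_empty, mem_wl_zero]
    · refine ⟨[qq R x], ?_, rfl⟩
      rw [Finset.card_singleton, mem_wl_succ hR]
      refine ⟨qq R x, ?_, [], mem_wl_zero.mpr rfl, rfl⟩
      have := qq_lip hR x y
      omega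
  | succ L ih =>
    intro M x l y δ T hl hxy hT
    obtain ⟨r, hr, x2, hx2, t2, ht2, rfl⟩ := mem_cw_succ.mp hl
    have hstep := n1_nb hx2
    by_cases hc : qq R x ∈ T
    · have hT2 : T.erase (qq R x) ⊆ t2.toFinset.image (qq R) := by
        intro c hc'
        have h1 := hT (Finset.mem_of_mem_erase hc')
        rw [Finset.mem_image] at h1 ⊢
        obtain ⟨z, hz, hzc⟩ := h1
        rw [List.mem_toFinset, List.mem_cons] at hz
        rcases hz with rfl | hz
        · exact absurd hzc.symm (Finset.ne_of_mem_erase hc')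
        · exact ⟨z, List.mem_toFinset.mpr hz, hzc⟩
      obtain ⟨t, ht, htT⟩ := ih (M - r) x2 t2 x (r + 1) (T.erase (qq R x)) ht2 hstep hT2
      have hcard : T.card = (T.erase (qq R x)).card + 1 := (Finset.card_erase_add_one hc).symm
      refine ⟨qq R x :: t, ?_, ?_⟩
      · rw [hcard, mem_wl_succ hR]
        have h3 := qq_lip hR x y
        refine ⟨qq R x, ?_, t, ?_, rfl⟩
        · rw [mul_add, mul_one]
          omega
        · refine wl_mono hR _ ?_ ht
          rw [mul_add, mul_one]
          omega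
      · rw [List.toFinset_cons, htT, Finset.insert_erase hc]
    · have hT2 : T ⊆ t2.toFinset.image (qq R) := by
        intro c hc'
        have h1 := hT hc'
        rw [Finset.mem_image] at h1 ⊢
        obtain ⟨z, hz, hzc⟩ := h1
        rw [List.mem_toFinset, List.mem_cons] at hz
        rcases hz with rfl | hz
        · exact absurd (hzc ▸ hc') hc
        · exact ⟨z, List.mem_toFinset.mpr hz, hzc⟩
      have h4 : n1 (x2 - y) ≤ δ + (r + 1) := by
        have h5 : x2 - y = (x2 - x) + (x - y) := by abel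
        rw [h5]
        refine (n1_add _ _).trans ?_
        omega
      obtain ⟨t, ht, htT⟩ := ih (M - r) x2 t2 y (δ + (r + 1)) T ht2 h4 hT2
      refine ⟨t, wl_mono hR _ ?_ ht, htT⟩
      omega

/-- the geometric sum over a centered interval -/
theorem geo_sum (y : ℝ) (hy0 : 0 ≤ y) (hy1 : y < 1) (N : ℕ) (a : ℤ) :
    ∑ b ∈ Finset.Icc (a - N) (a + N), y ^ (b - a).natAbs ≤ 2 / (1 - y) := by
  have h1 : ∑ b ∈ Finset.Icc (a - N) (a + N), y ^ (b - a).natAbs ≤
      ∑ b ∈ (Finset.range (N + 1)).image (fun j : ℕ => a + j) ∪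
        (Finset.range (N + 1)).image (fun j : ℕ => a - j), y ^ (b - a).natAbs := by
    apply Finset.sum_le_sum_of_subset_of_nonneg
    · intro b hb
      rw [Finset.mem_Icc] at hb
      rw [Finset.mem_union, Finset.mem_image, Finset.mem_image]
      rcases le_total a b with h | h
      · left
        exact ⟨(b - a).toNat, by rw [Finset.mem_range]; omega, by omega⟩
      · right
        exact ⟨(a - b).toNat, by rw [Finset.mem_range]; omega, by omega⟩
    · intro b _ _
      positivity
  have h2 : ∑ j ∈ Finset.range (N + 1), y ^ j ≤ (1 - y)⁻¹ := by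
    rw [← tsum_geometric_of_lt_one hy0 hy1]
    exact (summable_geometric_of_lt_one hy0 hy1).sum_le_tsum _ fun n _ => by positivity
  have h3 : ∑ b ∈ (Finset.range (N + 1)).image (fun j : ℕ => a + j), y ^ (b - a).natAbs =
      ∑ j ∈ Finset.range (N + 1), y ^ j := by
    rw [Finset.sum_image]
    · apply Finset.sum_congr rfl
      intro j _
      congr 1
      omega
    · intro j _ j' _ h
      simp only at h
      omega
  have h4 : ∑ b ∈ (Finset.range (N + 1)).image (fun j : ℕ => a - j), y ^ (b - a).natAbs =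
      ∑ j ∈ Finset.range (N + 1), y ^ j := by
    rw [Finset.sum_image]
    · apply Finset.sum_congr rfl
      intro j _
      congr 1
      omega
    · intro j _ j' _ h
      simp only at h
      omega
  have h5 : ∑ b ∈ (Finset.range (N + 1)).image (fun j : ℕ => a + j) ∪
        (Finset.range (N + 1)).image (fun j : ℕ => a - j), y ^ (b - a).natAbs ≤
      ∑ b ∈ (Finset.range (N + 1)).image (fun j : ℕ => a + j), y ^ (b - a).natAbs +
      ∑ b ∈ (Finset.range (N + 1)).image (fun j : ℕ => a - j), y ^ (b - a).natAbs := by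
    rw [← Finset.sum_union_inter]
    exact le_add_of_nonneg_right (Finset.sum_nonneg fun b _ => by positivity)
  rw [h3, h4] at h5
  refine h1.trans (h5.trans ?_)
  rw [div_eq_mul_inv]
  linarith

theorem stp_sum (y : ℝ) (hy0 : 0 ≤ y) (hy1 : y < 1) (R N : ℕ) (a : Site d) :
    ∑ b ∈ stp R N a, y ^ n1 (b - a) ≤ (2 / (1 - y)) ^ d := by
  have h1 : ∑ b ∈ stp R N a, y ^ n1 (b - a) ≤
      ∑ b ∈ Fintype.piFinset fun i => Finset.Icc (a i - N) (a i + N), y ^ n1 (b - a) :=
    Finset.sum_le_sum_of_subset_of_nonneg (Finset.filter_subset _ _) fun b _ _ => by positivity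
  have h2 : ∀ b : Site d, y ^ n1 (b - a) = ∏ i, y ^ (b i - a i).natAbs := by
    intro b
    unfold n1
    rw [← Finset.prod_pow_eq_pow_sum]
    rfl
  rw [Finset.sum_congr (s₁ := Fintype.piFinset fun i => Finset.Icc (a i - (N : ℤ)) (a i + N)) rfl
    fun b _ => h2 b] at h1
  have h3 := Finset.prod_univ_sum (fun i : Fin d => Finset.Icc (a i - N) (a i + N))
    (fun i b => y ^ (b - a i).natAbs)
  rw [← h3] at h1
  refine h1.trans ?_
  calc ∏ i : Fin d, ∑ b ∈ Finset.Icc (a i - N) (a i + N), y ^ (b - a i).natAbs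
      ≤ ∏ _i : Fin d, (2 / (1 - y)) := by
        apply Finset.prod_le_prod
        · intro i _
          exact Finset.sum_nonneg fun b _ => by positivity
        · intro i _
          exact geo_sum y hy0 hy1 N (a i)
    _ = (2 / (1 - y)) ^ d := by
        rw [Finset.prod_const, Finset.card_univ, Fintype.card_fin]

/-- **Number of coarse codes** -/
theorem card_wl {R : ℕ} (hR : 0 < R) (z : ℝ) (hz0 : 0 < z) (hz1 : z < 1) (m : ℕ) :
    ∀ (N : ℕ) (a : Site d), ((wl R m N a).card : ℝ) * z ^ N ≤ ((2 / (1 - z ^ R)) ^ d) ^ m := by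
  have hy0 : 0 ≤ z ^ R := by positivity
  have hy1 : z ^ R < 1 := pow_lt_one₀ hz0.le hz1 hR.ne'
  induction m with
  | zero =>
    intro N a
    rw [wl, Finset.card_singleton, pow_zero, Nat.cast_one, one_mul]
    exact pow_le_one₀ hz0.le hz1.le
  | succ m ih =>
    intro N a
    set Q : ℝ := (2 / (1 - z ^ R)) ^ d with hQ
    have hQ0 : 0 ≤ Q := by
      rw [hQ]
      have : 0 < 1 - z ^ R := by linarith
      positivity
    have h1 : ((wl R (m + 1) N a).card : ℝ) ≤ ∑ b ∈ stp R N a,
        ((wl R m (N - R * n1 (b - a)) b).card : ℝ) := by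
      rw [wl]
      have h2 := Finset.card_biUnion_le (s := stp R N a) (t := fun b =>
        (wl R m (N - R * n1 (b - a)) b).image fun l => b :: l)
      refine (Nat.cast_le.mpr h2).trans ?_
      rw [Nat.cast_sum]
      apply Finset.sum_le_sum
      intro b _
      exact_mod_cast Finset.card_image_le
    calc ((wl R (m + 1) N a).card : ℝ) * z ^ N
        ≤ (∑ b ∈ stp R N a, ((wl R m (N - R * n1 (b - a)) b).card : ℝ)) * z ^ N :=
          mul_le_mul_of_nonneg_right h1 (by positivity)
      _ = ∑ b ∈ stp R N a, (((wl R m (N - R * n1 (b - a)) b).card : ℝ) *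
            z ^ (N - R * n1 (b - a))) * (z ^ R) ^ n1 (b - a) := by
          rw [Finset.sum_mul]
          apply Finset.sum_congr rfl
          intro b hb
          have h3 := (mem_stp hR).mp hb
          rw [mul_assoc, ← pow_mul, ← pow_add]
          congr 2
          omega
      _ ≤ ∑ b ∈ stp R N a, Q ^ m * (z ^ R) ^ n1 (b - a) := by
          apply Finset.sum_le_sum
          intro b _
          exact mul_le_mul_of_nonneg_right (ih _ b) (by positivity)
      _ = Q ^ m * ∑ b ∈ stp R N a, (z ^ R) ^ n1 (b - a) := (Finset.mul_sum _ _ _).symm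
      _ ≤ Q ^ m * Q := mul_le_mul_of_nonneg_left (stp_sum _ hy0 hy1 R N a) (by positivity)
      _ = Q ^ (m + 1) := (pow_succ _ _).symm

end Pool.T9h81.HL
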