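import Mathlib

/-!
# Concentration of odd functions of symmetric independent variables
-/

set_option autoImplicit false

open MeasureTheory ProbabilityTheory
open scoped Classical symmDiff

namespace Pool.T9h81.HL

variable {ι : Type}

/-- change the signs of finitely many coordinates -/
noncomputable def fl (D : Finset ι) (J : ι → ℝ) : ι → ℝ := fun e => if e ∈ D then - J e else J e

theorem fl_empty (J : ι → ℝ) : fl ∅ J = J := by
  funext e
  simp [fl]

theorem fl_fl (A B : Finset ι) (J : ι → ℝ) : fl A (fl B J) = fl (A ∆ B) J := by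
  funext e
  unfold fl
  by_cases hA : e ∈ A <;> by_cases hB : e ∈ B <;> simp [Finset.mem_symmDiff, hA, hB]

theorem fl_fl_of (A B T : Finset ι) (J : ι → ℝ)
    (h : ∀ e, e ∈ T ↔ (e ∈ A ∧ e ∉ B ∨ e ∈ B ∧ e ∉ A)) : fl A (fl B J) = fl T J := by
  funext e
  have h1 := h e
  unfold fl
  by_cases hA : e ∈ A <;> by_cases hB : e ∈ B <;> by_cases hT : e ∈ T <;>
    simp_all

theorem fl_comm (A B : Finset ι) (J : ι → ℝ) : fl A (fl B J) = fl B (fl A J) := by
  rw [fl_fl, fl_fl, symmDiff_comm]

theorem abs_fl (A : Finset ι) (J : ι → ℝ) (e : ι) : |fl A J e| = |J e| := by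
  unfold fl
  split_ifs
  · rw [abs_neg]
  · rfl

theorem measurable_fl (D : Finset ι) : Measurable (fl D) := by
  rw [measurable_pi_iff]
  intro e
  unfold fl
  by_cases h : e ∈ D
  · simp only [h, if_true]
    exact (measurable_pi_apply e).neg
  · simp only [h, if_false]
    exact measurable_pi_apply e

theorem map_fl (ν : ι → Measure ℝ) [∀ e, IsProbabilityMeasure (ν e)] (D : Finset ι)
    (hν : ∀ e ∈ D, (ν e).map (fun x => -x) = ν e) :
    (Measure.infinitePi ν).map (fl D) = Measure.infinitePi ν := by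
  set f : ι → ℝ → ℝ := fun e x => if e ∈ D then -x else x with hf
  have hfm : ∀ e, Measurable (f e) := by
    intro e
    rw [hf]
    by_cases h : e ∈ D
    · simp only [h, if_true]
      exact measurable_id.neg
    · simp only [h, if_false]
      exact measurable_id
  have h2 := Measure.infinitePi_map_pi ν (f := f) hfm
  have h3 : (fun (x : ι → ℝ) i => f i (x i)) = fl D := by
    funext J e
    rfl
  rw [h3] at h2
  rw [h2]
  congr 1
  funext e
  rw [hf]
  by_cases h : e ∈ D
  · simp only [h, if_true]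
    exact hν e h
  · simp only [h, if_false]
    exact Measure.map_id

/-- average over the sign changes in `S` -/
noncomputable def av (S : Finset ι) (φ : (ι → ℝ) → ℝ) (J : ι → ℝ) : ℝ :=
  (∑ T ∈ S.powerset, φ (fl T J)) / 2 ^ S.card

theorem fl_insert {e : ι} {T : Finset ι} (he : e ∉ T) (J : ι → ℝ) :
    fl (insert e T) J = fl T (fl {e} J) := by
  rw [fl_fl]
  congr 1
  ext x
  rw [Finset.mem_insert, Finset.mem_symmDiff, Finset.mem_singleton]
  constructor
  · rintro (rfl | h)
    · exact Or.inr ⟨rfl, he⟩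
    · exact Or.inl ⟨h, fun h2 => he (h2 ▸ h)⟩
  · rintro (⟨h, -⟩ | ⟨h, -⟩)
    · exact Or.inr h
    · exact Or.inl h

theorem av_insert {e : ι} {S : Finset ι} (he : e ∉ S) (φ : (ι → ℝ) → ℝ) (J : ι → ℝ) :
    av (insert e S) φ J = (av S φ J + av S φ (fl {e} J)) / 2 := by
  unfold av
  rw [Finset.sum_powerset_insert he, Finset.card_insert_of_notMem he, pow_succ]
  have h1 : ∑ T ∈ S.powerset, φ (fl (insert e T) J) = ∑ T ∈ S.powerset, φ (fl T (fl {e} J)) := by
    apply Finset.sum_congr rfl
    intro T hT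
    rw [fl_insert fun h => he (Finset.mem_powerset.mp hT h)]
  rw [h1]
  field_simp

theorem two_exp (a b c : ℝ) (h : |a - b| ≤ c) :
    (Real.exp a + Real.exp b) / 2 ≤ Real.exp ((a + b) / 2 + c ^ 2 / 8) := by
  have h1 : (Real.exp a + Real.exp b) / 2 = Real.exp ((a + b) / 2) * Real.cosh ((a - b) / 2) := by
    rw [Real.cosh_eq, mul_div_assoc', mul_add, ← Real.exp_add, ← Real.exp_add]
    congr 2
    · congr 1
      ring
    · congr 1
      ring
  rw [h1, Real.exp_add]
  apply mul_le_mul_of_nonneg_left _ (Real.exp_pos _).le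
  refine (Real.cosh_le_exp_half_sq _).trans (Real.exp_le_exp.mpr ?_)
  have h2 : (a - b) ^ 2 ≤ c ^ 2 := sq_le_sq' (by linarith [(abs_le.mp h).1]) (abs_le.mp h).2
  linarith

/-- exponential moments of averages -/
theorem av_exp (Good : Set (ι → ℝ)) (hG : ∀ T : Finset ι, ∀ J ∈ Good, fl T J ∈ Good)
    (f : (ι → ℝ) → ℝ) (c lam : ℝ) (S : Finset ι)
    (hL : ∀ e ∈ S, ∀ J ∈ Good, |f (fl {e} J) - f J| ≤ c) :
    ∀ J ∈ Good, av S (fun J => Real.exp (lam * f J)) J ≤
      Real.exp (lam * av S f J + S.card * ((lam * c) ^ 2 / 8)) := by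
  induction S using Finset.induction_on with
  | empty =>
    intro J _
    unfold av
    simp [fl_empty]
  | insert e S he ih =>
    intro J hJ
    have hih := ih fun e' he' => hL e' (Finset.mem_insert_of_mem he')
    rw [av_insert he, av_insert he]
    have h1 := hih J hJ
    have h2 := hih (fl {e} J) (hG _ J hJ)
    have hdiff : |av S f J - av S f (fl {e} J)| ≤ c := by
      unfold av
      rw [← sub_div, abs_div, abs_of_pos (by positivity : (0 : ℝ) < 2 ^ S.card),
        div_le_iff₀ (by positivity), ← Finset.sum_sub_distrib]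
      calc |∑ T ∈ S.powerset, (f (fl T J) - f (fl T (fl {e} J)))|
          ≤ ∑ T ∈ S.powerset, |f (fl T J) - f (fl T (fl {e} J))| :=
            Finset.abs_sum_le_sum_abs _ _
        _ ≤ ∑ T ∈ S.powerset, c := by
            apply Finset.sum_le_sum
            intro T _
            rw [fl_comm T {e} J, abs_sub_comm]
            exact hL e (Finset.mem_insert_self e S) _ (hG T J hJ)
        _ = c * 2 ^ S.card := by
            rw [Finset.sum_const, Finset.card_powerset, nsmul_eq_mul, mul_comm]
            push_cast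
            rfl
    set a := av S f J with ha
    set b := av S f (fl {e} J) with hb
    set κ : ℝ := S.card * ((lam * c) ^ 2 / 8) with hκ
    have h3 : |(lam * a + κ) - (lam * b + κ)| ≤ |lam| * c := by
      have : (lam * a + κ) - (lam * b + κ) = lam * (a - b) := by ring
      rw [this, abs_mul]
      exact mul_le_mul_of_nonneg_left hdiff (abs_nonneg _)
    have h4 := two_exp _ _ _ h3
    calc (av S (fun J => Real.exp (lam * f J)) J +
          av S (fun J => Real.exp (lam * f J)) (fl {e} J)) / 2
        ≤ (Real.exp (lam * a + κ) + Real.exp (lam * b + κ)) / 2 := by linarith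
      _ ≤ _ := h4
      _ = Real.exp (lam * ((a + b) / 2) + (insert e S).card * ((lam * c) ^ 2 / 8)) := by
          congr 1
          have h5 : (|lam| * c) ^ 2 = (lam * c) ^ 2 := by rw [mul_pow, sq_abs, mul_pow]
          rw [Finset.card_insert_of_notMem he, hκ, h5]
          push_cast
          ring

theorem av_odd (Good : Set (ι → ℝ)) (hG : ∀ T : Finset ι, ∀ J ∈ Good, fl T J ∈ Good)
    (f : (ι → ℝ) → ℝ) (S : Finset ι) (hodd : ∀ J ∈ Good, f (fl S J) = - f J) :
    ∀ J ∈ Good, av S f J = 0 := by
  intro J hJ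
  unfold av
  have h1 : ∑ T ∈ S.powerset, f (fl T J) = - ∑ T ∈ S.powerset, f (fl T J) := by
    conv_lhs => rw [← Finset.sum_bij_ne_zero (s := S.powerset) (t := S.powerset)
      (f := fun T => f (fl (S \ T) J)) (g := fun T => f (fl T J)) (fun T _ _ => S \ T)
      (fun T _ _ => Finset.mem_powerset.mpr Finset.sdiff_subset)
      (fun T hT _ T' hT' _ h => by
        rw [← Finset.sdiff_sdiff_eq_self (Finset.mem_powerset.mp hT), h,
          Finset.sdiff_sdiff_eq_self (Finset.mem_powerset.mp hT')])
      (fun T hT hne => ⟨S \ T, Finset.mem_powerset.mpr Finset.sdiff_subset, by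
        rw [Finset.sdiff_sdiff_eq_self (Finset.mem_powerset.mp hT)]
        exact hne, Finset.sdiff_sdiff_eq_self (Finset.mem_powerset.mp hT)⟩)
      (fun T _ _ => rfl)]
    rw [← Finset.sum_neg_distrib]
    apply Finset.sum_congr rfl
    intro T hT
    have h2 : fl (S \ T) J = fl S (fl T J) := by
      rw [fl_fl]
      congr 1
      have hT' := Finset.mem_powerset.mp hT
      ext x
      rw [Finset.mem_sdiff, Finset.mem_symmDiff]
      constructor
      · rintro ⟨h3, h4⟩
        exact Or.inl ⟨h3, h4⟩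
      · rintro (⟨h3, h4⟩ | ⟨h3, h4⟩)
        · exact ⟨h3, h4⟩
        · exact absurd (hT' h3) h4
    rw [h2, hodd _ (hG T J hJ)]
  have h2 : ∑ T ∈ S.powerset, f (fl T J) = 0 := by linarith
  rw [h2, zero_div]

/-- **Concentration.** -/
theorem conc (ν : ι → Measure ℝ) [∀ e, IsProbabilityMeasure (ν e)] (S : Finset ι)
    (hν : ∀ e ∈ S, (ν e).map (fun x => -x) = ν e) (Good : Set (ι → ℝ))
    (hGae : ∀ᵐ J ∂(Measure.infinitePi ν), J ∈ Good)
    (hG : ∀ T : Finset ι, ∀ J ∈ Good, fl T J ∈ Good)
    (f : (ι → ℝ) → ℝ) (hf : Measurable f) (c : ℝ) (hc : 0 < c)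
    (hL : ∀ e ∈ S, ∀ J ∈ Good, |f (fl {e} J) - f J| ≤ c)
    (hodd : ∀ J ∈ Good, f (fl S J) = - f J) (m : ℝ) (hm : 0 < m) (hSm : (S.card : ℝ) ≤ m)
    (t : ℝ) (ht : 0 < t) :
    (Measure.infinitePi ν).real {J | t ≤ f J} ≤ Real.exp (-(2 * t ^ 2 / (c ^ 2 * m))) := by
  set μ := Measure.infinitePi ν with hμ
  set lam : ℝ := 4 * t / (c ^ 2 * m) with hlam
  have hlam0 : 0 < lam := by positivity
  set κ : ℝ := S.card * ((lam * c) ^ 2 / 8) with hκ
  set φ : (ι → ℝ) → ℝ := fun J => Real.exp (lam * f J) with hφ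
  have hφm : Measurable φ := Real.measurable_exp.comp (hf.const_mul lam)
  have hav : ∀ J ∈ Good, av S φ J ≤ Real.exp κ := by
    intro J hJ
    have h1 := av_exp Good hG f c lam S hL J hJ
    rw [av_odd Good hG f S hodd J hJ, mul_zero, zero_add] at h1
    exact h1
  have hbound : ∀ J ∈ Good, φ J ≤ 2 ^ S.card * Real.exp κ := by
    intro J hJ
    have h1 := hav J hJ
    unfold av at h1
    rw [div_le_iff₀ (by positivity)] at h1
    have h2 : φ (fl ∅ J) ≤ ∑ T ∈ S.powerset, φ (fl T J) :=
      Finset.single_le_sum (f := fun T => φ (fl T J)) (fun T _ => (Real.exp_pos _).le)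
        (Finset.empty_mem_powerset S)
    rw [fl_empty] at h2
    linarith
  have hint : Integrable φ μ := by
    refine Integrable.mono' (integrable_const (2 ^ S.card * Real.exp κ))
      hφm.aestronglyMeasurable ?_
    filter_upwards [hGae] with J hJ
    rw [Real.norm_of_nonneg (Real.exp_pos _).le]
    exact hbound J hJ
  have hinv : ∀ T ∈ S.powerset, ∫ J, φ (fl T J) ∂μ = ∫ J, φ J ∂μ := by
    intro T hT
    have h1 := map_fl ν T fun e he => hν e (Finset.mem_powerset.mp hT he)
    rw [← integral_map (measurable_fl T).aemeasurable hφm.aestronglyMeasurable, h1]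
  have hintT : ∀ T ∈ S.powerset, Integrable (fun J => φ (fl T J)) μ := by
    intro T hT
    have h1 := map_fl ν T fun e he => hν e (Finset.mem_powerset.mp hT he)
    have h2 : Integrable φ (μ.map (fl T)) := by
      rw [h1]
      exact hint
    exact h2.comp_measurable (measurable_fl T)
  have hmgf : ∫ J, φ J ∂μ ≤ Real.exp κ := by
    have h1 : ∫ J, av S φ J ∂μ = ∫ J, φ J ∂μ := by
      unfold av
      rw [integral_div, integral_finsetSum _ hintT, Finset.sum_congr rfl hinv, Finset.sum_const,
        Finset.card_powerset, nsmul_eq_mul]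
      push_cast
      field_simp
    rw [← h1]
    have h2 : Integrable (av S φ) μ := by
      unfold av
      exact (integrable_finsetSum _ hintT).div_const _
    calc ∫ J, av S φ J ∂μ ≤ ∫ _J, Real.exp κ ∂μ := by
          apply integral_mono_ae h2 (integrable_const _)
          filter_upwards [hGae] with J hJ
          exact hav J hJ
      _ = Real.exp κ := by simp
  have hcher := measure_ge_le_exp_mul_mgf (μ := μ) (X := f) t hlam0.le hint
  refine hcher.trans ?_
  have h3 : mgf f μ lam ≤ Real.exp κ := hmgf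
  calc Real.exp (-lam * t) * mgf f μ lam ≤ Real.exp (-lam * t) * Real.exp κ :=
        mul_le_mul_of_nonneg_left h3 (Real.exp_pos _).le
    _ = Real.exp (-lam * t + κ) := (Real.exp_add _ _).symm
    _ ≤ Real.exp (-(2 * t ^ 2 / (c ^ 2 * m))) := by
        apply Real.exp_le_exp.mpr
        have h4 : κ ≤ m * ((lam * c) ^ 2 / 8) := by
          rw [hκ]
          exact mul_le_mul_of_nonneg_right hSm (by positivity)
        have h5 : -lam * t + m * ((lam * c) ^ 2 / 8) = -(2 * t ^ 2 / (c ^ 2 * m)) := by
          rw [hlam]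
          field_simp
          ring
        linarith

end Pool.T9h81.HL
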