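import Pool.Agent.T9h81.HL.Codes
import Pool.Agent.T9h81.EAR.MeanMain

/-!
# The number of coarse-grained contours
-/

set_option autoImplicit false

open scoped Classical symmDiff

namespace Pool.T9h81.HL

open Pool.T9h81.EAR

variable {d : ℕ}

/-- a walk with small cost, starting at `x`, through all vertical boundary edges -/
theorem exists_walk (hd : 2 ≤ d) (x : Site d) (n : ℕ) (B : Finset (Site d)) (hB : Contour x n B)
    (i : Fin d) : ∃ m, m + 1 ≤ n ∧ ∃ l ∈ cw i (2 * m + 1) (9 * n) x,
      Sv B i ⊆ l.toFinset := by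
  obtain ⟨hx, hc1, hc2, hn⟩ := hB
  obtain ⟨h, hh, hroot⟩ := exists_root hd B i x hx
  rw [hn] at hh
  have hpos : 0 < (Sv B i).card := Finset.card_pos.mpr ⟨_, hroot⟩
  have hle : (Sv B i).card ≤ n := by
    have h1 : (Sv B i).card ≤ ∑ j, (Sv B j).card :=
      Finset.single_le_sum (f := fun j => (Sv B j).card) (fun _ _ => Nat.zero_le _)
        (Finset.mem_univ i)
    have h2 := sum_Sv B
    omega
  obtain ⟨T, hTS, -, hT, l, hl, hlT⟩ := exists_code B i hc1 hc2 (cost B i)
    (fun u _ v _ r huv => link_le_cost B i u v r huv) (sh i x h) hroot ((Sv B i).card - 1)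
    (by omega)
  have hTeq : T = Sv B i := Finset.eq_of_subset_of_card_le hTS (by omega)
  refine ⟨(Sv B i).card - 1, by omega, x :: l, ?_, ?_⟩
  · rw [mem_cw_succ]
    refine ⟨h, by omega, sh i x h, ?_, l, ?_, rfl⟩
    · unfold nb
      rw [Finset.mem_union, Finset.mem_image]
      left
      exact ⟨0, zero_mem_hs, by rw [add_zero]; rfl⟩
    · apply cw_mono _ _ hl
      have h1 := sum_cost B i
      rw [hTeq]
      rw [hn] at h1
      omega
  · rw [← hTeq, ← hlT]
    intro u hu
    rw [List.toFinset_cons]
    exact Finset.mem_insert_of_mem hu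

/-- possible sets of vertical coarse boundary edges -/
noncomputable def cod (R n : ℕ) (x : Site d) (i : Fin d) : Finset (Finset (Site d)) :=
  (Finset.range (32 * n / R ^ 2 + 1)).biUnion fun m =>
    (wl R m (11 * n + d * R * m) (qq R x)).biUnion fun t =>
      (t.toFinset ∪ t.toFinset.image fun c => c - Pi.single i 1).powerset

/-- possible coarse-grained sets (as sets of indices) -/
noncomputable def fam (R n : ℕ) (x : Site d) (i : Fin d) : Finset (Finset (Site d)) :=
  (cod R n x i).image fun S => if h : ∃ M, Sv M i = S then h.choose else ∅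

theorem mj_mem_fam {R : ℕ} (hR : 0 < R) (hd : 3 ≤ d) (x : Site d) (n : ℕ) (B : Finset (Site d))
    (hB : Contour x n B) (i : Fin d) : mj R B ∈ fam R n x i := by
  obtain ⟨m, hm, l, hl, hSl⟩ := exists_walk (by omega) x n B hB i
  have hcode : Sv (mj R B) i ∈ cod R n x i := by
    have hex : ∀ c ∈ Sv (mj R B) i, ∃ u, u ∈ Sv B i ∧ (qq R u = c ∨ qq R u = c + Pi.single i 1) :=
      fun c hc => by
        obtain ⟨u, hu, h⟩ := exists_fine hR B i c hc
        exact ⟨u, hu, h⟩
    choose! u hu1 hu2 using hex
    set T := (Sv (mj R B) i).image fun c => qq R (u c) with hT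
    have hTl : T ⊆ l.toFinset.image (qq R) := by
      intro c' hc'
      obtain ⟨c, hc, rfl⟩ := Finset.mem_image.mp hc'
      exact Finset.mem_image.mpr ⟨u c, hSl (hu1 c hc), rfl⟩
    obtain ⟨t, ht, htT⟩ := extract hR i (2 * m + 1) (9 * n) x l x 0 T hl (by
      rw [sub_self]
      unfold n1
      simp) hTl
    have hcardT : T.card ≤ 32 * n / R ^ 2 := by
      have h1 : T.card ≤ (Sv (mj R B) i).card := Finset.card_image_le
      refine h1.trans ?_
      rw [Nat.le_div_iff_mul_le (pow_pos hR 2)]
      have h2 := card_Sv_mj hR hd B i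
      rw [hB.2.2.2] at h2
      exact h2
    unfold cod
    rw [Finset.mem_biUnion]
    refine ⟨T.card, Finset.mem_range.mpr (by omega), ?_⟩
    rw [Finset.mem_biUnion]
    refine ⟨t, wl_mono hR _ (by omega) ht, ?_⟩
    rw [Finset.mem_powerset, htT]
    intro c hc
    have hmem : qq R (u c) ∈ T := Finset.mem_image_of_mem (fun c => qq R (u c)) hc
    rw [Finset.mem_union]
    rcases hu2 c hc with h | h
    · left
      rw [← h]
      exact hmem
    · right
      rw [Finset.mem_image]
      refine ⟨qq R (u c), hmem, ?_⟩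
      rw [h]
      abel
  unfold fam
  rw [Finset.mem_image]
  refine ⟨_, hcode, ?_⟩
  have hex : ∃ M, Sv M i = Sv (mj R B) i := ⟨_, rfl⟩
  rw [dif_pos hex]
  exact Sv_inj hex.choose_spec

theorem card_wl_le (l : ℕ) (n m : ℕ) (a : Site d) (hm : m ≤ 32 * n / (2 ^ l) ^ 2) :
    ((wl (2 ^ l) m (11 * n + d * 2 ^ l * m) a).card : ℝ) ≤
      Real.exp ((11 + 32 * d * (l + 3)) * (n / 4 ^ l)) := by
  set R : ℕ := 2 ^ l with hR
  have hR0 : 0 < R := by positivity
  have hRr : (1 : ℝ) ≤ R := by exact_mod_cast hR0
  have hRpos : (0 : ℝ) < R := by linarith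
  set z : ℝ := Real.exp (-(1 / (R : ℝ) ^ 2)) with hz
  have hz0 : 0 < z := Real.exp_pos _
  have hz1 : z < 1 := by
    rw [hz, Real.exp_lt_one_iff]
    have : 0 < 1 / (R : ℝ) ^ 2 := by positivity
    linarith
  have h1 := card_wl hR0 z hz0 hz1 m (11 * n + d * R * m) a
  have hzR : z ^ R = Real.exp (-(1 / (R : ℝ))) := by
    rw [hz, ← Real.exp_nat_mul]
    congr 1
    field_simp
  have h2 : 2 / (1 - z ^ R) ≤ 4 * R := by
    have h3 : Real.exp (-(1 / (R : ℝ))) ≤ 1 - 1 / (2 * R) := by
      have hu0 : 0 < 1 / (R : ℝ) := by positivity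
      have hu1 : 1 / (R : ℝ) ≤ 1 := by
        rw [div_le_one hRpos]
        exact hRr
      have h4 : Real.exp (-(1 / (R : ℝ))) ≤ 1 / (1 + 1 / R) := by
        rw [Real.exp_neg, ← one_div]
        apply one_div_le_one_div_of_le (by linarith)
        linarith [Real.add_one_le_exp (1 / (R : ℝ))]
      refine h4.trans ?_
      have h5 : 1 / (2 * (R : ℝ)) = (1 / R) / 2 := by
        field_simp
      rw [h5, div_le_iff₀ (by linarith)]
      nlinarith
    rw [hzR, div_le_iff₀]
    · have h6 : 4 * (R : ℝ) * (1 / (2 * R)) = 2 := by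
        field_simp
        norm_num
      nlinarith
    · have h7 : 0 < 1 / (2 * (R : ℝ)) := by positivity
      linarith
  have h2' : 0 ≤ 2 / (1 - z ^ R) := by
    have : z ^ R < 1 := pow_lt_one₀ hz0.le hz1 hR0.ne'
    have h3 : 0 < 1 - z ^ R := by linarith
    positivity
  have hmr : (m : ℝ) ≤ 32 * (n / 4 ^ l) := by
    have h3 : ((32 * n / R ^ 2 : ℕ) : ℝ) ≤ ((32 * n : ℕ) : ℝ) / ((R ^ 2 : ℕ) : ℝ) :=
      Nat.cast_div_le
    have h4 : ((R ^ 2 : ℕ) : ℝ) = 4 ^ l := by
      rw [hR]
      push_cast
      rw [← pow_mul, mul_comm l 2, pow_mul]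
      norm_num
    rw [h4] at h3
    refine (Nat.cast_le.mpr hm).trans (h3.trans (le_of_eq ?_))
    push_cast
    ring
  have hR2 : (R : ℝ) ^ 2 = 4 ^ l := by
    rw [hR]
    push_cast
    rw [← pow_mul, mul_comm l 2, pow_mul]
    norm_num
  -- the bound
  have hA : ((2 / (1 - z ^ R)) ^ d) ^ m ≤ Real.exp (d * (l + 2) * (32 * (n / 4 ^ l))) := by
    rw [← pow_mul]
    calc (2 / (1 - z ^ R)) ^ (d * m) ≤ (4 * (R : ℝ)) ^ (d * m) := pow_le_pow_left₀ h2' h2 _
      _ ≤ (Real.exp (l + 2)) ^ (d * m) := by
          apply pow_le_pow_left₀ (by positivity)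
          have h3 : 4 * (R : ℝ) = 2 ^ (l + 2) := by
            rw [hR]
            push_cast
            ring
          rw [h3]
          have h4 : Real.exp ((l : ℝ) + 2) = Real.exp 1 ^ (l + 2) := by
            rw [← Real.exp_nat_mul]
            congr 1
            push_cast
            ring
          rw [h4]
          apply pow_le_pow_left₀ (by norm_num)
          linarith [Real.add_one_le_exp (1 : ℝ)]
      _ = Real.exp (((d * m : ℕ) : ℝ) * (l + 2)) := (Real.exp_nat_mul _ _).symm
      _ ≤ Real.exp (d * (l + 2) * (32 * (n / 4 ^ l))) := by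
          apply Real.exp_le_exp.mpr
          push_cast
          have h5 : (d : ℝ) * m * (l + 2) = d * (l + 2) * m := by ring
          rw [h5]
          exact mul_le_mul_of_nonneg_left hmr (by positivity)
  have hB : (z ^ (11 * n + d * R * m))⁻¹ ≤ Real.exp (11 * (n / 4 ^ l) +
      d * (32 * (n / 4 ^ l))) := by
    rw [hz, ← Real.exp_nat_mul, ← Real.exp_neg]
    apply Real.exp_le_exp.mpr
    have h3 : -(((11 * n + d * R * m : ℕ) : ℝ) * -(1 / (R : ℝ) ^ 2)) =
        11 * (n / (R : ℝ) ^ 2) + d * (m / R) := by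
      push_cast
      field_simp
    rw [h3, hR2]
    have h4 : (m : ℝ) / R ≤ m := div_le_self (Nat.cast_nonneg m) hRr
    have h5 : (d : ℝ) * (m / R) ≤ d * (32 * (n / 4 ^ l)) :=
      mul_le_mul_of_nonneg_left (h4.trans hmr) (Nat.cast_nonneg d)
    linarith
  have hzN : 0 < z ^ (11 * n + d * R * m) := by positivity
  calc ((wl R m (11 * n + d * R * m) a).card : ℝ)
      = ((wl R m (11 * n + d * R * m) a).card : ℝ) * z ^ (11 * n + d * R * m) *
        (z ^ (11 * n + d * R * m))⁻¹ := (mul_inv_cancel_right₀ hzN.ne' _).symm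
    _ ≤ Real.exp (d * (l + 2) * (32 * (n / 4 ^ l))) *
        Real.exp (11 * (n / 4 ^ l) + d * (32 * (n / 4 ^ l))) := by
        apply mul_le_mul (h1.trans hA) hB (inv_nonneg.mpr hzN.le) (Real.exp_pos _).le
    _ = Real.exp ((11 + 32 * d * (l + 3)) * (n / 4 ^ l)) := by
        rw [← Real.exp_add]
        congr 1
        ring

/-- **Number of coarse-grained contours** at scale `2 ^ l` -/
theorem card_fam (hd : 3 ≤ d) (l n : ℕ) (x : Site d) (i : Fin d) :
    ((fam (2 ^ l) n x i).card : ℝ) ≤ Real.exp (132 * d * (l + 1) * (n / 4 ^ l)) := by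
  have hdr : (3 : ℝ) ≤ d := by exact_mod_cast hd
  have h1 : ((fam (2 ^ l) n x i).card : ℝ) ≤ (cod (2 ^ l) n x i).card := by
    exact_mod_cast Finset.card_image_le
  refine h1.trans ?_
  set K := 32 * n / (2 ^ l) ^ 2 with hK
  set y : ℝ := n / 4 ^ l with hy
  have hy0 : 0 ≤ y := by positivity
  have hKr : (K : ℝ) ≤ 32 * y := by
    have h3 : ((32 * n / (2 ^ l) ^ 2 : ℕ) : ℝ) ≤ ((32 * n : ℕ) : ℝ) / (((2 ^ l) ^ 2 : ℕ) : ℝ) :=
      Nat.cast_div_le
    have h4 : (((2 ^ l) ^ 2 : ℕ) : ℝ) = 4 ^ l := by
      push_cast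
      rw [← pow_mul, mul_comm l 2, pow_mul]
      norm_num
    rw [h4] at h3
    refine h3.trans (le_of_eq ?_)
    rw [hy]
    push_cast
    ring
  have h2 : ((cod (2 ^ l) n x i).card : ℝ) ≤ (K + 1 : ℕ) * (Real.exp ((11 + 32 * d * (l + 3)) * y) *
      Real.exp (2 * K)) := by
    unfold cod
    refine (Nat.cast_le.mpr Finset.card_biUnion_le).trans ?_
    rw [Nat.cast_sum]
    calc ∑ m ∈ Finset.range (K + 1), (((wl (2 ^ l) m (11 * n + d * 2 ^ l * m)
          (qq (2 ^ l) x)).biUnion fun t =>
          (t.toFinset ∪ t.toFinset.image fun c => c - Pi.single i 1).powerset).card : ℝ)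
        ≤ ∑ m ∈ Finset.range (K + 1), (Real.exp ((11 + 32 * d * (l + 3)) * y) *
            Real.exp (2 * K)) := by
          apply Finset.sum_le_sum
          intro m hm
          rw [Finset.mem_range] at hm
          refine (Nat.cast_le.mpr Finset.card_biUnion_le).trans ?_
          rw [Nat.cast_sum]
          calc ∑ t ∈ wl (2 ^ l) m (11 * n + d * 2 ^ l * m) (qq (2 ^ l) x),
                (((t.toFinset ∪ t.toFinset.image fun c => c - Pi.single i 1).powerset).card : ℝ)
              ≤ ∑ t ∈ wl (2 ^ l) m (11 * n + d * 2 ^ l * m) (qq (2 ^ l) x),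
                  Real.exp (2 * K) := by
                apply Finset.sum_le_sum
                intro t ht
                have hlen : t.length = m := by
                  have hlen' : ∀ (m N : ℕ) (a : Site d) (t : List (Site d)),
                      t ∈ wl (2 ^ l) m N a → t.length = m := by
                    intro m
                    induction m with
                    | zero =>
                      intro N a t ht
                      rw [mem_wl_zero] at ht
                      rw [ht]
                      rfl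
                    | succ m ih =>
                      intro N a t ht
                      rw [mem_wl_succ (by positivity)] at ht
                      obtain ⟨b, _, t', ht', rfl⟩ := ht
                      rw [List.length_cons, ih _ _ _ ht']
                  exact hlen' _ _ _ _ ht
                have hc : (t.toFinset ∪ t.toFinset.image fun c => c - Pi.single i 1).card ≤
                    2 * K := by
                  refine (Finset.card_union_le _ _).trans ?_
                  have h3 : t.toFinset.card ≤ m := by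
                    rw [← hlen]
                    exact List.toFinset_card_le t
                  have h4 : (t.toFinset.image fun c => c - Pi.single i 1).card ≤ m :=
                    Finset.card_image_le.trans h3
                  omega
                rw [Finset.card_powerset]
                push_cast
                calc (2 : ℝ) ^ (t.toFinset ∪ t.toFinset.image fun c => c - Pi.single i 1).card
                    ≤ 2 ^ (2 * K) := pow_le_pow_right₀ (by norm_num) hc
                  _ ≤ (Real.exp 1) ^ (2 * K) := by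
                      apply pow_le_pow_left₀ (by norm_num)
                      linarith [Real.add_one_le_exp (1 : ℝ)]
                  _ = Real.exp (2 * K) := by
                      rw [← Real.exp_nat_mul]
                      push_cast
                      ring_nf
            _ = ((wl (2 ^ l) m (11 * n + d * 2 ^ l * m) (qq (2 ^ l) x)).card : ℝ) *
                  Real.exp (2 * K) := by rw [Finset.sum_const, nsmul_eq_mul]
            _ ≤ _ := by
                apply mul_le_mul_of_nonneg_right _ (Real.exp_pos _).le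
                exact card_wl_le l n m _ (by omega)
      _ = _ := by rw [Finset.sum_const, Finset.card_range, nsmul_eq_mul]
  refine h2.trans ?_
  have h3 : ((K + 1 : ℕ) : ℝ) ≤ Real.exp K := by
    push_cast
    exact Real.add_one_le_exp _
  calc ((K + 1 : ℕ) : ℝ) * (Real.exp ((11 + 32 * d * (l + 3)) * y) * Real.exp (2 * K))
      ≤ Real.exp K * (Real.exp ((11 + 32 * d * (l + 3)) * y) * Real.exp (2 * K)) :=
        mul_le_mul_of_nonneg_right h3 (by positivity)
    _ = Real.exp (3 * K + (11 + 32 * d * (l + 3)) * y) := by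
        rw [← Real.exp_add, ← Real.exp_add]
        congr 1
        ring
    _ ≤ Real.exp (132 * d * (l + 1) * y) := by
        apply Real.exp_le_exp.mpr
        have h4 : 3 * (K : ℝ) + (11 + 32 * d * (l + 3)) * y ≤
            (96 + (11 + 32 * d * (l + 3))) * y := by nlinarith
        refine h4.trans (mul_le_mul_of_nonneg_right ?_ hy0)
        have hl : (0 : ℝ) ≤ l := Nat.cast_nonneg l
        have h5 : 0 ≤ (d : ℝ) * l := by positivity
        nlinarith

/-- at a large scale nothing is left -/
theorem mj_empty {R : ℕ} (hR : 0 < R) (hd : 3 ≤ d) (B : Finset (Site d))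
    (h : 32 * (bdE (lat d) B).card < R ^ 2) : mj R B = ∅ := by
  have hi : Fin d := ⟨0, by omega⟩
  have h1 := card_Sv_mj hR hd B hi
  have h2 : (Sv (mj R B) hi).card = 0 := by
    by_contra h3
    have h4 : 1 ≤ (Sv (mj R B) hi).card := Nat.one_le_iff_ne_zero.mpr h3
    have h5 : 1 * R ^ 2 ≤ (Sv (mj R B) hi).card * R ^ 2 := Nat.mul_le_mul_right _ h4
    omega
  rw [Finset.card_eq_zero] at h2
  apply Sv_inj (i := hi)
  rw [h2]
  symm
  rw [Finset.eq_empty_iff_forall_notMem]
  intro u hu
  rw [mem_Sv] at hu
  simp at hu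

theorem cg_one (B : Finset (Site d)) : cg 1 B = B := by
  have hq : ∀ x : Site d, qq 1 x = x := by
    intro x
    funext i
    simp [qq]
  ext x
  unfold cg
  rw [mem_un Nat.one_pos, mem_mj Nat.one_pos, hq, one_pow]
  constructor
  · intro h
    have h1 : 0 < (cb 1 x ∩ B).card := by omega
    obtain ⟨y, hy⟩ := Finset.card_pos.mp h1
    rw [Finset.mem_inter, mem_cb Nat.one_pos, hq] at hy
    rw [← hy.1]
    exact hy.2
  · intro h
    have h1 : 0 < (cb 1 x ∩ B).card := Finset.card_pos.mpr
      ⟨x, Finset.mem_inter.mpr ⟨(mem_cb Nat.one_pos).mpr (hq x), h⟩⟩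
    omega

end Pool.T9h81.HL
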