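import Pool.Agent.T9h81.HL.Rank

/-!
# Matrices of small rank are far from Hadamard matrices
-/

set_option autoImplicit false

open scoped Classical

namespace Pool.T9h81.HL

/-- Sylvester's Hadamard matrix -/
noncomputable def Hd {p : ℕ} (i j : Fin p → Bool) : ℝ :=
  ∏ k, (if i k && j k then (-1 : ℝ) else 1)

theorem Hd_sign {p : ℕ} (i j : Fin p → Bool) : Hd i j = 1 ∨ Hd i j = -1 := by
  unfold Hd
  induction (Finset.univ : Finset (Fin p)) using Finset.induction_on with
  | empty => left; simp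
  | insert a S ha ih =>
    rw [Finset.prod_insert ha]
    rcases ih with h | h <;> rw [h] <;> split_ifs <;> simp

theorem Hd_comm {p : ℕ} (i j : Fin p → Bool) : Hd i j = Hd j i := by
  unfold Hd
  apply Finset.prod_congr rfl
  intro k _
  rw [Bool.and_comm]

theorem Hd_orth {p : ℕ} (j j' : Fin p → Bool) :
    ∑ i, Hd i j * Hd i j' = if j = j' then (2 : ℝ) ^ p else 0 := by
  have h1 : ∀ i : Fin p → Bool, Hd i j * Hd i j' =
      ∏ k, ((if i k && j k then (-1 : ℝ) else 1) * (if i k && j' k then (-1 : ℝ) else 1)) := by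
    intro i
    unfold Hd
    rw [Finset.prod_mul_distrib]
  have h2 : ∑ i : Fin p → Bool, Hd i j * Hd i j' =
      ∏ k : Fin p, ∑ b : Bool, ((if b && j k then (-1 : ℝ) else 1) *
        (if b && j' k then (-1 : ℝ) else 1)) := by
    rw [Finset.prod_univ_sum]
    rw [Fintype.piFinset_univ]
    exact Finset.sum_congr rfl fun i _ => h1 i
  have h3 : ∀ k : Fin p, ∑ b : Bool, ((if b && j k then (-1 : ℝ) else 1) *
        (if b && j' k then (-1 : ℝ) else 1)) = if j k = j' k then 2 else 0 := by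
    intro k
    rw [Fintype.sum_bool]
    cases j k <;> cases j' k <;> simp <;> norm_num
  rw [h2, Finset.prod_congr rfl fun k _ => h3 k]
  by_cases h : j = j'
  · rw [if_pos h, h]
    simp
  · rw [if_neg h]
    obtain ⟨k, hk⟩ := Function.ne_iff.mp h
    exact Finset.prod_eq_zero (Finset.mem_univ k) (if_neg hk)

/-- the matrix with columns numbered -/
noncomputable def Hm {p q : ℕ} (e : Fin q ≃ (Fin p → Bool)) (i : Fin p → Bool) (b : Fin q) : ℝ :=
  Hd i (e b)

theorem Hm_quad {p q : ℕ} (e : Fin q ≃ (Fin p → Bool)) (w : Fin q → ℝ) :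
    ∑ i, (∑ b, w b * Hm e i b) ^ 2 = 2 ^ p * ∑ b, w b ^ 2 := by
  have h1 : ∀ i : Fin p → Bool, (∑ b, w b * Hm e i b) ^ 2 =
      ∑ b, ∑ b', w b * w b' * (Hd i (e b) * Hd i (e b')) := by
    intro i
    rw [sq, Finset.sum_mul_sum]
    apply Finset.sum_congr rfl
    intro b _
    apply Finset.sum_congr rfl
    intro b' _
    unfold Hm
    ring
  rw [Finset.sum_congr rfl fun i _ => h1 i, Finset.sum_comm]
  have h2 : ∀ b, ∑ i : Fin p → Bool, ∑ b', w b * w b' * (Hd i (e b) * Hd i (e b')) =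
      2 ^ p * w b ^ 2 := by
    intro b
    rw [Finset.sum_comm]
    have h3 : ∀ b', ∑ i : Fin p → Bool, w b * w b' * (Hd i (e b) * Hd i (e b')) =
        if b' = b then 2 ^ p * w b ^ 2 else 0 := by
      intro b'
      rw [← Finset.mul_sum, Hd_orth]
      by_cases hb : b' = b
      · rw [if_pos hb, hb, if_pos rfl]
        ring
      · rw [if_neg hb, if_neg fun h => hb (e.injective h).symm, mul_zero]
    rw [Finset.sum_congr rfl fun b' _ => h3 b', Finset.sum_ite_eq' Finset.univ b]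
    simp
  rw [Finset.sum_congr rfl fun b _ => h2 b, ← Finset.mul_sum]

/-- **Matrices of rank less than `r` are far from the Hadamard matrix.** -/
theorem far {p q : ℕ} (e : Fin q ≃ (Fin p → Bool)) (r : ℕ) (B : (Fin p → Bool) → Fin q → ℝ)
    (hB : B ∈ LR (Fin p → Bool) r q) :
    (2 : ℝ) ^ p * ((q : ℝ) - r) ≤ ∑ i, ∑ b, (Hm e i b - B i b) ^ 2 := by
  let L : (Fin q → ℝ) ≃ₗ[ℝ] EuclideanSpace ℝ (Fin q) := (WithLp.linearEquiv 2 ℝ (Fin q → ℝ)).symm
  set S : Submodule ℝ (EuclideanSpace ℝ (Fin q)) :=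
    (Submodule.span ℝ (Set.range B)).map (L : (Fin q → ℝ) →ₗ[ℝ] EuclideanSpace ℝ (Fin q)) with hS
  have hSfin : Module.finrank ℝ S < r := by
    rw [hS, LinearEquiv.finrank_map_eq L]
    exact hB
  have hW : Module.finrank ℝ S + Module.finrank ℝ Sᗮ = q := by
    rw [Submodule.finrank_add_finrank_orthogonal S, finrank_euclideanSpace, Fintype.card_fin]
  set k := Module.finrank ℝ Sᗮ with hk
  let w := stdOrthonormalBasis ℝ Sᗮ
  have hw : Orthonormal ℝ fun j => (w j : EuclideanSpace ℝ (Fin q)) :=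
    w.orthonormal.comp_linearIsometry Sᗮ.subtypeₗᵢ
  have hnorm : ∀ x : Fin q → ℝ, ‖L x‖ ^ 2 = ∑ b, x b ^ 2 := by
    intro x
    rw [EuclideanSpace.norm_sq_eq]
    apply Finset.sum_congr rfl
    intro b _
    rw [Real.norm_eq_abs, sq_abs]
    rfl
  have hrow : ∀ i, ∑ j, (inner ℝ (w j : EuclideanSpace ℝ (Fin q)) (L (Hm e i))) ^ 2 ≤
      ∑ b, (Hm e i b - B i b) ^ 2 := by
    intro i
    have h1 := hw.sum_inner_products_le (L (Hm e i - B i)) (s := Finset.univ)
    rw [hnorm] at h1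
    refine le_trans (le_of_eq ?_) h1
    apply Finset.sum_congr rfl
    intro j _
    have h2 : inner ℝ (w j : EuclideanSpace ℝ (Fin q)) (L (B i)) = 0 := by
      have h3 : L (B i) ∈ S := Submodule.mem_map_of_mem (Submodule.subset_span ⟨i, rfl⟩)
      exact Submodule.inner_left_of_mem_orthogonal h3 (w j).2
    rw [map_sub, inner_sub_right, h2, sub_zero, Real.norm_eq_abs, sq_abs]
  have hcol : ∀ j, ∑ i, (inner ℝ (w j : EuclideanSpace ℝ (Fin q)) (L (Hm e i))) ^ 2 = 2 ^ p := by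
    intro j
    have h1 : ∀ i, inner ℝ (w j : EuclideanSpace ℝ (Fin q)) (L (Hm e i)) =
        ∑ b, (w j : EuclideanSpace ℝ (Fin q)) b * Hm e i b := by
      intro i
      rw [PiLp.inner_apply]
      apply Finset.sum_congr rfl
      intro b _
      rw [real_inner_eq_re_inner]
      simp [L, mul_comm]
    rw [Finset.sum_congr rfl fun i _ => by rw [h1 i], Hm_quad]
    have h2 : ‖(w j : EuclideanSpace ℝ (Fin q))‖ = 1 := hw.1 j
    have h3 : ∑ b, ((w j : EuclideanSpace ℝ (Fin q)) b) ^ 2 = 1 := by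
      have h4 := EuclideanSpace.norm_sq_eq (w j : EuclideanSpace ℝ (Fin q))
      rw [h2] at h4
      rw [← h4.symm.trans (one_pow 2)]
      apply Finset.sum_congr rfl
      intro b _
      rw [Real.norm_eq_abs, sq_abs]
    rw [h3, mul_one]
  calc (2 : ℝ) ^ p * ((q : ℝ) - r) ≤ 2 ^ p * k := by
        apply mul_le_mul_of_nonneg_left _ (by positivity)
        have h1 : (q : ℝ) = Module.finrank ℝ S + k := by exact_mod_cast hW.symm
        have h2 : (Module.finrank ℝ S : ℝ) ≤ r := by exact_mod_cast hSfin.le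
        linarith
    _ = ∑ j : Fin k, ∑ i, (inner ℝ (w j : EuclideanSpace ℝ (Fin q)) (L (Hm e i))) ^ 2 := by
        rw [Finset.sum_congr rfl fun j _ => hcol j, Finset.sum_const, Finset.card_univ,
          Fintype.card_fin, nsmul_eq_mul, mul_comm]
    _ = ∑ i, ∑ j : Fin k, (inner ℝ (w j : EuclideanSpace ℝ (Fin q)) (L (Hm e i))) ^ 2 :=
        Finset.sum_comm
    _ ≤ ∑ i, ∑ b, (Hm e i b - B i b) ^ 2 := Finset.sum_le_sum fun i _ => hrow i

/-- A matrix close to the Hadamard matrix in mean square is far from small rank. -/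
theorem infDist_far {p q : ℕ} (e : Fin q ≃ (Fin p → Bool)) (r : ℕ) (hr0 : 0 < r)
    (hr : 2 * r ≤ 2 ^ p) (A : (Fin p → Bool) → Fin q → ℝ)
    (hA : ∑ i, ∑ b, (A i b - Hm e i b) ^ 2 ≤ (2 ^ p) ^ 2 / 4) :
    1 / 5 ≤ Metric.infDist A (LR (Fin p → Bool) r q) := by
  have hq : q = 2 ^ p := by
    have h1 := Fintype.card_congr e
    rw [Fintype.card_fin, Fintype.card_pi] at h1
    simpa using h1
  rw [Metric.le_infDist (LR_nonempty _ hr0 q)]
  intro B hB
  by_contra hcon
  rw [not_le] at hcon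
  have h1 := far e r B hB
  have h2 : ∀ i b, (Hm e i b - B i b) ^ 2 ≤ 3 / 2 * (A i b - Hm e i b) ^ 2 + 3 * (1 / 25) := by
    intro i b
    have h3 : |A i b - B i b| ≤ 1 / 5 := by
      have h4 := (dist_le_pi_dist (A i) (B i) b).trans (dist_le_pi_dist A B i)
      rw [Real.dist_eq] at h4
      linarith
    have h5 : (A i b - B i b) ^ 2 ≤ 1 / 25 := by
      rw [← sq_abs]
      calc |A i b - B i b| ^ 2 ≤ (1 / 5) ^ 2 := pow_le_pow_left₀ (abs_nonneg _) h3 2
        _ = 1 / 25 := by norm_num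
    have h6 : Hm e i b - B i b = (A i b - B i b) - (A i b - Hm e i b) := by ring
    rw [h6]
    nlinarith [sq_nonneg ((A i b - Hm e i b) + 2 * (A i b - B i b))]
  have h3 : ∑ i, ∑ b, (Hm e i b - B i b) ^ 2 ≤
      3 / 2 * ∑ i, ∑ b, (A i b - Hm e i b) ^ 2 + (2 ^ p) ^ 2 * (3 * (1 / 25)) := by
    calc ∑ i, ∑ b, (Hm e i b - B i b) ^ 2
        ≤ ∑ i : Fin p → Bool, ∑ b : Fin q,
            (3 / 2 * (A i b - Hm e i b) ^ 2 + 3 * (1 / 25)) :=
          Finset.sum_le_sum fun i _ => Finset.sum_le_sum fun b _ => h2 i b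
      _ = _ := by
          simp only [Finset.sum_add_distrib, ← Finset.mul_sum, Finset.sum_const, Finset.card_univ,
            Fintype.card_fin, Fintype.card_pi, Fintype.card_bool, Finset.prod_const, nsmul_eq_mul]
          have hqr : (q : ℝ) = 2 ^ p := by
            rw [hq]
            push_cast
            rfl
          rw [hqr]
          push_cast
          ring
  have h4 : (r : ℝ) ≤ 2 ^ p / 2 := by
    have h5 : ((2 * r : ℕ) : ℝ) ≤ ((2 ^ p : ℕ) : ℝ) := by exact_mod_cast hr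
    push_cast at h5
    linarith
  have h5 : (2 : ℝ) ^ p * ((q : ℝ) - r) ≥ (2 ^ p) ^ 2 / 2 := by
    have h6 : (q : ℝ) = 2 ^ p := by
      rw [hq]
      push_cast
      rfl
    rw [h6]
    have h7 : (0 : ℝ) < 2 ^ p := by positivity
    nlinarith
  have h8 : (0 : ℝ) < (2 ^ p) ^ 2 := by positivity
  nlinarith

end Pool.T9h81.HL
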