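import Pool.Agent.T9h81.HL.PeierlsF
import Pool.Agent.T9h81.HL.Had

/-!
# Ferromagnetic layers in a symmetric environment: symmetry breaking, infinite dimension
-/

set_option autoImplicit false

open MeasureTheory ProbabilityTheory Filter Topology
open scoped Classical ENNReal

namespace Pool.T9h81.HL

open Pool.T9h81.EAR

variable {V : Type} [Countable V] {G : SimpleGraph V} [G.LocallyFinite] {d : ℕ}
  {Y : Type} [Countable Y]

/-! ### Exhaustion -/

omit [Countable V] [Countable Y] in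
theorem finite_vol (ι : Y → Site d → V) (enc : V → ℕ) (henc : Function.Injective enc)
    (encY : Y → ℕ) (hencY : Function.Injective encY) (N : ℕ) :
    {v : V | (∃ y, encY y < N ∧ ∃ z ∈ box d N, ι y z = v) ∨
      ((∀ y, v ∉ Set.range (ι y)) ∧ enc v < N)}.Finite := by
  have h1 : {y : Y | encY y < N}.Finite := (Set.finite_lt_nat N).preimage hencY.injOn
  have h2 : {v : V | enc v < N}.Finite := (Set.finite_lt_nat N).preimage henc.injOn
  have h3 : (⋃ y ∈ {y : Y | encY y < N}, ι y '' (box d N : Set (Site d))).Finite :=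
    h1.biUnion fun y _ => (Finset.finite_toSet _).image _
  refine (h3.union h2).subset ?_
  rintro v (⟨y, hy, z, hz, rfl⟩ | ⟨-, hv⟩)
  · left
    rw [Set.mem_iUnion₂]
    exact ⟨y, hy, z, hz, rfl⟩
  · exact Or.inr hv

/-- volumes whose intersections with the layers are boxes -/
noncomputable def vol (ι : Y → Site d → V) (enc : V → ℕ) (henc : Function.Injective enc)
    (encY : Y → ℕ) (hencY : Function.Injective encY) (N : ℕ) : Finset V :=
  (finite_vol ι enc henc encY hencY N).toFinset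

omit [Countable V] in
theorem mem_vol {ι : Y → Site d → V} {enc : V → ℕ} {henc : Function.Injective enc}
    {encY : Y → ℕ} {hencY : Function.Injective encY} {N : ℕ} {v : V} :
    v ∈ vol ι enc henc encY hencY N ↔ (∃ y, encY y < N ∧ ∃ z ∈ box d N, ι y z = v) ∨
      ((∀ y, v ∉ Set.range (ι y)) ∧ enc v < N) := by
  unfold vol
  rw [Set.Finite.mem_toFinset]
  exact Iff.rfl

theorem box_mono {m n : ℕ} (h : m ≤ n) : box d m ⊆ box d n := by
  intro x hx
  rw [mem_box] at *
  intro k
  have := hx k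
  omega

omit [Countable V] in
theorem tendsto_vol (ι : Y → Site d → V) (enc : V → ℕ) (henc : Function.Injective enc)
    (encY : Y → ℕ) (hencY : Function.Injective encY) :
    Tendsto (vol ι enc henc encY hencY) atTop atTop := by
  apply tendsto_atTop_finset_of_monotone
  · intro m n hmn v hv
    rw [mem_vol] at *
    rcases hv with ⟨y, hy, z, hz, h⟩ | ⟨h1, h2⟩
    · exact Or.inl ⟨y, by omega, z, box_mono hmn hz, h⟩
    · exact Or.inr ⟨h1, by omega⟩
  · intro v
    by_cases h : ∀ y, v ∉ Set.range (ι y)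
    · exact ⟨enc v + 1, mem_vol.mpr (Or.inr ⟨h, by omega⟩)⟩
    · push Not at h
      obtain ⟨y, z, hz⟩ := h
      obtain ⟨M, hM⟩ : ∃ M, z ∈ box d M := by
        have h1 := (tendsto_box d).eventually (eventually_ge_atTop ({z} : Finset (Site d)))
        obtain ⟨M, hM⟩ := h1.exists
        exact ⟨M, hM (Finset.mem_singleton_self z)⟩
      exact ⟨encY y + 1 + M, mem_vol.mpr (Or.inl ⟨y, by omega, z, box_mono (by omega) hM, hz⟩)⟩

omit [Countable V] in
theorem vol_layer {ι : Y → Site d → V} {enc : V → ℕ} {henc : Function.Injective enc}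
    {encY : Y → ℕ} {hencY : Function.Injective encY}
    (hdis : ∀ y y' z z', ι y z = ι y' z' → y = y') (hinj : ∀ y, Function.Injective (ι y))
    {N : ℕ} {y : Y} (hy : encY y < N) (z : Site d) :
    ι y z ∈ vol ι enc henc encY hencY N ↔ z ∈ box d N := by
  rw [mem_vol]
  constructor
  · rintro (⟨y', -, z', hz', h⟩ | ⟨h, -⟩)
    · have h1 := hdis _ _ _ _ h
      subst h1
      rw [← hinj y' h]
      exact hz'
    · exact absurd ⟨z, rfl⟩ (h y)
  · intro h
    exact Or.inl ⟨y, hy, z, h, rfl⟩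

/-! ### Probability of the lower limit of events -/

theorem measure_liminf_le {Ω : Type} [MeasurableSpace Ω] (μ : Measure Ω) (E : ℕ → Set Ω)
    (c : ℝ≥0∞) (N₀ : ℕ) (h : ∀ N, N₀ ≤ N → μ (E N) ≤ c) :
    μ (⋃ M, ⋂ N, ⋂ (_ : M ≤ N), E N) ≤ c := by
  have hmono : Monotone fun M => ⋂ N, ⋂ (_ : M ≤ N), E N := by
    intro M M' hM x hx
    simp only [Set.mem_iInter] at *
    intro N hN
    exact hx N (hM.trans hN)
  rw [hmono.measure_iUnion]
  apply iSup_le
  intro M
  refine (measure_mono ?_).trans (h (max M N₀) (le_max_right _ _))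
  intro x hx
  simp only [Set.mem_iInter] at hx
  exact hx _ (le_max_left _ _)

/-! ### Symmetry breaking -/

omit [Countable V] in
theorem gE_one (β : ℝ) (J : Coupling G) (Λ : Finset V) (ω : V → Bool) (a b : ℝ)
    (f : (V → Bool) → ℝ) :
    gE β J Λ ω (fun σ => a + b * f σ) = a + b * gE β J Λ ω f := by
  have hZ := (Zp_pos β J Λ ω).ne'
  have h1 : ∑ η : Λ → Bool, Real.exp (β * ham J Λ (glue Λ η ω)) * (a + b * f (glue Λ η ω)) =
      a * Zp β J Λ ω + b * ∑ η : Λ → Bool,
        Real.exp (β * ham J Λ (glue Λ η ω)) * f (glue Λ η ω) := by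
    unfold Zp
    rw [Finset.mul_sum, Finset.mul_sum, ← Finset.sum_add_distrib]
    apply Finset.sum_congr rfl
    intro η _
    ring
  show (∑ η : Λ → Bool, Real.exp (β * ham J Λ (glue Λ η ω)) * (a + b * f (glue Λ η ω))) /
    Zp β J Λ ω = a + b * ((∑ η : Λ → Bool,
      Real.exp (β * ham J Λ (glue Λ η ω)) * f (glue Λ η ω)) / Zp β J Λ ω)
  rw [h1, add_div, mul_div_assoc a, div_self hZ, mul_one, mul_div_assoc]

omit [Countable V] in
theorem gE_sX_single (β : ℝ) (J : Coupling G) (Λ : Finset V) (ω : V → Bool) (v : V) :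
    gE β J Λ ω (sX {v}) = sg (ω v) * (1 - 2 * gE β J Λ ω (dis ω v)) := by
  have h1 : gE β J Λ ω (sX {v}) =
      gE β J Λ ω (fun σ => sg (ω v) + (-(2 * sg (ω v))) * dis ω v σ) := by
    apply gE_congr
    intro η
    unfold sX dis
    rw [Finset.prod_singleton]
    by_cases h : glue Λ η ω v = ω v
    · rw [if_pos h, h]
      ring
    · rw [if_neg h, sg_ne h]
      ring
  rw [h1, gE_one]
  ring

omit [Countable V] in
theorem gE_dis_nonneg (β : ℝ) (J : Coupling G) (Λ : Finset V) (ω : V → Bool) (v : V) :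
    0 ≤ gE β J Λ ω (dis ω v) := by
  unfold gE
  apply div_nonneg _ (Zp_pos β J Λ ω).le
  apply Finset.sum_nonneg
  intro η _
  apply mul_nonneg (Real.exp_pos _).le
  unfold dis
  split_ifs <;> norm_num

omit [Countable V] in
theorem gE_dis_le_one (β : ℝ) (J : Coupling G) (Λ : Finset V) (ω : V → Bool) (v : V) :
    gE β J Λ ω (dis ω v) ≤ 1 := by
  unfold gE
  rw [div_le_one (Zp_pos β J Λ ω)]
  unfold Zp
  apply Finset.sum_le_sum
  intro η _
  apply mul_le_of_le_one_right (Real.exp_pos _).le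
  unfold dis
  split_ifs <;> norm_num

/-- the standing assumptions on a family of layers -/
structure Fam (G : SimpleGraph V) [G.LocallyFinite] (ι : Y → Site d → V)
    (ν : G.edgeSet → Measure ℝ) (K : ℝ) (D : ℕ) (β : ℝ) : Prop where
  hd : 3 ≤ d
  hD : 0 < D
  disj : ∀ y y' z z', ι y z = ι y' z' → y = y'
  law : ∀ y, LayerLaw G (ι y) ν K D
  hK0 : 0 < K
  hK : 1843200 * d * D ≤ K ^ 2
  hβ : 0 < β
  hβK : 38 * (Real.log d / d) + 1 ≤ β * K

theorem broken_fam (ν : G.edgeSet → Measure ℝ) [∀ e, IsProbabilityMeasure (ν e)]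
    (ι : Y → Site d → V) (K : ℝ) (D : ℕ) (β : ℝ) (hF : Fam G ι ν K D β) (y : Y) :
    ∀ᵐ J ∂(Measure.infinitePi ν), ∃ π : Measure (V → Bool), IsGibbs β J π ∧
      IsGibbs β J (π.map flipAll) ∧ π ≠ π.map flipAll := by
  obtain ⟨enc, henc⟩ := exists_injective_nat V
  obtain ⟨encY, hencY⟩ := exists_injective_nat Y
  set Λs := vol ι enc henc encY hencY with hΛs
  set ω : V → Bool := fun _ => true with hω
  set E : ℕ → Set (Coupling G) := fun N => {J | 1 / 64 < gE β J (Λs N) ω (dis ω (ι y 0))} with hE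
  apply broken_ae ν β ω Λs (tendsto_vol ι enc henc encY hencY)
  have h1 : {J : Coupling G | NS β ω Λs J} ⊆ ⋃ M, ⋂ N, ⋂ (_ : M ≤ N), E N := by
    intro J hJ
    have h2 := hJ {ι y 0} (by simp)
    have h3 : ∀ᶠ N in atTop, gE β J (Λs N) ω (sX {ι y 0}) < 1 / 2 :=
      h2.eventually (gt_mem_nhds (by norm_num))
    obtain ⟨M, hM⟩ := eventually_atTop.mp h3
    rw [Set.mem_iUnion]
    refine ⟨M, ?_⟩
    simp only [Set.mem_iInter]
    intro N hN
    have h4 := hM N hN
    rw [gE_sX_single] at h4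
    show 1 / 64 < gE β J (Λs N) ω (dis ω (ι y 0))
    have h5 : sg (ω (ι y 0)) = 1 := by simp [hω, sg]
    rw [h5, one_mul] at h4
    linarith
  have h2 : Measure.infinitePi ν (⋃ M, ⋂ N, ⋂ (_ : M ≤ N), E N) ≤ ENNReal.ofReal (1 / 500) := by
    apply measure_liminf_le _ E _ (encY y + 1)
    intro N hN
    exact layer_prob hF.hd ν (ι y) K D hF.hD (hF.law y) hF.hK0 hF.hK β hF.hβ hF.hβK (Λs N) N
      (fun z => vol_layer hF.disj (fun y => (hF.law y).layer.inj) (by omega) z) ω
      (fun _ _ => rfl) 0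
  intro h3
  have h4 := (measure_mono h1).trans h2
  rw [h3] at h4
  have h5 : ENNReal.ofReal (1 / 500) < 1 := by
    rw [ENNReal.ofReal_lt_one]
    norm_num
  exact absurd h4 (not_le.mpr h5)

/-! ### Many Gibbs states -/

/-- the boundary condition with signs `h b` on the layers `y b` -/
noncomputable def pat (ι : Y → Site d → V) {q : ℕ} (y : Fin q → Y) (h : Fin q → ℝ) (v : V) :
    Bool :=
  if ∃ b, v ∈ Set.range (ι (y b)) ∧ h b = -1 then false else true

omit [Countable V] [Countable Y] in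
theorem pat_layer (ι : Y → Site d → V) (hdis : ∀ y y' z z', ι y z = ι y' z' → y = y') {q : ℕ}
    (y : Fin q → Y) (hy : Function.Injective y) (h : Fin q → ℝ) (hh : ∀ b, h b = 1 ∨ h b = -1)
    (b : Fin q) (z : Site d) : sg (pat ι y h (ι (y b) z)) = h b := by
  unfold pat
  rcases hh b with h1 | h1
  · rw [if_neg, h1]
    · simp [sg]
    · rintro ⟨b', ⟨z', h2⟩, h3⟩
      have h4 := hy (hdis _ _ _ _ h2)
      rw [h4, h1] at h3
      norm_num at h3
  · rw [if_pos ⟨b, ⟨z, rfl⟩, h1⟩, h1]
    simp [sg]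

omit [Countable V] in
theorem mean_dis (ν : G.edgeSet → Measure ℝ) [∀ e, IsProbabilityMeasure (ν e)] (β : ℝ)
    (Λ : Finset V) (ω : V → Bool) (v : V)
    (h : Measure.infinitePi ν {J : Coupling G | 1 / 64 < gE β J Λ ω (dis ω v)} ≤
      ENNReal.ofReal (1 / 500)) :
    Integrable (fun J : Coupling G => gE β J Λ ω (dis ω v)) (Measure.infinitePi ν) ∧
      ∫ J, gE β J Λ ω (dis ω v) ∂(Measure.infinitePi ν) ≤ 1 / 50 := by
  set μ := Measure.infinitePi ν with hμ
  have hm := measurable_gE_J (G := G) β Λ ω (dis ω v)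
  have hint : Integrable (fun J : Coupling G => gE β J Λ ω (dis ω v)) μ := by
    refine Integrable.mono' (integrable_const (1 : ℝ)) hm.aestronglyMeasurable
      (ae_of_all _ fun J => ?_)
    rw [Real.norm_of_nonneg (gE_dis_nonneg β J Λ ω v)]
    exact gE_dis_le_one β J Λ ω v
  refine ⟨hint, ?_⟩
  set E : Set (Coupling G) := {J | 1 / 64 < gE β J Λ ω (dis ω v)} with hE
  have hEm : MeasurableSet E := measurableSet_lt measurable_const hm
  have h1 : ∀ J : Coupling G, gE β J Λ ω (dis ω v) ≤ 1 / 64 + E.indicator (fun _ => (1 : ℝ)) J := by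
    intro J
    by_cases hJ : J ∈ E
    · rw [Set.indicator_of_mem hJ]
      have := gE_dis_le_one β J Λ ω v
      linarith
    · rw [Set.indicator_of_notMem hJ]
      have h2 : gE β J Λ ω (dis ω v) ≤ 1 / 64 := not_lt.mp hJ
      linarith
  have h2 : Integrable (fun J => 1 / 64 + E.indicator (fun _ => (1 : ℝ)) J) μ :=
    (integrable_const _).add ((integrable_const _).indicator hEm)
  refine (integral_mono hint h2 h1).trans ?_
  rw [integral_add (integrable_const _) ((integrable_const _).indicator hEm),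
    integral_indicator hEm]
  have h3 : μ.real E ≤ 1 / 500 := by
    unfold Measure.real
    refine ENNReal.toReal_le_of_le_ofReal (by norm_num) h
  have h4 : ∫ _J in E, (1 : ℝ) ∂μ = μ.real E := by
    rw [setIntegral_const]
    simp
  rw [h4]
  simp only [integral_const, probReal_univ, one_smul]
  linarith

theorem indep_fam (ν : G.edgeSet → Measure ℝ) [∀ e, IsProbabilityMeasure (ν e)]
    (ι : Y → Site d → V) (K : ℝ) (D : ℕ) (β : ℝ) (hF : Fam G ι ν K D β) [Infinite Y]
    (r : ℕ) (hr : 0 < r) :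
    ∀ᵐ J ∂(Measure.infinitePi ν), ∃ π : Fin r → Measure (V → Bool),
      (∀ a, IsGibbs β J (π a)) ∧
      ∀ c : Fin r → ℝ, (∀ A, MeasurableSet A → ∑ a, c a * (π a A).toReal = 0) → c = 0 := by
  obtain ⟨enc, henc⟩ := exists_injective_nat V
  obtain ⟨encY, hencY⟩ := exists_injective_nat Y
  set Λs := vol ι enc henc encY hencY with hΛs
  obtain ⟨p, hp⟩ : ∃ p, 2 * r ≤ 2 ^ p := ⟨2 * r, (Nat.lt_pow_self (by norm_num)).le⟩
  let q := Fintype.card (Fin p → Bool)
  let e : Fin q ≃ (Fin p → Bool) := (Fintype.equivFin (Fin p → Bool)).symm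
  let y : Fin q → Y := fun b => Infinite.natEmbedding Y b.val
  have hy : Function.Injective y := fun b b' h =>
    Fin.ext ((Infinite.natEmbedding Y).injective h)
  let s : (Fin p → Bool) → V → Bool := fun i => pat ι y (Hm e i)
  have hs : ∀ i b z, sg (s i (ι (y b) z)) = Hm e i b := fun i b z =>
    pat_layer ι hF.disj y hy (Hm e i) (fun b => Hd_sign i (e b)) b z
  let X : Fin q → Finset V := fun b => {ι (y b) 0}
  obtain ⟨N₀, hN₀⟩ : ∃ N₀, ∀ b, encY (y b) < N₀ := by
    refine ⟨(∑ b, encY (y b)) + 1, fun b => ?_⟩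
    have h1 : encY (y b) ≤ ∑ b, encY (y b) :=
      Finset.single_le_sum (f := fun b => encY (y b)) (fun _ _ => Nat.zero_le _)
        (Finset.mem_univ b)
    omega
  have hq : (q : ℝ) = 2 ^ p := by
    have h1 : q = 2 ^ p := by
      show Fintype.card (Fin p → Bool) = 2 ^ p
      simp
    rw [h1]
    push_cast
    rfl
  set μ := Measure.infinitePi ν with hμ
  -- the disagreements
  let u : ℕ → (Fin p → Bool) → Fin q → Coupling G → ℝ := fun N i b J =>
    gE β J (Λs N) (s i) (dis (s i) (ι (y b) 0))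
  let T : ℕ → Coupling G → ℝ := fun N J => ∑ i, ∑ b, u N i b J
  set E : ℕ → Set (Coupling G) := fun N => {J | (2 ^ p) ^ 2 / 16 ≤ T N J} with hE
  have hmt : ∀ N J i b, (mt β Λs s X N J i b - Hm e i b) ^ 2 ≤ 4 * u N i b J := by
    intro N J i b
    have h1 : mt β Λs s X N J i b = Hm e i b * (1 - 2 * u N i b J) := by
      show gE β J (Λs N) (s i) (sX {ι (y b) 0}) = _
      rw [gE_sX_single, hs]
    have h2 : Hm e i b ^ 2 = 1 := by
      rcases Hd_sign i (e b) with h | h
      · show (Hd i (e b)) ^ 2 = 1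
        rw [h]
        norm_num
      · show (Hd i (e b)) ^ 2 = 1
        rw [h]
        norm_num
    have h3 : 0 ≤ u N i b J := gE_dis_nonneg β J (Λs N) (s i) _
    have h4 : u N i b J ≤ 1 := gE_dis_le_one β J (Λs N) (s i) _
    have h5 : (mt β Λs s X N J i b - Hm e i b) ^ 2 = Hm e i b ^ 2 * (4 * u N i b J ^ 2) := by
      rw [h1]
      ring
    rw [h5, h2]
    nlinarith
  apply indep_ae ν β Λs (tendsto_vol ι enc henc encY hencY) s r hr
  have h1 : {J : Coupling G | NR β Λs s r J} ⊆ ⋃ M, ⋂ N, ⋂ (_ : M ≤ N), E N := by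
    intro J hJ
    have h2 := hJ q X
    have h3 : ∀ᶠ N in atTop, Metric.infDist (mt β Λs s X N J) (LR (Fin p → Bool) r q) < 1 / 5 :=
      h2.eventually (gt_mem_nhds (by norm_num))
    obtain ⟨M, hM⟩ := eventually_atTop.mp h3
    rw [Set.mem_iUnion]
    refine ⟨M, ?_⟩
    simp only [Set.mem_iInter]
    intro N hN
    have h4 := hM N hN
    show (2 ^ p) ^ 2 / 16 ≤ T N J
    by_contra hcon
    rw [not_le] at hcon
    have h5 : ∑ i, ∑ b, (mt β Λs s X N J i b - Hm e i b) ^ 2 ≤ (2 ^ p) ^ 2 / 4 := by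
      calc ∑ i, ∑ b, (mt β Λs s X N J i b - Hm e i b) ^ 2
          ≤ ∑ i, ∑ b, 4 * u N i b J :=
            Finset.sum_le_sum fun i _ => Finset.sum_le_sum fun b _ => hmt N J i b
        _ = 4 * T N J := by
            show _ = 4 * ∑ i, ∑ b, u N i b J
            rw [Finset.mul_sum]
            apply Finset.sum_congr rfl
            intro i _
            rw [Finset.mul_sum]
        _ ≤ (2 ^ p) ^ 2 / 4 := by linarith
    have h6 := infDist_far e r hr hp _ h5
    linarith
  have h2 : μ (⋃ M, ⋂ N, ⋂ (_ : M ≤ N), E N) ≤ ENNReal.ofReal (8 / 25) := by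
    apply measure_liminf_le _ E _ N₀
    intro N hN
    have h3 : ∀ i b, Integrable (u N i b) μ ∧ ∫ J, u N i b J ∂μ ≤ 1 / 50 := by
      intro i b
      apply mean_dis
      exact layer_prob hF.hd ν (ι (y b)) K D hF.hD (hF.law (y b)) hF.hK0 hF.hK β hF.hβ hF.hβK
        (Λs N) N
        (fun z => vol_layer hF.disj (fun y => (hF.law y).layer.inj)
          (lt_of_lt_of_le (hN₀ b) hN) z) (s i)
        (fun z z' => by
          have h4 := (hs i b z).trans (hs i b z').symm
          exact sg_inj.mp h4) 0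
    have hTint : Integrable (T N) μ :=
      integrable_finsetSum _ fun i _ => integrable_finsetSum _ fun b _ => (h3 i b).1
    have hT : ∫ J, T N J ∂μ ≤ (2 ^ p) ^ 2 / 50 := by
      show ∫ J, ∑ i, ∑ b, u N i b J ∂μ ≤ _
      rw [integral_finsetSum _ fun i _ => integrable_finsetSum _ fun b _ => (h3 i b).1]
      calc ∑ i : Fin p → Bool, ∫ J, ∑ b, u N i b J ∂μ
          = ∑ i : Fin p → Bool, ∑ b : Fin q, ∫ J, u N i b J ∂μ := by
            apply Finset.sum_congr rfl
            intro i _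
            exact integral_finsetSum _ fun b _ => (h3 i b).1
        _ ≤ ∑ i : Fin p → Bool, ∑ b : Fin q, (1 / 50 : ℝ) :=
            Finset.sum_le_sum fun i _ => Finset.sum_le_sum fun b _ => (h3 i b).2
        _ = (2 ^ p) ^ 2 / 50 := by
            simp only [Finset.sum_const, Finset.card_univ, Fintype.card_fin, Fintype.card_pi,
              Fintype.card_bool, Finset.prod_const, nsmul_eq_mul]
            rw [hq]
            push_cast
            ring
    have hTnn : 0 ≤ᵐ[μ] T N := ae_of_all _ fun J =>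
      Finset.sum_nonneg fun i _ => Finset.sum_nonneg fun b _ =>
        gE_dis_nonneg β J (Λs N) (s i) _
    have h4 := mul_meas_ge_le_integral_of_nonneg hTnn hTint ((2 ^ p) ^ 2 / 16)
    have h5 : μ.real (E N) ≤ 8 / 25 := by
      have h6 : (0 : ℝ) < (2 ^ p) ^ 2 / 16 := by positivity
      have h7 : (2 ^ p) ^ 2 / 16 * μ.real (E N) ≤ (2 ^ p) ^ 2 / 16 * (8 / 25) := by
        refine (h4.trans hT).trans (le_of_eq ?_)
        ring
      exact le_of_mul_le_mul_left h7 h6
    rw [← ofReal_measureReal]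
    exact ENNReal.ofReal_le_ofReal h5
  intro h3
  have h4 := (measure_mono h1).trans h2
  rw [h3] at h4
  have h5 : ENNReal.ofReal (8 / 25) < 1 := by
    rw [ENNReal.ofReal_lt_one]
    norm_num
  exact absurd h4 (not_le.mpr h5)

end Pool.T9h81.HL
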