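import Pool.Agent.T9h81.HL.PeierlsG
import Pool.Agent.T9h81.HL.Main

/-!
# Families of layers which keep their orientation: symmetry breaking, infinite dimension
-/

set_option autoImplicit false

open MeasureTheory ProbabilityTheory Filter Topology
open scoped Classical ENNReal

namespace Pool.T9h81.HL

open Pool.T9h81.EAR

variable {V : Type} [Countable V] {G : SimpleGraph V} [G.LocallyFinite] {d : ℕ}
  {Y : Type} [Countable Y]

/-- the standing assumptions on a family of layers -/
structure FamP (G : SimpleGraph V) [G.LocallyFinite] (ι : Y → Site d → V)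
    (ν : G.edgeSet → Measure ℝ) (β : ℝ) : Prop where
  disj : ∀ y y' z z', ι y z = ι y' z' → y = y'
  inj : ∀ y, Function.Injective (ι y)
  prob : ∀ (y : Y) (Λ : Finset V) (N : ℕ), (∀ z, ι y z ∈ Λ ↔ z ∈ box d N) → ∀ s : V → Bool,
    (∀ x x', s (ι y x) = s (ι y x')) → ∀ x, (Measure.infinitePi ν)
      {J : Coupling G | 1 / 64 < gE β J Λ s (dis s (ι y x))} ≤ ENNReal.ofReal (1 / 250)

theorem broken_famP (ν : G.edgeSet → Measure ℝ) [∀ e, IsProbabilityMeasure (ν e)]
    (ι : Y → Site d → V) (β : ℝ) (hF : FamP G ι ν β) (y : Y) :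
    ∀ᵐ J ∂(Measure.infinitePi ν), ∃ π : Measure (V → Bool), IsGibbs β J π ∧
      IsGibbs β J (π.map flipAll) ∧ π ≠ π.map flipAll := by
  obtain ⟨enc, henc⟩ := exists_injective_nat V
  obtain ⟨encY, hencY⟩ := exists_injective_nat Y
  set Λs := vol ι enc henc encY hencY with hΛs
  set ω : V → Bool := fun _ => true with hω
  set E : ℕ → Set (Coupling G) := fun N => {J | 1 / 64 < gE β J (Λs N) ω (dis ω (ι y 0))} with hE
  apply broken_ae ν β ω Λs (tendsto_vol ι enc henc encY hencY)
  have h1 : {J : Coupling G | NS β ω Λs J} ⊆ ⋃ M, ⋂ N, ⋂ (_ : M ≤ N), E N := by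
    intro J hJ
    have h2 := hJ {ι y 0} (by simp)
    have h3 : ∀ᶠ N in atTop, gE β J (Λs N) ω (sX {ι y 0}) < 1 / 2 :=
      h2.eventually (gt_mem_nhds (by norm_num))
    obtain ⟨M, hM⟩ := eventually_atTop.mp h3
    rw [Set.mem_iUnion]
    refine ⟨M, ?_⟩
    simp only [Set.mem_iInter]
    intro N hN
    have h4 := hM N hN
    rw [gE_sX_single] at h4
    show 1 / 64 < gE β J (Λs N) ω (dis ω (ι y 0))
    have h5 : sg (ω (ι y 0)) = 1 := by simp [hω, sg]
    rw [h5, one_mul] at h4
    linarith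
  have h2 : Measure.infinitePi ν (⋃ M, ⋂ N, ⋂ (_ : M ≤ N), E N) ≤ ENNReal.ofReal (1 / 250) := by
    apply measure_liminf_le _ E _ (encY y + 1)
    intro N hN
    exact hF.prob y (Λs N) N
      (fun z => vol_layer hF.disj hF.inj (by omega) z) ω
      (fun _ _ => rfl) 0
  intro h3
  have h4 := (measure_mono h1).trans h2
  rw [h3] at h4
  have h5 : ENNReal.ofReal (1 / 250) < 1 := by
    rw [ENNReal.ofReal_lt_one]
    norm_num
  exact absurd h4 (not_le.mpr h5)

omit [Countable V] in
theorem mean_disP (ν : G.edgeSet → Measure ℝ) [∀ e, IsProbabilityMeasure (ν e)] (β : ℝ)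
    (Λ : Finset V) (ω : V → Bool) (v : V)
    (h : Measure.infinitePi ν {J : Coupling G | 1 / 64 < gE β J Λ ω (dis ω v)} ≤
      ENNReal.ofReal (1 / 250)) :
    Integrable (fun J : Coupling G => gE β J Λ ω (dis ω v)) (Measure.infinitePi ν) ∧
      ∫ J, gE β J Λ ω (dis ω v) ∂(Measure.infinitePi ν) ≤ 1 / 50 := by
  set μ := Measure.infinitePi ν with hμ
  have hm := measurable_gE_J (G := G) β Λ ω (dis ω v)
  have hint : Integrable (fun J : Coupling G => gE β J Λ ω (dis ω v)) μ := by
    refine Integrable.mono' (integrable_const (1 : ℝ)) hm.aestronglyMeasurable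
      (ae_of_all _ fun J => ?_)
    rw [Real.norm_of_nonneg (gE_dis_nonneg β J Λ ω v)]
    exact gE_dis_le_one β J Λ ω v
  refine ⟨hint, ?_⟩
  set E : Set (Coupling G) := {J | 1 / 64 < gE β J Λ ω (dis ω v)} with hE
  have hEm : MeasurableSet E := measurableSet_lt measurable_const hm
  have h1 : ∀ J : Coupling G, gE β J Λ ω (dis ω v) ≤ 1 / 64 + E.indicator (fun _ => (1 : ℝ)) J := by
    intro J
    by_cases hJ : J ∈ E
    · rw [Set.indicator_of_mem hJ]
      have := gE_dis_le_one β J Λ ω v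
      linarith
    · rw [Set.indicator_of_notMem hJ]
      have h2 : gE β J Λ ω (dis ω v) ≤ 1 / 64 := not_lt.mp hJ
      linarith
  have h2 : Integrable (fun J => 1 / 64 + E.indicator (fun _ => (1 : ℝ)) J) μ :=
    (integrable_const _).add ((integrable_const _).indicator hEm)
  refine (integral_mono hint h2 h1).trans ?_
  rw [integral_add (integrable_const _) ((integrable_const _).indicator hEm),
    integral_indicator hEm]
  have h3 : μ.real E ≤ 1 / 250 := by
    unfold Measure.real
    refine ENNReal.toReal_le_of_le_ofReal (by norm_num) h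
  have h4 : ∫ _J in E, (1 : ℝ) ∂μ = μ.real E := by
    rw [setIntegral_const]
    simp
  rw [h4]
  simp only [integral_const, probReal_univ, one_smul]
  linarith

theorem indep_famP (ν : G.edgeSet → Measure ℝ) [∀ e, IsProbabilityMeasure (ν e)]
    (ι : Y → Site d → V) (β : ℝ) (hF : FamP G ι ν β) [Infinite Y]
    (r : ℕ) (hr : 0 < r) :
    ∀ᵐ J ∂(Measure.infinitePi ν), ∃ π : Fin r → Measure (V → Bool),
      (∀ a, IsGibbs β J (π a)) ∧
      ∀ c : Fin r → ℝ, (∀ A, MeasurableSet A → ∑ a, c a * (π a A).toReal = 0) → c = 0 := by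
  obtain ⟨enc, henc⟩ := exists_injective_nat V
  obtain ⟨encY, hencY⟩ := exists_injective_nat Y
  set Λs := vol ι enc henc encY hencY with hΛs
  obtain ⟨p, hp⟩ : ∃ p, 2 * r ≤ 2 ^ p := ⟨2 * r, (Nat.lt_pow_self (by norm_num)).le⟩
  let q := Fintype.card (Fin p → Bool)
  let e : Fin q ≃ (Fin p → Bool) := (Fintype.equivFin (Fin p → Bool)).symm
  let y : Fin q → Y := fun b => Infinite.natEmbedding Y b.val
  have hy : Function.Injective y := fun b b' h =>
    Fin.ext ((Infinite.natEmbedding Y).injective h)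
  let s : (Fin p → Bool) → V → Bool := fun i => pat ι y (Hm e i)
  have hs : ∀ i b z, sg (s i (ι (y b) z)) = Hm e i b := fun i b z =>
    pat_layer ι hF.disj y hy (Hm e i) (fun b => Hd_sign i (e b)) b z
  let X : Fin q → Finset V := fun b => {ι (y b) 0}
  obtain ⟨N₀, hN₀⟩ : ∃ N₀, ∀ b, encY (y b) < N₀ := by
    refine ⟨(∑ b, encY (y b)) + 1, fun b => ?_⟩
    have h1 : encY (y b) ≤ ∑ b, encY (y b) :=
      Finset.single_le_sum (f := fun b => encY (y b)) (fun _ _ => Nat.zero_le _)
        (Finset.mem_univ b)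
    omega
  have hq : (q : ℝ) = 2 ^ p := by
    have h1 : q = 2 ^ p := by
      show Fintype.card (Fin p → Bool) = 2 ^ p
      simp
    rw [h1]
    push_cast
    rfl
  set μ := Measure.infinitePi ν with hμ
  -- the disagreements
  let u : ℕ → (Fin p → Bool) → Fin q → Coupling G → ℝ := fun N i b J =>
    gE β J (Λs N) (s i) (dis (s i) (ι (y b) 0))
  let T : ℕ → Coupling G → ℝ := fun N J => ∑ i, ∑ b, u N i b J
  set E : ℕ → Set (Coupling G) := fun N => {J | (2 ^ p) ^ 2 / 16 ≤ T N J} with hE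
  have hmt : ∀ N J i b, (mt β Λs s X N J i b - Hm e i b) ^ 2 ≤ 4 * u N i b J := by
    intro N J i b
    have h1 : mt β Λs s X N J i b = Hm e i b * (1 - 2 * u N i b J) := by
      show gE β J (Λs N) (s i) (sX {ι (y b) 0}) = _
      rw [gE_sX_single, hs]
    have h2 : Hm e i b ^ 2 = 1 := by
      rcases Hd_sign i (e b) with h | h
      · show (Hd i (e b)) ^ 2 = 1
        rw [h]
        norm_num
      · show (Hd i (e b)) ^ 2 = 1
        rw [h]
        norm_num
    have h3 : 0 ≤ u N i b J := gE_dis_nonneg β J (Λs N) (s i) _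
    have h4 : u N i b J ≤ 1 := gE_dis_le_one β J (Λs N) (s i) _
    have h5 : (mt β Λs s X N J i b - Hm e i b) ^ 2 = Hm e i b ^ 2 * (4 * u N i b J ^ 2) := by
      rw [h1]
      ring
    rw [h5, h2]
    nlinarith
  apply indep_ae ν β Λs (tendsto_vol ι enc henc encY hencY) s r hr
  have h1 : {J : Coupling G | NR β Λs s r J} ⊆ ⋃ M, ⋂ N, ⋂ (_ : M ≤ N), E N := by
    intro J hJ
    have h2 := hJ q X
    have h3 : ∀ᶠ N in atTop, Metric.infDist (mt β Λs s X N J) (LR (Fin p → Bool) r q) < 1 / 5 :=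
      h2.eventually (gt_mem_nhds (by norm_num))
    obtain ⟨M, hM⟩ := eventually_atTop.mp h3
    rw [Set.mem_iUnion]
    refine ⟨M, ?_⟩
    simp only [Set.mem_iInter]
    intro N hN
    have h4 := hM N hN
    show (2 ^ p) ^ 2 / 16 ≤ T N J
    by_contra hcon
    rw [not_le] at hcon
    have h5 : ∑ i, ∑ b, (mt β Λs s X N J i b - Hm e i b) ^ 2 ≤ (2 ^ p) ^ 2 / 4 := by
      calc ∑ i, ∑ b, (mt β Λs s X N J i b - Hm e i b) ^ 2
          ≤ ∑ i, ∑ b, 4 * u N i b J :=
            Finset.sum_le_sum fun i _ => Finset.sum_le_sum fun b _ => hmt N J i b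
        _ = 4 * T N J := by
            show _ = 4 * ∑ i, ∑ b, u N i b J
            rw [Finset.mul_sum]
            apply Finset.sum_congr rfl
            intro i _
            rw [Finset.mul_sum]
        _ ≤ (2 ^ p) ^ 2 / 4 := by linarith
    have h6 := infDist_far e r hr hp _ h5
    linarith
  have h2 : μ (⋃ M, ⋂ N, ⋂ (_ : M ≤ N), E N) ≤ ENNReal.ofReal (8 / 25) := by
    apply measure_liminf_le _ E _ N₀
    intro N hN
    have h3 : ∀ i b, Integrable (u N i b) μ ∧ ∫ J, u N i b J ∂μ ≤ 1 / 50 := by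
      intro i b
      apply mean_disP
      exact hF.prob (y b) (Λs N) N
        (fun z => vol_layer hF.disj hF.inj (lt_of_lt_of_le (hN₀ b) hN) z) (s i)
        (fun z z' => by
          have h4 := (hs i b z).trans (hs i b z').symm
          exact sg_inj.mp h4) 0
    have hTint : Integrable (T N) μ :=
      integrable_finsetSum _ fun i _ => integrable_finsetSum _ fun b _ => (h3 i b).1
    have hT : ∫ J, T N J ∂μ ≤ (2 ^ p) ^ 2 / 50 := by
      show ∫ J, ∑ i, ∑ b, u N i b J ∂μ ≤ _
      rw [integral_finsetSum _ fun i _ => integrable_finsetSum _ fun b _ => (h3 i b).1]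
      calc ∑ i : Fin p → Bool, ∫ J, ∑ b, u N i b J ∂μ
          = ∑ i : Fin p → Bool, ∑ b : Fin q, ∫ J, u N i b J ∂μ := by
            apply Finset.sum_congr rfl
            intro i _
            exact integral_finsetSum _ fun b _ => (h3 i b).1
        _ ≤ ∑ i : Fin p → Bool, ∑ b : Fin q, (1 / 50 : ℝ) :=
            Finset.sum_le_sum fun i _ => Finset.sum_le_sum fun b _ => (h3 i b).2
        _ = (2 ^ p) ^ 2 / 50 := by
            simp only [Finset.sum_const, Finset.card_univ, Fintype.card_fin, Fintype.card_pi,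
              Fintype.card_bool, Finset.prod_const, nsmul_eq_mul]
            rw [hq]
            push_cast
            ring
    have hTnn : 0 ≤ᵐ[μ] T N := ae_of_all _ fun J =>
      Finset.sum_nonneg fun i _ => Finset.sum_nonneg fun b _ =>
        gE_dis_nonneg β J (Λs N) (s i) _
    have h4 := mul_meas_ge_le_integral_of_nonneg hTnn hTint ((2 ^ p) ^ 2 / 16)
    have h5 : μ.real (E N) ≤ 8 / 25 := by
      have h6 : (0 : ℝ) < (2 ^ p) ^ 2 / 16 := by positivity
      have h7 : (2 ^ p) ^ 2 / 16 * μ.real (E N) ≤ (2 ^ p) ^ 2 / 16 * (8 / 25) := by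
        refine (h4.trans hT).trans (le_of_eq ?_)
        ring
      exact le_of_mul_le_mul_left h7 h6
    rw [← ofReal_measureReal]
    exact ENNReal.ofReal_le_ofReal h5
  intro h3
  have h4 := (measure_mono h1).trans h2
  rw [h3] at h4
  have h5 : ENNReal.ofReal (8 / 25) < 1 := by
    rw [ENNReal.ofReal_lt_one]
    norm_num
  exact absurd h4 (not_le.mpr h5)

end Pool.T9h81.HL
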