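import Pool.Agent.T9h81.HL.Chain
import Pool.Agent.T9h81.HL.Conc
import Pool.Agent.T9h81.EAR.ZeroOne

/-!
# A ferromagnetic layer in a symmetric environment
-/

set_option autoImplicit false

open MeasureTheory ProbabilityTheory Filter Topology
open scoped Classical symmDiff ENNReal

namespace Pool.T9h81.HL

open Pool.T9h81.EAR

variable {V : Type} {G : SimpleGraph V} [G.LocallyFinite] {d : ℕ}

/-- `ι` embeds the lattice as an induced subgraph of `G`. -/
structure IsLayer (G : SimpleGraph V) (ι : Site d → V) : Prop where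
  inj : Function.Injective ι
  adj : ∀ x y, G.Adj (ι x) (ι y) ↔ (lat d).Adj x y

/-- the neighbours of `ι x` outside the layer -/
noncomputable def out (G : SimpleGraph V) [G.LocallyFinite] (ι : Site d → V) (x : Site d) :
    Finset V :=
  (G.neighborFinset (ι x)).filter fun v => v ∉ Set.range ι

/-- the edges from `ι x` to the outside of the layer -/
noncomputable def Ex (G : SimpleGraph V) [G.LocallyFinite] (ι : Site d → V) (x : Site d) :
    Finset G.edgeSet :=
  ((out G ι x).image fun v => s(ι x, v)).subtype fun e => e ∈ G.edgeSet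

theorem mem_Ex {ι : Site d → V} {x : Site d} {e : G.edgeSet} :
    e ∈ Ex G ι x ↔ ∃ v, v ∉ Set.range ι ∧ G.Adj (ι x) v ∧ e.1 = s(ι x, v) := by
  unfold Ex out
  rw [Finset.mem_subtype, Finset.mem_image]
  constructor
  · rintro ⟨v, hv, h⟩
    rw [Finset.mem_filter, SimpleGraph.mem_neighborFinset] at hv
    exact ⟨v, hv.2, hv.1, h.symm⟩
  · rintro ⟨v, h1, h2, h3⟩
    refine ⟨v, ?_, h3.symm⟩
    rw [Finset.mem_filter, SimpleGraph.mem_neighborFinset]
    exact ⟨h2, h1⟩

theorem card_Ex {ι : Site d → V} {x : Site d} {D : ℕ} (h : (out G ι x).card ≤ D) :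
    (Ex G ι x).card ≤ D := by
  unfold Ex
  rw [Finset.card_subtype]
  exact (Finset.card_filter_le _ _).trans (Finset.card_image_le.trans h)

/-- the edges leaving the layer from the sites of `B` -/
noncomputable def EB (G : SimpleGraph V) [G.LocallyFinite] (ι : Site d → V)
    (B : Finset (Site d)) : Finset G.edgeSet := B.biUnion (Ex G ι)

theorem mem_EB {ι : Site d → V} {B : Finset (Site d)} {e : G.edgeSet} :
    e ∈ EB G ι B ↔ ∃ x ∈ B, e ∈ Ex G ι x := by
  unfold EB
  rw [Finset.mem_biUnion]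

theorem card_EB {ι : Site d → V} {D : ℕ} (h : ∀ x, (out G ι x).card ≤ D)
    (C C' : Finset (Site d)) : (EB G ι C ∆ EB G ι C').card ≤ D * (C ∆ C').card := by
  have hsub : EB G ι C ∆ EB G ι C' ⊆ EB G ι (C ∆ C') := by
    intro e he
    rw [Finset.mem_symmDiff] at he
    rcases he with ⟨h1, h2⟩ | ⟨h1, h2⟩
    · obtain ⟨x, hx, hex⟩ := mem_EB.mp h1
      refine mem_EB.mpr ⟨x, ?_, hex⟩
      rw [Finset.mem_symmDiff]
      exact Or.inl ⟨hx, fun hx' => h2 (mem_EB.mpr ⟨x, hx', hex⟩)⟩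
    · obtain ⟨x, hx, hex⟩ := mem_EB.mp h1
      refine mem_EB.mpr ⟨x, ?_, hex⟩
      rw [Finset.mem_symmDiff]
      exact Or.inr ⟨hx, fun hx' => h2 (mem_EB.mpr ⟨x, hx', hex⟩)⟩
  refine (Finset.card_le_card hsub).trans ?_
  unfold EB
  refine Finset.card_biUnion_le.trans ?_
  calc ∑ x ∈ C ∆ C', (Ex G ι x).card ≤ ∑ x ∈ C ∆ C', D := Finset.sum_le_sum fun x _ => card_Ex (h x)
    _ = D * (C ∆ C').card := by rw [Finset.sum_const, smul_eq_mul, Nat.mul_comm]

omit [G.LocallyFinite] in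
theorem bond_fl (S : Finset G.edgeSet) (J : Coupling G) (σ : V → Bool) (e : Sym2 V) :
    bond (fl S J) σ e = if e ∈ S.image Subtype.val then - bond J σ e else bond J σ e := by
  induction e using Sym2.ind with
  | _ a b =>
    rw [bond_mk, bond_mk]
    unfold Jc
    by_cases hab : G.Adj a b
    · rw [dif_pos hab, dif_pos hab]
      by_cases hS : (⟨s(a, b), hab⟩ : G.edgeSet) ∈ S
      · have h1 : s(a, b) ∈ S.image Subtype.val := Finset.mem_image.mpr ⟨_, hS, rfl⟩
        rw [if_pos h1]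
        unfold fl
        rw [if_pos hS]
        ring
      · have h1 : s(a, b) ∉ S.image Subtype.val := by
          intro h
          obtain ⟨e, he, h2⟩ := Finset.mem_image.mp h
          apply hS
          have : e = ⟨s(a, b), hab⟩ := Subtype.ext h2
          rw [← this]
          exact he
        rw [if_neg h1]
        unfold fl
        rw [if_neg hS]
    · rw [dif_neg hab, dif_neg hab]
      split_ifs <;> ring

omit [G.LocallyFinite] in
theorem abs_bond (J : Coupling G) (σ : V → Bool) (e : G.edgeSet) : |bond J σ e.1| = |J e| := by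
  obtain ⟨e, he⟩ := e
  induction e using Sym2.ind with
  | _ a b =>
    rw [bond_mk]
    unfold Jc
    have hab : G.Adj a b := he
    rw [dif_pos hab, abs_mul, abs_mul, abs_sg, abs_sg, mul_one, mul_one]

theorem ham_fl_single (J : Coupling G) (Λ : Finset V) (σ : V → Bool) (e : G.edgeSet) :
    |ham (fl {e} J) Λ σ - ham J Λ σ| ≤ 2 * |J e| := by
  unfold ham
  rw [← Finset.sum_sub_distrib]
  have h1 : ∀ e' ∈ edgesOf G Λ, bond (fl {e} J) σ e' - bond J σ e' =
      if e' = e.1 then -(2 * bond J σ e.1) else 0 := by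
    intro e' _
    rw [bond_fl]
    by_cases h : e' = e.1
    · have h2 : e' ∈ ({e} : Finset G.edgeSet).image Subtype.val := by
        rw [Finset.image_singleton, Finset.mem_singleton]
        exact h
      rw [if_pos h2, if_pos h, h]
      ring
    · have h2 : e' ∉ ({e} : Finset G.edgeSet).image Subtype.val := by
        rw [Finset.image_singleton, Finset.mem_singleton]
        exact h
      rw [if_neg h2, if_neg h]
      ring
  rw [Finset.sum_congr rfl h1, Finset.sum_ite_eq' (edgesOf G Λ) e.1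
    fun _ => -(2 * bond J σ e.1)]
  split_ifs
  · rw [abs_neg, abs_mul, abs_bond, abs_two]
  · rw [abs_zero]
    positivity

/-- the logarithm of the partition function -/
noncomputable def lZ (β : ℝ) (Λ : Finset V) (ω : V → Bool) (J : Coupling G) : ℝ :=
  Real.log (Zp β J Λ ω)

theorem measurable_lZ (β : ℝ) (Λ : Finset V) (ω : V → Bool) :
    Measurable (lZ β Λ ω : Coupling G → ℝ) := by
  unfold lZ Zp
  apply Real.measurable_log.comp
  exact Finset.measurable_sum _ fun η _ =>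
    Real.measurable_exp.comp ((measurable_ham_J Λ (glue Λ η ω)).const_mul β)

theorem lZ_le (β : ℝ) (Λ : Finset V) (ω : V → Bool) (J J' : Coupling G) (δ : ℝ)
    (h : ∀ σ, |ham J' Λ σ - ham J Λ σ| ≤ δ) : lZ β Λ ω J' ≤ lZ β Λ ω J + |β| * δ := by
  unfold lZ
  rw [← Real.log_exp (|β| * δ), ← Real.log_mul (Zp_pos β J Λ ω).ne' (Real.exp_pos _).ne']
  apply Real.log_le_log (Zp_pos β J' Λ ω)
  unfold Zp
  rw [Finset.sum_mul]
  apply Finset.sum_le_sum
  intro η _
  rw [← Real.exp_add]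
  apply Real.exp_le_exp.mpr
  have h1 := h (glue Λ η ω)
  have h2 : β * (ham J' Λ (glue Λ η ω) - ham J Λ (glue Λ η ω)) ≤ |β| * δ := by
    refine (le_abs_self _).trans ?_
    rw [abs_mul]
    exact mul_le_mul_of_nonneg_left h1 (abs_nonneg β)
  linarith

theorem lZ_fl_single (β : ℝ) (Λ : Finset V) (ω : V → Bool) (J : Coupling G) (e : G.edgeSet) :
    |lZ β Λ ω (fl {e} J) - lZ β Λ ω J| ≤ |β| * (2 * |J e|) := by
  have h1 := lZ_le β Λ ω J (fl {e} J) (2 * |J e|) fun σ => ham_fl_single J Λ σ e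
  have h2 := lZ_le β Λ ω (fl {e} J) J (2 * |J e|) fun σ => by
    rw [abs_sub_comm]
    exact ham_fl_single J Λ σ e
  rw [abs_le]
  constructor <;> linarith

/-- the gain of free energy when the couplings leaving the layer from `C` are reversed -/
noncomputable def gB (β : ℝ) (Λ : Finset V) (ω : V → Bool) (ι : Site d → V)
    (C : Finset (Site d)) (J : Coupling G) : ℝ :=
  lZ β Λ ω (fl (EB G ι C) J) - lZ β Λ ω J

theorem gB_empty (β : ℝ) (Λ : Finset V) (ω : V → Bool) (ι : Site d → V) (J : Coupling G) :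
    gB β Λ ω ι ∅ J = 0 := by
  unfold gB
  have h : EB G ι ∅ = ∅ := by
    unfold EB
    rw [Finset.biUnion_empty]
  rw [h, fl_empty, sub_self]

/-- the assumptions on the laws of the couplings -/
structure LayerLaw (G : SimpleGraph V) [G.LocallyFinite] (ι : Site d → V)
    (ν : G.edgeSet → Measure ℝ) (K : ℝ) (D : ℕ) : Prop where
  layer : IsLayer G ι
  deg : ∀ x, (out G ι x).card ≤ D
  inside : ∀ e : G.edgeSet, (∀ v ∈ e.1, v ∈ Set.range ι) → ∀ᵐ y ∂(ν e), K ≤ y
  symm : ∀ e : G.edgeSet, (∃ v ∈ e.1, v ∈ Set.range ι) → (∃ v ∈ e.1, v ∉ Set.range ι) →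
    (ν e).map (fun y => -y) = ν e
  bounded : ∀ e : G.edgeSet, (∃ v ∈ e.1, v ∈ Set.range ι) → (∃ v ∈ e.1, v ∉ Set.range ι) →
    ∀ᵐ y ∂(ν e), |y| ≤ 1

theorem Ex_cross {ι : Site d → V} {x : Site d} {e : G.edgeSet} (h : e ∈ Ex G ι x) :
    (∃ v ∈ e.1, v ∈ Set.range ι) ∧ ∃ v ∈ e.1, v ∉ Set.range ι := by
  obtain ⟨v, h1, h2, h3⟩ := mem_Ex.mp h
  rw [h3]
  exact ⟨⟨ι x, Sym2.mem_mk_left _ _, x, rfl⟩, ⟨v, Sym2.mem_mk_right _ _, h1⟩⟩

omit [G.LocallyFinite] in
theorem ae_coord (ν : G.edgeSet → Measure ℝ) [∀ e, IsProbabilityMeasure (ν e)] (e : G.edgeSet)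
    (P : ℝ → Prop) (h : ∀ᵐ y ∂(ν e), P y) :
    ∀ᵐ J ∂(Measure.infinitePi ν), P (J e) := by
  have h1 := measurePreserving_eval_infinitePi ν e
  have h2 : ∀ᵐ y ∂((Measure.infinitePi ν).map (Function.eval e)), P y := by
    rw [h1.map_eq]
    exact h
  exact ae_of_ae_map h1.measurable.aemeasurable h2

/-- **Concentration of the free energy gain** -/
theorem gB_tail [Countable V] (ν : G.edgeSet → Measure ℝ) [∀ e, IsProbabilityMeasure (ν e)]
    (ι : Site d → V) (K : ℝ) (D : ℕ) (hD : 0 < D) (hLaw : LayerLaw G ι ν K D) (β : ℝ) (hβ : 0 < β)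
    (Λ : Finset V) (ω : V → Bool) (C C' : Finset (Site d)) (t : ℝ) (N : ℕ) (ht : 0 < t)
    (hN : 0 < N) (hCN : (C ∆ C').card ≤ N) :
    (Measure.infinitePi ν).real {J | t ≤ gB β Λ ω ι C J - gB β Λ ω ι C' J} ≤
      Real.exp (-(t ^ 2 / (8 * β ^ 2 * D * N))) := by
  set S : Finset G.edgeSet := EB G ι C ∆ EB G ι C' with hS
  set Good : Set (Coupling G) := {J | ∀ e, (∃ x, e ∈ Ex G ι x) → |J e| ≤ 1} with hGood
  set f : Coupling G → ℝ := fun J => lZ β Λ ω (fl (EB G ι C) J) - lZ β Λ ω (fl (EB G ι C') J)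
    with hf
  have hSx : ∀ e ∈ S, ∃ x, e ∈ Ex G ι x := by
    intro e he
    rw [hS, Finset.mem_symmDiff] at he
    rcases he with ⟨h1, -⟩ | ⟨h1, -⟩
    · obtain ⟨x, _, hx⟩ := mem_EB.mp h1
      exact ⟨x, hx⟩
    · obtain ⟨x, _, hx⟩ := mem_EB.mp h1
      exact ⟨x, hx⟩
  have hDr : (0 : ℝ) < D := by exact_mod_cast hD
  have hNr : (0 : ℝ) < N := by exact_mod_cast hN
  have hce : Countable G.edgeSet := inferInstance
  have hgae : ∀ᵐ J ∂(Measure.infinitePi ν), J ∈ Good := by
    have h1 : ∀ e : G.edgeSet, ∀ᵐ J ∂(Measure.infinitePi ν),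
        ((∃ x, e ∈ Ex G ι x) → |(J : Coupling G) e| ≤ 1) := by
      intro e
      by_cases h : ∃ x, e ∈ Ex G ι x
      · obtain ⟨x, hx⟩ := h
        obtain ⟨h2, h3⟩ := Ex_cross hx
        filter_upwards [ae_coord ν e (fun y => |y| ≤ 1) (hLaw.bounded e h2 h3)] with J hJ _
        exact hJ
      · exact ae_of_all _ fun J h2 => absurd h2 h
    filter_upwards [ae_all_iff.mpr h1] with J hJ
    exact hJ
  have hc := conc ν S (fun e he => by
      obtain ⟨x, hx⟩ := hSx e he
      obtain ⟨h2, h3⟩ := Ex_cross hx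
      exact hLaw.symm e h2 h3) Good hgae
    (fun T J hJ e he => by
      rw [abs_fl]
      exact hJ e he) f
    (((measurable_lZ β Λ ω).comp (measurable_fl _)).sub
      ((measurable_lZ β Λ ω).comp (measurable_fl _))) (4 * β) (by positivity)
    (fun e he J hJ => by
      have hJe : |J e| ≤ 1 := hJ e (hSx e he)
      have h1 := lZ_fl_single β Λ ω (fl (EB G ι C) J) e
      have h2 := lZ_fl_single β Λ ω (fl (EB G ι C') J) e
      rw [abs_fl, abs_of_pos hβ] at h1 h2
      have h3 : β * (2 * |J e|) ≤ 2 * β := by nlinarith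
      have h4 : f (fl {e} J) - f J =
          (lZ β Λ ω (fl {e} (fl (EB G ι C) J)) - lZ β Λ ω (fl (EB G ι C) J)) -
          (lZ β Λ ω (fl {e} (fl (EB G ι C') J)) - lZ β Λ ω (fl (EB G ι C') J)) := by
        show (lZ β Λ ω (fl (EB G ι C) (fl {e} J)) - lZ β Λ ω (fl (EB G ι C') (fl {e} J))) -
          (lZ β Λ ω (fl (EB G ι C) J) - lZ β Λ ω (fl (EB G ι C') J)) = _
        rw [fl_comm (EB G ι C) {e} J, fl_comm (EB G ι C') {e} J]
        ring
      rw [h4]
      refine (abs_sub _ _).trans ?_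
      linarith)
    (fun J _ => by
      show lZ β Λ ω (fl (EB G ι C) (fl S J)) - lZ β Λ ω (fl (EB G ι C') (fl S J)) =
        -(lZ β Λ ω (fl (EB G ι C) J) - lZ β Λ ω (fl (EB G ι C') J))
      have h1 : fl (EB G ι C) (fl S J) = fl (EB G ι C') J := by
        apply fl_fl_of
        intro e
        rw [hS, Finset.mem_symmDiff]
        tauto
      have h2 : fl (EB G ι C') (fl S J) = fl (EB G ι C) J := by
        apply fl_fl_of
        intro e
        rw [hS, Finset.mem_symmDiff]
        tauto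
      rw [h1, h2]
      ring)
    (D * N) (by positivity) (by
      have h1 := card_EB (G := G) hLaw.deg C C'
      have h2 : (S.card : ℝ) ≤ ((D * (C ∆ C').card : ℕ) : ℝ) := by exact_mod_cast h1
      refine h2.trans ?_
      push_cast
      apply mul_le_mul_of_nonneg_left _ hDr.le
      exact_mod_cast hCN) t ht
  have hset : {J : Coupling G | t ≤ gB β Λ ω ι C J - gB β Λ ω ι C' J} = {J | t ≤ f J} := by
    ext J
    show t ≤ gB β Λ ω ι C J - gB β Λ ω ι C' J ↔ t ≤ f J
    have : gB β Λ ω ι C J - gB β Λ ω ι C' J = f J := by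
      unfold gB
      rw [hf]
      ring
    rw [this]
  rw [hset]
  refine hc.trans (le_of_eq ?_)
  congr 1
  field_simp
  ring

end Pool.T9h81.HL
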