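import Pool.Agent.T9h81.HL.Model
import Pool.Agent.T9h81.HL.ChainU

/-!
# A layer with weakly biased couplings in a symmetric environment
-/

set_option autoImplicit false

open MeasureTheory ProbabilityTheory Filter Topology
open scoped Classical symmDiff ENNReal

namespace Pool.T9h81.HL

open Pool.T9h81.EAR

variable {V : Type} {G : SimpleGraph V} [G.LocallyFinite] {d : ℕ}

/-- the assumptions on the laws of the couplings -/
structure LayerLawS (G : SimpleGraph V) [G.LocallyFinite] (ι : Site d → V)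
    (ν : G.edgeSet → Measure ℝ) (b : ℝ) (D : ℕ) : Prop where
  layer : IsLayer G ι
  deg : ∀ x, (out G ι x).card ≤ D
  mean : ∀ e : G.edgeSet, (∀ v ∈ e.1, v ∈ Set.range ι) → b ≤ ∫ y, y ∂(ν e)
  subg : ∀ e : G.edgeSet, (∀ v ∈ e.1, v ∈ Set.range ι) →
    HasSubgaussianMGF (fun y => y - ∫ z, z ∂(ν e)) 1 (ν e)
  symm : ∀ e : G.edgeSet, (∃ v ∈ e.1, v ∈ Set.range ι) → (∃ v ∈ e.1, v ∉ Set.range ι) →
    (ν e).map (fun y => -y) = ν e
  bounded : ∀ e : G.edgeSet, (∃ v ∈ e.1, v ∈ Set.range ι) → (∃ v ∈ e.1, v ∉ Set.range ι) →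
    ∀ᵐ y ∂(ν e), |y| ≤ 1

/-- lower tail of a sum of independent sub-Gaussian couplings -/
theorem subg_tailS {ι : Type} (ν : ι → Measure ℝ) [∀ i, IsProbabilityMeasure (ν i)] (m : ℝ)
    (S : Finset ι) (hm : ∀ i ∈ S, m ≤ ∫ x, x ∂(ν i))
    (hsub : ∀ i ∈ S, HasSubgaussianMGF (fun x => x - ∫ y, y ∂(ν i)) 1 (ν i))
    (ε : ℝ) (hε : 0 ≤ ε) :
    (Measure.infinitePi ν).real {ω | ∑ i ∈ S, ω i ≤ S.card * m - ε} ≤
      Real.exp (-ε ^ 2 / (2 * S.card)) := by
  set μ := Measure.infinitePi ν with hμ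
  let X : ι → (ι → ℝ) → ℝ := fun i ω => -(ω i - ∫ y, y ∂(ν i))
  have hind : iIndepFun X μ :=
    iIndepFun_infinitePi (X := fun i b => -(b - ∫ y, y ∂(ν i))) fun i =>
      (measurable_id.sub measurable_const).neg
  have hs : ∀ i ∈ S, HasSubgaussianMGF (X i) 1 μ := by
    intro i hi
    have h1 : HasSubgaussianMGF (fun ω : ι → ℝ => ω i - ∫ y, y ∂(ν i)) 1 μ := by
      have h2 := hsub i hi
      have h3 : μ.map (fun ω : ι → ℝ => ω i) = ν i := Measure.infinitePi_map_eval ν i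
      rw [← h3] at h2
      have h4 := HasSubgaussianMGF.of_map (μ := μ) (Y := fun ω : ι → ℝ => ω i)
        (measurable_pi_apply i).aemeasurable h2
      rw [h3] at h4
      exact h4
    exact h1.neg
  have h5 := HasSubgaussianMGF.measure_sum_ge_le_of_iIndepFun hind (c := fun _ => 1) (s := S)
    hs hε
  have h6 : {ω : ι → ℝ | ∑ i ∈ S, ω i ≤ S.card * m - ε} ⊆ {ω | ε ≤ ∑ i ∈ S, X i ω} := by
    intro ω hω
    have hω' : ∑ i ∈ S, ω i ≤ S.card * m - ε := hω
    show ε ≤ ∑ i ∈ S, -(ω i - ∫ y, y ∂(ν i))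
    rw [Finset.sum_neg_distrib, Finset.sum_sub_distrib]
    have h7 : S.card * m ≤ ∑ i ∈ S, ∫ y, y ∂(ν i) := by
      calc S.card * m = ∑ i ∈ S, m := by rw [Finset.sum_const, nsmul_eq_mul]
        _ ≤ _ := Finset.sum_le_sum fun i hi => hm i hi
    linarith
  refine (measureReal_mono h6).trans (h5.trans (le_of_eq ?_))
  simp

/-- **Concentration of the free energy gain** -/
theorem gB_tailS [Countable V] (ν : G.edgeSet → Measure ℝ) [∀ e, IsProbabilityMeasure (ν e)]
    (ι : Site d → V) (b : ℝ) (D : ℕ) (hD : 0 < D) (hLaw : LayerLawS G ι ν b D) (β : ℝ) (hβ : 0 < β)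
    (Λ : Finset V) (ω : V → Bool) (C C' : Finset (Site d)) (t : ℝ) (N : ℕ) (ht : 0 < t)
    (hN : 0 < N) (hCN : (C ∆ C').card ≤ N) :
    (Measure.infinitePi ν).real {J | t ≤ gB β Λ ω ι C J - gB β Λ ω ι C' J} ≤
      Real.exp (-(t ^ 2 / (8 * β ^ 2 * D * N))) := by
  set S : Finset G.edgeSet := EB G ι C ∆ EB G ι C' with hS
  set Good : Set (Coupling G) := {J | ∀ e, (∃ x, e ∈ Ex G ι x) → |J e| ≤ 1} with hGood
  set f : Coupling G → ℝ := fun J => lZ β Λ ω (fl (EB G ι C) J) - lZ β Λ ω (fl (EB G ι C') J)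
    with hf
  have hSx : ∀ e ∈ S, ∃ x, e ∈ Ex G ι x := by
    intro e he
    rw [hS, Finset.mem_symmDiff] at he
    rcases he with ⟨h1, -⟩ | ⟨h1, -⟩
    · obtain ⟨x, _, hx⟩ := mem_EB.mp h1
      exact ⟨x, hx⟩
    · obtain ⟨x, _, hx⟩ := mem_EB.mp h1
      exact ⟨x, hx⟩
  have hDr : (0 : ℝ) < D := by exact_mod_cast hD
  have hNr : (0 : ℝ) < N := by exact_mod_cast hN
  have hce : Countable G.edgeSet := inferInstance
  have hgae : ∀ᵐ J ∂(Measure.infinitePi ν), J ∈ Good := by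
    have h1 : ∀ e : G.edgeSet, ∀ᵐ J ∂(Measure.infinitePi ν),
        ((∃ x, e ∈ Ex G ι x) → |(J : Coupling G) e| ≤ 1) := by
      intro e
      by_cases h : ∃ x, e ∈ Ex G ι x
      · obtain ⟨x, hx⟩ := h
        obtain ⟨h2, h3⟩ := Ex_cross hx
        filter_upwards [ae_coord ν e (fun y => |y| ≤ 1) (hLaw.bounded e h2 h3)] with J hJ _
        exact hJ
      · exact ae_of_all _ fun J h2 => absurd h2 h
    filter_upwards [ae_all_iff.mpr h1] with J hJ
    exact hJ
  have hc := conc ν S (fun e he => by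
      obtain ⟨x, hx⟩ := hSx e he
      obtain ⟨h2, h3⟩ := Ex_cross hx
      exact hLaw.symm e h2 h3) Good hgae
    (fun T J hJ e he => by
      rw [abs_fl]
      exact hJ e he) f
    (((measurable_lZ β Λ ω).comp (measurable_fl _)).sub
      ((measurable_lZ β Λ ω).comp (measurable_fl _))) (4 * β) (by positivity)
    (fun e he J hJ => by
      have hJe : |J e| ≤ 1 := hJ e (hSx e he)
      have h1 := lZ_fl_single β Λ ω (fl (EB G ι C) J) e
      have h2 := lZ_fl_single β Λ ω (fl (EB G ι C') J) e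
      rw [abs_fl, abs_of_pos hβ] at h1 h2
      have h3 : β * (2 * |J e|) ≤ 2 * β := by nlinarith
      have h4 : f (fl {e} J) - f J =
          (lZ β Λ ω (fl {e} (fl (EB G ι C) J)) - lZ β Λ ω (fl (EB G ι C) J)) -
          (lZ β Λ ω (fl {e} (fl (EB G ι C') J)) - lZ β Λ ω (fl (EB G ι C') J)) := by
        show (lZ β Λ ω (fl (EB G ι C) (fl {e} J)) - lZ β Λ ω (fl (EB G ι C') (fl {e} J))) -
          (lZ β Λ ω (fl (EB G ι C) J) - lZ β Λ ω (fl (EB G ι C') J)) = _
        rw [fl_comm (EB G ι C) {e} J, fl_comm (EB G ι C') {e} J]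
        ring
      rw [h4]
      refine (abs_sub _ _).trans ?_
      linarith)
    (fun J _ => by
      show lZ β Λ ω (fl (EB G ι C) (fl S J)) - lZ β Λ ω (fl (EB G ι C') (fl S J)) =
        -(lZ β Λ ω (fl (EB G ι C) J) - lZ β Λ ω (fl (EB G ι C') J))
      have h1 : fl (EB G ι C) (fl S J) = fl (EB G ι C') J := by
        apply fl_fl_of
        intro e
        rw [hS, Finset.mem_symmDiff]
        tauto
      have h2 : fl (EB G ι C') (fl S J) = fl (EB G ι C) J := by
        apply fl_fl_of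
        intro e
        rw [hS, Finset.mem_symmDiff]
        tauto
      rw [h1, h2]
      ring)
    (D * N) (by positivity) (by
      have h1 := card_EB (G := G) hLaw.deg C C'
      have h2 : (S.card : ℝ) ≤ ((D * (C ∆ C').card : ℕ) : ℝ) := by exact_mod_cast h1
      refine h2.trans ?_
      push_cast
      apply mul_le_mul_of_nonneg_left _ hDr.le
      exact_mod_cast hCN) t ht
  have hset : {J : Coupling G | t ≤ gB β Λ ω ι C J - gB β Λ ω ι C' J} = {J | t ≤ f J} := by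
    ext J
    show t ≤ gB β Λ ω ι C J - gB β Λ ω ι C' J ↔ t ≤ f J
    have : gB β Λ ω ι C J - gB β Λ ω ι C' J = f J := by
      unfold gB
      rw [hf]
      ring
    rw [this]
  rw [hset]
  refine hc.trans (le_of_eq ?_)
  congr 1
  field_simp
  ring

end Pool.T9h81.HL
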