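import Pool.Agent.T9h81.HL.Model

/-!
# The Peierls argument with a change of the disorder (Ding, Zhuang)
-/

set_option autoImplicit false

open MeasureTheory ProbabilityTheory Filter Topology
open scoped Classical ENNReal

namespace Pool.T9h81.HL

open Pool.T9h81.EAR

variable {V : Type} {G : SimpleGraph V} [G.LocallyFinite] {d : ℕ}

/-- all boundary edges of `B` in the layer separate disagreement with `s` from agreement -/
def EvL (ι : Site d → V) (s : V → Bool) (B : Finset (Site d)) (σ : V → Bool) : Prop :=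
  ∀ u ∈ B, ∀ v, v ∉ B → (lat d).Adj u v → σ (ι u) ≠ s (ι u) ∧ σ (ι v) = s (ι v)

/-- the boundary edges of `B` in the layer -/
noncomputable def LB (ι : Site d → V) (B : Finset (Site d)) : Finset (Sym2 V) :=
  (bdE (lat d) B).image (Sym2.map ι)

theorem mem_LB {ι : Site d → V} {B : Finset (Site d)} {e : Sym2 V} :
    e ∈ LB ι B ↔ ∃ u ∈ B, ∃ v, v ∉ B ∧ (lat d).Adj u v ∧ s(ι u, ι v) = e := by
  unfold LB
  rw [Finset.mem_image]
  constructor
  · rintro ⟨e', he', rfl⟩
    obtain ⟨u, hu, v, hv, huv, rfl⟩ := mem_bdE.mp he'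
    exact ⟨u, hu, v, hv, huv, rfl⟩
  · rintro ⟨u, hu, v, hv, huv, rfl⟩
    exact ⟨s(u, v), mem_bdE.mpr ⟨u, hu, v, hv, huv, rfl⟩, rfl⟩

theorem card_LB {ι : Site d → V} (hι : Function.Injective ι) (B : Finset (Site d)) :
    (LB ι B).card = (bdE (lat d) B).card := by
  unfold LB
  exact Finset.card_image_of_injective _ (Sym2.map.injective hι)

theorem not_mem_EB_of_range {ι : Site d → V} {B : Finset (Site d)} {a b : V}
    (ha : a ∈ Set.range ι) (hb : b ∈ Set.range ι) :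
    s(a, b) ∉ (EB G ι B).image Subtype.val := by
  intro h
  obtain ⟨e, he, h2⟩ := Finset.mem_image.mp h
  obtain ⟨x, _, hx⟩ := mem_EB.mp he
  obtain ⟨v, hv, _, h3⟩ := mem_Ex.mp hx
  rw [h2] at h3
  rcases Sym2.eq_iff.mp h3 with ⟨_, h4⟩ | ⟨h4, _⟩
  · exact hv (h4 ▸ hb)
  · exact hv (h4 ▸ ha)

theorem mem_EB_of {ι : Site d → V} {B : Finset (Site d)} {u : Site d} {b : V} (hu : u ∈ B)
    (hb : b ∉ Set.range ι) (h : G.Adj (ι u) b) :
    s(ι u, b) ∈ (EB G ι B).image Subtype.val := by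
  rw [Finset.mem_image]
  exact ⟨⟨s(ι u, b), h⟩, mem_EB.mpr ⟨u, hu, mem_Ex.mpr ⟨b, hb, h, rfl⟩⟩, rfl⟩

theorem not_mem_EB_of_not {ι : Site d → V} {B : Finset (Site d)} {a b : V}
    (ha : a ∉ B.image ι) (hb : b ∉ B.image ι) :
    s(a, b) ∉ (EB G ι B).image Subtype.val := by
  intro h
  obtain ⟨e, he, h2⟩ := Finset.mem_image.mp h
  obtain ⟨x, hxB, hx⟩ := mem_EB.mp he
  obtain ⟨v, hv, _, h3⟩ := mem_Ex.mp hx
  rw [h2] at h3
  have hxi : ι x ∈ B.image ι := Finset.mem_image_of_mem ι hxB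
  rcases Sym2.eq_iff.mp h3 with ⟨h4, _⟩ | ⟨_, h4⟩
  · exact ha (h4 ▸ hxi)
  · exact hb (h4 ▸ hxi)

/-- the change of the energy at one edge -/
theorem bond_change {ι : Site d → V} (hL : IsLayer G ι) (J : Coupling G) (B : Finset (Site d))
    (σ : V → Bool) (a b : V) (hab : G.Adj a b) :
    bond (fl (EB G ι B) J) (flipOn (B.image ι) σ) s(a, b) - bond J σ s(a, b) =
      if s(a, b) ∈ LB ι B then -(2 * bond J σ s(a, b)) else 0 := by
  have hflip_in : ∀ z, z ∈ B.image ι → sg (flipOn (B.image ι) σ z) = - sg (σ z) := by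
    intro z hz
    unfold flipOn
    rw [if_pos hz, sg_not]
  have hflip_out : ∀ z, z ∉ B.image ι → sg (flipOn (B.image ι) σ z) = sg (σ z) := by
    intro z hz
    unfold flipOn
    rw [if_neg hz]
  have hrange : ∀ z, z ∈ B.image ι → z ∈ Set.range ι := by
    intro z hz
    obtain ⟨x, _, rfl⟩ := Finset.mem_image.mp hz
    exact ⟨x, rfl⟩
  have hLB : ∀ a b : V, s(a, b) ∈ LB ι B → (a ∈ B.image ι ∧ b ∉ B.image ι ∧ b ∈ Set.range ι) ∨
      (b ∈ B.image ι ∧ a ∉ B.image ι ∧ a ∈ Set.range ι) := by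
    intro a b h
    obtain ⟨u, hu, v, hv, _, h2⟩ := mem_LB.mp h
    have hui : ι u ∈ B.image ι := Finset.mem_image_of_mem ι hu
    have hvi : ι v ∉ B.image ι := by
      intro h3
      obtain ⟨w, hw, h4⟩ := Finset.mem_image.mp h3
      exact hv (hL.inj h4 ▸ hw)
    rcases Sym2.eq_iff.mp h2 with ⟨h3, h4⟩ | ⟨h3, h4⟩
    · left
      rw [← h3, ← h4]
      exact ⟨hui, hvi, v, rfl⟩
    · right
      rw [← h3, ← h4]
      exact ⟨hui, hvi, v, rfl⟩
  -- one endpoint in `B`
  have hone : ∀ a b : V, G.Adj a b → a ∈ B.image ι → b ∉ B.image ι →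
      bond (fl (EB G ι B) J) (flipOn (B.image ι) σ) s(a, b) - bond J σ s(a, b) =
      if s(a, b) ∈ LB ι B then -(2 * bond J σ s(a, b)) else 0 := by
    intro a b hab ha hb
    obtain ⟨u, hu, rfl⟩ := Finset.mem_image.mp ha
    rw [bond_fl]
    by_cases hbr : b ∈ Set.range ι
    · obtain ⟨v, rfl⟩ := hbr
      have hv : v ∉ B := fun h => hb (Finset.mem_image_of_mem ι h)
      have h1 : s(ι u, ι v) ∈ LB ι B := mem_LB.mpr ⟨u, hu, v, hv, (hL.adj u v).mp hab, rfl⟩
      rw [if_pos h1, if_neg (not_mem_EB_of_range ⟨u, rfl⟩ ⟨v, rfl⟩), bond_mk, bond_mk,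
        hflip_in _ ha, hflip_out _ hb]
      ring
    · have h1 : s(ι u, b) ∉ LB ι B := by
        intro h
        rcases hLB _ _ h with ⟨_, _, h2⟩ | ⟨h2, _, _⟩
        · exact hbr h2
        · exact hb h2
      rw [if_neg h1, if_pos (mem_EB_of hu hbr hab), bond_mk, bond_mk,
        hflip_in _ ha, hflip_out _ hb]
      ring
  by_cases ha : a ∈ B.image ι
  · by_cases hb : b ∈ B.image ι
    · have h1 : s(a, b) ∉ LB ι B := by
        intro h
        rcases hLB _ _ h with ⟨_, h2, _⟩ | ⟨_, h2, _⟩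
        · exact h2 hb
        · exact h2 ha
      rw [if_neg h1, bond_fl, if_neg (not_mem_EB_of_range (hrange a ha) (hrange b hb)), bond_mk,
        bond_mk, hflip_in _ ha, hflip_in _ hb]
      ring
    · exact hone a b hab ha hb
  · by_cases hb : b ∈ B.image ι
    · have h1 := hone b a hab.symm hb ha
      have h2 : s(a, b) = s(b, a) := Sym2.eq_swap
      rw [h2]
      exact h1
    · have h1 : s(a, b) ∉ LB ι B := by
        intro h
        rcases hLB _ _ h with ⟨h2, _, _⟩ | ⟨h2, _, _⟩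
        · exact ha h2
        · exact hb h2
      rw [if_neg h1, bond_fl, if_neg (not_mem_EB_of_not ha hb), bond_mk,
        bond_mk, hflip_out _ ha, hflip_out _ hb]
      ring

theorem ham_change {ι : Site d → V} (hL : IsLayer G ι) (J : Coupling G) (K : ℝ)
    (hK : ∀ x y, (lat d).Adj x y → K ≤ Jc J (ι x) (ι y)) (Λ : Finset V) (B : Finset (Site d))
    (hB : ∀ u ∈ B, ι u ∈ Λ) (s : V → Bool) (hs : ∀ x y, s (ι x) = s (ι y)) (σ : V → Bool)
    (hEv : EvL ι s B σ) :
    ham J Λ σ + 2 * K * (bdE (lat d) B).card ≤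
      ham (fl (EB G ι B) J) Λ (flipOn (B.image ι) σ) := by
  have hsub : LB ι B ⊆ edgesOf G Λ := by
    intro e he
    obtain ⟨u, hu, v, _, huv, rfl⟩ := mem_LB.mp he
    exact mem_edgesOf.mpr ⟨ι u, hB u hu, ι v, (hL.adj u v).mpr huv, rfl⟩
  have h1 : ham (fl (EB G ι B) J) Λ (flipOn (B.image ι) σ) - ham J Λ σ =
      ∑ e ∈ LB ι B, -(2 * bond J σ e) := by
    unfold ham
    rw [← Finset.sum_sub_distrib]
    have h2 : ∀ e ∈ edgesOf G Λ, bond (fl (EB G ι B) J) (flipOn (B.image ι) σ) e - bond J σ e =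
        if e ∈ LB ι B then -(2 * bond J σ e) else 0 := by
      intro e he
      obtain ⟨a, _, b, hab, rfl⟩ := mem_edgesOf.mp he
      exact bond_change hL J B σ a b hab
    rw [Finset.sum_congr rfl h2, ← Finset.sum_filter]
    apply Finset.sum_congr _ fun _ _ => rfl
    ext e
    rw [Finset.mem_filter]
    exact ⟨fun h => h.2, fun h => ⟨hsub h, h⟩⟩
  have h2 : ∑ e ∈ LB ι B, (2 * K) ≤ ∑ e ∈ LB ι B, -(2 * bond J σ e) := by
    apply Finset.sum_le_sum
    intro e he
    obtain ⟨u, hu, v, hv, huv, rfl⟩ := mem_LB.mp he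
    obtain ⟨h3, h4⟩ := hEv u hu v hv huv
    have h5 := hK u v huv
    rw [bond_mk, sg_ne h3, h4, hs u v]
    have h6 : Jc J (ι u) (ι v) * -sg (s (ι v)) * sg (s (ι v)) =
        - Jc J (ι u) (ι v) * (sg (s (ι v)) * sg (s (ι v))) := by ring
    rw [h6, sg_mul_self]
    linarith
  rw [Finset.sum_const, card_LB hL.inj, nsmul_eq_mul] at h2
  linarith

theorem gE_EvL {ι : Site d → V} (hL : IsLayer G ι) (β : ℝ) (hβ : 0 ≤ β) (J : Coupling G) (K : ℝ)
    (hK : ∀ x y, (lat d).Adj x y → K ≤ Jc J (ι x) (ι y)) (Λ : Finset V) (B : Finset (Site d))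
    (hB : ∀ u ∈ B, ι u ∈ Λ) (s : V → Bool) (hs : ∀ x y, s (ι x) = s (ι y)) :
    gE β J Λ s (fun σ => if EvL ι s B σ then 1 else 0) ≤
      Real.exp (gB β Λ s ι B J - 2 * (β * K) * (bdE (lat d) B).card) := by
  have hBΛ : B.image ι ⊆ Λ := by
    intro z hz
    obtain ⟨u, hu, rfl⟩ := Finset.mem_image.mp hz
    exact hB u hu
  have hZ : Real.exp (gB β Λ s ι B J) = Zp β (fl (EB G ι B) J) Λ s / Zp β J Λ s := by
    unfold gB lZ
    rw [Real.exp_sub, Real.exp_log (Zp_pos _ _ _ _), Real.exp_log (Zp_pos _ _ _ _)]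
  rw [Real.exp_sub, hZ]
  unfold gE
  rw [div_right_comm]
  apply div_le_div_of_nonneg_right _ (Zp_pos β J Λ s).le
  rw [le_div_iff₀ (Real.exp_pos _)]
  unfold Zp
  rw [← Equiv.sum_comp (flipSub Λ (B.image ι))
    (fun η => Real.exp (β * ham (fl (EB G ι B) J) Λ (glue Λ η s))), Finset.sum_mul]
  apply Finset.sum_le_sum
  intro η _
  show Real.exp (β * ham J Λ (glue Λ η s)) * (if EvL ι s B (glue Λ η s) then 1 else 0) *
    Real.exp (2 * (β * K) * (bdE (lat d) B).card) ≤ _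
  by_cases hE : EvL ι s B (glue Λ η s)
  · rw [if_pos hE, mul_one, ← Real.exp_add, glue_flipSub hBΛ]
    apply Real.exp_le_exp.mpr
    have h1 := ham_change hL J K hK Λ B hB s hs (glue Λ η s) hE
    have h2 := mul_le_mul_of_nonneg_left h1 hβ
    linarith
  · rw [if_neg hE, mul_zero, zero_mul]
    exact (Real.exp_pos _).le

/-- **Peierls bound with a change of disorder.** -/
theorem peierls_flip {ι : Site d → V} (hd : 2 ≤ d) (hL : IsLayer G ι) (β : ℝ) (hβ : 0 ≤ β)
    (J : Coupling G) (K : ℝ) (hK : ∀ x y, (lat d).Adj x y → K ≤ Jc J (ι x) (ι y))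
    (hβK : 38 * (Real.log d / d) + 1 ≤ β * K) (Λ : Finset V) (N : ℕ)
    (hΛ : ∀ z, ι z ∈ Λ ↔ z ∈ box d N) (s : V → Bool) (hs : ∀ x y, s (ι x) = s (ι y))
    (x : Site d) (hgood : ∀ n, ∀ B ∈ ctr hd x n, gB β Λ s ι B J < β * K * n) (hd3 : 3 ≤ d) :
    gE β J Λ s (dis s (ι x)) ≤ 1 / 64 := by
  have he3 : Real.exp (-3) ≤ 1 / 16 := by
    have h1 : Real.exp (-3) = (Real.exp 1)⁻¹ ^ 3 := by
      rw [← Real.exp_neg, ← Real.exp_nat_mul]
      norm_num
    have h2 : (2.7182818283 : ℝ) < Real.exp 1 := Real.exp_one_gt_d9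
    have h3 : (Real.exp 1)⁻¹ ≤ (2.6 : ℝ)⁻¹ := inv_anti₀ (by norm_num) (by linarith)
    rw [h1]
    calc (Real.exp 1)⁻¹ ^ 3 ≤ (2.6 : ℝ)⁻¹ ^ 3 :=
          pow_le_pow_left₀ (inv_nonneg.mpr (Real.exp_pos _).le) h3 3
      _ ≤ 1 / 16 := by norm_num
  have hout : ∃ z : Site d, z ∉ box d N := by
    refine ⟨fun _ => (N : ℤ) + 1, ?_⟩
    rw [mem_box]
    intro h
    have := (h ⟨0, by omega⟩).2
    omega
  set M := (edgesOf (lat d) (box d N)).card with hM
  set 𝒜 : Finset (Finset (Site d)) := (Finset.range (M + 1)).biUnion fun n => ctr hd x n with h𝒜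
  have h1 : gE β J Λ s (dis s (ι x)) ≤
      gE β J Λ s (fun σ => ∑ B ∈ 𝒜.filter (fun B => B ⊆ box d N),
        if EvL ι s B σ then 1 else 0) := by
    apply gE_mono
    intro η
    set σ := glue Λ η s with hσ
    unfold dis
    by_cases hx : σ (ι x) = s (ι x)
    · rw [if_pos hx]
      exact Finset.sum_nonneg fun B _ => by split_ifs <;> norm_num
    · rw [if_neg hx]
      have hxΛ : x ∈ box d N := by
        by_contra hxΛ
        exact hx (glue_not_mem η s fun h => hxΛ ((hΛ x).mp h))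
      obtain ⟨A, hAD, hA, hcl⟩ := exists_component (G := lat d) (x := x)
        (D := (box d N).filter fun z => σ (ι z) ≠ s (ι z)) (Finset.mem_filter.mpr ⟨hxΛ, hx⟩)
      have hAΛ : A ⊆ box d N := hAD.trans (Finset.filter_subset _ _)
      obtain ⟨B, hBΛ, hxB, hB1, hB2, hB3⟩ := fill (box d N) A (conn_compl_box hd N) hout x hAΛ hA
      have hB𝒜 : B ∈ 𝒜 := by
        rw [h𝒜, Finset.mem_biUnion]
        refine ⟨(bdE (lat d) B).card, ?_, (mem_ctr hd).mpr ⟨hxB, hB1, hB2, rfl⟩⟩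
        rw [Finset.mem_range]
        have := Finset.card_le_card (bdE_subset (G := lat d) hBΛ)
        omega
      have hEv : EvL ι s B σ := by
        intro u hu v hv huv
        obtain ⟨h3, h4⟩ := hB3 u hu v hv huv
        refine ⟨(Finset.mem_filter.mp (hAD h3)).2, ?_⟩
        by_contra h5
        have hvΛ : v ∈ box d N := by
          by_contra hvΛ
          exact h5 (glue_not_mem η s fun h => hvΛ ((hΛ v).mp h))
        exact h4 (hcl u h3 v (Finset.mem_filter.mpr ⟨hvΛ, h5⟩) huv)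
      have h6 : (1 : ℝ) = if EvL ι s B σ then 1 else 0 := by rw [if_pos hEv]
      refine h6.le.trans ?_
      have hBf : B ∈ 𝒜.filter (fun B => B ⊆ box d N) := Finset.mem_filter.mpr ⟨hB𝒜, hBΛ⟩
      exact Finset.single_le_sum (f := fun B => if EvL ι s B σ then (1 : ℝ) else 0)
        (fun B _ => by split_ifs <;> norm_num) hBf
  refine h1.trans ?_
  rw [gE_sum]
  obtain ⟨hsum, htsum⟩ := wz_tsum hd
  have h3 : ∀ n : ℕ, ∑ B ∈ ctr hd x n, Real.exp (-(β * K * n)) ≤ wz d n * (1 / 16) := by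
    intro n
    rw [Finset.sum_const, nsmul_eq_mul]
    by_cases hn : n < d
    · rw [ctr_empty hd hn, Finset.card_empty, Nat.cast_zero, zero_mul]
      exact mul_nonneg (wz_nonneg d n) (by norm_num)
    rw [not_lt] at hn
    have hn3 : (3 : ℝ) ≤ n := by exact_mod_cast hd3.trans hn
    have h7 := wz_bound hd x n (38 * ((n : ℝ) * (Real.log d / d))) le_rfl
    have h8 : Real.exp (-(β * K * n)) ≤
        Real.exp (-(38 * ((n : ℝ) * (Real.log d / d)))) * Real.exp (-3) := by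
      rw [← Real.exp_add]
      apply Real.exp_le_exp.mpr
      have h9 : (38 * (Real.log d / d) + 1) * n ≤ β * K * n :=
        mul_le_mul_of_nonneg_right hβK (Nat.cast_nonneg n)
      linarith
    calc ((ctr hd x n).card : ℝ) * Real.exp (-(β * K * n))
        ≤ ((ctr hd x n).card : ℝ) * (Real.exp (-(38 * ((n : ℝ) * (Real.log d / d)))) *
            Real.exp (-3)) := mul_le_mul_of_nonneg_left h8 (Nat.cast_nonneg _)
      _ = (((ctr hd x n).card : ℝ) * Real.exp (-(38 * ((n : ℝ) * (Real.log d / d))))) *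
            Real.exp (-3) := by ring
      _ ≤ wz d n * (1 / 16) := mul_le_mul h7 he3 (Real.exp_pos _).le (wz_nonneg d n)
  calc ∑ B ∈ 𝒜.filter (fun B => B ⊆ box d N), gE β J Λ s (fun σ => if EvL ι s B σ then 1 else 0)
      ≤ ∑ B ∈ 𝒜.filter (fun B => B ⊆ box d N),
          Real.exp (-(β * K * (bdE (lat d) B).card)) := by
        apply Finset.sum_le_sum
        intro B hB
        obtain ⟨hB1, hB2⟩ := Finset.mem_filter.mp hB
        refine (gE_EvL hL β hβ J K hK Λ B (fun u hu => (hΛ u).mpr (hB2 hu)) s hs).trans ?_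
        apply Real.exp_le_exp.mpr
        obtain ⟨n, _, hn⟩ := Finset.mem_biUnion.mp hB1
        have h4 := ((mem_ctr hd).mp hn).2.2.2
        have h5 := hgood n B hn
        rw [h4]
        linarith
    _ ≤ ∑ B ∈ 𝒜, Real.exp (-(β * K * (bdE (lat d) B).card)) :=
        Finset.sum_le_sum_of_subset_of_nonneg (Finset.filter_subset _ _)
          fun B _ _ => (Real.exp_pos _).le
    _ = ∑ n ∈ Finset.range (M + 1), ∑ B ∈ ctr hd x n,
          Real.exp (-(β * K * (bdE (lat d) B).card)) := by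
        rw [h𝒜]
        apply Finset.sum_biUnion
        intro n _ n' _ hne
        simp only [Function.onFun]
        rw [Finset.disjoint_left]
        intro B hB hB'
        have h6 := ((mem_ctr hd).mp hB).2.2.2
        have h7 := ((mem_ctr hd).mp hB').2.2.2
        omega
    _ = ∑ n ∈ Finset.range (M + 1), ∑ B ∈ ctr hd x n, Real.exp (-(β * K * n)) := by
        apply Finset.sum_congr rfl
        intro n _
        apply Finset.sum_congr rfl
        intro B hB
        rw [((mem_ctr hd).mp hB).2.2.2]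
    _ ≤ ∑ n ∈ Finset.range (M + 1), wz d n * (1 / 16) := Finset.sum_le_sum fun n _ => h3 n
    _ = (∑ n ∈ Finset.range (M + 1), wz d n) * (1 / 16) := (Finset.sum_mul _ _ _).symm
    _ ≤ (1 / 4) * (1 / 16) := by
        apply mul_le_mul_of_nonneg_right _ (by norm_num)
        exact (hsum.sum_le_tsum _ fun n _ => wz_nonneg d n).trans htsum
    _ = 1 / 64 := by norm_num

/-- **The layer keeps its orientation with large probability, in all volumes.** -/
theorem layer_prob [Countable V] (hd : 3 ≤ d) (ν : G.edgeSet → Measure ℝ)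
    [∀ e, IsProbabilityMeasure (ν e)] (ι : Site d → V) (K : ℝ) (D : ℕ) (hD : 0 < D)
    (hLaw : LayerLaw G ι ν K D) (hK0 : 0 < K) (hK : 1843200 * d * D ≤ K ^ 2) (β : ℝ)
    (hβ : 0 < β) (hβK : 38 * (Real.log d / d) + 1 ≤ β * K) (Λ : Finset V) (N : ℕ)
    (hΛ : ∀ z, ι z ∈ Λ ↔ z ∈ box d N) (s : V → Bool) (hs : ∀ x y, s (ι x) = s (ι y))
    (x : Site d) :
    (Measure.infinitePi ν) {J : Coupling G | 1 / 64 < gE β J Λ s (dis s (ι x))} ≤
      ENNReal.ofReal (1 / 500) := by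
  set μ := Measure.infinitePi ν with hμ
  have hd2 : 2 ≤ d := by omega
  have hDr : (0 : ℝ) < D := by exact_mod_cast hD
  have hce : Countable G.edgeSet := inferInstance
  -- the couplings inside the layer
  have hin : ∀ᵐ J ∂μ, ∀ u v, (lat d).Adj u v → K ≤ Jc (J : Coupling G) (ι u) (ι v) := by
    have h1 : ∀ e : G.edgeSet, ∀ᵐ J ∂μ, ((∀ v ∈ e.1, v ∈ Set.range ι) →
        K ≤ (J : Coupling G) e) := by
      intro e
      by_cases h : ∀ v ∈ e.1, v ∈ Set.range ι
      · filter_upwards [ae_coord ν e (fun y => K ≤ y) (hLaw.inside e h)] with J hJ _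
        exact hJ
      · exact ae_of_all _ fun J h2 => absurd h2 h
    filter_upwards [ae_all_iff.mpr h1] with J hJ u v huv
    have hadj := (hLaw.layer.adj u v).mpr huv
    unfold Jc
    rw [dif_pos hadj]
    apply hJ
    intro w hw
    rcases Sym2.mem_iff.mp hw with rfl | rfl
    · exact ⟨u, rfl⟩
    · exact ⟨v, rfl⟩
  -- the bad events
  have hbad : ∀ n : ℕ, μ {J | ∃ B ∈ ctr hd2 x n, β * K * n ≤ gB β Λ s ι B J} ≤
      ENNReal.ofReal (1 / (1000 * (n : ℝ) ^ 2)) := by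
    intro n
    rcases Nat.eq_zero_or_pos n with rfl | hn
    · have h1 : {J : Coupling G | ∃ B ∈ ctr hd2 x 0, β * K * (0 : ℕ) ≤ gB β Λ s ι B J} = ∅ := by
        rw [ctr_empty hd2 (by omega)]
        ext J
        simp
      rw [h1, measure_empty]
      exact zero_le
    · have h1 := chain μ hd x n hn (gB β Λ s ι) (gB_empty β Λ s ι) (8 * β ^ 2 * D) (β * K)
        (by positivity) (by positivity)
        (fun C C' t N' ht hN' hC => gB_tail ν ι K D hD hLaw β hβ Λ s C C' t N' ht hN' hC)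
        (by
          have h2 : 230400 * (d : ℝ) * (8 * β ^ 2 * D) = β ^ 2 * (1843200 * d * D) := by ring
          rw [h2, mul_pow]
          exact mul_le_mul_of_nonneg_left hK (by positivity))
      rw [← ofReal_measureReal]
      exact ENNReal.ofReal_le_ofReal h1
  have hsub : {J : Coupling G | 1 / 64 < gE β J Λ s (dis s (ι x))} ≤ᵐ[μ]
      ⋃ n : ℕ, {J | ∃ B ∈ ctr hd2 x n, β * K * n ≤ gB β Λ s ι B J} := by
    filter_upwards [hin] with J hJ hJ2
    by_contra hcon
    have hcon' : ∀ n, ∀ B ∈ ctr hd2 x n, gB β Λ s ι B J < β * K * n := by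
      intro n B hB
      by_contra h
      rw [not_lt] at h
      exact hcon (Set.mem_iUnion.mpr ⟨n, B, hB, h⟩)
    have h1 := peierls_flip hd2 hLaw.layer β hβ.le J K hJ hβK Λ N hΛ s hs x hcon' hd
    exact absurd h1 (not_le.mpr hJ2)
  refine (measure_mono_ae hsub).trans ((measure_iUnion_le _).trans ?_)
  refine (ENNReal.tsum_le_tsum hbad).trans ?_
  have hs2 : Summable fun n : ℕ => 1 / (1000 * (n : ℝ) ^ 2) := by
    have h1 := (Real.summable_one_div_nat_pow (p := 2)).mpr (by norm_num)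
    have h2 := h1.mul_left (1 / 1000)
    refine h2.congr fun n => ?_
    rw [one_div_mul_one_div]
  rw [← ENNReal.ofReal_tsum_of_nonneg (fun n => by positivity) hs2]
  apply ENNReal.ofReal_le_ofReal
  have h1 : ∑' n : ℕ, 1 / (1000 * (n : ℝ) ^ 2) = (1 / 1000) * ∑' n : ℕ, 1 / (n : ℝ) ^ 2 := by
    rw [← tsum_mul_left]
    apply tsum_congr
    intro n
    rw [one_div_mul_one_div]
  rw [h1, hasSum_zeta_two.tsum_eq]
  have h2 := Real.pi_lt_d2
  have h3 := Real.pi_pos
  have h4 : Real.pi ^ 2 ≤ 12 := by nlinarith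
  linarith

end Pool.T9h81.HL
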