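import Pool.Agent.T9h81.HL.ModelS
import Pool.Agent.T9h81.HL.PeierlsF

/-!
# The Peierls argument for a layer with random couplings
-/

set_option autoImplicit false

open MeasureTheory ProbabilityTheory Filter Topology
open scoped Classical ENNReal

namespace Pool.T9h81.HL

open Pool.T9h81.EAR

variable {V : Type} {G : SimpleGraph V} [G.LocallyFinite] {d : ℕ}

/-- the boundary edges of `B` in the layer, as coordinates -/
noncomputable def LBc (G : SimpleGraph V) (ι : Site d → V) (B : Finset (Site d)) :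
    Finset G.edgeSet :=
  (LB ι B).subtype fun e => e ∈ G.edgeSet

omit [G.LocallyFinite] in
theorem LB_sub {ι : Site d → V} (hL : IsLayer G ι) (B : Finset (Site d)) :
    ∀ e ∈ LB ι B, e ∈ G.edgeSet := by
  intro e he
  obtain ⟨u, _, v, _, huv, rfl⟩ := mem_LB.mp he
  exact (hL.adj u v).mpr huv

omit [G.LocallyFinite] in
theorem card_LBc {ι : Site d → V} (hL : IsLayer G ι) (B : Finset (Site d)) :
    (LBc G ι B).card = (bdE (lat d) B).card := by
  unfold LBc
  rw [Finset.card_subtype, Finset.filter_true_of_mem (LB_sub hL B), card_LB hL.inj]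

theorem ham_changeS {ι : Site d → V} (hL : IsLayer G ι) (J : Coupling G) (Λ : Finset V)
    (B : Finset (Site d)) (hB : ∀ u ∈ B, ι u ∈ Λ) (s : V → Bool)
    (hs : ∀ x y, s (ι x) = s (ι y)) (σ : V → Bool) (hEv : EvL ι s B σ) :
    ham (fl (EB G ι B) J) Λ (flipOn (B.image ι) σ) =
      ham J Λ σ + 2 * ∑ e ∈ LBc G ι B, J e := by
  have hsub : LB ι B ⊆ edgesOf G Λ := by
    intro e he
    obtain ⟨u, hu, v, _, huv, rfl⟩ := mem_LB.mp he
    exact mem_edgesOf.mpr ⟨ι u, hB u hu, ι v, (hL.adj u v).mpr huv, rfl⟩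
  have h1 : ham (fl (EB G ι B) J) Λ (flipOn (B.image ι) σ) - ham J Λ σ =
      ∑ e ∈ LB ι B, -(2 * bond J σ e) := by
    unfold ham
    rw [← Finset.sum_sub_distrib]
    have h2 : ∀ e ∈ edgesOf G Λ, bond (fl (EB G ι B) J) (flipOn (B.image ι) σ) e - bond J σ e =
        if e ∈ LB ι B then -(2 * bond J σ e) else 0 := by
      intro e he
      obtain ⟨a, _, b, hab, rfl⟩ := mem_edgesOf.mp he
      exact bond_change hL J B σ a b hab
    rw [Finset.sum_congr rfl h2, ← Finset.sum_filter]
    apply Finset.sum_congr _ fun _ _ => rfl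
    ext e
    rw [Finset.mem_filter]
    exact ⟨fun h => h.2, fun h => ⟨hsub h, h⟩⟩
  have h2 : ∀ e ∈ LB ι B, -(2 * bond J σ e) =
      2 * (if h : e ∈ G.edgeSet then J ⟨e, h⟩ else 0) := by
    intro e he
    obtain ⟨u, hu, v, hv, huv, rfl⟩ := mem_LB.mp he
    obtain ⟨h3, h4⟩ := hEv u hu v hv huv
    have hadj : G.Adj (ι u) (ι v) := (hL.adj u v).mpr huv
    have hmem : s(ι u, ι v) ∈ G.edgeSet := hadj
    rw [bond_mk, sg_ne h3, h4, hs u v, dif_pos hmem]
    have h6 : Jc J (ι u) (ι v) * -sg (s (ι v)) * sg (s (ι v)) =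
        - Jc J (ι u) (ι v) * (sg (s (ι v)) * sg (s (ι v))) := by ring
    rw [h6, sg_mul_self]
    unfold Jc
    rw [dif_pos hadj]
    ring
  rw [Finset.sum_congr rfl h2, ← Finset.mul_sum, ← Finset.sum_subtype_of_mem
    (fun e => if h : e ∈ G.edgeSet then J ⟨e, h⟩ else 0) (LB_sub hL B)] at h1
  have h3 : ∑ e ∈ LBc G ι B, J e = ∑ x ∈ Finset.subtype (fun e => e ∈ G.edgeSet) (LB ι B),
      (if h : x.1 ∈ G.edgeSet then J ⟨x.1, h⟩ else 0) := by
    unfold LBc
    apply Finset.sum_congr rfl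
    intro i _
    rw [dif_pos i.2]
  rw [h3]
  linarith

theorem gE_EvLS {ι : Site d → V} (hL : IsLayer G ι) (β : ℝ) (J : Coupling G)
    (Λ : Finset V) (B : Finset (Site d))
    (hB : ∀ u ∈ B, ι u ∈ Λ) (s : V → Bool) (hs : ∀ x y, s (ι x) = s (ι y)) :
    gE β J Λ s (fun σ => if EvL ι s B σ then 1 else 0) ≤
      Real.exp (gB β Λ s ι B J - 2 * β * ∑ e ∈ LBc G ι B, J e) := by
  have hBΛ : B.image ι ⊆ Λ := by
    intro z hz
    obtain ⟨u, hu, rfl⟩ := Finset.mem_image.mp hz
    exact hB u hu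
  have hZ : Real.exp (gB β Λ s ι B J) = Zp β (fl (EB G ι B) J) Λ s / Zp β J Λ s := by
    unfold gB lZ
    rw [Real.exp_sub, Real.exp_log (Zp_pos _ _ _ _), Real.exp_log (Zp_pos _ _ _ _)]
  rw [Real.exp_sub, hZ]
  unfold gE
  rw [div_right_comm]
  apply div_le_div_of_nonneg_right _ (Zp_pos β J Λ s).le
  rw [le_div_iff₀ (Real.exp_pos _)]
  unfold Zp
  rw [← Equiv.sum_comp (flipSub Λ (B.image ι))
    (fun η => Real.exp (β * ham (fl (EB G ι B) J) Λ (glue Λ η s))), Finset.sum_mul]
  apply Finset.sum_le_sum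
  intro η _
  show Real.exp (β * ham J Λ (glue Λ η s)) * (if EvL ι s B (glue Λ η s) then 1 else 0) *
    Real.exp (2 * β * ∑ e ∈ LBc G ι B, J e) ≤ _
  by_cases hE : EvL ι s B (glue Λ η s)
  · rw [if_pos hE, mul_one, ← Real.exp_add, glue_flipSub hBΛ]
    apply Real.exp_le_exp.mpr
    rw [ham_changeS hL J Λ B hB s hs (glue Λ η s) hE]
    apply le_of_eq
    ring
  · rw [if_neg hE, mul_zero, zero_mul]
    exact (Real.exp_pos _).le

/-- **Peierls bound with a change of disorder.** -/
theorem peierls_flipS {ι : Site d → V} (hd : 2 ≤ d) (hL : IsLayer G ι) (β : ℝ) (hβ : 0 ≤ β)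
    (J : Coupling G) (K : ℝ)
    (hβK : 41 * (Real.log d / d) ≤ β * K) (Λ : Finset V) (N : ℕ)
    (hΛ : ∀ z, ι z ∈ Λ ↔ z ∈ box d N) (s : V → Bool) (hs : ∀ x y, s (ι x) = s (ι y))
    (x : Site d) (hgood : ∀ n, ∀ B ∈ ctr hd x n, gB β Λ s ι B J < β * K * n)
    (hin : ∀ n, ∀ B ∈ ctr hd x n, K * n ≤ ∑ e ∈ LBc G ι B, J e) (hd3 : 3 ≤ d) :
    gE β J Λ s (dis s (ι x)) ≤ 1 / 64 := by
  have he3 : Real.exp (-3) ≤ 1 / 16 := by
    have h1 : Real.exp (-3) = (Real.exp 1)⁻¹ ^ 3 := by
      rw [← Real.exp_neg, ← Real.exp_nat_mul]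
      norm_num
    have h2 : (2.7182818283 : ℝ) < Real.exp 1 := Real.exp_one_gt_d9
    have h3 : (Real.exp 1)⁻¹ ≤ (2.6 : ℝ)⁻¹ := inv_anti₀ (by norm_num) (by linarith)
    rw [h1]
    calc (Real.exp 1)⁻¹ ^ 3 ≤ (2.6 : ℝ)⁻¹ ^ 3 :=
          pow_le_pow_left₀ (inv_nonneg.mpr (Real.exp_pos _).le) h3 3
      _ ≤ 1 / 16 := by norm_num
  have hout : ∃ z : Site d, z ∉ box d N := by
    refine ⟨fun _ => (N : ℤ) + 1, ?_⟩
    rw [mem_box]
    intro h
    have := (h ⟨0, by omega⟩).2
    omega
  set M := (edgesOf (lat d) (box d N)).card with hM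
  set 𝒜 : Finset (Finset (Site d)) := (Finset.range (M + 1)).biUnion fun n => ctr hd x n with h𝒜
  have h1 : gE β J Λ s (dis s (ι x)) ≤
      gE β J Λ s (fun σ => ∑ B ∈ 𝒜.filter (fun B => B ⊆ box d N),
        if EvL ι s B σ then 1 else 0) := by
    apply gE_mono
    intro η
    set σ := glue Λ η s with hσ
    unfold dis
    by_cases hx : σ (ι x) = s (ι x)
    · rw [if_pos hx]
      exact Finset.sum_nonneg fun B _ => by split_ifs <;> norm_num
    · rw [if_neg hx]
      have hxΛ : x ∈ box d N := by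
        by_contra hxΛ
        exact hx (glue_not_mem η s fun h => hxΛ ((hΛ x).mp h))
      obtain ⟨A, hAD, hA, hcl⟩ := exists_component (G := lat d) (x := x)
        (D := (box d N).filter fun z => σ (ι z) ≠ s (ι z)) (Finset.mem_filter.mpr ⟨hxΛ, hx⟩)
      have hAΛ : A ⊆ box d N := hAD.trans (Finset.filter_subset _ _)
      obtain ⟨B, hBΛ, hxB, hB1, hB2, hB3⟩ := fill (box d N) A (conn_compl_box hd N) hout x hAΛ hA
      have hB𝒜 : B ∈ 𝒜 := by
        rw [h𝒜, Finset.mem_biUnion]
        refine ⟨(bdE (lat d) B).card, ?_, (mem_ctr hd).mpr ⟨hxB, hB1, hB2, rfl⟩⟩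
        rw [Finset.mem_range]
        have := Finset.card_le_card (bdE_subset (G := lat d) hBΛ)
        omega
      have hEv : EvL ι s B σ := by
        intro u hu v hv huv
        obtain ⟨h3, h4⟩ := hB3 u hu v hv huv
        refine ⟨(Finset.mem_filter.mp (hAD h3)).2, ?_⟩
        by_contra h5
        have hvΛ : v ∈ box d N := by
          by_contra hvΛ
          exact h5 (glue_not_mem η s fun h => hvΛ ((hΛ v).mp h))
        exact h4 (hcl u h3 v (Finset.mem_filter.mpr ⟨hvΛ, h5⟩) huv)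
      have h6 : (1 : ℝ) = if EvL ι s B σ then 1 else 0 := by rw [if_pos hEv]
      refine h6.le.trans ?_
      have hBf : B ∈ 𝒜.filter (fun B => B ⊆ box d N) := Finset.mem_filter.mpr ⟨hB𝒜, hBΛ⟩
      exact Finset.single_le_sum (f := fun B => if EvL ι s B σ then (1 : ℝ) else 0)
        (fun B _ => by split_ifs <;> norm_num) hBf
  refine h1.trans ?_
  rw [gE_sum]
  obtain ⟨hsum, htsum⟩ := wz_tsum hd
  have h3 : ∀ n : ℕ, ∑ B ∈ ctr hd x n, Real.exp (-(β * K * n)) ≤ wz d n * (1 / 16) := by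
    intro n
    rw [Finset.sum_const, nsmul_eq_mul]
    by_cases hn : n < d
    · rw [ctr_empty hd hn, Finset.card_empty, Nat.cast_zero, zero_mul]
      exact mul_nonneg (wz_nonneg d n) (by norm_num)
    rw [not_lt] at hn
    have hnd : (d : ℝ) ≤ n := by exact_mod_cast hn
    have hdpos : (0 : ℝ) < d := by
      have : 0 < d := by omega
      exact_mod_cast this
    have hn3 : 1 ≤ (n : ℝ) * (Real.log d / d) := by
      calc (1 : ℝ) ≤ Real.log d := log_ge_one hd3
        _ = d * (Real.log d / d) := by field_simp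
        _ ≤ n * (Real.log d / d) :=
            mul_le_mul_of_nonneg_right hnd (by
              have := log_ge_one hd3
              positivity)
    have h7 := wz_bound hd x n (38 * ((n : ℝ) * (Real.log d / d))) le_rfl
    have h8 : Real.exp (-(β * K * n)) ≤
        Real.exp (-(38 * ((n : ℝ) * (Real.log d / d)))) * Real.exp (-3) := by
      rw [← Real.exp_add]
      apply Real.exp_le_exp.mpr
      have h9 : (41 * (Real.log d / d)) * n ≤ β * K * n :=
        mul_le_mul_of_nonneg_right hβK (Nat.cast_nonneg n)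
      linarith
    calc ((ctr hd x n).card : ℝ) * Real.exp (-(β * K * n))
        ≤ ((ctr hd x n).card : ℝ) * (Real.exp (-(38 * ((n : ℝ) * (Real.log d / d)))) *
            Real.exp (-3)) := mul_le_mul_of_nonneg_left h8 (Nat.cast_nonneg _)
      _ = (((ctr hd x n).card : ℝ) * Real.exp (-(38 * ((n : ℝ) * (Real.log d / d))))) *
            Real.exp (-3) := by ring
      _ ≤ wz d n * (1 / 16) := mul_le_mul h7 he3 (Real.exp_pos _).le (wz_nonneg d n)
  calc ∑ B ∈ 𝒜.filter (fun B => B ⊆ box d N), gE β J Λ s (fun σ => if EvL ι s B σ then 1 else 0)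
      ≤ ∑ B ∈ 𝒜.filter (fun B => B ⊆ box d N),
          Real.exp (-(β * K * (bdE (lat d) B).card)) := by
        apply Finset.sum_le_sum
        intro B hB
        obtain ⟨hB1, hB2⟩ := Finset.mem_filter.mp hB
        refine (gE_EvLS hL β J Λ B (fun u hu => (hΛ u).mpr (hB2 hu)) s hs).trans ?_
        apply Real.exp_le_exp.mpr
        obtain ⟨n, _, hn⟩ := Finset.mem_biUnion.mp hB1
        have h4 := ((mem_ctr hd).mp hn).2.2.2
        have h5 := hgood n B hn
        have h6 := mul_le_mul_of_nonneg_left (hin n B hn) hβ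
        rw [h4]
        linarith
    _ ≤ ∑ B ∈ 𝒜, Real.exp (-(β * K * (bdE (lat d) B).card)) :=
        Finset.sum_le_sum_of_subset_of_nonneg (Finset.filter_subset _ _)
          fun B _ _ => (Real.exp_pos _).le
    _ = ∑ n ∈ Finset.range (M + 1), ∑ B ∈ ctr hd x n,
          Real.exp (-(β * K * (bdE (lat d) B).card)) := by
        rw [h𝒜]
        apply Finset.sum_biUnion
        intro n _ n' _ hne
        simp only [Function.onFun]
        rw [Finset.disjoint_left]
        intro B hB hB'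
        have h6 := ((mem_ctr hd).mp hB).2.2.2
        have h7 := ((mem_ctr hd).mp hB').2.2.2
        omega
    _ = ∑ n ∈ Finset.range (M + 1), ∑ B ∈ ctr hd x n, Real.exp (-(β * K * n)) := by
        apply Finset.sum_congr rfl
        intro n _
        apply Finset.sum_congr rfl
        intro B hB
        rw [((mem_ctr hd).mp hB).2.2.2]
    _ ≤ ∑ n ∈ Finset.range (M + 1), wz d n * (1 / 16) := Finset.sum_le_sum fun n _ => h3 n
    _ = (∑ n ∈ Finset.range (M + 1), wz d n) * (1 / 16) := (Finset.sum_mul _ _ _).symm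
    _ ≤ (1 / 4) * (1 / 16) := by
        apply mul_le_mul_of_nonneg_right _ (by norm_num)
        exact (hsum.sum_le_tsum _ fun n _ => wz_nonneg d n).trans htsum
    _ = 1 / 64 := by norm_num

/-- the constant of the chaining bound -/
noncomputable def C1 : ℝ := chain_all.choose

theorem C1_pos : 0 < C1 := chain_all.choose_spec.1

/-- **The layer keeps its orientation with large probability, in all volumes.** -/
theorem layer_probS [Countable V] (hd : 3 ≤ d) (ν : G.edgeSet → Measure ℝ)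
    [∀ e, IsProbabilityMeasure (ν e)] (ι : Site d → V) (K : ℝ) (D : ℕ) (hD : 0 < D)
    (hLaw : LayerLawS G ι ν (2 * K) D) (hK0 : 0 < K)
    (hK1 : 8 * C1 * (Real.log d / d) ^ 2 * D ≤ K ^ 2) (hK2 : 90 * (Real.log d / d) ≤ K ^ 2)
    (β : ℝ) (hβ : 0 < β) (hβK : 41 * (Real.log d / d) ≤ β * K) (Λ : Finset V) (N : ℕ)
    (hΛ : ∀ z, ι z ∈ Λ ↔ z ∈ box d N) (s : V → Bool) (hs : ∀ x y, s (ι x) = s (ι y))
    (x : Site d) :
    (Measure.infinitePi ν) {J : Coupling G | 1 / 64 < gE β J Λ s (dis s (ι x))} ≤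
      ENNReal.ofReal (1 / 250) := by
  set μ := Measure.infinitePi ν with hμ
  have hd2 : 2 ≤ d := by omega
  have hDr : (0 : ℝ) < D := by exact_mod_cast hD
  have hce : Countable G.edgeSet := inferInstance
  -- the bad events
  set E : ℕ → Set (Coupling G) := fun n => {J | ∃ B ∈ ctr hd2 x n, β * K * n ≤ gB β Λ s ι B J} ∪
    {J | ∃ B ∈ ctr hd2 x n, ∑ e ∈ LBc G ι B, J e ≤ K * n} with hE
  have hbad : ∀ n : ℕ, μ (E n) ≤ ENNReal.ofReal (wz d n / 500 + 1 / (1000 * (n : ℝ) ^ 2)) := by
    intro n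
    rcases Nat.eq_zero_or_pos n with rfl | hn
    · have h1 : E 0 = ∅ := by
        rw [hE]
        simp only [ctr_empty hd2 (show 0 < d by omega)]
        ext J
        simp
      rw [h1, measure_empty]
      exact zero_le
    · have hn' : (0 : ℝ) < n := by exact_mod_cast hn
      have h1 := chain_all.choose_spec.2 d hd (Coupling G) inferInstance μ inferInstance x n hn
        (gB β Λ s ι) (gB_empty β Λ s ι) (8 * β ^ 2 * D) (β * K) (by positivity) (by positivity)
        (fun C C' t N' ht hN' hC => gB_tailS ν ι (2 * K) D hD hLaw β hβ Λ s C C' t N' ht hN' hC)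
        (by
          have h2 : chain_all.choose * (Real.log d / d) ^ 2 * (8 * β ^ 2 * D) =
              β ^ 2 * (8 * C1 * (Real.log d / d) ^ 2 * D) := by
            unfold C1
            ring
          rw [h2, mul_pow]
          exact mul_le_mul_of_nonneg_left hK1 (by positivity))
      have h2 := union_le μ (ctr hd2 x n) (fun B J => ∑ e ∈ LBc G ι B, J e ≤ K * n)
        (Real.exp (-(K ^ 2 / 2 * n))) (by
          intro B hB
          have hC := (mem_ctr hd2).mp hB
          have hcard : (LBc G ι B).card = n := by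
            rw [card_LBc hLaw.layer]
            exact hC.2.2.2
          have hin : ∀ e ∈ LBc G ι B, ∀ v ∈ e.1, v ∈ Set.range ι := by
            intro e he v hv
            unfold LBc at he
            rw [Finset.mem_subtype] at he
            obtain ⟨u, _, w, _, _, h3⟩ := mem_LB.mp he
            rw [← h3] at hv
            rcases Sym2.mem_iff.mp hv with rfl | rfl
            · exact ⟨u, rfl⟩
            · exact ⟨w, rfl⟩
          have h3 := subg_tailS ν (2 * K) (LBc G ι B) (fun e he => hLaw.mean e (hin e he))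
            (fun e he => hLaw.subg e (hin e he)) (K * n) (by positivity)
          rw [hcard] at h3
          have h4 : {J : Coupling G | ∑ e ∈ LBc G ι B, J e ≤ K * n} =
              {J | ∑ e ∈ LBc G ι B, J e ≤ n * (2 * K) - K * n} := by
            ext J
            show ∑ e ∈ LBc G ι B, J e ≤ K * n ↔ ∑ e ∈ LBc G ι B, J e ≤ n * (2 * K) - K * n
            have h5 : (n : ℝ) * (2 * K) - K * n = K * n := by ring
            rw [h5]
          rw [h4]
          refine h3.trans (le_of_eq ?_)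
          congr 1
          field_simp)
      have h3 := wz_aux hd x n (K ^ 2 / 2 * n) (by
        have h4 : 45 * ((n : ℝ) * (Real.log d / d)) = (90 * (Real.log d / d)) / 2 * n := by ring
        rw [h4]
        apply mul_le_mul_of_nonneg_right _ hn'.le
        exact div_le_div_of_nonneg_right hK2 (by norm_num))
      have h4 := measureReal_union_le (μ := μ)
        {J : Coupling G | ∃ B ∈ ctr hd2 x n, β * K * n ≤ gB β Λ s ι B J}
        {J | ∃ B ∈ ctr hd2 x n, ∑ e ∈ LBc G ι B, J e ≤ K * n}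
      rw [← ofReal_measureReal]
      apply ENNReal.ofReal_le_ofReal
      have h5 : μ.real (E n) ≤ μ.real {J : Coupling G | ∃ B ∈ ctr hd2 x n,
          β * K * n ≤ gB β Λ s ι B J} +
          μ.real {J : Coupling G | ∃ B ∈ ctr hd2 x n, ∑ e ∈ LBc G ι B, J e ≤ K * n} := h4
      have h6 : μ.real {J : Coupling G | ∃ B ∈ ctr hd2 x n, ∑ e ∈ LBc G ι B, J e ≤ K * n} ≤
          wz d n / 1000 := h2.trans h3
      linarith
  have hsub : {J : Coupling G | 1 / 64 < gE β J Λ s (dis s (ι x))} ⊆ ⋃ n : ℕ, E n := by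
    intro J hJ2
    by_contra hcon
    rw [Set.mem_iUnion] at hcon
    have hcon1 : ∀ n, ∀ B ∈ ctr hd2 x n, gB β Λ s ι B J < β * K * n := by
      intro n B hB
      by_contra h
      rw [not_lt] at h
      exact hcon ⟨n, Or.inl ⟨B, hB, h⟩⟩
    have hcon2 : ∀ n, ∀ B ∈ ctr hd2 x n, K * n ≤ ∑ e ∈ LBc G ι B, J e := by
      intro n B hB
      by_contra h
      rw [not_le] at h
      exact hcon ⟨n, Or.inr ⟨B, hB, h.le⟩⟩
    have h1 := peierls_flipS hd2 hLaw.layer β hβ.le J K hβK Λ N hΛ s hs x hcon1 hcon2 hd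
    exact absurd h1 (not_le.mpr hJ2)
  refine (measure_mono hsub).trans ((measure_iUnion_le _).trans ?_)
  refine (ENNReal.tsum_le_tsum hbad).trans ?_
  have hs2 : Summable fun n : ℕ => 1 / (1000 * (n : ℝ) ^ 2) := by
    have h1 := (Real.summable_one_div_nat_pow (p := 2)).mpr (by norm_num)
    have h2 := h1.mul_left (1 / 1000)
    refine h2.congr fun n => ?_
    rw [one_div_mul_one_div]
  obtain ⟨hwz, hwz2⟩ := wz_tsum hd2
  have hs3 : Summable fun n : ℕ => wz d n / 500 := hwz.div_const _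
  rw [← ENNReal.ofReal_tsum_of_nonneg (fun n => by
    have := wz_nonneg d n
    positivity) (hs3.add hs2)]
  apply ENNReal.ofReal_le_ofReal
  rw [hs3.tsum_add hs2, tsum_div_const]
  have h1 : ∑' n : ℕ, 1 / (1000 * (n : ℝ) ^ 2) = (1 / 1000) * ∑' n : ℕ, 1 / (n : ℝ) ^ 2 := by
    rw [← tsum_mul_left]
    apply tsum_congr
    intro n
    rw [one_div_mul_one_div]
  rw [h1, hasSum_zeta_two.tsum_eq]
  have h2 := Real.pi_lt_d2
  have h3 := Real.pi_pos
  have h4 : Real.pi ^ 2 ≤ 12 := by nlinarith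
  linarith

end Pool.T9h81.HL
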