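import Pool.Agent.T9h81.HL.Main

/-!
# Coordinate planes of `ℤ^(k+m)`
-/

set_option autoImplicit false

open MeasureTheory ProbabilityTheory
open scoped Classical ENNReal

namespace Pool.T9h81.HL

open Pool.T9h81.EAR

variable {k m : ℕ}

/-- the `k`-dimensional plane with the last `m` coordinates equal to `v` -/
def plane (k : ℕ) {m : ℕ} (v : Site m) : Set (Site (k + m)) := {x | ∀ j, x (Fin.natAdd k j) = v j}

/-- parametrisation of the plane -/
def pl (v : Site m) (x : Site k) : Site (k + m) := Fin.append x v

theorem range_pl (v : Site m) : Set.range (pl (k := k) v) = plane k v := by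
  ext z
  constructor
  · rintro ⟨x, rfl⟩ j
    exact Fin.append_right x v j
  · intro h
    refine ⟨fun i => z (Fin.castAdd m i), ?_⟩
    funext j
    refine Fin.addCases (fun i => ?_) (fun i => ?_) j
    · exact Fin.append_left _ _ i
    · exact (Fin.append_right _ _ i).trans (h i).symm

theorem pl_inj (v : Site m) : Function.Injective (pl (k := k) v) := by
  intro x y h
  funext i
  have h1 := congrFun h (Fin.castAdd m i)
  unfold pl at h1
  rwa [Fin.append_left, Fin.append_left] at h1

theorem pl_disj {v v' : Site m} {x x' : Site k} (h : pl v x = pl v' x') : v = v' := by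
  funext j
  have h1 := congrFun h (Fin.natAdd k j)
  unfold pl at h1
  rwa [Fin.append_right, Fin.append_right] at h1

theorem pl_add_left (v : Site m) (x : Site k) (i : Fin k) :
    pl v x + Pi.single (Fin.castAdd m i) 1 = pl v (x + Pi.single i 1) := by
  funext j
  refine Fin.addCases (fun i' => ?_) (fun i' => ?_) j
  · rw [Pi.add_apply]
    unfold pl
    rw [Fin.append_left, Fin.append_left, Pi.add_apply]
    congr 1
    by_cases h : i' = i
    · subst h
      rw [Pi.single_eq_same, Pi.single_eq_same]
    · rw [Pi.single_eq_of_ne h, Pi.single_eq_of_ne]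
      intro h2
      exact h (Fin.castAdd_injective k m h2)
  · rw [Pi.add_apply]
    unfold pl
    rw [Fin.append_right, Fin.append_right, Pi.single_eq_of_ne, add_zero]
    intro h
    have := congrArg Fin.val h
    simp only [Fin.val_natAdd, Fin.val_castAdd] at this
    omega

theorem pl_add_right (v : Site m) (x : Site k) (i : Fin m) :
    pl v x + Pi.single (Fin.natAdd k i) 1 = pl (v + Pi.single i 1) x := by
  funext j
  refine Fin.addCases (fun i' => ?_) (fun i' => ?_) j
  · rw [Pi.add_apply]
    unfold pl
    rw [Fin.append_left, Fin.append_left, Pi.single_eq_of_ne, add_zero]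
    intro h
    have := congrArg Fin.val h
    simp only [Fin.val_natAdd, Fin.val_castAdd] at this
    omega
  · rw [Pi.add_apply]
    unfold pl
    rw [Fin.append_right, Fin.append_right, Pi.add_apply]
    congr 1
    by_cases h : i' = i
    · subst h
      rw [Pi.single_eq_same, Pi.single_eq_same]
    · rw [Pi.single_eq_of_ne h, Pi.single_eq_of_ne]
      intro h2
      exact h (Fin.natAdd_injective m k h2)

theorem single_ne_zero {d : ℕ} (i : Fin d) : (Pi.single i 1 : Site d) ≠ 0 := by
  intro h
  have := congrFun h i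
  simp at this

theorem isLayer_pl (v : Site m) : IsLayer (lat (k + m)) (pl (k := k) v) := by
  refine ⟨pl_inj v, fun x y => ?_⟩
  have key : ∀ x y : Site k, (∃ j, pl v y = pl v x + Pi.single j 1) ↔
      ∃ i, y = x + Pi.single i 1 := by
    intro x y
    constructor
    · rintro ⟨j, hj⟩
      revert hj
      refine Fin.addCases (fun i => ?_) (fun i => ?_) j
      · intro hj
        rw [pl_add_left] at hj
        exact ⟨i, pl_inj v hj⟩
      · intro hj
        rw [pl_add_right] at hj
        have h1 := pl_disj hj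
        exact absurd (left_eq_add.mp h1) (single_ne_zero i)
    · rintro ⟨i, rfl⟩
      exact ⟨Fin.castAdd m i, (pl_add_left v x i).symm⟩
  rw [adj_iff, adj_iff]
  constructor
  · rintro ⟨j, h | h⟩
    · obtain ⟨i, hi⟩ := (key x y).mp ⟨j, h⟩
      exact ⟨i, Or.inl hi⟩
    · obtain ⟨i, hi⟩ := (key y x).mp ⟨j, h⟩
      exact ⟨i, Or.inr hi⟩
  · rintro ⟨i, h | h⟩
    · obtain ⟨j, hj⟩ := (key x y).mpr ⟨i, h⟩
      exact ⟨j, Or.inl hj⟩
    · obtain ⟨j, hj⟩ := (key y x).mpr ⟨i, h⟩
      exact ⟨j, Or.inr hj⟩

theorem card_out_pl (v : Site m) (x : Site k) : (out (lat (k + m)) (pl v) x).card ≤ 2 * m := by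
  have hsub : out (lat (k + m)) (pl v) x ⊆
      (Finset.univ : Finset (Fin m × Bool)).image fun p =>
        if p.2 then pl v x + Pi.single (Fin.natAdd k p.1) 1
        else pl v x - Pi.single (Fin.natAdd k p.1) 1 := by
    intro z hz
    unfold out at hz
    rw [Finset.mem_filter, SimpleGraph.mem_neighborFinset, adj_iff] at hz
    obtain ⟨⟨j, hj⟩, hzr⟩ := hz
    rw [Finset.mem_image]
    revert hj
    refine Fin.addCases (fun i => ?_) (fun i => ?_) j
    · intro hj
      exfalso
      apply hzr
      rcases hj with h | h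
      · rw [pl_add_left] at h
        exact ⟨_, h.symm⟩
      · refine ⟨x - Pi.single i 1, ?_⟩
        have h1 := pl_add_left v (x - Pi.single i 1) i
        rw [sub_add_cancel, h] at h1
        exact add_right_cancel h1
    · intro hj
      rcases hj with h | h
      · exact ⟨(i, true), Finset.mem_univ _, by simp [h]⟩
      · refine ⟨(i, false), Finset.mem_univ _, ?_⟩
        simp [h]
  refine (Finset.card_le_card hsub).trans (Finset.card_image_le.trans ?_)
  rw [Finset.card_univ, Fintype.card_prod, Fintype.card_fin, Fintype.card_bool, Nat.mul_comm]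

/-- The assumptions on the laws `ν e` of the couplings: the couplings of the bonds inside the
planes `v ∈ 𝒱` are at least `K`, those of the bonds with exactly one endpoint in such a plane are
symmetric with values in `[-1, 1]`; the other ones are arbitrary. -/
def PlaneLaws (k m : ℕ) (𝒱 : Set (Site m)) (K : ℝ)
    (ν : (lat (k + m)).edgeSet → Measure ℝ) : Prop :=
  ∀ v ∈ 𝒱, ∀ e : (lat (k + m)).edgeSet,
    ((∀ x ∈ e.1, x ∈ plane k v) → ∀ᵐ y ∂(ν e), K ≤ y) ∧
    ((∃ x ∈ e.1, x ∈ plane k v) → (∃ x ∈ e.1, x ∉ plane k v) →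
      (ν e).map (fun y => -y) = ν e ∧ ∀ᵐ y ∂(ν e), |y| ≤ 1)

theorem law_pl {𝒱 : Set (Site m)} {K : ℝ} {ν : (lat (k + m)).edgeSet → Measure ℝ}
    (h : PlaneLaws k m 𝒱 K ν) (v : 𝒱) :
    LayerLaw (lat (k + m)) (pl (k := k) v.1) ν K (2 * m) := by
  refine ⟨isLayer_pl v.1, card_out_pl v.1, ?_, ?_, ?_⟩
  · intro e he
    rw [range_pl] at he
    exact (h v.1 v.2 e).1 he
  · intro e he1 he2
    rw [range_pl] at he1 he2
    exact ((h v.1 v.2 e).2 he1 he2).1
  · intro e he1 he2
    rw [range_pl] at he1 he2
    exact ((h v.1 v.2 e).2 he1 he2).2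

end Pool.T9h81.HL
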