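import Pool.Agent.T9h81.HL.Plane
import Pool.Agent.T9h81.HL.MainS

/-!
# Coordinate planes of `ℤ^(k+m)` with weakly biased couplings
-/

set_option autoImplicit false

open MeasureTheory ProbabilityTheory Filter Topology
open scoped Classical ENNReal

namespace Pool.T9h81.HL

open Pool.T9h81.EAR

variable {k m : ℕ}

/-- the constant of the main theorem -/
noncomputable def C2 : ℝ := 20 + 64 * C1

theorem C2_pos : 0 < C2 := by
  unfold C2
  have := C1_pos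
  linarith

/-- the numerical conditions follow from the lower bound for the bias -/
theorem C2_spec (hk : 3 ≤ k) (hm : 1 ≤ m) (b : ℝ)
    (hb : C2 * (√(Real.log k / k) + √m * (Real.log k / k)) ≤ b) :
    0 < b / 2 ∧ 8 * C1 * (Real.log k / k) ^ 2 * ((2 * m : ℕ) : ℝ) ≤ (b / 2) ^ 2 ∧
      90 * (Real.log k / k) ≤ (b / 2) ^ 2 := by
  have hkr : (3 : ℝ) ≤ k := by exact_mod_cast hk
  have hmr : (1 : ℝ) ≤ m := by exact_mod_cast hm
  have hlog := log_ge_one hk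
  have hC1 := C1_pos
  have hC2 := C2_pos
  set L : ℝ := Real.log k / k with hL
  have hL0 : 0 < L := by positivity
  have hs1 : 0 < √L := Real.sqrt_pos.mpr hL0
  have hs2 : 0 < √(m : ℝ) * L := by positivity
  have hb0 : 0 < b := lt_of_lt_of_le (by positivity) hb
  have h1 : C2 * √L ≤ b := by
    have : 0 ≤ C2 * (√(m : ℝ) * L) := by positivity
    linarith
  have h2 : C2 * (√(m : ℝ) * L) ≤ b := by
    have : 0 ≤ C2 * √L := by positivity
    linarith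
  have h3 : C2 ^ 2 * L ≤ b ^ 2 := by
    have h4 := pow_le_pow_left₀ (by positivity) h1 2
    rwa [mul_pow, Real.sq_sqrt hL0.le] at h4
  have h4 : C2 ^ 2 * (m * L ^ 2) ≤ b ^ 2 := by
    have h5 := pow_le_pow_left₀ (by positivity) h2 2
    rwa [mul_pow, mul_pow, Real.sq_sqrt (by linarith)] at h5
  have h5 : 360 ≤ C2 ^ 2 := by
    unfold C2
    nlinarith
  have h6 : 64 * C1 ≤ C2 ^ 2 := by
    unfold C2
    nlinarith
  refine ⟨by positivity, ?_, ?_⟩
  · have h7 : 64 * C1 * (m * L ^ 2) ≤ b ^ 2 :=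
      (mul_le_mul_of_nonneg_right h6 (by positivity)).trans h4
    push_cast
    have h8 : 8 * C1 * L ^ 2 * (2 * (m : ℝ)) = (64 * C1 * (m * L ^ 2)) / 4 := by ring
    have h9 : (b / 2) ^ 2 = b ^ 2 / 4 := by ring
    rw [h8, h9]
    exact div_le_div_of_nonneg_right h7 (by norm_num)
  · have h7 : 360 * L ≤ b ^ 2 := (mul_le_mul_of_nonneg_right h5 hL0.le).trans h3
    have h9 : (b / 2) ^ 2 = b ^ 2 / 4 := by ring
    rw [h9]
    linarith

/-- the assumptions on the laws of the couplings -/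
def BiasedPlaneLaws (k m : ℕ) (𝒱 : Set (Site m)) (b : ℝ)
    (ν : (lat (k + m)).edgeSet → Measure ℝ) : Prop :=
  ∀ v ∈ 𝒱, ∀ e : (lat (k + m)).edgeSet,
    ((∀ x ∈ e.1, x ∈ plane k v) →
      b ≤ ∫ y, y ∂(ν e) ∧ HasSubgaussianMGF (fun y => y - ∫ z, z ∂(ν e)) 1 (ν e)) ∧
    ((∃ x ∈ e.1, x ∈ plane k v) → (∃ x ∈ e.1, x ∉ plane k v) →
      (ν e).map (fun y => -y) = ν e ∧ ∀ᵐ y ∂(ν e), |y| ≤ 1)

theorem law_plS {𝒱 : Set (Site m)} {b : ℝ} {ν : (lat (k + m)).edgeSet → Measure ℝ}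
    (h : BiasedPlaneLaws k m 𝒱 b ν) (v : 𝒱) :
    LayerLawS (lat (k + m)) (pl (k := k) v.1) ν b (2 * m) := by
  refine ⟨isLayer_pl v.1, card_out_pl v.1, ?_, ?_, ?_, ?_⟩
  · intro e he
    rw [range_pl] at he
    exact ((h v.1 v.2 e).1 he).1
  · intro e he
    rw [range_pl] at he
    exact ((h v.1 v.2 e).1 he).2
  · intro e he1 he2
    rw [range_pl] at he1 he2
    exact ((h v.1 v.2 e).2 he1 he2).1
  · intro e he1 he2
    rw [range_pl] at he1 he2
    exact ((h v.1 v.2 e).2 he1 he2).2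

theorem fam_pl (hk : 3 ≤ k) (hm : 1 ≤ m) (b : ℝ)
    (hb : C2 * (√(Real.log k / k) + √m * (Real.log k / k)) ≤ b) (β : ℝ)
    (hβ : 82 * (Real.log k / k) ≤ β * b) {𝒱 : Set (Site m)}
    {ν : (lat (k + m)).edgeSet → Measure ℝ} [∀ e, IsProbabilityMeasure (ν e)]
    (h : BiasedPlaneLaws k m 𝒱 b ν) :
    FamP (lat (k + m)) (fun v : 𝒱 => pl (k := k) v.1) ν β := by
  obtain ⟨h1, h2, h3⟩ := C2_spec hk hm b hb
  have hkr : (3 : ℝ) ≤ k := by exact_mod_cast hk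
  have hlog := log_ge_one hk
  have hL0 : 0 < Real.log k / (k : ℝ) := by positivity
  have hb0 : 0 < b := by linarith
  have hβ0 : 0 < β := by
    by_contra hcon
    rw [not_lt] at hcon
    have : β * b ≤ 0 := mul_nonpos_of_nonpos_of_nonneg hcon hb0.le
    linarith
  refine ⟨fun y y' z z' h => Subtype.ext (pl_disj h), fun y => pl_inj y.1, ?_⟩
  intro y Λ N hΛ s hs x
  have hlaw := law_plS h y
  have hb2 : b = 2 * (b / 2) := by ring
  rw [hb2] at hlaw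
  exact layer_probS hk ν (pl y.1) (b / 2) (2 * m) (by omega) hlaw h1 h2 h3 β hβ0
    (by linarith) Λ N hΛ s hs x

theorem broken_pl (hk : 3 ≤ k) (hm : 1 ≤ m) (b : ℝ)
    (hb : C2 * (√(Real.log k / k) + √m * (Real.log k / k)) ≤ b) (β : ℝ)
    (hβ : 82 * (Real.log k / k) ≤ β * b) {𝒱 : Set (Site m)} (h𝒱 : 𝒱.Nonempty)
    {ν : (lat (k + m)).edgeSet → Measure ℝ} [∀ e, IsProbabilityMeasure (ν e)]
    (h : BiasedPlaneLaws k m 𝒱 b ν) :
    ∀ᵐ J ∂(Measure.infinitePi ν), ∃ π : Measure (Site (k + m) → Bool), IsGibbs β J π ∧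
      IsGibbs β J (π.map flipAll) ∧ π ≠ π.map flipAll := by
  obtain ⟨v, hv⟩ := h𝒱
  exact broken_famP ν (fun v : 𝒱 => pl (k := k) v.1) β (fam_pl hk hm b hb β hβ h) ⟨v, hv⟩

theorem indep_pl (hk : 3 ≤ k) (hm : 1 ≤ m) (b : ℝ)
    (hb : C2 * (√(Real.log k / k) + √m * (Real.log k / k)) ≤ b) (β : ℝ)
    (hβ : 82 * (Real.log k / k) ≤ β * b) {𝒱 : Set (Site m)} (h𝒱 : 𝒱.Infinite)
    {ν : (lat (k + m)).edgeSet → Measure ℝ} [∀ e, IsProbabilityMeasure (ν e)]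
    (h : BiasedPlaneLaws k m 𝒱 b ν) :
    ∀ᵐ J ∂(Measure.infinitePi ν), ∀ r : ℕ, ∃ π : Fin r → Measure (Site (k + m) → Bool),
      (∀ a, IsGibbs β J (π a)) ∧
      ∀ c : Fin r → ℝ, (∀ A, MeasurableSet A → ∑ a, c a * (π a A).toReal = 0) → c = 0 := by
  have hinf : Infinite 𝒱 := h𝒱.to_subtype
  rw [ae_all_iff]
  intro r
  rcases Nat.eq_zero_or_pos r with rfl | hr
  · exact ae_of_all _ fun J => ⟨fun a => a.elim0, fun a => a.elim0, fun c _ => by
      funext a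
      exact a.elim0⟩
  · exact indep_famP ν (fun v : 𝒱 => pl (k := k) v.1) β (fam_pl hk hm b hb β hβ h) r hr

end Pool.T9h81.HL
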