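import Pool.Agent.T9h81.EAR.ZeroOne

/-!
# Many linearly independent Gibbs states: a zero-one law for the asymptotic rank
-/

set_option autoImplicit false

open MeasureTheory ProbabilityTheory Filter Topology
open scoped Classical ENNReal

namespace Pool.T9h81.HL

open Pool.T9h81.EAR

variable {V : Type} [Countable V] {G : SimpleGraph V} [G.LocallyFinite]

/-- The limit along an ultrafilter is a Gibbs state. -/
theorem exists_gibbs_ultra (β : ℝ) (J : Coupling G) (ω₀ : V → Bool) (Λs : ℕ → Finset V)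
    (hΛ : Tendsto Λs atTop atTop) (U : Ultrafilter ℕ) (hU : (U : Filter ℕ) ≤ atTop) :
    ∃ π : Measure (V → Bool), IsGibbs β J π ∧ ∀ (f : (V → Bool) → ℝ), Continuous f →
      Tendsto (fun n => gE β J (Λs n) ω₀ f) U (𝓝 (∫ ω, f ω ∂π)) := by
  let P : ℕ → ProbabilityMeasure (V → Bool) := fun n =>
    ⟨Lim.KK β J (Λs n) (Measure.dirac ω₀), Lim.prob_KK β J (Λs n) _⟩
  obtain ⟨π, -, hπ⟩ := (isCompact_univ (X := ProbabilityMeasure (V → Bool))).ultrafilter_le_nhds
    (U.map P) (by simp)
  have hlim : Tendsto P U (𝓝 π) := hπ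
  have hconv : ∀ f : (V → Bool) → ℝ, Continuous f →
      Tendsto (fun n => gE β J (Λs n) ω₀ f) U (𝓝 (∫ ω, f ω ∂(π : Measure (V → Bool)))) := by
    intro f hf
    let F : BoundedContinuousFunction (V → Bool) ℝ := BoundedContinuousFunction.mkOfCompact ⟨f, hf⟩
    have h1 := (ProbabilityMeasure.tendsto_iff_forall_integral_tendsto.mp hlim) F
    refine h1.congr fun n => ?_
    exact Lim.integral_KK_dirac β J (Λs n) ω₀ f hf.measurable ‖F‖ fun x => F.norm_coe_le_norm x
  have hinv : ∀ (Λ : Finset V) (f : (V → Bool) → ℝ), Continuous f →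
      ∫ ω, gE β J Λ ω f ∂(π : Measure (V → Bool)) =
        ∫ ω, f ω ∂(π : Measure (V → Bool)) := by
    intro Λ f hf
    have h1 := hconv f hf
    have h2 := hconv (fun ω => gE β J Λ ω f) (Lim.continuous_gE β J Λ f hf)
    refine tendsto_nhds_unique h2 (h1.congr' ?_)
    have h3 : ∀ᶠ n in (U : Filter ℕ), Λ ⊆ Λs n := hU (hΛ.eventually (eventually_ge_atTop Λ))
    filter_upwards [h3] with n hn
    exact gE_cons hn β J ω₀ f
  have hK : ∀ Λ : Finset V, Lim.KK β J Λ (π : Measure (V → Bool)) =
      (π : Measure (V → Bool)) := by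
    intro Λ
    have := Lim.prob_KK β J Λ (π : Measure (V → Bool))
    have : TopologicalSpace.MetrizableSpace (V → Bool) :=
      TopologicalSpace.metrizableSpace_of_t3_secondCountable _
    let _ : MetricSpace (V → Bool) := TopologicalSpace.metrizableSpaceMetric _
    apply ext_of_forall_integral_eq_of_IsFiniteMeasure
    intro f
    rw [Lim.integral_KK β J Λ _ f f.continuous.measurable ‖f‖ fun x => f.norm_coe_le_norm x]
    exact hinv Λ f f.continuous
  refine ⟨π, ⟨inferInstance, ?_⟩, hconv⟩
  intro Λ A hA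
  have hind : Measurable (A.indicator fun _ => (1 : ℝ)) := measurable_const.indicator hA
  have h1 := Lim.integral_KK β J Λ (π : Measure (V → Bool))
    (A.indicator fun _ => (1 : ℝ)) hind 1 (by
      intro x
      by_cases hx : x ∈ A
      · simp [hx]
      · simp [hx])
  rw [← h1, hK, integral_indicator hA]
  simp [Measure.real]

/-- the matrix of the expectations of the observables `sX (X b)` with boundary conditions `s i` -/
noncomputable def mt {I : Type} (β : ℝ) (Λs : ℕ → Finset V) (s : I → V → Bool) {q : ℕ}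
    (X : Fin q → Finset V) (n : ℕ) (J : Coupling G) : I → Fin q → ℝ :=
  fun i b => gE β J (Λs n) (s i) (sX (X b))

/-- matrices of rank less than `r` -/
def LR (I : Type) (r q : ℕ) : Set (I → Fin q → ℝ) :=
  {B | Module.finrank ℝ (Submodule.span ℝ (Set.range B)) < r}

theorem LR_nonempty (I : Type) {r : ℕ} (hr : 0 < r) (q : ℕ) : (LR I r q).Nonempty := by
  refine ⟨fun _ => 0, ?_⟩
  show Module.finrank ℝ (Submodule.span ℝ (Set.range fun _ : I => (0 : Fin q → ℝ))) < r
  have h : Submodule.span ℝ (Set.range fun _ : I => (0 : Fin q → ℝ)) = ⊥ := by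
    rw [Submodule.span_eq_bot]
    rintro x ⟨i, rfl⟩
    rfl
  rw [h, finrank_bot]
  exact hr

/-- asymptotic rank less than `r` -/
def NR {I : Type} [Fintype I] (β : ℝ) (Λs : ℕ → Finset V) (s : I → V → Bool) (r : ℕ)
    (J : Coupling G) : Prop :=
  ∀ (q : ℕ) (X : Fin q → Finset V),
    Tendsto (fun n => Metric.infDist (mt β Λs s X n J) (LR I r q)) atTop (𝓝 0)

theorem measurableSet_NR {I : Type} [Fintype I] (β : ℝ) (Λs : ℕ → Finset V) (s : I → V → Bool)
    (r : ℕ) : MeasurableSet {J : Coupling G | NR β Λs s r J} := by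
  have h1 : {J : Coupling G | NR β Λs s r J} = ⋂ (q : ℕ), ⋂ (X : Fin q → Finset V),
      {J | Tendsto (fun n => Metric.infDist (mt β Λs s X n J) (LR I r q)) atTop (𝓝 0)} := by
    ext J
    simp only [Set.mem_iInter]
    exact Iff.rfl
  rw [h1]
  refine MeasurableSet.iInter fun q => MeasurableSet.iInter fun X => ?_
  apply measurableSet_tendsto
  intro n
  apply (Metric.continuous_infDist_pt (LR I r q)).measurable.comp
  rw [measurable_pi_iff]
  intro i
  rw [measurable_pi_iff]
  intro b
  exact measurable_gE_J β (Λs n) (s i) (sX (X b))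

/-- the linear map combining the columns -/
noncomputable def Tl (a c : ℝ) (q : ℕ) : (Fin (q + q) → ℝ) →ₗ[ℝ] (Fin q → ℝ) where
  toFun v := fun b => a * v (Fin.castAdd q b) + c * v (Fin.natAdd q b)
  map_add' v w := by
    funext b
    simp only [Pi.add_apply]
    ring
  map_smul' t v := by
    funext b
    simp only [Pi.smul_apply, smul_eq_mul, RingHom.id_apply]
    ring

theorem LR_image {I : Type} (r q q' : ℕ) (T : (Fin q' → ℝ) →ₗ[ℝ] (Fin q → ℝ)) (dd : I → ℝ)
    (B : I → Fin q' → ℝ) (hB : B ∈ LR I r q') : (fun i => dd i • T (B i)) ∈ LR I r q := by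
  show Module.finrank ℝ (Submodule.span ℝ (Set.range fun i => dd i • T (B i))) < r
  have h1 : Submodule.span ℝ (Set.range fun i => dd i • T (B i)) ≤
      (Submodule.span ℝ (Set.range B)).map T := by
    rw [Submodule.span_le]
    rintro x ⟨i, rfl⟩
    exact Submodule.smul_mem _ _ (Submodule.mem_map_of_mem (Submodule.subset_span ⟨i, rfl⟩))
  have h2 := Submodule.finrank_mono h1
  have h3 := Submodule.finrank_map_le T (Submodule.span ℝ (Set.range B))
  have h4 : Module.finrank ℝ (Submodule.span ℝ (Set.range B)) < r := hB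
  omega

theorem NR_update {I : Type} [Fintype I] (β : ℝ) (Λs : ℕ → Finset V)
    (hΛ : Tendsto Λs atTop atTop) (s : I → V → Bool) (r : ℕ) (hr : 0 < r) (J : Coupling G)
    (e : G.edgeSet) (v : ℝ) (h : NR β Λs s r J) : NR β Λs s r (Function.update J e v) := by
  intro q X
  obtain ⟨x, y, he⟩ : ∃ x y, e.1 = s(x, y) := by
    induction h : e.1 using Sym2.ind with
    | _ x y => exact ⟨x, y, rfl⟩
  set t := β * (v - J e) with ht
  set X2 : Fin (q + q) → Finset V := Fin.append X (fun b => tg (tg (X b) y) x) with hX2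
  set C : ℝ := Real.exp |t| * (Real.cosh t + |Real.sinh t|) with hC
  have hC0 : 0 < C := by
    have := Real.cosh_pos t
    positivity
  have h1 := (h (q + q) X2).const_mul C
  rw [mul_zero] at h1
  have h5 : ∀ᶠ n in atTop, x ∈ Λs n := by
    have := hΛ.eventually (eventually_ge_atTop ({x} : Finset V))
    filter_upwards [this] with n hn
    exact hn (Finset.mem_singleton_self x)
  refine squeeze_zero' (Eventually.of_forall fun n => Metric.infDist_nonneg) ?_ h1
  filter_upwards [h5] with n hn
  -- the new matrix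
  set den : I → ℝ := fun i => Real.cosh t + Real.sinh t *
    gE β J (Λs n) (s i) (fun σ => sg (σ x) * sg (σ y)) with hden
  have hden1 : ∀ i, Real.exp (-|t|) ≤ den i := by
    intro i
    apply denom_lower
    apply abs_gE_le
    intro σ
    rw [abs_mul, abs_sg, abs_sg, one_mul]
  have hden0 : ∀ i, 0 < den i := fun i => lt_of_lt_of_le (Real.exp_pos _) (hden1 i)
  have hmt : mt β Λs s X n (Function.update J e v) =
      fun i => (den i)⁻¹ • Tl (Real.cosh t) (Real.sinh t) q (mt β Λs s X2 n J i) := by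
    funext i b
    show gE β (Function.update J e v) (Λs n) (s i) (sX (X b)) = (den i)⁻¹ *
      (Real.cosh t * gE β J (Λs n) (s i) (sX (X2 (Fin.castAdd q b))) +
      Real.sinh t * gE β J (Λs n) (s i) (sX (X2 (Fin.natAdd q b))))
    rw [gE_update β J e v x y he (Λs n) hn (s i) (sX (X b)), hX2, Fin.append_left,
      Fin.append_right]
    have h6 : (fun σ : V → Bool => sg (σ x) * sg (σ y) * sX (X b) σ) =
        sX (tg (tg (X b) y) x) := by
      funext σ
      rw [sX_tg, sX_tg, mul_assoc]
    rw [h6, ← ht, div_eq_inv_mul]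
  have key : ∀ B ∈ LR I r (q + q),
      Metric.infDist (mt β Λs s X n (Function.update J e v)) (LR I r q) ≤
        C * dist (mt β Λs s X2 n J) B := by
    intro B hB
    refine (Metric.infDist_le_dist_of_mem (LR_image r q (q + q)
      (Tl (Real.cosh t) (Real.sinh t) q) (fun i => (den i)⁻¹) B hB)).trans ?_
    rw [hmt]
    have hnn : 0 ≤ C * dist (mt β Λs s X2 n J) B := by positivity
    rw [dist_pi_le_iff hnn]
    intro i
    rw [dist_pi_le_iff hnn]
    intro b
    have h7 : ∀ b', |mt β Λs s X2 n J i b' - B i b'| ≤ dist (mt β Λs s X2 n J) B := by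
      intro b'
      have h8 := (dist_le_pi_dist (mt β Λs s X2 n J i) (B i) b').trans
        (dist_le_pi_dist (mt β Λs s X2 n J) B i)
      rw [Real.dist_eq] at h8
      exact h8
    show dist ((den i)⁻¹ * (Real.cosh t * mt β Λs s X2 n J i (Fin.castAdd q b) +
      Real.sinh t * mt β Λs s X2 n J i (Fin.natAdd q b)))
      ((den i)⁻¹ * (Real.cosh t * B i (Fin.castAdd q b) +
      Real.sinh t * B i (Fin.natAdd q b))) ≤ _
    rw [Real.dist_eq, ← mul_sub, abs_mul, abs_of_pos (inv_pos.mpr (hden0 i))]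
    have h9 : (den i)⁻¹ ≤ Real.exp |t| := by
      have := inv_anti₀ (Real.exp_pos _) (hden1 i)
      rwa [← Real.exp_neg, neg_neg] at this
    have h10 : Real.cosh t * mt β Λs s X2 n J i (Fin.castAdd q b) +
        Real.sinh t * mt β Λs s X2 n J i (Fin.natAdd q b) -
        (Real.cosh t * B i (Fin.castAdd q b) + Real.sinh t * B i (Fin.natAdd q b)) =
        Real.cosh t * (mt β Λs s X2 n J i (Fin.castAdd q b) - B i (Fin.castAdd q b)) +
        Real.sinh t * (mt β Λs s X2 n J i (Fin.natAdd q b) - B i (Fin.natAdd q b)) := by ring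
    rw [h10]
    set D := dist (mt β Λs s X2 n J) B with hD
    have h11 : |Real.cosh t * (mt β Λs s X2 n J i (Fin.castAdd q b) - B i (Fin.castAdd q b)) +
        Real.sinh t * (mt β Λs s X2 n J i (Fin.natAdd q b) - B i (Fin.natAdd q b))| ≤
        (Real.cosh t + |Real.sinh t|) * D := by
      refine (abs_add_le _ _).trans ?_
      rw [abs_mul, abs_mul, abs_of_pos (Real.cosh_pos t), add_mul]
      exact add_le_add (mul_le_mul_of_nonneg_left (h7 _) (Real.cosh_pos t).le)
        (mul_le_mul_of_nonneg_left (h7 _) (abs_nonneg _))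
    calc (den i)⁻¹ * |Real.cosh t * (mt β Λs s X2 n J i (Fin.castAdd q b) -
            B i (Fin.castAdd q b)) +
          Real.sinh t * (mt β Λs s X2 n J i (Fin.natAdd q b) - B i (Fin.natAdd q b))|
        ≤ Real.exp |t| * ((Real.cosh t + |Real.sinh t|) * D) :=
          mul_le_mul h9 h11 (abs_nonneg _) (Real.exp_pos _).le
      _ = C * D := by
          rw [hC]
          ring
  have h12 : Metric.infDist (mt β Λs s X n (Function.update J e v)) (LR I r q) / C ≤
      Metric.infDist (mt β Λs s X2 n J) (LR I r (q + q)) := by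
    rw [Metric.le_infDist (LR_nonempty I hr (q + q))]
    intro B hB
    rw [div_le_iff₀ hC0, mul_comm]
    exact key B hB
  rw [div_le_iff₀ hC0] at h12
  linarith

theorem NR_change {I : Type} [Fintype I] (β : ℝ) (Λs : ℕ → Finset V)
    (hΛ : Tendsto Λs atTop atTop) (s : I → V → Bool) (r : ℕ) (hr : 0 < r) (J J' : Coupling G)
    (e : G.edgeSet) (hJ : ∀ e', e' ≠ e → J' e' = J e') (h : NR β Λs s r J) :
    NR β Λs s r J' := by
  have h1 : J' = Function.update J e (J' e) := by
    funext e'
    by_cases he : e' = e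
    · subst he
      rw [Function.update_self]
    · rw [Function.update_of_ne he, hJ e' he]
  rw [h1]
  exact NR_update β Λs hΛ s r hr J e (J' e) h

/-- integrals of products of spins as measures of sets -/
theorem integral_sX (π : Measure (V → Bool)) [IsProbabilityMeasure π] (X : Finset V) :
    ∫ σ, sX X σ ∂π = 2 * (π {σ | sX X σ = 1}).toReal - (π Set.univ).toReal := by
  have hm : MeasurableSet {σ : V → Bool | sX X σ = 1} :=
    (continuous_sX X).measurable (measurableSet_singleton 1)
  have h1 : ∀ σ : V → Bool, sX X σ =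
      2 * ({σ : V → Bool | sX X σ = 1}.indicator (fun _ => (1 : ℝ)) σ) - 1 := by
    intro σ
    have h2 := abs_sX X σ
    rcases (abs_eq (by norm_num : (0 : ℝ) ≤ 1)).mp h2 with h3 | h3
    · rw [Set.indicator_of_mem (show σ ∈ {σ : V → Bool | sX X σ = 1} from h3), h3]
      norm_num
    · rw [Set.indicator_of_notMem, h3]
      · norm_num
      · intro h4
        have h5 : sX X σ = 1 := h4
        rw [h3] at h5
        norm_num at h5
  have h2 : ∫ σ, sX X σ ∂π =
      ∫ σ, (2 * ({σ : V → Bool | sX X σ = 1}.indicator (fun _ => (1 : ℝ)) σ) - 1) ∂π :=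
    integral_congr_ae (ae_of_all _ h1)
  rw [h2, integral_sub, integral_const_mul, integral_indicator hm]
  · simp [Measure.real]
  · exact ((integrable_const (1 : ℝ)).indicator hm).const_mul 2
  · exact integrable_const _

/-- If the asymptotic rank is not less than `r` then there are `r` linearly independent Gibbs
states. -/
theorem indep_of_not_NR {I : Type} [Fintype I] (β : ℝ) (Λs : ℕ → Finset V)
    (hΛ : Tendsto Λs atTop atTop) (s : I → V → Bool) (r : ℕ) (J : Coupling G)
    (h : ¬ NR β Λs s r J) :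
    ∃ π : Fin r → Measure (V → Bool), (∀ a, IsGibbs β J (π a)) ∧
      ∀ c : Fin r → ℝ, (∀ A, MeasurableSet A → ∑ a, c a * (π a A).toReal = 0) → c = 0 := by
  unfold NR at h
  push Not at h
  obtain ⟨q, X, hX⟩ := h
  have h1 : ∃ ε > 0, ∃ᶠ n in atTop, ε ≤ Metric.infDist (mt β Λs s X n J) (LR I r q) := by
    rw [Metric.tendsto_nhds] at hX
    push Not at hX
    obtain ⟨ε, hε, h2⟩ := hX
    refine ⟨ε, hε, h2.mono fun n hn => ?_⟩
    rw [Real.dist_eq, sub_zero, abs_of_nonneg Metric.infDist_nonneg] at hn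
    exact hn
  obtain ⟨ε, hε, hfreq⟩ := h1
  have hne : (atTop ⊓ 𝓟 {n : ℕ | ε ≤ Metric.infDist (mt β Λs s X n J) (LR I r q)}).NeBot :=
    frequently_mem_iff_neBot.mp hfreq
  let U : Ultrafilter ℕ := @Ultrafilter.of _
    (atTop ⊓ 𝓟 {n : ℕ | ε ≤ Metric.infDist (mt β Λs s X n J) (LR I r q)}) hne
  have hU0 := @Ultrafilter.of_le _
    (atTop ⊓ 𝓟 {n : ℕ | ε ≤ Metric.infDist (mt β Λs s X n J) (LR I r q)}) hne
  have hU : (U : Filter ℕ) ≤ atTop := hU0.trans inf_le_left
  have hU2 : ∀ᶠ n in (U : Filter ℕ), ε ≤ Metric.infDist (mt β Λs s X n J) (LR I r q) :=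
    (hU0.trans inf_le_right) (mem_principal_self _)
  have hex : ∀ i, ∃ π : Measure (V → Bool), IsGibbs β J π ∧ ∀ (f : (V → Bool) → ℝ),
      Continuous f → Tendsto (fun n => gE β J (Λs n) (s i) f) U (𝓝 (∫ ω, f ω ∂π)) :=
    fun i => exists_gibbs_ultra β J (s i) Λs hΛ U hU
  choose π hπ hlim using hex
  set A : I → Fin q → ℝ := fun i b => ∫ σ, sX (X b) σ ∂(π i) with hA
  have hAlim : Tendsto (fun n => mt β Λs s X n J) U (𝓝 A) := by
    rw [tendsto_pi_nhds]
    intro i
    rw [tendsto_pi_nhds]
    intro b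
    exact hlim i _ (continuous_sX (X b))
  have hdist : ε ≤ Metric.infDist A (LR I r q) :=
    ge_of_tendsto (((Metric.continuous_infDist_pt (LR I r q)).tendsto A).comp hAlim) hU2
  have hrank : r ≤ Module.finrank ℝ (Submodule.span ℝ (Set.range A)) := by
    by_contra hcon
    rw [not_le] at hcon
    have h2 : A ∈ LR I r q := hcon
    rw [Metric.infDist_zero_of_mem h2] at hdist
    linarith
  obtain ⟨f, hf1, -, hf3⟩ := Submodule.exists_fun_fin_finrank_span_eq ℝ (Set.range A)
  choose g hg using hf1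
  let a0 : Fin r → I := fun a => g (Fin.castLE hrank a)
  refine ⟨fun a => π (a0 a), fun a => hπ _, fun c hc => ?_⟩
  have hli : LinearIndependent ℝ fun a : Fin r => A (a0 a) := by
    have h2 : (fun a : Fin r => A (a0 a)) = f ∘ Fin.castLE hrank := by
      funext a
      exact hg _
    rw [h2]
    exact hf3.comp _ (Fin.castLE_injective hrank)
  rw [Fintype.linearIndependent_iff] at hli
  funext a
  refine hli c ?_ a
  funext b
  have hprob : ∀ i, IsProbabilityMeasure (π i) := fun i => (hπ i).1
  have h3 : (∑ a, c a • A (a0 a)) b = ∑ a, c a * ∫ σ, sX (X b) σ ∂(π (a0 a)) := by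
    rw [Finset.sum_apply]
    rfl
  rw [h3, Pi.zero_apply]
  have h4 := hc {σ | sX (X b) σ = 1} ((continuous_sX (X b)).measurable (measurableSet_singleton 1))
  have h5 := hc Set.univ MeasurableSet.univ
  calc ∑ a, c a * ∫ σ, sX (X b) σ ∂(π (a0 a))
      = ∑ a, (2 * (c a * ((π (a0 a)) {σ | sX (X b) σ = 1}).toReal) -
          c a * ((π (a0 a)) Set.univ).toReal) := by
        apply Finset.sum_congr rfl
        intro a _
        rw [integral_sX]
        ring
    _ = 0 := by
        rw [Finset.sum_sub_distrib, ← Finset.mul_sum, h4, h5]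
        ring

/-- **Almost surely many independent Gibbs states, from positive probability.** -/
theorem indep_ae {I : Type} [Fintype I] (ν : G.edgeSet → Measure ℝ)
    [∀ e, IsProbabilityMeasure (ν e)] (β : ℝ) (Λs : ℕ → Finset V)
    (hΛ : Tendsto Λs atTop atTop) (s : I → V → Bool) (r : ℕ) (hr : 0 < r)
    (h : Measure.infinitePi ν {J : Coupling G | NR β Λs s r J} ≠ 1) :
    ∀ᵐ J ∂(Measure.infinitePi ν), ∃ π : Fin r → Measure (V → Bool),
      (∀ a, IsGibbs β J (π a)) ∧
      ∀ c : Fin r → ℝ, (∀ A, MeasurableSet A → ∑ a, c a * (π a A).toReal = 0) → c = 0 := by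
  have h1 := zero_one ν (fun J : Coupling G => NR β Λs s r J) (measurableSet_NR β Λs s r)
    (fun J J' e hJ h => NR_change β Λs hΛ s r hr J J' e hJ h)
  have h2 : Measure.infinitePi ν {J : Coupling G | NR β Λs s r J} = 0 := h1.resolve_right h
  have h3 : ∀ᵐ J ∂(Measure.infinitePi ν), ¬ NR β Λs s r (J : Coupling G) := by
    rw [ae_iff]
    simpa using h2
  filter_upwards [h3] with J hJ
  exact indep_of_not_NR β Λs hΛ s r J hJ

end Pool.T9h81.HL
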